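import Pool.Agent.NB.Defs
/-!
A1. The horizontal cone `‖Δw‖ ≤ ‖Δz‖` is mapped into itself and expanded, inside one box.
Proof: `lip1` gives `‖ΔT₁‖ ≥ 2000 ‖Δz‖ - 100 ‖Δz‖ - 1/10 ‖Δw‖ ≥ 1899 ‖Δz‖`, `lip2` gives
`‖ΔT₂‖ ≤ 85 ‖Δz‖`.
-/
open Set Metric Filter Topology
open SkewBif
namespace NB

theorem cone_step {F : Coef 2} (hF : Adm F) {s : ℂ} (hs : Sgn s) {v v' : X2}
    (hv : v ∈ box s 12) (hv' : v' ∈ box s 12) (h : ‖v.2 - v'.2‖ ≤ ‖v.1 - v'.1‖) :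
    1800 * ‖v.1 - v'.1‖ ≤ ‖(T 2 F v).1 - (T 2 F v').1‖ ∧
      ‖(T 2 F v).2 - (T 2 F v').2‖ ≤ 1 / 20 * ‖(T 2 F v).1 - (T 2 F v').1‖ := by
  have h1 := hF.lip1 s hs v hv v' hv'
  have h2 := hF.lip2 s hs v hv v' hv'
  have hsn : ‖s‖ = 1 := by
    rcases hs with rfl | rfl <;> simp
  have h3 : ‖2000 * s * (v.1 - v'.1)‖ = 2000 * ‖v.1 - v'.1‖ := by
    rw [norm_mul, norm_mul, hsn]
    norm_num
  have h4 := norm_sub_norm_le (2000 * s * (v.1 - v'.1)) ((T 2 F v).1 - (T 2 F v').1)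
  rw [h3, norm_sub_rev (2000 * s * (v.1 - v'.1))] at h4
  have h5 := norm_nonneg (v.1 - v'.1)
  constructor <;> linarith

end NB
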