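import Pool.Agent.NB.Defs
/-!
A10. Linear algebra in `X2 = ℂ × ℂ` (sup norm).  Let `D` be given by `(a, b; c, d)`.
The cone hypothesis says `‖a + b m‖ ≥ k` and `‖c + d m‖ ≤ 1/20 ‖a + b m‖` for `‖m‖ ≤ 1`, hence
`‖b‖ < ‖a‖` and `‖c‖ + ‖d‖ ≤ ‖a‖ / 10`.  The map `m ↦ (c + d m) / (a + b m)` is a contraction of
`closedBall 0 (1/20)` (its increments are `(ad - bc) (m - m') / ((a + b m) (a + b m'))`); a fixed point `m`
gives the eigenvector `(1, m)` with eigenvalue `a + b m`.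
-/
open Set Metric Filter Topology
open SkewBif
namespace NB

/-- a quadratic equation with a root in the closed unit disc -/
theorem A10_root (a b c d : ℂ) (hb : ‖b‖ < ‖a‖) (hc : ‖c‖ ≤ ‖a‖ / 10) (hd : ‖d‖ ≤ ‖a‖ / 10) :
    ∃ m : ℂ, ‖m‖ ≤ 1 ∧ c + d * m = m * (a + b * m) := by
  have hapos : 0 < ‖a‖ := lt_of_le_of_lt (norm_nonneg b) hb
  have had : 9 / 10 * ‖a‖ ≤ ‖a - d‖ := by
    have := norm_sub_norm_le a d
    linarith
  by_cases hb0 : b = 0
  · subst hb0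
    have hne : a - d ≠ 0 := by
      intro h
      rw [h, norm_zero] at had
      linarith
    refine ⟨c / (a - d), ?_, ?_⟩
    · rw [norm_div, div_le_one (norm_pos_iff.2 hne)]
      linarith
    · field_simp
      ring
  · obtain ⟨s, hs⟩ := IsAlgClosed.exists_pow_nat_eq (discrim b (a - d) (-c)) (n := 2) (by norm_num)
    obtain ⟨x, hx⟩ := exists_quadratic_eq_zero hb0 ⟨s, by rw [← hs]; ring⟩
    by_cases hx1 : ‖x‖ ≤ 1
    · exact ⟨x, hx1, by linear_combination -hx⟩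
    · -- the other root
      have hx1' : 1 < ‖x‖ := not_le.1 hx1
      have hx0 : x ≠ 0 := by
        intro h; rw [h, norm_zero] at hx1'; linarith
      refine ⟨-(a - d) / b - x, ?_, ?_⟩
      · by_contra h2
        have h2' : 1 < ‖-(a - d) / b - x‖ := not_le.1 h2
        set y : ℂ := -(a - d) / b - x with hy
        have e1 : b * (x + y) = -(a - d) := by rw [hy]; field_simp; ring
        have e2 : b * (x * y) = -c := by
          rw [hy]; field_simp; linear_combination -hx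
        have e3 : ‖b‖ * ‖x + y‖ = ‖a - d‖ := by rw [← norm_mul, e1, norm_neg]
        have e4 : ‖b‖ * (‖x‖ * ‖y‖) = ‖c‖ := by rw [← norm_mul, ← norm_mul, e2, norm_neg]
        have e5 : ‖x + y‖ ≤ ‖x‖ + ‖y‖ := norm_add_le _ _
        have e6 : ‖x‖ + ‖y‖ ≤ 2 * (‖x‖ * ‖y‖) := by nlinarith
        have hbn : 0 ≤ ‖b‖ := norm_nonneg b
        have e7 : ‖b‖ * ‖x + y‖ ≤ ‖b‖ * (2 * (‖x‖ * ‖y‖)) :=
          mul_le_mul_of_nonneg_left (e5.trans e6) hbn
        nlinarith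
      · have hbm : b * (-(a - d) / b - x) = -(a - d) - b * x := by field_simp
        linear_combination (x - (-(a - d) / b - x)) * hbm - hx

theorem cone_eig (D : X2 →L[ℂ] X2) (k : ℝ) (hk : 1 < k)
    (h : ∀ e : X2, ‖e.2‖ ≤ ‖e.1‖ → k * ‖e.1‖ ≤ ‖(D e).1‖ ∧ ‖(D e).2‖ ≤ 1 / 20 * ‖(D e).1‖) :
    ∃ (μ : ℂ) (e : X2), e ≠ 0 ∧ ‖e.2‖ ≤ ‖e.1‖ ∧ D e = μ • e ∧ k ≤ ‖μ‖ := by
  obtain ⟨a, ha⟩ : ∃ a, a = (D (1, 0)).1 := ⟨_, rfl⟩
  obtain ⟨c, hc⟩ : ∃ c, c = (D (1, 0)).2 := ⟨_, rfl⟩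
  obtain ⟨b, hb⟩ : ∃ b, b = (D (0, 1)).1 := ⟨_, rfl⟩
  obtain ⟨d, hd⟩ : ∃ d, d = (D (0, 1)).2 := ⟨_, rfl⟩
  have hD : ∀ m : ℂ, D (1, m) = (a + b * m, c + d * m) := by
    intro m
    have h1 : ((1, m) : X2) = (1, 0) + m • (0, 1) := by
      ext <;> simp
    rw [h1, map_add, map_smul]
    ext
    · change (D (1, 0)).1 + m * (D (0, 1)).1 = _
      rw [ha, hb]; ring
    · change (D (1, 0)).2 + m * (D (0, 1)).2 = _
      rw [hc, hd]; ring
  have hm : ∀ m : ℂ, ‖m‖ ≤ 1 → k ≤ ‖a + b * m‖ ∧ ‖c + d * m‖ ≤ 1 / 20 * ‖a + b * m‖ := by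
    intro m hm
    have := h (1, m) (by simpa using hm)
    rw [hD] at this
    simpa using this
  -- the norms
  have hba : ‖b‖ < ‖a‖ := by
    by_contra h1
    have h1' : ‖a‖ ≤ ‖b‖ := not_lt.1 h1
    by_cases hb0 : b = 0
    · rw [hb0, norm_zero] at h1'
      have ha0 : a = 0 := norm_le_zero_iff.1 h1'
      have := (hm 0 (by simp)).1
      rw [ha0, hb0] at this
      simp at this
      linarith
    · have := (hm (-a / b) (by
        rw [norm_div, norm_neg]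
        exact div_le_one_of_le₀ h1' (norm_nonneg _))).1
      have h2 : a + b * (-a / b) = 0 := by field_simp; ring
      rw [h2, norm_zero] at this
      linarith
  have hcd : ∀ m : ℂ, ‖m‖ ≤ 1 → ‖c + d * m‖ ≤ ‖a‖ / 10 := by
    intro m h1
    have h2 := (hm m h1).2
    have h3 : ‖a + b * m‖ ≤ ‖a‖ + ‖b‖ * ‖m‖ := by
      rw [← norm_mul]; exact norm_add_le _ _
    have h4 : ‖b‖ * ‖m‖ ≤ ‖b‖ := mul_le_of_le_one_right (norm_nonneg _) h1
    linarith
  have hcn : ‖c‖ ≤ ‖a‖ / 10 := by simpa using hcd 0 (by simp)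
  have hdn : ‖d‖ ≤ ‖a‖ / 10 := by
    have h1 := hcd 1 (by simp)
    have h2 := hcd (-1) (by simp)
    have h3 : (2 : ℂ) * d = (c + d * 1) - (c + d * (-1)) := by ring
    have h4 : ‖(2 : ℂ) * d‖ ≤ ‖c + d * 1‖ + ‖c + d * (-1)‖ := by
      rw [h3]; exact norm_sub_le _ _
    rw [norm_mul] at h4
    have h5 : ‖(2 : ℂ)‖ = 2 := by simp
    rw [h5] at h4
    linarith
  obtain ⟨m, hm1, hm2⟩ := A10_root a b c d hba hcn hdn
  refine ⟨a + b * m, (1, m), ?_, by simpa using hm1, ?_, (hm m hm1).1⟩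
  · intro h1
    have := congrArg Prod.fst h1
    simp at this
  · rw [hD, hm2]
    ext
    · simp
    · change m * (a + b * m) = (a + b * m) * m
      ring

/-- A linear map of `ℂ²` with two different eigenvalues has no third one. -/
theorem eig_two (D : X2 →L[ℂ] X2) {a b : ℂ} (hab : a ≠ b)
    (ha : Module.End.HasEigenvalue (D : X2 →ₗ[ℂ] X2) a)
    (hb : Module.End.HasEigenvalue (D : X2 →ₗ[ℂ] X2) b) {μ : ℂ}
    (hμ : Module.End.HasEigenvalue (D : X2 →ₗ[ℂ] X2) μ) : μ = a ∨ μ = b := by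
  by_contra hcon
  push Not at hcon
  obtain ⟨va, hva⟩ := ha.exists_hasEigenvector
  obtain ⟨vb, hvb⟩ := hb.exists_hasEigenvector
  obtain ⟨vm, hvm⟩ := hμ.exists_hasEigenvector
  have hinj : Function.Injective ![a, b, μ] := by
    intro i j hij
    fin_cases i <;> fin_cases j <;> simp at hij ⊢
    · exact hab hij
    · exact hcon.1 hij.symm
    · exact hab hij.symm
    · exact hcon.2 hij.symm
    · exact hcon.1 hij
    · exact hcon.2 hij
  have hli := Module.End.eigenvectors_linearIndependent' (D : X2 →ₗ[ℂ] X2) ![a, b, μ] hinj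
    ![va, vb, vm] (by
      intro i
      fin_cases i
      · exact hva
      · exact hvb
      · exact hvm)
  have h1 := hli.fintype_card_le_finrank
  rw [Fintype.card_fin, Module.finrank_prod, Module.finrank_self] at h1
  omega

end NB
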