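import Pool.Agent.NB.Defs
/-!
A4. Elementary facts on `K F`.
`K_int`: if `v ∈ K F` then `v ∈ box s 11`, `T v ∈ Core`, so `‖(T v).1‖ ≤ 1 + 1/500`; comparing `v` with
`(s, v.2)` (`lip1`, `cen`) gives `1900 ‖v.1 - s‖ ≤ ‖(T v).1‖ + 1/10`.  `‖v.2‖ = 11` is excluded by
`out`, `49/10 ≤ ‖v.2‖` (box `1`) by `reg1`, `‖v.2‖ ≤ 87/10` (box `-1`) by `reg2`.
-/
open Set Metric Filter Topology
open SkewBif
namespace NB

theorem K_step {F : Coef 2} {v : X2} (hv : v ∈ K F) : T 2 F v ∈ K F := by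
  intro j
  have := hv (j + 1)
  rwa [Function.iterate_succ_apply] at this

theorem K_iter {F : Coef 2} {v : X2} (hv : v ∈ K F) (j : ℕ) : (T 2 F)^[j] v ∈ K F := by
  induction j with
  | zero => exact hv
  | succ j ih =>
    rw [Function.iterate_succ_apply']
    exact K_step ih

theorem K_back {F : Coef 2} {v : X2} (hv : v ∈ Core) (h : T 2 F v ∈ K F) : v ∈ K F := by
  intro j
  cases j with
  | zero => exact hv
  | succ j =>
    rw [Function.iterate_succ_apply]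
    exact h j

theorem A4_sgn_norm {s : ℂ} (hs : Sgn s) : ‖s‖ = 1 := by
  rcases hs with h | h <;> rw [h] <;> simp

theorem A4_mem_box {s : ℂ} {ρ : ℝ} {v : X2} :
    v ∈ box s ρ ↔ ‖v.1 - s‖ ≤ 1 / 500 ∧ ‖v.2‖ ≤ ρ := by
  unfold box
  rw [Set.mem_prod, mem_closedBall, mem_closedBall, dist_eq_norm, dist_zero_right]

theorem A4_core {v : X2} (hv : v ∈ Core) : ∃ s, Sgn s ∧ v ∈ box s 11 := by
  rcases hv with h | h
  · exact ⟨1, Or.inl rfl, h⟩
  · exact ⟨-1, Or.inr rfl, h⟩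

theorem A4_core_bound {v : X2} (hv : v ∈ Core) : ‖v.1‖ ≤ 1 + 1 / 500 ∧ ‖v.2‖ ≤ 11 := by
  obtain ⟨s, hs, h⟩ := A4_core hv
  rw [A4_mem_box] at h
  have h1 := A4_sgn_norm hs
  have h2 : ‖v.1‖ ≤ ‖v.1 - s‖ + ‖s‖ := by
    have := norm_add_le (v.1 - s) s
    rwa [sub_add_cancel] at this
  exact ⟨by linarith [h.1], h.2⟩

theorem K_int {F : Coef 2} (hF : Adm F) {v : X2} (hv : v ∈ K F) :
    ∃ s, Sgn s ∧ ‖v.1 - s‖ < 1 / 1000 ∧ ‖v.2‖ < 11 ∧ (s = 1 → ‖v.2‖ < 49 / 10) ∧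
      (s = -1 → 87 / 10 < ‖v.2‖) := by
  obtain ⟨s, hs, hb⟩ := A4_core (hv 0)
  have hb' : v ∈ box s 11 := hb
  have hT : T 2 F v ∈ Core := hv 1
  obtain ⟨hT1, hT2⟩ := A4_core_bound hT
  have hsn := A4_sgn_norm hs
  have hb1 := A4_mem_box.1 hb'
  have hb12 : v ∈ box s 12 := A4_mem_box.2 ⟨hb1.1, by linarith [hb1.2]⟩
  have hc12 : (s, v.2) ∈ box s 12 := A4_mem_box.2 ⟨by simp, by linarith [hb1.2]⟩
  have hl := hF.lip1 s hs v hb12 (s, v.2) hc12
  have hcen := hF.cen s hs v.2 (by linarith [hb1.2])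
  simp only [sub_self, norm_zero, mul_zero, add_zero] at hl
  have h3 : ‖2000 * s * (v.1 - s)‖ = 2000 * ‖v.1 - s‖ := by
    rw [norm_mul, norm_mul, hsn]
    simp
  have h4 : ‖2000 * s * (v.1 - s)‖ ≤ ‖(T 2 F v).1 - (T 2 F (s, v.2)).1 - 2000 * s * (v.1 - s)‖
      + ‖(T 2 F v).1‖ + ‖(T 2 F (s, v.2)).1‖ := by
    have e : 2000 * s * (v.1 - s) = (T 2 F v).1 - (T 2 F (s, v.2)).1
      - ((T 2 F v).1 - (T 2 F (s, v.2)).1 - 2000 * s * (v.1 - s)) := by ring
    have n1 := norm_sub_le ((T 2 F v).1 - (T 2 F (s, v.2)).1)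
      ((T 2 F v).1 - (T 2 F (s, v.2)).1 - 2000 * s * (v.1 - s))
    have n2 := norm_sub_le (T 2 F v).1 (T 2 F (s, v.2)).1
    rw [← e] at n1
    linarith
  refine ⟨s, hs, ?_, ?_, ?_, ?_⟩
  · linarith
  · by_contra hcon
    push Not at hcon
    have := hF.out s hs v hb12 hcon
    linarith
  · intro h1
    by_contra hcon
    push Not at hcon
    rw [h1] at hb12
    have := hF.reg1 v hb12 hcon
    linarith
  · intro h1
    by_contra hcon
    push Not at hcon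
    rw [h1] at hb12
    have := hF.reg2 v hb12 hcon
    linarith

/-- `K F` is in the interior of the core region. -/
theorem K_subset_interior {F : Coef 2} (hF : Adm F) : K F ⊆ interior Core := by
  intro v hv
  obtain ⟨s, hs, h1, h2, -, -⟩ := K_int hF hv
  rw [mem_interior]
  refine ⟨ball s (1 / 500) ×ˢ ball (0 : ℂ) 11, ?_, isOpen_ball.prod isOpen_ball, ?_⟩
  · intro w hw
    have hw' : w ∈ box s 11 := by
      rw [A4_mem_box]
      rw [Set.mem_prod, mem_ball, mem_ball, dist_eq_norm, dist_zero_right] at hw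
      exact ⟨hw.1.le, hw.2.le⟩
    rcases hs with h | h
    · left
      rw [← h]
      exact hw'
    · right
      rw [← h]
      exact hw'
  · rw [Set.mem_prod, mem_ball, mem_ball, dist_eq_norm, dist_zero_right]
    exact ⟨by linarith, h2⟩

end NB
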