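import Pool.Agent.NB.A1
import Pool.Agent.NB.A4
/-!
A2. `K F` is a 1-Lipschitz graph over the `w`-plane: two points of `K F` with `‖Δw‖ ≤ ‖Δz‖` are equal.
Proof: let `v ≠ v'`, then `Δz ≠ 0`.  As long as the symbols (the `s` with the orbit point in
`box s 11`) agree, A1 gives by induction `1800 ^ j ‖Δz‖ ≤ ‖Δz_j‖` and `‖Δw_j‖ ≤ ‖Δz_j‖`.  The
symbols cannot agree for ever since `‖Δz_j‖ ≤ 2/500` then.  At the first time they differ,
`‖Δw_j‖ ≤ ‖Δz_j‖ ≤ 2 + 2/500`, but by `K_int` one of `‖w_j‖`, `‖w_j'‖` is `< 49/10` and the other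
`> 87/10`.
-/
open Set Metric Filter Topology
open SkewBif
namespace NB

theorem A2_sym {F : Coef 2} (hF : Adm F) {v v' : X2} (hv : v ∈ K F) (hv' : v' ∈ K F)
    (h : ‖v.2 - v'.2‖ ≤ ‖v.1 - v'.1‖) :
    ∃ s, Sgn s ∧ v ∈ box s 12 ∧ v' ∈ box s 12 ∧ ‖v.1 - v'.1‖ ≤ 1 / 500 := by
  obtain ⟨s, hs, h1, h2, h3, h4⟩ := K_int hF hv
  obtain ⟨s', hs', h1', h2', h3', h4'⟩ := K_int hF hv'
  have hss : s = s' := by
    have hz : ‖v.1 - v'.1‖ ≤ ‖v.1 - s‖ + ‖s - s'‖ + ‖v'.1 - s'‖ := by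
      calc ‖v.1 - v'.1‖ = ‖(v.1 - s) + (s - s') - (v'.1 - s')‖ := by congr 1; ring
        _ ≤ ‖(v.1 - s) + (s - s')‖ + ‖v'.1 - s'‖ := norm_sub_le _ _
        _ ≤ _ := by gcongr; exact norm_add_le _ _
    have hw1 : ‖v'.2‖ - ‖v.2‖ ≤ ‖v.2 - v'.2‖ := by
      rw [norm_sub_rev]; exact norm_sub_norm_le _ _
    have hw2 : ‖v.2‖ - ‖v'.2‖ ≤ ‖v.2 - v'.2‖ := norm_sub_norm_le _ _
    rcases hs with rfl | rfl <;> rcases hs' with rfl | rfl
    · rfl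
    · exfalso
      have e : ‖(1 : ℂ) - -1‖ = 2 := by norm_num
      rw [e] at hz
      have a := h3 rfl
      have b := h4' rfl
      linarith
    · exfalso
      have e : ‖(-1 : ℂ) - 1‖ = 2 := by
        rw [show (-1 : ℂ) - 1 = -2 by norm_num, norm_neg]; norm_num
      rw [e] at hz
      have a := h4 rfl
      have b := h3' rfl
      linarith
    · rfl
  subst hss
  refine ⟨s, hs, ⟨?_, ?_⟩, ⟨?_, ?_⟩, ?_⟩
  · rw [mem_closedBall, dist_eq_norm]; linarith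
  · rw [mem_closedBall, dist_eq_norm, sub_zero]; linarith
  · rw [mem_closedBall, dist_eq_norm]; linarith
  · rw [mem_closedBall, dist_eq_norm, sub_zero]; linarith
  · calc ‖v.1 - v'.1‖ = ‖(v.1 - s) - (v'.1 - s)‖ := by congr 1; ring
      _ ≤ ‖v.1 - s‖ + ‖v'.1 - s‖ := norm_sub_le _ _
      _ ≤ 1 / 500 := by linarith

theorem K_graph {F : Coef 2} (hF : Adm F) {v v' : X2} (hv : v ∈ K F) (hv' : v' ∈ K F)
    (h : ‖v.2 - v'.2‖ ≤ ‖v.1 - v'.1‖) : v = v' := by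
  have key : ∀ j : ℕ, 1800 ^ j * ‖v.1 - v'.1‖ ≤
        ‖((T 2 F)^[j] v).1 - ((T 2 F)^[j] v').1‖ ∧
      ‖((T 2 F)^[j] v).2 - ((T 2 F)^[j] v').2‖ ≤
        ‖((T 2 F)^[j] v).1 - ((T 2 F)^[j] v').1‖ := by
    intro j
    induction j with
    | zero => exact ⟨by simp, by simpa using h⟩
    | succ j ih =>
      obtain ⟨s, hs, hb, hb', -⟩ := A2_sym hF (K_iter hv j) (K_iter hv' j) ih.2
      obtain ⟨c1, c2⟩ := cone_step hF hs hb hb' ih.2
      simp only [Function.iterate_succ_apply']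
      refine ⟨?_, ?_⟩
      · rw [pow_succ]
        nlinarith [ih.1]
      · refine c2.trans ?_
        nlinarith [norm_nonneg ((T 2 F ((T 2 F)^[j] v)).1 - (T 2 F ((T 2 F)^[j] v')).1)]
  have hz : ‖v.1 - v'.1‖ = 0 := by
    by_contra hne
    have hpos : 0 < ‖v.1 - v'.1‖ := lt_of_le_of_ne (norm_nonneg _) (Ne.symm hne)
    obtain ⟨j, hj⟩ := pow_unbounded_of_one_lt (1 / ‖v.1 - v'.1‖) (by norm_num : (1 : ℝ) < 1800)
    obtain ⟨s, hs, hb, hb', hd⟩ := A2_sym hF (K_iter hv j) (K_iter hv' j) (key j).2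
    have h1 := (key j).1
    have h2 : 1 < 1800 ^ j * ‖v.1 - v'.1‖ := by
      rwa [div_lt_iff₀ hpos] at hj
    linarith
  have hw : ‖v.2 - v'.2‖ = 0 := le_antisymm (h.trans hz.le) (norm_nonneg _)
  exact Prod.ext (sub_eq_zero.1 (norm_eq_zero.1 hz)) (sub_eq_zero.1 (norm_eq_zero.1 hw))

end NB
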