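import Pool.Agent.NB.A2
/-!
A3. `K F` contains at most one critical point.  By `K_int` and `crit2` a critical point of `K F` is in
`box 1 11` with `‖w‖ < 49/10`; then `crit1` and `K_graph`.
-/
open Set Metric Filter Topology
open SkewBif
namespace NB

theorem A3_aux {F : Coef 2} (hF : Adm F) {v : X2} (hv : v ∈ K F) (hc : Crit F v) :
    v ∈ box 1 12 ∧ ‖v.2‖ ≤ 5 := by
  obtain ⟨s, hs, h1, h2, h3, h4⟩ := K_int hF hv
  rcases hs with rfl | rfl
  · have h5 := h3 rfl
    refine ⟨⟨?_, ?_⟩, by linarith⟩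
    · rw [mem_closedBall, dist_eq_norm]; linarith
    · rw [mem_closedBall, dist_zero_right]; linarith
  · exfalso
    have h5 := h4 rfl
    refine hF.crit2 v ⟨?_, ?_⟩ (by linarith) hc
    · rw [mem_closedBall, dist_eq_norm]; linarith
    · rw [mem_closedBall, dist_zero_right]; linarith

theorem crit_unique {F : Coef 2} (hF : Adm F) {v v' : X2} (hv : v ∈ K F) (hv' : v' ∈ K F)
    (hc : Crit F v) (hc' : Crit F v') : v = v' := by
  obtain ⟨h1, h2⟩ := A3_aux hF hv hc
  obtain ⟨h1', h2'⟩ := A3_aux hF hv' hc'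
  exact K_graph hF hv hv' (hF.crit1 v h1 v' h1' h2 h2' hc hc')

end NB
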