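import Pool.Agent.NB.A6
/-!
A5. `K F` is compact, and limits of points of `K F'`, `F' → F`, are in `K F`.
Proof of `K_limit`: by induction on `j`, `(T F')^[j] v'` tends to `(T F)^[j] v` (joint continuity of
`T` at `(F, x)`, `x ∈ Core`), so the latter is in the closed set `Core`.
-/
open Set Metric Filter Topology
open SkewBif
namespace NB

theorem A5_seq {P : Coef 2 → X2 → Prop} {F₀ : Coef 2} {v₀ : X2}
    (h : ∀ ε > 0, ∃ F v, dist F F₀ < ε ∧ dist v v₀ < ε ∧ P F v) :
    ∃ q : ℕ → Coef 2 × X2, Tendsto q atTop (𝓝 (F₀, v₀)) ∧ ∀ n, P (q n).1 (q n).2 := by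
  have h' : ∀ n : ℕ, ∃ q : Coef 2 × X2, dist q (F₀, v₀) < 1 / ((n : ℝ) + 1) ∧ P q.1 q.2 := by
    intro n
    obtain ⟨F, v, h1, h2, h3⟩ := h (1 / ((n : ℝ) + 1)) (by positivity)
    exact ⟨(F, v), by rw [Prod.dist_eq]; exact max_lt h1 h2, h3⟩
  choose q hq using h'
  refine ⟨q, ?_, fun n => (hq n).2⟩
  rw [tendsto_iff_dist_tendsto_zero]
  exact squeeze_zero (fun _ => dist_nonneg) (fun n => (hq n).1.le)
    tendsto_one_div_add_atTop_nhds_zero_nat

theorem A5_core_closed : IsClosed Core :=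
  (isClosed_closedBall.prod isClosed_closedBall).union
    (isClosed_closedBall.prod isClosed_closedBall)

theorem A5_core_compact : IsCompact Core :=
  ((isCompact_closedBall _ _).prod (isCompact_closedBall _ _)).union
    ((isCompact_closedBall _ _).prod (isCompact_closedBall _ _))

theorem A5_seq_core {F₀ : Coef 2} (hF₀ : Adm F₀) {v₀ : X2} {q : ℕ → Coef 2 × X2}
    (hq : Tendsto q atTop (𝓝 (F₀, v₀))) (hK : ∀ n, (q n).2 ∈ K (q n).1) (j : ℕ) :
    Tendsto (fun n => (T 2 (q n).1)^[j] (q n).2) atTop (𝓝 ((T 2 F₀)^[j] v₀)) ∧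
      (T 2 F₀)^[j] v₀ ∈ Core := by
  have h1 : Tendsto (fun n => (q n).1) atTop (𝓝 F₀) :=
    (continuous_fst.tendsto (F₀, v₀)).comp hq
  have h2 : Tendsto (fun n => (q n).2) atTop (𝓝 v₀) :=
    (continuous_snd.tendsto (F₀, v₀)).comp hq
  induction j with
  | zero =>
    refine ⟨by simpa using h2, ?_⟩
    exact A5_core_closed.mem_of_tendsto (by simpa using h2)
      (Eventually.of_forall fun n => by simpa using hK n 0)
  | succ j ih =>
    have hcont : ContinuousAt (fun p : Coef 2 × X2 => T 2 p.1 p.2) (F₀, (T 2 F₀)^[j] v₀) :=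
      (T_analytic (good_core hF₀ ih.2)).continuousAt
    have h3 : Tendsto (fun n => (T 2 (q n).1)^[j + 1] (q n).2) atTop
        (𝓝 ((T 2 F₀)^[j + 1] v₀)) := by
      have h4 := hcont.tendsto.comp (h1.prodMk_nhds ih.1)
      simp only [Function.iterate_succ_apply']
      exact h4
    exact ⟨h3, A5_core_closed.mem_of_tendsto h3 (Eventually.of_forall fun n => hK n (j + 1))⟩

theorem K_limit {F₀ : Coef 2} (hF₀ : Adm F₀) {v₀ : X2}
    (h : ∀ ε > 0, ∃ F v, dist F F₀ < ε ∧ dist v v₀ < ε ∧ v ∈ K F) : v₀ ∈ K F₀ := by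
  obtain ⟨q, hq, hK⟩ := A5_seq (P := fun F v => v ∈ K F) h
  exact fun j => (A5_seq_core hF₀ hq hK j).2

theorem K_compact {F : Coef 2} (hF : Adm F) : IsCompact (K F) := by
  refine A5_core_compact.of_isClosed_subset ?_ (fun v hv => by simpa using hv 0)
  refine isClosed_of_closure_subset fun v hv => ?_
  refine K_limit hF fun ε hε => ?_
  obtain ⟨w, hw, hd⟩ := Metric.mem_closure_iff.1 hv ε hε
  exact ⟨F, w, by simpa using hε, by rwa [dist_comm], hw⟩

/-- Limits of periodic points of period `n` are periodic points of period `n`. -/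
theorem per_limit {F₀ : Coef 2} (hF₀ : Adm F₀) {n : ℕ} {v₀ : X2}
    (h : ∀ ε > 0, ∃ F v, dist F F₀ < ε ∧ dist v v₀ < ε ∧ Per F n v) : Per F₀ n v₀ := by
  obtain ⟨q, hq, hK⟩ := A5_seq (P := fun F v => Per F n v) h
  have hK' : ∀ m, (q m).2 ∈ K (q m).1 := fun m => (hK m).1
  refine ⟨fun j => (A5_seq_core hF₀ hq hK' j).2, ?_⟩
  have h1 := (A5_seq_core hF₀ hq hK' n).1
  have h2 : Tendsto (fun m => (q m).2) atTop (𝓝 v₀) :=
    (continuous_snd.tendsto (F₀, v₀)).comp hq
  have h3 : (fun m => (T 2 (q m).1)^[n] (q m).2) = fun m => (q m).2 :=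
    funext fun m => (hK m).2
  rw [h3] at h1
  exact tendsto_nhds_unique h1 h2

end NB
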