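import Pool.Agent.NB.A4
/-!
A6. Joint regularity of the chart map and its iterates.
`T 2 F v = chart (ev 2 F (lift v))` is a rational function of `(F, v)`.  For `v ∈ K F` all points
of the orbit are in the boxes, where the denominator is nonzero (`good`); the iterates are handled by
induction with the map `(F, v) ↦ (F, T F v)`.
-/
open Set Metric Filter Topology
open SkewBif
namespace NB

theorem A6_ev (k : Fin 3) (q : Coef 2 × X2) :
    AnalyticAt ℂ (fun q : Coef 2 × X2 => ev 2 q.1 (lift q.2) k) q := by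
  have hc : ∀ m : Mon 2, AnalyticAt ℂ (fun q : Coef 2 × X2 => q.1 k m) q := by
    intro m
    exact (((ContinuousLinearMap.proj (R := ℂ) (φ := fun _ : Mon 2 => ℂ) m).comp
      (ContinuousLinearMap.proj (R := ℂ) (φ := fun _ : Fin 3 => Mon 2 → ℂ) k)).comp
      (ContinuousLinearMap.fst ℂ (Coef 2) X2)).analyticAt q
  have h1 : AnalyticAt ℂ (fun q : Coef 2 × X2 => q.2.1) q :=
    ((ContinuousLinearMap.fst ℂ ℂ ℂ).comp (ContinuousLinearMap.snd ℂ (Coef 2) X2)).analyticAt q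
  have h2 : AnalyticAt ℂ (fun q : Coef 2 × X2 => q.2.2) q :=
    ((ContinuousLinearMap.snd ℂ ℂ ℂ).comp (ContinuousLinearMap.snd ℂ (Coef 2) X2)).analyticAt q
  have he : (fun q : Coef 2 × X2 => ev 2 q.1 (lift q.2) k) = fun q : Coef 2 × X2 =>
      ∑ m : Mon 2, q.1 k m * (q.2.1 ^ (m.1.1 : ℕ) * 1 ^ (2 - (m.1.1 : ℕ) - (m.1.2 : ℕ)) *
        q.2.2 ^ (m.1.2 : ℕ)) := by
    funext q
    rfl
  rw [he]
  apply Finset.analyticAt_fun_sum
  intro m _
  exact (hc m).mul (((h1.pow _).mul analyticAt_const).mul (h2.pow _))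

theorem T_analytic {F : Coef 2} {v : X2} (h : ev 2 F (lift v) 1 ≠ 0) :
    AnalyticAt ℂ (fun q : Coef 2 × X2 => T 2 q.1 q.2) (F, v) := by
  have h0 := A6_ev 0 (F, v)
  have h1 := A6_ev 1 (F, v)
  have h2 := A6_ev 2 (F, v)
  exact (h0.div h1 h).prod (h2.div h1 h)

theorem good_core {F : Coef 2} (hF : Adm F) {v : X2} (hv : v ∈ Core) :
    ev 2 F (lift v) 1 ≠ 0 := by
  rcases hv with h | h
  · refine hF.good 1 (Or.inl rfl) v ⟨h.1, ?_⟩
    exact closedBall_subset_closedBall (by norm_num) h.2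
  · refine hF.good (-1) (Or.inr rfl) v ⟨h.1, ?_⟩
    exact closedBall_subset_closedBall (by norm_num) h.2

theorem iter_analytic {F : Coef 2} (hF : Adm F) {v : X2} (hv : v ∈ K F) (n : ℕ) :
    AnalyticAt ℂ (fun q : Coef 2 × X2 => (T 2 q.1)^[n] q.2) (F, v) := by
  induction n with
  | zero =>
    exact (ContinuousLinearMap.snd ℂ (Coef 2) X2).analyticAt (F, v)
  | succ n ih =>
    have hT := T_analytic (good_core hF (hv n))
    have hG : AnalyticAt ℂ (fun q : Coef 2 × X2 => (q.1, (T 2 q.1)^[n] q.2)) (F, v) :=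
      ((ContinuousLinearMap.fst ℂ (Coef 2) X2).analyticAt (F, v)).prod ih
    have hc : AnalyticAt ℂ ((fun q : Coef 2 × X2 => T 2 q.1 q.2) ∘
          (fun q : Coef 2 × X2 => (q.1, (T 2 q.1)^[n] q.2))) (F, v) :=
      AnalyticAt.comp (g := fun q : Coef 2 × X2 => T 2 q.1 q.2)
        (f := fun q : Coef 2 × X2 => (q.1, (T 2 q.1)^[n] q.2)) hT hG
    have he : (fun q : Coef 2 × X2 => (T 2 q.1)^[n + 1] q.2) =
        (fun q : Coef 2 × X2 => T 2 q.1 q.2) ∘
          (fun q : Coef 2 × X2 => (q.1, (T 2 q.1)^[n] q.2)) := by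
      funext q
      exact Function.iterate_succ_apply' (T 2 q.1) n q.2
    rw [he]
    exact hc

theorem iter_analytic' {F : Coef 2} (hF : Adm F) {v : X2} (hv : v ∈ K F) (n : ℕ) :
    AnalyticAt ℂ ((T 2 F)^[n]) v := by
  have h1 : AnalyticAt ℂ (fun q : Coef 2 × X2 => (T 2 q.1)^[n] q.2)
      ((fun v : X2 => (F, v)) v) := iter_analytic hF hv n
  have h2 : AnalyticAt ℂ (fun v : X2 => (F, v)) v := analyticAt_const.prod analyticAt_id
  exact h1.comp h2

/-- The derivative of the iterate is jointly continuous. -/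
theorem fderiv_cont {F : Coef 2} (hF : Adm F) {v : X2} (hv : v ∈ K F) (n : ℕ) :
    ContinuousAt (fun q : Coef 2 × X2 => fderiv ℂ ((T 2 q.1)^[n]) q.2) (F, v) := by
  have hG := iter_analytic hF hv n
  have hev := hG.eventually_analyticAt
  have he : (fun q : Coef 2 × X2 => fderiv ℂ ((T 2 q.1)^[n]) q.2) =ᶠ[𝓝 (F, v)]
      fun q => (fderiv ℂ (fun q : Coef 2 × X2 => (T 2 q.1)^[n] q.2) q).comp
        (ContinuousLinearMap.inr ℂ (Coef 2) X2) := by
    filter_upwards [hev] with q hq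
    have h1 : HasFDerivAt (fun q : Coef 2 × X2 => (T 2 q.1)^[n] q.2)
        (fderiv ℂ (fun q : Coef 2 × X2 => (T 2 q.1)^[n] q.2) q)
        ((fun v : X2 => (q.1, v)) q.2) := hq.differentiableAt.hasFDerivAt
    have h2 : HasFDerivAt (fun v : X2 => (q.1, v)) (ContinuousLinearMap.inr ℂ (Coef 2) X2)
        q.2 := hasFDerivAt_prodMk_right q.1 q.2
    exact (h1.comp q.2 h2).fderiv
  have hc : ContinuousAt (fun q : Coef 2 × X2 =>
      (fderiv ℂ (fun q : Coef 2 × X2 => (T 2 q.1)^[n] q.2) q).comp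
        (ContinuousLinearMap.inr ℂ (Coef 2) X2)) (F, v) :=
    ContinuousAt.clm_comp hG.fderiv.continuousAt continuousAt_const
  exact hc.congr he.symm

/-- Chain rule. -/
theorem fderiv_iter {F : Coef 2} (hF : Adm F) {v : X2} (hv : v ∈ K F) (m n : ℕ) :
    fderiv ℂ ((T 2 F)^[m + n]) v =
      (fderiv ℂ ((T 2 F)^[m]) ((T 2 F)^[n] v)).comp (fderiv ℂ ((T 2 F)^[n]) v) := by
  rw [Function.iterate_add]
  exact fderiv_comp v (iter_analytic' hF (K_iter hv n) m).differentiableAt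
    (iter_analytic' hF hv n).differentiableAt

theorem fderiv_iter_succ {F : Coef 2} (hF : Adm F) {v : X2} (hv : v ∈ K F) (n : ℕ) :
    fderiv ℂ ((T 2 F)^[n + 1]) v =
      (fderiv ℂ (T 2 F) ((T 2 F)^[n] v)).comp (fderiv ℂ ((T 2 F)^[n]) v) := by
  rw [add_comm]
  exact fderiv_iter hF hv 1 n

end NB
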