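import Pool.Agent.NB.A5
/-!
A8. Persistence: a solution of `(T F)^[n] v = v` near a periodic point of `K F₀` is in `K F`.
The orbit segment of length `n` stays near the orbit of `v₀`, which is in the interior of `Core`
(`K_subset_interior`, `K_iter`, joint continuity of the iterates); by periodicity the
whole orbit is in `Core`.
-/
open Set Metric Filter Topology
open SkewBif
namespace NB

theorem per_nhds {F₀ : Coef 2} (hF₀ : Adm F₀) {n : ℕ} (hn : 1 ≤ n) {v₀ : X2} (hv : Per F₀ n v₀) :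
    ∀ᶠ q : Coef 2 × X2 in 𝓝 (F₀, v₀), (T 2 q.1)^[n] q.2 = q.2 → Per q.1 n q.2 := by
  have h1 : ∀ j < n, ∀ᶠ q : Coef 2 × X2 in 𝓝 (F₀, v₀), (T 2 q.1)^[j] q.2 ∈ Core := by
    intro j _
    have hc : ContinuousAt (fun q : Coef 2 × X2 => (T 2 q.1)^[j] q.2) (F₀, v₀) :=
      (iter_analytic hF₀ hv.1 j).continuousAt
    have hm : (T 2 F₀)^[j] v₀ ∈ interior Core := K_subset_interior hF₀ (K_iter hv.1 j)
    have h2 := hc.eventually (isOpen_interior.mem_nhds hm)
    filter_upwards [h2] with q hq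
    exact interior_subset hq
  have h2 : ∀ᶠ q : Coef 2 × X2 in 𝓝 (F₀, v₀), ∀ j < n, (T 2 q.1)^[j] q.2 ∈ Core := by
    have h3 := (Filter.eventually_all_finset (Finset.range n)
      (l := 𝓝 (F₀, v₀)) (p := fun j (q : Coef 2 × X2) => (T 2 q.1)^[j] q.2 ∈ Core)).2
      (fun j hj => h1 j (Finset.mem_range.1 hj))
    filter_upwards [h3] with q hq j hj
    exact hq j (Finset.mem_range.2 hj)
  filter_upwards [h2] with q hq hper
  refine ⟨?_, hper⟩
  intro j
  have hp : Function.IsPeriodicPt (T 2 q.1) n q.2 := hper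
  rw [← hp.iterate_mod_apply j]
  exact hq _ (Nat.mod_lt _ hn)

end NB
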