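import Pool.Agent.NB.A1
import Pool.Agent.NB.A6
/-!
A9. The derivative expands the horizontal cone.  Apply A1 to `v` and `v + t e`, `t → 0` (the point `v`
is in the interior of the box by `K_int`), then induct with `fderiv_iter_succ`.
-/
open Set Metric Filter Topology
open SkewBif
namespace NB

theorem A9_step {F : Coef 2} (hF : Adm F) {v : X2} (hv : v ∈ K F) (e : X2)
    (he : ‖e.2‖ ≤ ‖e.1‖) : ∀ᶠ n : ℕ in atTop,
      1800 * ‖e.1‖ ≤ ‖(((n : ℂ)) • (T 2 F (v + ((n : ℂ))⁻¹ • e) - T 2 F v)).1‖ ∧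
      ‖(((n : ℂ)) • (T 2 F (v + ((n : ℂ))⁻¹ • e) - T 2 F v)).2‖ ≤
        1 / 20 * ‖(((n : ℂ)) • (T 2 F (v + ((n : ℂ))⁻¹ • e) - T 2 F v)).1‖ := by
  obtain ⟨s, hs, h1, h2, -, -⟩ := K_int hF hv
  have ht : Tendsto (fun n : ℕ => v + ((n : ℂ))⁻¹ • e) atTop (𝓝 v) := by
    have h3 : Tendsto (fun n : ℕ => ((n : ℂ))⁻¹) atTop (𝓝 0) := tendsto_inv_atTop_nhds_zero_nat
    have h4 := (h3.smul_const e).const_add v
    simpa using h4
  have hbox : box s 12 ∈ 𝓝 v := by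
    unfold box
    refine prod_mem_nhds ?_ ?_
    · refine closedBall_mem_nhds_of_mem ?_
      rw [mem_ball, dist_eq_norm]
      linarith
    · refine closedBall_mem_nhds_of_mem ?_
      rw [mem_ball, dist_zero_right]
      linarith
  have hvb : v ∈ box s 12 := mem_of_mem_nhds hbox
  filter_upwards [ht.eventually hbox, eventually_gt_atTop 0] with n hn hn0
  have hn1 : (0 : ℝ) < n := by exact_mod_cast hn0
  have hn2 : (n : ℂ) ≠ 0 := by exact_mod_cast hn0.ne'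
  have h5 : ‖(n : ℂ)‖ = n := by simp
  have e1 : (v + ((n : ℂ))⁻¹ • e).1 - v.1 = ((n : ℂ))⁻¹ * e.1 := by simp
  have e2 : (v + ((n : ℂ))⁻¹ • e).2 - v.2 = ((n : ℂ))⁻¹ * e.2 := by simp
  have h6 := cone_step hF hs (v := v + ((n : ℂ))⁻¹ • e) (v' := v) hn hvb (by
    rw [e1, e2, norm_mul, norm_mul]
    exact mul_le_mul_of_nonneg_left he (norm_nonneg _))
  rw [e1, norm_mul, norm_inv, h5] at h6
  rw [Prod.smul_fst, Prod.smul_snd, Prod.fst_sub, Prod.snd_sub, smul_eq_mul, smul_eq_mul, norm_mul,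
    norm_mul, h5]
  constructor
  · have h7 := mul_le_mul_of_nonneg_left h6.1 hn1.le
    have h8 : (n : ℝ) * (1800 * ((n : ℝ)⁻¹ * ‖e.1‖)) = 1800 * ‖e.1‖ := by
      field_simp
    linarith
  · have h7 := mul_le_mul_of_nonneg_left h6.2 hn1.le
    linarith

theorem A9_diff {F : Coef 2} (hF : Adm F) {v : X2} (hv : v ∈ K F) :
    DifferentiableAt ℂ (T 2 F) v := by
  have h := (iter_analytic' hF hv 1).differentiableAt
  rwa [Function.iterate_one] at h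

theorem dcone {F : Coef 2} (hF : Adm F) {v : X2} (hv : v ∈ K F) (e : X2) (he : ‖e.2‖ ≤ ‖e.1‖) :
    1800 * ‖e.1‖ ≤ ‖(fderiv ℂ (T 2 F) v e).1‖ ∧
      ‖(fderiv ℂ (T 2 F) v e).2‖ ≤ 1 / 20 * ‖(fderiv ℂ (T 2 F) v e).1‖ := by
  have h1 := (A9_diff hF hv).hasFDerivAt
  have h2 : Tendsto (fun n : ℕ => ((n : ℂ)) • (T 2 F (v + ((n : ℂ))⁻¹ • e) - T 2 F v)) atTop
      (𝓝 (fderiv ℂ (T 2 F) v e)) := by
    refine h1.lim e (c := fun n : ℕ => (n : ℂ)) (l := atTop) ?_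
    simp only [Complex.norm_natCast]
    exact tendsto_natCast_atTop_atTop
  have h3 := (continuous_fst.tendsto _).comp h2
  have h4 := (continuous_snd.tendsto _).comp h2
  have h5 := A9_step hF hv e he
  constructor
  · exact ge_of_tendsto h3.norm (h5.mono fun n hn => hn.1)
  · exact le_of_tendsto_of_tendsto h4.norm (h3.norm.const_mul (1 / 20)) (h5.mono fun n hn => hn.2)

theorem dcone_iter {F : Coef 2} (hF : Adm F) {v : X2} (hv : v ∈ K F) {n : ℕ} (hn : 1 ≤ n) (e : X2)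
    (he : ‖e.2‖ ≤ ‖e.1‖) :
    1800 * ‖e.1‖ ≤ ‖(fderiv ℂ ((T 2 F)^[n]) v e).1‖ ∧
      ‖(fderiv ℂ ((T 2 F)^[n]) v e).2‖ ≤ 1 / 20 * ‖(fderiv ℂ ((T 2 F)^[n]) v e).1‖ := by
  induction n, hn using Nat.le_induction with
  | base =>
    rw [Function.iterate_one]
    exact dcone hF hv e he
  | succ n hn ih =>
    rw [fderiv_iter_succ hF hv n, ContinuousLinearMap.comp_apply]
    have h1 := K_iter hv n
    have h0 := norm_nonneg (fderiv ℂ ((T 2 F)^[n]) v e).1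
    have h2 := dcone hF h1 (fderiv ℂ ((T 2 F)^[n]) v e) (by linarith [ih.2])
    refine ⟨?_, h2.2⟩
    have h3 := norm_nonneg e.1
    linarith [h2.1, ih.1]

end NB
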