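import Pool.Agent.NB.Defs
/-!
C1. The local stable disc of a saddle (abstract).
Proof: `fderiv f P` is invertible (eigenvalues `lam ≠ 0`, `mu`), let `g` be the local inverse, analytic at
`P`.  In the basis `(eu, es)` with the max norm, `Dg(P)` is diagonal of norm `1/‖lam‖`, so `g` is
Lipschitz near `P` with a constant `L` such that `L ‖lam‖² < 1`.  Put `h₀ t = P + t es`,
`h_{k+1} t = g (h_k (lam t))`.  Then `h₁ - h₀ = O(t²)` and
`‖h_{k+1} t - h_k t‖ ≤ L^k C ‖lam^k t‖²`, so `h_k` converges uniformly for small `t` to `h` with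
`h t - (P + t es) = O(t²)` and `h t = g (h (lam t))`, i.e. `f (h t) = h (lam t)`.
-/
open Set Metric Filter Topology
open SkewBif
namespace NB

/-- the approximations -/
def c1_h (G : X2 → X2) (lam : ℂ) : ℕ → ℂ → X2
  | 0, t => (0, t)
  | k + 1, t => G (c1_h G lam k (lam * t))

theorem c1_lim {G : X2 → X2} {r L C r₁ : ℝ} {lam : ℂ} (hr : 0 < r) (hL : 0 ≤ L)
    (hl : ‖lam‖ < 1) (hq : L * ‖lam‖ ^ 2 < 1) (hG : DifferentiableOn ℂ G (ball 0 r))
    (hLip : ∀ v ∈ ball (0 : X2) r, ∀ w ∈ ball (0 : X2) r, ‖G v - G w‖ ≤ L * ‖v - w‖)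
    (hC : 0 ≤ C) (hr₁ : 0 < r₁)
    (h1 : ∀ t : ℂ, ‖t‖ < r₁ → ‖G (0, lam * t) - (0, t)‖ ≤ C * ‖t‖ ^ 2) :
    ∃ ρ > 0, ∃ h : ℂ → X2, ∃ C' : ℝ, DifferentiableOn ℂ h (ball 0 ρ) ∧
      (∀ t ∈ ball (0 : ℂ) ρ, ‖h t - (0, t)‖ ≤ C' * ‖t‖ ^ 2) ∧
      (∀ t ∈ ball (0 : ℂ) ρ, h (lam * t) ∈ ball (0 : X2) r) ∧
      ∀ t ∈ ball (0 : ℂ) ρ, h t = G (h (lam * t)) := by
  set q := L * ‖lam‖ ^ 2 with hqd
  have hq0 : 0 ≤ q := by positivity
  have h1q : 0 < 1 - q := by linarith
  set C' := C * (1 - q)⁻¹ with hC'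
  have hC'0 : 0 ≤ C' := by positivity
  obtain ⟨ρ, hρ0, hρ1, hρr, hρ2⟩ : ∃ ρ : ℝ, 0 < ρ ∧ ρ ≤ 1 ∧ ρ ≤ r₁ ∧ ρ * (1 + C') ≤ r := by
    refine ⟨min 1 (min r₁ (r / (1 + C'))), ?_, min_le_left _ _, ?_, ?_⟩
    · positivity
    · exact (min_le_right _ _).trans (min_le_left _ _)
    · have : min 1 (min r₁ (r / (1 + C'))) ≤ r / (1 + C') :=
        (min_le_right _ _).trans (min_le_right _ _)
      rwa [le_div_iff₀ (by positivity)] at this
  have hsum : ∀ n : ℕ, ∑ j ∈ Finset.range n, q ^ j ≤ (1 - q)⁻¹ := fun n => by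
    rw [← tsum_geometric_of_lt_one hq0 hq]
    exact (summable_geometric_of_lt_one hq0 hq).sum_le_tsum _ (fun i _ => pow_nonneg hq0 i)
  have hball : ∀ (v : X2) (t : ℂ), t ∈ ball (0 : ℂ) ρ → ‖v - (0, t)‖ ≤ C' * ‖t‖ ^ 2 →
      v ∈ ball (0 : X2) r := by
    intro v t ht hv
    rw [mem_ball_zero_iff] at ht ⊢
    have e1 : ‖v‖ ≤ ‖v - (0, t)‖ + ‖((0, t) : X2)‖ := by
      have := norm_add_le (v - (0, t)) ((0, t) : X2)
      rwa [sub_add_cancel] at this
    have e2 : ‖((0, t) : X2)‖ = ‖t‖ := by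
      rw [Prod.norm_def]
      simp
    have e3 : C' * ‖t‖ ^ 2 ≤ C' * ‖t‖ := by
      refine mul_le_mul_of_nonneg_left ?_ hC'0
      rw [sq]
      exact mul_le_of_le_one_right (norm_nonneg _) (by linarith)
    have e4 : ‖t‖ * (1 + C') < ρ * (1 + C') := mul_lt_mul_of_pos_right ht (by positivity)
    nlinarith
  have hlt : ∀ t ∈ ball (0 : ℂ) ρ, lam * t ∈ ball (0 : ℂ) ρ := by
    intro t ht
    rw [mem_ball_zero_iff] at ht ⊢
    rw [norm_mul]
    have := norm_nonneg t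
    nlinarith [norm_nonneg lam]
  have key : ∀ (k : ℕ), ∀ t ∈ ball (0 : ℂ) ρ,
      ‖c1_h G lam (k + 1) t - c1_h G lam k t‖ ≤ C * q ^ k * ‖t‖ ^ 2 ∧
      ‖c1_h G lam k t - (0, t)‖ ≤ C * (∑ j ∈ Finset.range k, q ^ j) * ‖t‖ ^ 2 := by
    intro k
    induction k with
    | zero =>
      intro t ht
      refine ⟨?_, ?_⟩
      · rw [pow_zero, mul_one]
        exact h1 t (lt_of_lt_of_le (mem_ball_zero_iff.1 ht) hρr)
      · simp [c1_h]
    | succ k ih =>
      intro t ht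
      have hn : ∀ s ∈ ball (0 : ℂ) ρ,
          ‖c1_h G lam (k + 1) s - (0, s)‖ ≤ C * (∑ j ∈ Finset.range (k + 1), q ^ j) * ‖s‖ ^ 2 := by
        intro s hs
        obtain ⟨a, b⟩ := ih s hs
        rw [Finset.sum_range_succ]
        have := norm_add_le (c1_h G lam (k + 1) s - c1_h G lam k s) (c1_h G lam k s - (0, s))
        rw [sub_add_sub_cancel] at this
        refine this.trans ((add_le_add a b).trans (le_of_eq ?_))
        ring
      refine ⟨?_, hn t ht⟩
      have hs := hlt t ht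
      obtain ⟨a, b⟩ := ih (lam * t) hs
      have hb : ∀ n : ℕ, C * (∑ j ∈ Finset.range n, q ^ j) * ‖lam * t‖ ^ 2 ≤
          C' * ‖lam * t‖ ^ 2 := fun n =>
        mul_le_mul_of_nonneg_right (mul_le_mul_of_nonneg_left (hsum n) hC) (by positivity)
      have m1 := hball _ _ hs ((hn _ hs).trans (hb _))
      have m2 := hball _ _ hs (b.trans (hb _))
      change ‖G (c1_h G lam (k + 1) (lam * t)) - G (c1_h G lam k (lam * t))‖ ≤ _
      refine (hLip _ m1 _ m2).trans ((mul_le_mul_of_nonneg_left a hL).trans (le_of_eq ?_))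
      rw [norm_mul, hqd]
      ring
  have hd : ∀ k : ℕ, DifferentiableOn ℂ (c1_h G lam k) (ball 0 ρ) := by
    intro k
    induction k with
    | zero => exact (differentiableOn_const _).prodMk differentiableOn_id
    | succ k ih =>
      have e1 : DifferentiableOn ℂ (fun t => c1_h G lam k (lam * t)) (ball 0 ρ) :=
        ih.comp (differentiableOn_id.const_mul lam) hlt
      refine hG.comp e1 (fun t ht => ?_)
      exact hball _ _ (hlt t ht) (((key k _ (hlt t ht)).2).trans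
        (mul_le_mul_of_nonneg_right (mul_le_mul_of_nonneg_left (hsum k) hC) (by positivity)))
  have hS : Summable (fun k : ℕ => C * q ^ k) := (summable_geometric_of_lt_one hq0 hq).mul_left C
  have hbd : ∀ (k : ℕ), ∀ t ∈ ball (0 : ℂ) ρ, ‖c1_h G lam (k + 1) t - c1_h G lam k t‖ ≤
      C * q ^ k := by
    intro k t ht
    refine (key k t ht).1.trans (mul_le_of_le_one_right (by positivity) ?_)
    have : ‖t‖ ≤ 1 := (mem_ball_zero_iff.1 ht).le.trans hρ1
    exact pow_le_one₀ (norm_nonneg _) this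
  set h : ℂ → X2 := fun t => (0, t) + ∑' k : ℕ, (c1_h G lam (k + 1) t - c1_h G lam k t) with hh
  have hlim : ∀ t ∈ ball (0 : ℂ) ρ, Tendsto (fun k => c1_h G lam k t) atTop (𝓝 (h t)) := by
    intro t ht
    have e1 : Summable (fun k : ℕ => (c1_h G lam (k + 1) t - c1_h G lam k t)) :=
      Summable.of_norm_bounded hS (fun k => hbd k t ht)
    have e2 := e1.hasSum.tendsto_sum_nat
    have e3 : (fun k => c1_h G lam k t) = fun k => ((0, t) : X2) +
        ∑ j ∈ Finset.range k, (c1_h G lam (j + 1) t - c1_h G lam j t) := by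
      funext k
      rw [Finset.sum_range_sub (fun j => c1_h G lam j t)]
      change _ = (0, t) + (c1_h G lam k t - (0, t))
      rw [add_sub_cancel]
    rw [e3, hh]
    exact e2.const_add _
  have hn : ∀ t ∈ ball (0 : ℂ) ρ, ‖h t - (0, t)‖ ≤ C' * ‖t‖ ^ 2 := by
    intro t ht
    refine le_of_tendsto ((hlim t ht).sub_const (0, t)).norm (Eventually.of_forall (fun k => ?_))
    exact ((key k t ht).2).trans
      (mul_le_mul_of_nonneg_right (mul_le_mul_of_nonneg_left (hsum k) hC) (by positivity))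
  refine ⟨ρ, hρ0, h, C', ?_, hn, fun t ht => hball _ _ (hlt t ht) (hn _ (hlt t ht)), ?_⟩
  · refine DifferentiableOn.add ((differentiableOn_const _).prodMk differentiableOn_id) ?_
    exact Complex.differentiableOn_tsum_of_summable_norm hS
      (fun k => (hd (k + 1)).sub (hd k)) isOpen_ball hbd
  · intro t ht
    have m := hball _ _ (hlt t ht) (hn _ (hlt t ht))
    have e1 : Tendsto (fun k => c1_h G lam (k + 1) t) atTop (𝓝 (h t)) :=
      (hlim t ht).comp (tendsto_add_atTop_nat 1)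
    have e2 : Tendsto (fun k => G (c1_h G lam k (lam * t))) atTop (𝓝 (G (h (lam * t)))) :=
      ((hG.differentiableAt (isOpen_ball.mem_nhds m)).continuousAt.tendsto).comp
        (hlim _ (hlt t ht))
    exact tendsto_nhds_unique e1 e2

theorem c1_quad {φ : ℂ → X2} {r : ℝ} (hr : 0 < r) (hφ : DifferentiableOn ℂ φ (ball 0 r))
    (h0 : φ 0 = 0) (h1 : deriv φ 0 = 0) :
    ∃ C ≥ 0, ∃ r₁ > 0, ∀ t : ℂ, ‖t‖ < r₁ → ‖φ t‖ ≤ C * ‖t‖ ^ 2 := by
  have hn : ball (0 : ℂ) r ∈ 𝓝 (0 : ℂ) := ball_mem_nhds _ hr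
  have d1 : DifferentiableOn ℂ (dslope φ 0) (ball 0 r) := (Complex.differentiableOn_dslope hn).2 hφ
  have d2 : DifferentiableOn ℂ (dslope (dslope φ 0) 0) (ball 0 r) :=
    (Complex.differentiableOn_dslope hn).2 d1
  have c2 := (d2.differentiableAt hn).continuousAt
  have e1 : ∀ t, φ t = t ^ 2 • dslope (dslope φ 0) 0 t := by
    intro t
    have a := sub_smul_dslope φ 0 t
    have b := sub_smul_dslope (dslope φ 0) 0 t
    rw [h0, sub_zero, sub_zero] at a
    rw [dslope_same, h1, sub_zero, sub_zero] at b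
    rw [sq, mul_smul, b, a]
  obtain ⟨r₁, hr₁, h⟩ := Metric.eventually_nhds_iff.1 (c2.norm.eventually
    (gt_mem_nhds (lt_add_one ‖dslope (dslope φ 0) 0 0‖)))
  refine ⟨‖dslope (dslope φ 0) 0 0‖ + 1, by positivity, r₁, hr₁, fun t ht => ?_⟩
  rw [e1 t, norm_smul, norm_pow, mul_comm]
  exact mul_le_mul_of_nonneg_right (h (by rwa [dist_zero_right])).le (by positivity)

theorem c1_diag (F : X2 → X2) (lam mu : ℂ) (hF : AnalyticAt ℂ F 0) (hF0 : F 0 = 0)
    (hs : fderiv ℂ F 0 (0, 1) = (0, lam)) (hu : fderiv ℂ F 0 (1, 0) = (mu, 0))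
    (h0 : lam ≠ 0) (h1 : ‖lam‖ < 1) (h2 : 1 < ‖mu‖) :
    ∃ ρ > 0, ∃ h : ℂ → X2, DifferentiableOn ℂ h (ball 0 ρ) ∧ h 0 = 0 ∧
      HasDerivAt h (0, 1) 0 ∧ ∀ t ∈ ball (0 : ℂ) ρ, F (h t) = h (lam * t) := by
  have hmu : mu ≠ 0 := fun h => by rw [h, norm_zero] at h2; linarith
  have hlam : 0 < ‖lam‖ := norm_pos_iff.2 h0
  set D : X2 ≃L[ℂ] X2 := (ContinuousLinearEquiv.unitsEquivAut ℂ (Units.mk0 mu hmu)).prodCongr
    (ContinuousLinearEquiv.unitsEquivAut ℂ (Units.mk0 lam h0)) with hD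
  have hfd : HasFDerivAt F (D : X2 →L[ℂ] X2) 0 := by
    have e1 := hF.differentiableAt.hasFDerivAt
    have e2 : fderiv ℂ F 0 = (D : X2 →L[ℂ] X2) := by
      refine ContinuousLinearMap.ext (fun v => ?_)
      have e3 : v = v.1 • ((1, 0) : X2) + v.2 • ((0, 1) : X2) := by
        ext <;> simp
      have e4 : fderiv ℂ F 0 v = (v.1 * mu, v.2 * lam) := by
        conv_lhs => rw [e3]
        rw [map_add, map_smul, map_smul, hs, hu]
        ext <;> simp
      rw [e4]
      rfl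
    rwa [e2] at e1
  have hcd : ContDiffAt ℂ 1 F 0 := hF.contDiffAt
  set G := hcd.localInverse hfd one_ne_zero with hG
  have hG1 : ContDiffAt ℂ 1 G (F 0) := hcd.to_localInverse hfd one_ne_zero
  have hst := hcd.hasStrictFDerivAt' hfd one_ne_zero
  have hG2 : HasStrictFDerivAt G (D.symm : X2 →L[ℂ] X2) (F 0) := hst.to_localInverse
  have hG3 : G (F 0) = 0 := hcd.localInverse_apply_image hfd one_ne_zero
  have hG4 : ∀ᶠ y in 𝓝 (F 0), F (G y) = y := hst.eventually_right_inverse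
  rw [hF0] at hG1 hG2 hG3 hG4
  obtain ⟨L, hL1, hL2⟩ := exists_between (show ‖lam‖⁻¹ < (‖lam‖ ^ 2)⁻¹ by
    rw [inv_lt_inv₀ hlam (by positivity), sq]
    nlinarith)
  have hL0 : 0 ≤ L := (inv_nonneg.2 hlam.le).trans hL1.le
  have hnorm : ‖(D.symm : X2 →L[ℂ] X2)‖ ≤ ‖lam‖⁻¹ := by
    refine ContinuousLinearMap.opNorm_le_bound _ (by positivity) (fun v => ?_)
    have e1 : (D.symm : X2 →L[ℂ] X2) v = (v.1 * mu⁻¹, v.2 * lam⁻¹) := by
      rfl
    rw [e1, Prod.norm_def]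
    simp only [norm_mul, norm_inv]
    refine max_le ?_ ?_
    · rw [mul_comm]
      refine mul_le_mul ?_ (norm_fst_le v) (norm_nonneg _) (by positivity)
      rw [inv_le_inv₀ (by linarith) hlam]
      linarith
    · rw [mul_comm]
      exact mul_le_mul_of_nonneg_left (norm_snd_le v) (by positivity)
  obtain ⟨s, hs1, hs2⟩ := hG2.exists_lipschitzOnWith_of_nnnorm_lt ⟨L, hL0⟩ (by
    rw [← NNReal.coe_lt_coe]
    exact lt_of_le_of_lt hnorm hL1)
  have hev : ∀ᶠ y in 𝓝 (0 : X2), DifferentiableAt ℂ G y := by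
    filter_upwards [hG1.eventually (by simp)] with y hy
    exact hy.differentiableAt (by simp)
  obtain ⟨r, hr, hr2⟩ := Metric.eventually_nhds_iff_ball.1
    ((hG4.and hev).and (Filter.eventually_mem_set.2 hs1))
  have hdG : DifferentiableOn ℂ G (ball 0 r) := fun y hy => ((hr2 y hy).1.2).differentiableWithinAt
  set φ : ℂ → X2 := fun t => G (0, lam * t) - (0, t) with hφ
  have hdG0 : HasFDerivAt G (D.symm : X2 →L[ℂ] X2) 0 := hG2.hasFDerivAt
  have hmap : ∀ t ∈ ball (0 : ℂ) r, ((0, lam * t) : X2) ∈ ball (0 : X2) r := by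
    intro t ht
    rw [mem_ball_zero_iff] at ht ⊢
    rw [Prod.norm_def]
    simp only [norm_zero, norm_mul]
    refine max_lt hr ?_
    nlinarith [norm_nonneg t]
  have hφd : DifferentiableOn ℂ φ (ball 0 r) := by
    refine DifferentiableOn.sub ?_ ((differentiableOn_const _).prodMk differentiableOn_id)
    exact hdG.comp ((differentiableOn_const _).prodMk (differentiableOn_id.const_mul lam)) hmap
  have hφ0 : φ 0 = 0 := by
    rw [hφ]
    simp only [mul_zero]
    change G 0 - 0 = 0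
    rw [hG3, sub_zero]
  have hφ1 : deriv φ 0 = 0 := by
    have a1 : HasDerivAt (fun t : ℂ => ((0, lam * t) : X2)) ((0, lam) : X2) 0 := by
      have := (hasDerivAt_const (0 : ℂ) (0 : ℂ)).prodMk ((hasDerivAt_id (0 : ℂ)).const_mul lam)
      rwa [mul_one] at this
    have a2 : HasDerivAt (fun t : ℂ => ((0, t) : X2)) ((0, 1) : X2) 0 :=
      (hasDerivAt_const (0 : ℂ) (0 : ℂ)).prodMk (hasDerivAt_id (0 : ℂ))
    have a3 : HasFDerivAt G (D.symm : X2 →L[ℂ] X2) ((fun t : ℂ => ((0, lam * t) : X2)) 0) := by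
      simp only [mul_zero]
      exact hdG0
    have a4 := (a3.comp_hasDerivAt (0 : ℂ) a1).sub a2
    have a5 : (D.symm : X2 →L[ℂ] X2) (0, lam) - (0, 1) = 0 := by
      have : (D.symm : X2 →L[ℂ] X2) (0, lam) = (0 * mu⁻¹, lam * lam⁻¹) := rfl
      rw [this, mul_inv_cancel₀ h0, zero_mul, sub_self]
    rw [a5] at a4
    exact a4.deriv
  obtain ⟨C, hC, r₁, hr₁, hq⟩ := c1_quad hr hφd hφ0 hφ1
  have hq1 : L * ‖lam‖ ^ 2 < 1 := by
    have := mul_lt_mul_of_pos_right hL2 (by positivity : 0 < ‖lam‖ ^ 2)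
    rwa [inv_mul_cancel₀ (by positivity)] at this
  obtain ⟨ρ, hρ, h, C', k1, k2, k3, k4⟩ := c1_lim (G := G) (lam := lam) hr hL0 h1 hq1 hdG
    (fun v hv w hw => by
      have := hs2.dist_le_mul v (hr2 v hv).2 w (hr2 w hw).2
      rwa [dist_eq_norm, dist_eq_norm] at this) hC hr₁ hq
  have hh0 : h 0 = 0 := by
    have := k2 0 (mem_ball_self hρ)
    rw [norm_zero] at this
    have e : ‖h 0 - (0, 0)‖ ≤ 0 := by simpa using this
    have e2 := norm_le_zero_iff.1 e
    rw [sub_eq_zero] at e2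
    exact e2
  refine ⟨ρ, hρ, h, k1, hh0, ?_, fun t ht => ?_⟩
  · have a1 : HasFDerivAt (fun t => h t - (0, t)) (0 : ℂ →L[ℂ] X2) 0 := by
      refine Asymptotics.IsBigO.hasFDerivAt (n := 2) ?_ one_lt_two
      refine Asymptotics.IsBigO.of_bound C' ?_
      filter_upwards [ball_mem_nhds (0 : ℂ) hρ] with t ht
      have := k2 t ht
      simpa using this
    have a2 : HasDerivAt (fun t : ℂ => ((0, t) : X2)) ((0, 1) : X2) 0 :=
      (hasDerivAt_const (0 : ℂ) (0 : ℂ)).prodMk (hasDerivAt_id (0 : ℂ))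
    have a3 := a1.hasDerivAt.add a2
    have e : ((fun t => h t - (0, t)) + fun t : ℂ => ((0, t) : X2)) = h := by
      funext t
      simp
    rw [e] at a3
    simpa using a3
  · rw [k4 t ht]
    exact (hr2 _ (k3 t ht)).1.1

theorem stable_disc (f : X2 → X2) (P es eu : X2) (lam mu : ℂ) (hf : AnalyticAt ℂ f P) (hP : f P = P)
    (hes : es ≠ 0) (heu : eu ≠ 0) (hs : fderiv ℂ f P es = lam • es)
    (hu : fderiv ℂ f P eu = mu • eu) (h0 : lam ≠ 0) (h1 : ‖lam‖ < 1) (h2 : 1 < ‖mu‖) :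
    ∃ ρ > 0, ∃ h : ℂ → X2, DifferentiableOn ℂ h (ball 0 ρ) ∧ h 0 = P ∧ deriv h 0 = es ∧
      ∀ t ∈ ball (0 : ℂ) ρ, f (h t) = h (lam * t) := by
  have hne : lam ≠ mu := fun h => by rw [h] at h1; linarith
  set A0 : X2 →ₗ[ℂ] X2 := (LinearMap.fst ℂ ℂ ℂ).smulRight eu + (LinearMap.snd ℂ ℂ ℂ).smulRight es
    with hA0
  have hinj : Function.Injective A0 := by
    rw [← LinearMap.ker_eq_bot, LinearMap.ker_eq_bot']
    intro v hv
    have e1 : v.1 • eu + v.2 • es = 0 := hv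
    have e2 : v.1 • (mu • eu) + v.2 • (lam • es) = 0 := by
      rw [← hs, ← hu, ← map_smul, ← map_smul, ← map_add, e1, map_zero]
    have e3 : (v.1 * (mu - lam)) • eu = 0 := by
      have e4 : (v.1 * (mu - lam)) • eu = (v.1 • (mu • eu) + v.2 • (lam • es)) -
          lam • (v.1 • eu + v.2 • es) := by
        rw [smul_add, smul_smul, smul_smul, smul_smul, smul_smul, mul_sub, sub_smul,
          mul_comm lam v.1, mul_comm lam v.2]
        abel
      rw [e4, e1, e2, smul_zero, sub_zero]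
    have e5 : v.1 = 0 := by
      rcases smul_eq_zero.1 e3 with h | h
      · exact (mul_eq_zero.1 h).resolve_right (sub_ne_zero.2 hne.symm)
      · exact absurd h heu
    have e6 : v.2 = 0 := by
      rw [e5, zero_smul, zero_add] at e1
      exact (smul_eq_zero.1 e1).resolve_right hes
    exact Prod.ext e5 e6
  set A : X2 ≃L[ℂ] X2 := (LinearEquiv.ofInjectiveEndo A0 hinj).toContinuousLinearEquiv with hA
  have hAv : ∀ v : X2, A v = v.1 • eu + v.2 • es := fun v => rfl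
  set F : X2 → X2 := fun v => A.symm (f (P + A v) - P) with hFd
  have ha1 : HasFDerivAt (fun v : X2 => P + A v) (A : X2 →L[ℂ] X2) 0 :=
    (A : X2 →L[ℂ] X2).hasFDerivAt.const_add P
  have hP0 : P + A 0 = P := by rw [map_zero, add_zero]
  have hfP : AnalyticAt ℂ f (P + A 0) := by rw [hP0]; exact hf
  have hFa : AnalyticAt ℂ F 0 := by
    have a1 : AnalyticAt ℂ (fun v : X2 => P + A v) 0 :=
      analyticAt_const.add ((A : X2 →L[ℂ] X2).analyticAt 0)
    have a2 : AnalyticAt ℂ (fun v : X2 => f (P + A v) - P) 0 :=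
      (AnalyticAt.comp (g := f) (f := fun v : X2 => P + A v) (x := 0) hfP a1).sub
        analyticAt_const
    exact ((A.symm : X2 →L[ℂ] X2).analyticAt _).comp a2
  have hFf : HasFDerivAt F (((A.symm : X2 →L[ℂ] X2).comp ((fderiv ℂ f P).comp
      (A : X2 →L[ℂ] X2)))) 0 := by
    have a1 : HasFDerivAt f (fderiv ℂ f P) (P + A 0) := by
      rw [hP0]
      exact hf.differentiableAt.hasFDerivAt
    have a2 := (a1.comp (0 : X2) ha1).sub_const P
    exact (A.symm : X2 →L[ℂ] X2).hasFDerivAt.comp (0 : X2) a2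
  have hF0 : F 0 = 0 := by
    rw [hFd]
    simp only
    rw [hP0, hP, sub_self, map_zero]
  have hA01 : A (0, 1) = es := by rw [hAv]; simp
  have hA10 : A (1, 0) = eu := by rw [hAv]; simp
  have hFs : fderiv ℂ F 0 (0, 1) = (0, lam) := by
    rw [hFf.fderiv]
    change A.symm (fderiv ℂ f P (A (0, 1))) = _
    rw [hA01, hs, map_smul, ← hA01, A.symm_apply_apply]
    simp
  have hFu : fderiv ℂ F 0 (1, 0) = (mu, 0) := by
    rw [hFf.fderiv]
    change A.symm (fderiv ℂ f P (A (1, 0))) = _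
    rw [hA10, hu, map_smul, ← hA10, A.symm_apply_apply]
    simp
  obtain ⟨ρ, hρ, h, k1, k2, k3, k4⟩ := c1_diag F lam mu hFa hF0 hFs hFu h0 h1 h2
  refine ⟨ρ, hρ, fun t => P + A (h t), ?_, ?_, ?_, fun t ht => ?_⟩
  · exact ((A : X2 →L[ℂ] X2).differentiable.comp_differentiableOn k1).const_add P
  · simp only
    rw [k2, hP0]
  · have := ((A : X2 →L[ℂ] X2).hasFDerivAt.comp_hasDerivAt (0 : ℂ) k3).const_add P
    have e : (A : X2 →L[ℂ] X2) (0, 1) = es := hA01
    rw [e] at this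
    exact this.deriv
  · have e1 := k4 t ht
    rw [hFd] at e1
    simp only at e1
    have e2 : f (P + A (h t)) - P = A (h (lam * t)) := by
      rw [← e1, A.apply_symm_apply]
    simp only
    rw [← e2, add_sub_cancel]

end NB
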