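import Pool.Agent.NB.CL
import Pool.Agent.NB.A5
/-!
C2. One step lift of a disc.  Apply `continuation` with `E = ℂ`, `X = X2`, `B = ball 0 ρ`,
`Φ (t, v) = T F v - h t`, `R = {(t, v) | t ∈ ball 0 ρ, v ∈ Core, T F v = h t}`.  The points of `R` are in `K F`
(`K_back`), hence in the interior of `Core` (`K_subset_interior`), which gives `h2`; the partial
derivative is `fderiv (T F) v`, injective by `hcrit`; `h3` holds since `Core` is compact and `T F` and `h`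
are continuous.  The section takes values in `K F` (`K_back`).
-/
open Set Metric Filter Topology
open SkewBif
namespace NB

theorem lift_step {F : Coef 2} (hF : Adm F) {ρ : ℝ} (hρ : 0 < ρ) {h : ℂ → X2}
    (hd : DifferentiableOn ℂ h (ball 0 ρ)) (hK : ∀ t ∈ ball (0 : ℂ) ρ, h t ∈ K F) {Q : X2}
    (hQ : Q ∈ Core) (hQ0 : T 2 F Q = h 0)
    (hcrit : ∀ t ∈ ball (0 : ℂ) ρ, ∀ v ∈ K F, T 2 F v = h t → ¬ Crit F v) :
    ∃ h' : ℂ → X2, DifferentiableOn ℂ h' (ball 0 ρ) ∧ h' 0 = Q ∧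
      ∀ t ∈ ball (0 : ℂ) ρ, h' t ∈ K F ∧ T 2 F (h' t) = h t := by
  set Φ : ℂ × X2 → X2 := fun p => T 2 F p.2 - h p.1 with hΦ
  set R : Set (ℂ × X2) := {p | p.1 ∈ ball (0 : ℂ) ρ ∧ p.2 ∈ Core ∧ T 2 F p.2 = h p.1} with hR
  have hRK : ∀ p ∈ R, p.2 ∈ K F := by
    rintro p ⟨hp1, hp2, hp3⟩
    exact K_back hp2 (by rw [hp3]; exact hK p.1 hp1)
  have hTa : ∀ v ∈ Core, AnalyticAt ℂ (T 2 F) v := by
    intro v hv
    have h1 := T_analytic (good_core hF hv)
    have h2 : AnalyticAt ℂ (fun v : X2 => (F, v)) v := analyticAt_const.prod analyticAt_id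
    exact h1.comp_of_eq h2 rfl
  have hha : ∀ t ∈ ball (0 : ℂ) ρ, AnalyticAt ℂ h t := fun t ht =>
    hd.analyticAt (isOpen_ball.mem_nhds ht)
  have hCore : IsCompact Core :=
    ((isCompact_closedBall _ _).prod (isCompact_closedBall _ _)).union
      ((isCompact_closedBall _ _).prod (isCompact_closedBall _ _))
  have hfst : ∀ p : ℂ × X2, AnalyticAt ℂ (fun q : ℂ × X2 => q.1) p := fun p => analyticAt_fst
  have hsnd : ∀ p : ℂ × X2, AnalyticAt ℂ (fun q : ℂ × X2 => q.2) p := fun p => analyticAt_snd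
  have hΦa : ∀ p : ℂ × X2, p.1 ∈ ball (0 : ℂ) ρ → p.2 ∈ Core → AnalyticAt ℂ Φ p := by
    intro p hp1 hp2
    have h1 : AnalyticAt ℂ (fun q : ℂ × X2 => T 2 F q.2) p :=
      (hTa p.2 hp2).comp_of_eq (hsnd p) rfl
    have h2 : AnalyticAt ℂ (fun q : ℂ × X2 => h q.1) p :=
      (hha p.1 hp1).comp_of_eq (hfst p) rfl
    exact h1.sub h2
  obtain ⟨u, hu1, hu2, hu3⟩ := continuation (E := ℂ) (X := X2) (B := ball (0 : ℂ) ρ) isOpen_ball
    (convex_ball _ _) Φ R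
    (by
      rintro p ⟨hp1, hp2, hp3⟩
      exact ⟨hp1, by rw [hΦ]; exact sub_eq_zero.2 hp3⟩)
    (by
      intro p hp
      refine ⟨hΦa p hp.1 hp.2.1, fun e he => ?_⟩
      by_contra hne
      refine hcrit p.1 hp.1 p.2 (hRK p hp) hp.2.2 ⟨e, hne, ?_⟩
      have h1 : HasFDerivAt (fun x : X2 => (p.1, x)) (ContinuousLinearMap.inr ℂ ℂ X2) p.2 :=
        hasFDerivAt_prodMk_right p.1 p.2
      have h2 : HasFDerivAt Φ (fderiv ℂ Φ p) (p.1, p.2) :=
        (hΦa p hp.1 hp.2.1).differentiableAt.hasFDerivAt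
      have h3 : HasFDerivAt (fun x : X2 => T 2 F x - h p.1)
          ((fderiv ℂ Φ p).comp (ContinuousLinearMap.inr ℂ ℂ X2)) p.2 := h2.comp p.2 h1
      have h4 : HasFDerivAt (fun x : X2 => T 2 F x - h p.1) (fderiv ℂ (T 2 F) p.2) p.2 :=
        (hTa p.2 hp.2.1).differentiableAt.hasFDerivAt.sub_const _
      rw [h4.unique h3]
      exact he)
    (by
      intro p hp
      have h1 : p.2 ∈ interior Core := K_subset_interior hF (hRK p hp)
      have h2 : ∀ᶠ q : ℂ × X2 in 𝓝 p, q.2 ∈ Core :=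
        (continuous_snd.continuousAt.eventually (isOpen_interior.mem_nhds h1)).mono
          fun q hq => interior_subset hq
      have h3 : ∀ᶠ q : ℂ × X2 in 𝓝 p, q.1 ∈ ball (0 : ℂ) ρ :=
        continuous_fst.continuousAt.eventually (isOpen_ball.mem_nhds hp.1)
      filter_upwards [h2, h3] with q h4 h5 h6
      exact ⟨h5, h4, sub_eq_zero.1 h6⟩)
    (by
      intro C hCB hC
      have h1 : ContinuousOn Φ (C ×ˢ Core) := by
        rintro p ⟨hp1, hp2⟩
        exact (hΦa p (hCB hp1) hp2).continuousAt.continuousWithinAt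
      have h2 : IsClosed ((C ×ˢ Core) ∩ Φ ⁻¹' {0}) :=
        h1.preimage_isClosed_of_isClosed (hC.prod hCore).isClosed isClosed_singleton
      have h3 : R ∩ (C ×ˢ univ) = (C ×ˢ Core) ∩ Φ ⁻¹' {0} := by
        ext p
        constructor
        · rintro ⟨⟨hp1, hp2, hp3⟩, hp4, -⟩
          exact ⟨⟨hp4, hp2⟩, sub_eq_zero.2 hp3⟩
        · rintro ⟨⟨hp1, hp2⟩, hp3⟩
          exact ⟨⟨hCB hp1, hp2, sub_eq_zero.1 hp3⟩, hp1, mem_univ _⟩
      rw [h3]
      exact (hC.prod hCore).of_isClosed_subset h2 inter_subset_left)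
    (p₀ := (0, Q)) ⟨mem_ball_self hρ, hQ, hQ0⟩
  refine ⟨u, hu1, hu2, fun t ht => ?_⟩
  have h1 := hu3 t ht
  exact ⟨hRK _ h1, h1.2.2⟩

end NB
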