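import Pool.Agent.NB.C2
/-!
C3. Lifts of all orders along the backward orbit of a periodic point.
`Bas` is the union of the basins of the points of the orbit of `P`; it is backward invariant:
if `v ∈ K F` and `T v ∈ Bas` then `v ∈ Bas` (apply `T^[n-1]` to `T^[j n] (T v) → T^[i] P`).
Induction on `k` with `lift_step`: the `k`-th lift `h_k` satisfies `T^[k] ∘ h_k = h` and
`h_k 0 = T^[k (n - 1)] P`, note `T^[k] (T^[k (n-1)] P) = T^[k n] P = P`.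
-/
open Set Metric Filter Topology
open SkewBif
namespace NB

/-- The basin of the cycle of `P` in `K F`. -/
def Bas (F : Coef 2) (n : ℕ) (P : X2) : Set X2 :=
  {v | v ∈ K F ∧ ∃ i : ℕ, Tendsto (fun j : ℕ => (T 2 F)^[j * n] v) atTop (𝓝 ((T 2 F)^[i] P))}

theorem C3_per {F : Coef 2} {n : ℕ} {P : X2} (hP : Per F n P) (m : ℕ) :
    (T 2 F)^[m * n] P = P := by
  have h : Function.IsPeriodicPt (T 2 F) n P := hP.2
  exact h.const_mul m

theorem Bas_back {F : Coef 2} (hF : Adm F) {n : ℕ} (hn : 1 ≤ n) {P : X2} (hP : Per F n P) {v : X2}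
    (hv : v ∈ K F) (h : T 2 F v ∈ Bas F n P) : v ∈ Bas F n P := by
  obtain ⟨-, i, hi⟩ := h
  refine ⟨hv, (n - 1) + i, ?_⟩
  have hc : ContinuousAt ((T 2 F)^[n - 1]) ((T 2 F)^[i] P) :=
    (iter_analytic' hF (K_iter hP.1 i) (n - 1)).continuousAt
  have h1 := hc.tendsto.comp hi
  rw [← Function.iterate_add_apply] at h1
  rw [← tendsto_add_atTop_iff_nat 1]
  refine h1.congr fun j => ?_
  show (T 2 F)^[n - 1] ((T 2 F)^[j * n] (T 2 F v)) = (T 2 F)^[(j + 1) * n] v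
  rw [← Function.iterate_succ_apply, ← Function.iterate_add_apply]
  congr 2
  rw [add_mul, one_mul]
  omega

theorem C3_lift {F : Coef 2} (hF : Adm F) {n : ℕ} (hn : 1 ≤ n) {P : X2} (hP : Per F n P)
    (hcrit : ∀ v ∈ Bas F n P, ¬ Crit F v) {ρ : ℝ} (hρ : 0 < ρ) {h : ℂ → X2}
    (hd : DifferentiableOn ℂ h (ball 0 ρ)) (hB : ∀ t ∈ ball (0 : ℂ) ρ, h t ∈ Bas F n P)
    (h0 : h 0 = P) (k : ℕ) :
    ∃ h' : ℂ → X2, DifferentiableOn ℂ h' (ball 0 ρ) ∧ h' 0 = (T 2 F)^[k * (n - 1)] P ∧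
      ∀ t ∈ ball (0 : ℂ) ρ, h' t ∈ Bas F n P ∧ (T 2 F)^[k] (h' t) = h t := by
  induction k with
  | zero =>
    refine ⟨h, hd, ?_, fun t ht => ⟨hB t ht, rfl⟩⟩
    rw [h0, zero_mul]
    rfl
  | succ k ih =>
    obtain ⟨g, g1, g2, g3⟩ := ih
    have hQ : (T 2 F)^[(k + 1) * (n - 1)] P ∈ Core := (K_iter hP.1 ((k + 1) * (n - 1))) 0
    have hQ0 : T 2 F ((T 2 F)^[(k + 1) * (n - 1)] P) = g 0 := by
      rw [g2, ← Function.iterate_succ_apply' (T 2 F)]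
      have e : (k + 1) * (n - 1) + 1 = k * (n - 1) + n := by
        rw [add_mul, one_mul]
        omega
      rw [Nat.succ_eq_add_one, e, Function.iterate_add_apply, hP.2]
    obtain ⟨h', a1, a2, a3⟩ := lift_step hF hρ g1 (fun t ht => (g3 t ht).1.1) hQ hQ0
      (fun t ht v hv hv2 => hcrit v (Bas_back hF hn hP hv (by rw [hv2]; exact (g3 t ht).1)))
    refine ⟨h', a1, a2, fun t ht => ⟨?_, ?_⟩⟩
    · refine Bas_back hF hn hP (a3 t ht).1 ?_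
      rw [(a3 t ht).2]
      exact (g3 t ht).1
    · rw [Function.iterate_succ_apply, (a3 t ht).2]
      exact (g3 t ht).2

theorem lift_all {F : Coef 2} (hF : Adm F) {n : ℕ} (hn : 1 ≤ n) {P : X2} (hP : Per F n P)
    (hcrit : ∀ v ∈ Bas F n P, ¬ Crit F v) {ρ : ℝ} (hρ : 0 < ρ) {h : ℂ → X2}
    (hd : DifferentiableOn ℂ h (ball 0 ρ)) (hB : ∀ t ∈ ball (0 : ℂ) ρ, h t ∈ Bas F n P)
    (h0 : h 0 = P) (k : ℕ) :
    ∃ h' : ℂ → X2, DifferentiableOn ℂ h' (ball 0 ρ) ∧ h' 0 = P ∧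
      ∀ t ∈ ball (0 : ℂ) ρ, h' t ∈ K F ∧ (T 2 F)^[k * n] (h' t) = h t := by
  obtain ⟨h', a1, a2, a3⟩ := C3_lift hF hn hP hcrit hρ hd hB h0 (k * n)
  refine ⟨h', a1, ?_, fun t ht => ⟨(a3 t ht).1.1, (a3 t ht).2⟩⟩
  rw [a2]
  have e : k * n * (n - 1) = (k * (n - 1)) * n := by ring
  rw [e]
  exact C3_per hP _

end NB
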