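import Pool.Agent.NB.C3
/-!
C4a. The stable disc is in the basin: `T^[j n] (h t) = h (lam ^ j t)`, and the first `n` iterates of `h t` are in the
core region for small `t` by continuity.
-/
open Set Metric Filter Topology
open SkewBif
namespace NB

theorem C4_disc_in_basin {F : Coef 2} (hF : Adm F) {n : ℕ} (hn : 1 ≤ n) {P : X2} (hP : Per F n P)
    {lam : ℂ} (h1 : ‖lam‖ < 1) {ρ : ℝ} (hρ : 0 < ρ) {h : ℂ → X2}
    (hd : DifferentiableOn ℂ h (ball 0 ρ)) (hh0 : h 0 = P)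
    (hh : ∀ t ∈ ball (0 : ℂ) ρ, (T 2 F)^[n] (h t) = h (lam * t)) :
    ∃ ρ' > 0, ρ' ≤ ρ ∧ ∀ t ∈ ball (0 : ℂ) ρ', h t ∈ Bas F n P := by
  have hc : ContinuousAt h 0 := (hd.differentiableAt (ball_mem_nhds _ hρ)).continuousAt
  have hpow : ∀ r : ℝ, ∀ j : ℕ, ∀ t ∈ ball (0 : ℂ) r, lam ^ j * t ∈ ball (0 : ℂ) r := by
    intro r j t ht
    rw [mem_ball, dist_zero_right] at ht ⊢
    rw [norm_mul, norm_pow]
    have h2 : ‖lam‖ ^ j ≤ 1 := pow_le_one₀ (norm_nonneg _) h1.le
    have h3 : ‖lam‖ ^ j * ‖t‖ ≤ 1 * ‖t‖ := mul_le_mul_of_nonneg_right h2 (norm_nonneg _)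
    linarith
  have hit : ∀ j : ℕ, ∀ t ∈ ball (0 : ℂ) ρ, (T 2 F)^[j * n] (h t) = h (lam ^ j * t) := by
    intro j
    induction j with
    | zero => intro t _; simp
    | succ j ih =>
      intro t ht
      have h2 : lam * t ∈ ball (0 : ℂ) ρ := by simpa using hpow ρ 1 t ht
      rw [Nat.succ_mul, Function.iterate_add_apply, hh t ht, ih _ h2, pow_succ, mul_assoc]
  have hev : ∀ i ∈ Finset.range n, ∀ᶠ t in 𝓝 (0 : ℂ), (T 2 F)^[i] (h t) ∈ Core := by
    intro i _
    have h2 : ContinuousAt ((T 2 F)^[i]) (h 0) := by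
      rw [hh0]
      exact (iter_analytic' hF hP.1 i).continuousAt
    have h3 : ContinuousAt (fun t => (T 2 F)^[i] (h t)) 0 := h2.comp hc
    have h4 : (T 2 F)^[i] (h 0) ∈ interior Core := by
      rw [hh0]
      exact K_subset_interior hF (K_iter hP.1 i)
    filter_upwards [h3.eventually (isOpen_interior.mem_nhds h4)] with t ht
    exact interior_subset ht
  obtain ⟨r, hr, hr'⟩ := Metric.eventually_nhds_iff_ball.1
    ((Finset.eventually_all (Finset.range n)).2 hev)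
  refine ⟨min r ρ, lt_min hr hρ, min_le_right _ _, fun t ht => ?_⟩
  have htρ : t ∈ ball (0 : ℂ) ρ := ball_subset_ball (min_le_right _ _) ht
  refine ⟨fun m => ?_, 0, ?_⟩
  · have h2 : m = m % n + m / n * n := by rw [mul_comm]; exact (Nat.mod_add_div m n).symm
    rw [h2, Function.iterate_add_apply, hit _ t htρ]
    exact hr' _ (ball_subset_ball (min_le_left _ _) (hpow _ _ t ht)) _
      (Finset.mem_range.2 (Nat.mod_lt _ hn))
  · have h2 : (fun j : ℕ => (T 2 F)^[j * n] (h t)) = fun j : ℕ => h (lam ^ j * t) :=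
      funext fun j => hit j t htρ
    rw [h2]
    have h3 : Tendsto (fun j : ℕ => lam ^ j * t) atTop (𝓝 0) := by
      have h4 := (tendsto_pow_atTop_nhds_zero_of_norm_lt_one h1).mul_const t
      rwa [zero_mul] at h4
    have h5 : Tendsto (fun j : ℕ => h (lam ^ j * t)) atTop (𝓝 (h 0)) := hc.tendsto.comp h3
    rw [hh0] at h5
    exact h5

end NB
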