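import Pool.Agent.NB.C1
import Pool.Agent.NB.C3
import Pool.Agent.NB.C4a
import Pool.Agent.NB.A9
import Pool.Agent.NB.A10
/-!
C4. An attracting periodic point has a critical point in the basin of its cycle.
Let `lam`, `‖lam‖ < 1`, be the small eigenvalue of `D = fderiv (T^[n]) P` with eigenvector `es`, and `mu`,
`‖mu‖ ≥ 1800`, the large one (`dcone_iter`, `cone_eig`) with eigenvector `eu`.
If `lam = 0`, then by the chain rule some `T^[i] P` is a critical point, and it is in `Bas`.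
If `lam ≠ 0` and no point of `Bas` is critical: C1 applied to `T^[n]` gives a disc `h` through `P` with
`T^[n] (h t) = h (lam t)`, so (after shrinking `ρ`) `h t ∈ Bas F n P` (the orbit stays near the orbit
of `P`, in the interior of `Core`).  By `lift_all` there are `h_k` bounded by `12` with
`T^[k n] ∘ h_k = h`, `h_k 0 = P`.  By the chain rule `D^k (deriv h_k 0) = es`, so
`deriv h_k 0 = lam^(-k) es` (`D` is injective), and Cauchy's estimate gives
`‖lam‖^(-k) ‖es‖ ≤ 24 / ρ` for all `k`, a contradiction.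
-/
open Set Metric Filter Topology
open SkewBif
namespace NB

lemma C4_norm_core {v : X2} (hv : v ∈ Core) : ‖v‖ ≤ 12 := by
  have key : ∀ s : ℂ, ‖s‖ = 1 → v ∈ box s 11 → ‖v‖ ≤ 12 := by
    intro s hs h
    have h1 : v.1 ∈ closedBall s (1 / 500) := h.1
    have h2 : v.2 ∈ closedBall (0 : ℂ) 11 := h.2
    rw [mem_closedBall, dist_eq_norm] at h1
    rw [mem_closedBall, dist_zero_right] at h2
    have h3 : ‖v.1‖ ≤ 1 + 1 / 500 := by
      have h4 : v.1 = s + (v.1 - s) := by ring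
      rw [h4]
      exact (norm_add_le _ _).trans (by rw [hs]; linarith)
    rw [Prod.norm_def]
    exact max_le (by linarith) (by linarith)
  rcases hv with h | h
  · exact key 1 (by simp) h
  · exact key (-1) (by simp) h

lemma C4_chain {F : Coef 2} (hF : Adm F) {n : ℕ} {P : X2} (hP : Per F n P) (k : ℕ) (e : X2) :
    fderiv ℂ ((T 2 F)^[(k + 1) * n]) P e
      = fderiv ℂ ((T 2 F)^[k * n]) P (fderiv ℂ ((T 2 F)^[n]) P e) := by
  have h1 := fderiv_iter hF hP.1 (k * n) n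
  rw [hP.2] at h1
  have h2 : (k + 1) * n = k * n + n := by ring
  rw [h2, h1]
  rfl

/-- Cauchy part: the lifts cannot exist for all `k`. -/
theorem no_lifts {F : Coef 2} (hF : Adm F) {n : ℕ} (hn : 1 ≤ n) {P es : X2} (hP : Per F n P)
    {lam : ℂ} (hes : es ≠ 0) (hs : fderiv ℂ ((T 2 F)^[n]) P es = lam • es) (h0 : lam ≠ 0)
    (h1 : ‖lam‖ < 1) {ρ : ℝ} (hρ : 0 < ρ) {h : ℂ → X2} (hd : DifferentiableOn ℂ h (ball 0 ρ))
    (hh0 : h 0 = P) (hh1 : deriv h 0 = es)
    (hl : ∀ k : ℕ, ∃ h' : ℂ → X2, DifferentiableOn ℂ h' (ball 0 ρ) ∧ h' 0 = P ∧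
      ∀ t ∈ ball (0 : ℂ) ρ, h' t ∈ K F ∧ (T 2 F)^[k * n] (h' t) = h t)
    (hinj : ∀ e, fderiv ℂ ((T 2 F)^[n]) P e = 0 → e = 0) : False := by
  have hA1 : ∀ k : ℕ, ∀ e, fderiv ℂ ((T 2 F)^[k * n]) P e = 0 → e = 0 := by
    intro k
    induction k with
    | zero =>
      intro e he
      rw [zero_mul, Function.iterate_zero, fderiv_id] at he
      exact he
    | succ k ih =>
      intro e he
      rw [C4_chain hF hP] at he
      exact hinj e (ih _ he)
  have hA2 : ∀ k : ℕ, fderiv ℂ ((T 2 F)^[k * n]) P ((lam⁻¹ ^ k) • es) = es := by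
    intro k
    induction k with
    | zero => rw [zero_mul, Function.iterate_zero, fderiv_id]; simp
    | succ k ih =>
      rw [C4_chain hF hP, map_smul, hs, smul_smul, pow_succ, mul_assoc, inv_mul_cancel₀ h0, mul_one]
      exact ih
  have hbound : ∀ k : ℕ, (‖lam‖⁻¹) ^ k * ‖es‖ ≤ 12 / (ρ / 2) := by
    intro k
    obtain ⟨h', hd', h'0, hk⟩ := hl k
    have hρ2 : 0 < ρ / 2 := by linarith
    have hb0 : ball (0 : ℂ) ρ ∈ 𝓝 (0 : ℂ) := ball_mem_nhds _ hρ
    have d1 : HasDerivAt h' (deriv h' 0) 0 := (hd'.differentiableAt hb0).hasDerivAt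
    have d2 : HasFDerivAt ((T 2 F)^[k * n]) (fderiv ℂ ((T 2 F)^[k * n]) P) (h' 0) := by
      rw [h'0]
      exact (iter_analytic' hF hP.1 (k * n)).differentiableAt.hasFDerivAt
    have d3 : HasDerivAt (fun t => (T 2 F)^[k * n] (h' t))
        (fderiv ℂ ((T 2 F)^[k * n]) P (deriv h' 0)) 0 := d2.comp_hasDerivAt 0 d1
    have d4 : HasDerivAt h (deriv h 0) 0 := (hd.differentiableAt hb0).hasDerivAt
    have d5 : (fun t => (T 2 F)^[k * n] (h' t)) =ᶠ[𝓝 0] h := by
      filter_upwards [hb0] with t ht using (hk t ht).2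
    have d6 : fderiv ℂ ((T 2 F)^[k * n]) P (deriv h' 0) = es := by
      rw [← hh1]
      exact (d3.congr_of_eventuallyEq d5.symm).unique d4
    have d7 : deriv h' 0 = (lam⁻¹ ^ k) • es := by
      have h2 := hA1 k (deriv h' 0 - (lam⁻¹ ^ k) • es) (by rw [map_sub, d6, hA2, sub_self])
      exact sub_eq_zero.1 h2
    have d8 : ‖deriv h' 0‖ ≤ 12 / (ρ / 2) := by
      refine Complex.norm_deriv_le_of_forall_mem_sphere_norm_le hρ2 ?_ ?_
      · have h3 : closedBall (0 : ℂ) (ρ / 2) ⊆ ball 0 ρ := closedBall_subset_ball (by linarith)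
        exact (hd'.mono h3).diffContOnCl_ball Subset.rfl
      · intro t ht
        have h3 : t ∈ ball (0 : ℂ) ρ := by
          rw [mem_sphere, dist_zero_right] at ht
          rw [mem_ball, dist_zero_right, ht]
          linarith
        exact C4_norm_core ((hk t h3).1 0)
    rw [d7, norm_smul, norm_pow, norm_inv] at d8
    exact d8
  have hl0 : 0 < ‖lam‖ := norm_pos_iff.2 h0
  have hes0 : 0 < ‖es‖ := norm_pos_iff.2 hes
  have hone : 1 < ‖lam‖⁻¹ := (one_lt_inv₀ hl0).2 h1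
  obtain ⟨k, hk⟩ := pow_unbounded_of_one_lt (12 / (ρ / 2) / ‖es‖) hone
  rw [div_lt_iff₀ hes0] at hk
  exact absurd (hbound k) (not_le.2 hk)

/-- The disc is in the basin. -/
theorem disc_in_basin {F : Coef 2} (hF : Adm F) {n : ℕ} (hn : 1 ≤ n) {P : X2} (hP : Per F n P)
    {lam : ℂ} (h1 : ‖lam‖ < 1) {ρ : ℝ} (hρ : 0 < ρ) {h : ℂ → X2}
    (hd : DifferentiableOn ℂ h (ball 0 ρ)) (hh0 : h 0 = P)
    (hh : ∀ t ∈ ball (0 : ℂ) ρ, (T 2 F)^[n] (h t) = h (lam * t)) :
    ∃ ρ' > 0, ρ' ≤ ρ ∧ ∀ t ∈ ball (0 : ℂ) ρ', h t ∈ Bas F n P :=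
  C4_disc_in_basin hF hn hP h1 hρ hd hh0 hh

/-- A kernel vector of the derivative of an iterate gives a critical point on the orbit. -/
lemma C4_crit {F : Coef 2} (hF : Adm F) {P : X2} (hK : P ∈ K F) {e : X2} (he : e ≠ 0) (n : ℕ)
    (h : fderiv ℂ ((T 2 F)^[n]) P e = 0) : ∃ i : ℕ, Crit F ((T 2 F)^[i] P) := by
  induction n with
  | zero =>
    rw [Function.iterate_zero, fderiv_id] at h
    exact absurd h he
  | succ n ih =>
    rw [fderiv_iter_succ hF hK] at h
    by_cases h2 : fderiv ℂ ((T 2 F)^[n]) P e = 0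
    · exact ih h2
    · exact ⟨n, _, h2, h⟩

lemma C4_orbit_bas {F : Coef 2} {n : ℕ} {P : X2} (hP : Per F n P) (i : ℕ) :
    (T 2 F)^[i] P ∈ Bas F n P := by
  refine ⟨K_iter hP.1 i, i, ?_⟩
  have h1 : ∀ j : ℕ, (T 2 F)^[j * n] P = P := by
    intro j
    induction j with
    | zero => simp
    | succ j ih =>
      rw [Nat.succ_mul, Function.iterate_add_apply, hP.2, ih]
  have h2 : (fun j : ℕ => (T 2 F)^[j * n] ((T 2 F)^[i] P)) = fun _ => (T 2 F)^[i] P := by
    funext j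
    rw [← Function.iterate_add_apply, add_comm, Function.iterate_add_apply, h1 j]
  rw [h2]
  exact tendsto_const_nhds

theorem crit_in_basin {F : Coef 2} (hF : Adm F) {n : ℕ} (hn : 1 ≤ n) {P : X2} (hP : Attr F n P) :
    ∃ c ∈ Bas F n P, Crit F c := by
  obtain ⟨hper, lam, hlam, hlam1⟩ := hP
  by_contra hno
  push Not at hno
  have hinj : ∀ e, fderiv ℂ ((T 2 F)^[n]) P e = 0 → e = 0 := by
    intro e he
    by_contra hne
    obtain ⟨i, hi⟩ := C4_crit hF hper.1 hne n he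
    exact hno _ (C4_orbit_bas hper i) hi
  obtain ⟨es, hes1, hes2⟩ := hlam.exists_hasEigenvector
  rw [Module.End.mem_eigenspace_iff] at hes1
  have hs : fderiv ℂ ((T 2 F)^[n]) P es = lam • es := hes1
  have h0 : lam ≠ 0 := by
    intro h
    rw [h, zero_smul] at hs
    exact hes2 (hinj es hs)
  obtain ⟨mu, eu, heu, _, hDe, hmu⟩ := cone_eig (fderiv ℂ ((T 2 F)^[n]) P) 1800 (by norm_num)
    (fun e he => dcone_iter hF hper.1 hn e he)
  obtain ⟨ρ, hρ, h, hd, hh0, hh1, hh⟩ := stable_disc ((T 2 F)^[n]) P es eu lam mu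
    (iter_analytic' hF hper.1 n) hper.2 hes2 heu hs hDe h0 hlam1 (by linarith)
  obtain ⟨ρ', hρ', hle, hB⟩ := disc_in_basin hF hn hper hlam1 hρ hd hh0 hh
  have hd' := hd.mono (ball_subset_ball hle)
  exact no_lifts hF hn hper hes2 hs h0 hlam1 hρ' hd' hh0 hh1
    (fun k => lift_all hF hn hper (fun v hv => hno v hv) hρ' hd' hB hh0 k) hinj

end NB
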