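import Pool.Agent.NB.C4
import Pool.Agent.NB.A3
/-!
C5. Uniqueness of the attracting cycle.  Both basins contain the unique critical point `c` of `K F`
(`crit_in_basin`, `crit_unique`).  Along the multiples of `n * m` the iterates of `c` tend to
`T^[i] P` and to `T^[i'] Q`; so `T^[i] P = T^[i'] Q`, and applying a suitable iterate, `Q = T^[i''] P`.
-/
open Set Metric Filter Topology
open SkewBif
namespace NB

theorem attr_unique {F : Coef 2} (hF : Adm F) {n m : ℕ} (hn : 1 ≤ n) (hm : 1 ≤ m) {P Q : X2}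
    (hP : Attr F n P) (hQ : Attr F m Q) : ∃ i < n, Q = (T 2 F)^[i] P := by
  obtain ⟨c, hc, hcc⟩ := crit_in_basin hF hn hP
  obtain ⟨c', hc', hcc'⟩ := crit_in_basin hF hm hQ
  obtain ⟨hcK, i, hi⟩ := hc
  obtain ⟨hcK', i', hi'⟩ := hc'
  have hcc2 : c' = c := crit_unique hF hcK' hcK hcc' hcc
  rw [hcc2] at hi'
  have h1 : Tendsto (fun j : ℕ => (T 2 F)^[j * m * n] c) atTop (𝓝 ((T 2 F)^[i] P)) := by
    refine hi.comp (tendsto_atTop_mono (fun j => ?_) tendsto_id)
    exact Nat.le_mul_of_pos_right j (by omega)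
  have h2 : Tendsto (fun j : ℕ => (T 2 F)^[j * m * n] c) atTop (𝓝 ((T 2 F)^[i'] Q)) := by
    have h3 : Tendsto (fun j : ℕ => (T 2 F)^[j * n * m] c) atTop (𝓝 ((T 2 F)^[i'] Q)) := by
      refine hi'.comp (tendsto_atTop_mono (fun j => ?_) tendsto_id)
      exact Nat.le_mul_of_pos_right j (by omega)
    refine h3.congr fun j => ?_
    rw [mul_right_comm]
  have h4 : (T 2 F)^[i] P = (T 2 F)^[i'] Q := tendsto_nhds_unique h1 h2
  have hPp : Function.IsPeriodicPt (T 2 F) n P := hP.1.2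
  have hQp : Function.IsPeriodicPt (T 2 F) m Q := hQ.1.2
  have h5 : (T 2 F)^[m * i'] Q = Q := hQp.mul_const i'
  have h6 : m * i' = (m * i' - i') + i' := by
    have : i' ≤ m * i' := Nat.le_mul_of_pos_left i' (by omega)
    omega
  have h7 : Q = (T 2 F)^[(m * i' - i') + i] P := by
    rw [Function.iterate_add_apply, h4, ← Function.iterate_add_apply, ← h6, h5]
  refine ⟨((m * i' - i') + i) % n, Nat.mod_lt _ (by omega), ?_⟩
  rw [hPp.iterate_mod_apply]
  exact h7

end NB
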