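import Mathlib
/-!
CL. Continuation lemma (abstract).  `R` is a set of solutions `(b, x)` of `Φ (b, x) = 0` over a convex
open set `B`; the partial derivative of `Φ` in `x` is injective at the points of `R`; all solutions
near a point of `R` are in `R`; the part of `R` over a compact subset of `B` is compact.  Then there is a
holomorphic section of `R` over `B` through every point of `R`.

Proof: the projection `R → B` is a local homeomorphism (implicit function theorem,
`ContDiffAt`/`HasStrictFDerivAt.implicitFunction` or `HasStrictFDerivAt.toOpenPartialHomeomorph` for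
`(b, x) ↦ (b, Φ (b, x))`), it is proper (closed map with finite fibres) by the third hypothesis, hence a
covering map (`IsClosedMap.isCoveringMapOn_of_isLocalHomeomorphOn` in
`Mathlib/Topology/Covering/Basic.lean`), and `B` is simply connected and locally path connected
(convex and open), so `IsCoveringMap.existsUnique_continuousMap_lifts` gives a continuous section; it
is holomorphic since it coincides locally with the implicit function.
-/
open Set Metric Filter Topology
namespace NB

/-- The map `(b, x) ↦ (b, Φ (b, x))` is a local homeomorphism at a nondegenerate point. -/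
lemma CL_local {E X : Type} [NormedAddCommGroup E] [NormedSpace ℂ E] [FiniteDimensional ℂ E]
    [NormedAddCommGroup X] [NormedSpace ℂ X] [FiniteDimensional ℂ X] (Φ : E × X → X) {p : E × X}
    (h1 : AnalyticAt ℂ Φ p) (h2 : ∀ e : X, fderiv ℂ Φ p (0, e) = 0 → e = 0) :
    ∃ e : OpenPartialHomeomorph (E × X) (E × X), p ∈ e.source ∧ (∀ q, e q = (q.1, Φ q)) ∧
      DifferentiableAt ℂ e.symm (e p) := by
  have : CompleteSpace (E × X) := FiniteDimensional.complete ℂ _
  have hd := h1.hasStrictFDerivAt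
  have hΨ : HasStrictFDerivAt (fun q : E × X => (q.1, Φ q))
      ((ContinuousLinearMap.fst ℂ E X).prod (fderiv ℂ Φ p)) p :=
    hasStrictFDerivAt_fst.prodMk hd
  have hinj : Function.Injective (((ContinuousLinearMap.fst ℂ E X).prod (fderiv ℂ Φ p) :
      (E × X) →L[ℂ] (E × X)) : (E × X) →ₗ[ℂ] (E × X)) := by
    rw [injective_iff_map_eq_zero]
    rintro ⟨x, y⟩ hxy
    have hx : x = 0 := congrArg Prod.fst hxy
    have hy : fderiv ℂ Φ p (x, y) = 0 := congrArg Prod.snd hxy
    subst hx
    rw [h2 y hy]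
    rfl
  let D : (E × X) ≃L[ℂ] (E × X) := (LinearEquiv.ofInjectiveEndo _ hinj).toContinuousLinearEquiv
  have hD : (D : (E × X) →L[ℂ] (E × X)) = (ContinuousLinearMap.fst ℂ E X).prod (fderiv ℂ Φ p) := by
    ext v <;> rfl
  rw [← hD] at hΨ
  refine ⟨hΨ.toOpenPartialHomeomorph _, hΨ.mem_toOpenPartialHomeomorph_source, fun q => ?_, ?_⟩
  · rw [hΨ.toOpenPartialHomeomorph_coe]
  · have := hΨ.to_localInverse
    rw [hΨ.localInverse_def] at this
    rw [hΨ.toOpenPartialHomeomorph_coe]
    exact this.differentiableAt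

/-- Local uniqueness of solutions, used to compare two sections. -/
theorem local_unique {E X : Type} [NormedAddCommGroup E] [NormedSpace ℂ E] [FiniteDimensional ℂ E]
    [NormedAddCommGroup X] [NormedSpace ℂ X] [FiniteDimensional ℂ X] (Φ : E × X → X) {p : E × X}
    (h1 : AnalyticAt ℂ Φ p) (h2 : ∀ e : X, fderiv ℂ Φ p (0, e) = 0 → e = 0) :
    ∃ ε > 0, ∀ b x x', dist b p.1 < ε → dist x p.2 < ε → dist x' p.2 < ε →
      Φ (b, x) = 0 → Φ (b, x') = 0 → x = x' := by
  obtain ⟨e, hp, he, -⟩ := CL_local Φ h1 h2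
  obtain ⟨ε, hε, hb⟩ := Metric.isOpen_iff.1 e.open_source p hp
  refine ⟨ε, hε, fun b x x' hbp hx hx' h h' => ?_⟩
  have m1 : (b, x) ∈ e.source := hb (by rw [mem_ball, Prod.dist_eq]; exact max_lt hbp hx)
  have m2 : (b, x') ∈ e.source := hb (by rw [mem_ball, Prod.dist_eq]; exact max_lt hbp hx')
  have := e.injOn m1 m2 (by rw [he, he, h, h'])
  exact congrArg Prod.snd this

lemma CL_localHomeo {E X : Type} [NormedAddCommGroup E] [NormedSpace ℂ E] [FiniteDimensional ℂ E]
    [NormedAddCommGroup X] [NormedSpace ℂ X] [FiniteDimensional ℂ X]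
    {B : Set E} (Φ : E × X → X) (R : Set (E × X))
    (h0 : ∀ p ∈ R, p.1 ∈ B ∧ Φ p = 0)
    (h1 : ∀ p ∈ R, AnalyticAt ℂ Φ p ∧ ∀ e : X, fderiv ℂ Φ p (0, e) = 0 → e = 0)
    (h2 : ∀ p ∈ R, ∀ᶠ q in 𝓝 p, Φ q = 0 → q ∈ R) :
    IsLocalHomeomorph (fun r : R => (⟨r.1.1, (h0 _ r.2).1⟩ : B)) := by
  classical
  refine IsLocalHomeomorph.mk _ fun r => ?_
  obtain ⟨e, hp, he, -⟩ := CL_local Φ (h1 _ r.2).1 (h1 _ r.2).2
  have hev : {q | q ∈ e.source ∧ (Φ q = 0 → q ∈ R)} ∈ 𝓝 r.1 := by
    filter_upwards [e.open_source.mem_nhds hp, h2 _ r.2] with q hq hq2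
    exact ⟨hq, hq2⟩
  obtain ⟨W, hWsub, hWo, hWp⟩ := _root_.mem_nhds_iff.1 hev
  let V : Set E := {b | ((b, 0) : E × X) ∈ e.target ∧ e.symm (b, 0) ∈ W}
  have hVo : IsOpen V := by
    have : V = (fun b : E => ((b, 0) : E × X)) ⁻¹' (e.target ∩ e.symm ⁻¹' W) := rfl
    rw [this]
    exact (e.isOpen_inter_preimage_symm hWo).preimage (by fun_prop)
  have hs : ∀ b ∈ V, e (e.symm (b, 0)) = (b, 0) := fun b hb => e.right_inv hb.1
  have hs1 : ∀ b ∈ V, (e.symm ((b, 0) : E × X)).1 = b := by
    intro b hb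
    have := hs b hb
    rw [he] at this
    exact congrArg Prod.fst this
  have hs2 : ∀ b ∈ V, Φ (e.symm ((b, 0) : E × X)) = 0 := by
    intro b hb
    have := hs b hb
    rw [he] at this
    exact congrArg Prod.snd this
  have hsR : ∀ b ∈ V, e.symm ((b, 0) : E × X) ∈ R := fun b hb => (hWsub hb.2).2 (hs2 b hb)
  have hback : ∀ r' : R, r'.1 ∈ W → r'.1.1 ∈ V ∧ e.symm (r'.1.1, 0) = r'.1 := by
    intro r' hr'
    have m := (hWsub hr').1
    have e1 : e r'.1 = (r'.1.1, 0) := by rw [he, (h0 _ r'.2).2]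
    have e2 : e.symm (r'.1.1, 0) = r'.1 := by rw [← e1, e.left_inv m]
    refine ⟨⟨?_, ?_⟩, e2⟩
    · rw [← e1]; exact e.map_source m
    · rw [e2]; exact hr'
  let g : B → R := fun b => if h : (b : E) ∈ V then ⟨e.symm (b, 0), hsR b h⟩ else r
  have hg : ∀ b : B, (b : E) ∈ V → (g b : E × X) = e.symm ((b : E), 0) := by
    intro b hb
    show ((if h : (b : E) ∈ V then ⟨e.symm (b, 0), hsR b h⟩ else r : R) : E × X) = _
    rw [dif_pos hb]
  refine ⟨{ toFun := fun r : R => (⟨r.1.1, (h0 _ r.2).1⟩ : B)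
            invFun := g
            source := {r' | r'.1 ∈ W}
            target := {b | (b : E) ∈ V}
            map_source' := fun r' hr' => (hback r' hr').1
            map_target' := fun b hb => by
              show (g b : E × X) ∈ W
              rw [hg b hb]
              exact hb.2
            left_inv' := fun r' hr' => by
              apply Subtype.ext
              rw [hg _ (hback r' hr').1]
              exact (hback r' hr').2
            right_inv' := fun b hb => by
              apply Subtype.ext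
              show (g b : E × X).1 = b
              rw [hg b hb]
              exact hs1 b hb
            open_source := hWo.preimage continuous_subtype_val
            open_target := hVo.preimage continuous_subtype_val
            continuousOn_toFun := by fun_prop
            continuousOn_invFun := ?_ }, hWp, fun _ _ => rfl⟩
  rw [IsInducing.subtypeVal.continuousOn_iff]
  have hc : ContinuousOn (fun b : B => e.symm ((b : E), (0 : X))) {b | (b : E) ∈ V} := by
    refine e.continuousOn_symm.comp (by fun_prop) ?_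
    intro b hb
    exact hb.1
  exact hc.congr fun b hb => hg b hb

theorem continuation {E X : Type} [NormedAddCommGroup E] [NormedSpace ℂ E] [FiniteDimensional ℂ E]
    [NormedAddCommGroup X] [NormedSpace ℂ X] [FiniteDimensional ℂ X]
    {B : Set E} (hB : IsOpen B) (hBc : Convex ℝ B) (Φ : E × X → X) (R : Set (E × X))
    (h0 : ∀ p ∈ R, p.1 ∈ B ∧ Φ p = 0)
    (h1 : ∀ p ∈ R, AnalyticAt ℂ Φ p ∧ ∀ e : X, fderiv ℂ Φ p (0, e) = 0 → e = 0)
    (h2 : ∀ p ∈ R, ∀ᶠ q in 𝓝 p, Φ q = 0 → q ∈ R)
    (h3 : ∀ C ⊆ B, IsCompact C → IsCompact (R ∩ (C ×ˢ univ)))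
    {p₀ : E × X} (hp₀ : p₀ ∈ R) :
    ∃ u : E → X, DifferentiableOn ℂ u B ∧ u p₀.1 = p₀.2 ∧ ∀ b ∈ B, (b, u b) ∈ R := by
  classical
  have : ProperSpace E := FiniteDimensional.proper ℂ E
  have : LocallyCompactSpace B := hB.locallyCompactSpace
  let f : R → B := fun r => ⟨r.1.1, (h0 _ r.2).1⟩
  have hloc : IsLocalHomeomorph f := CL_localHomeo Φ R h0 h1 h2
  have hfc : Continuous f := hloc.continuous
  have hcomp : ∀ K : Set B, IsCompact K → IsCompact (f ⁻¹' K) := by
    intro K hK
    rw [Subtype.isCompact_iff]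
    have hK' : IsCompact (Subtype.val '' K : Set E) := hK.image continuous_subtype_val
    have := h3 (Subtype.val '' K) (by rintro _ ⟨b, -, rfl⟩; exact b.2) hK'
    have heq : (Subtype.val '' (f ⁻¹' K) : Set (E × X)) = R ∩ ((Subtype.val '' K) ×ˢ univ) := by
      ext q
      constructor
      · rintro ⟨r, hr, rfl⟩
        exact ⟨r.2, ⟨f r, hr, rfl⟩, mem_univ _⟩
      · rintro ⟨hq, ⟨b, hb, hbq⟩, -⟩
        refine ⟨⟨q, hq⟩, ?_, rfl⟩
        show f ⟨q, hq⟩ ∈ K
        have : f ⟨q, hq⟩ = b := Subtype.ext hbq.symm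
        rw [this]
        exact hb
    rw [heq]
    exact this
  have hprop : IsProperMap f := isProperMap_iff_isCompact_preimage.2 ⟨hfc, fun K hK => hcomp K hK⟩
  have hfin : ∀ x : B, (f ⁻¹' {x}).Finite := by
    intro x
    refine (hcomp {x} isCompact_singleton).finite ?_
    refine IsDiscrete.of_openPartialHomeomorph f subset_rfl fun r _ => ?_
    obtain ⟨φ, h1, h2⟩ := hloc r
    exact ⟨φ, h1, h2.symm⟩
  have hcov : IsCoveringMap f := by
    rw [isCoveringMap_iff_isCoveringMapOn_univ]
    refine hprop.isClosedMap.isCoveringMapOn_of_isLocalHomeomorphOn (fun x _ => hfin x) ?_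
    rw [preimage_univ]
    exact isLocalHomeomorph_iff_isLocalHomeomorphOn_univ.1 hloc
  have hb₀ : p₀.1 ∈ B := (h0 _ hp₀).1
  have : ContractibleSpace B := hBc.contractibleSpace ⟨_, hb₀⟩
  have : LocallyPathConnectedSpace B := hB.locallyPathConnectedSpace
  obtain ⟨F, ⟨hF1, hF2⟩, -⟩ := hcov.existsUnique_continuousMap_lifts (ContinuousMap.id B)
    ⟨p₀.1, hb₀⟩ ⟨p₀, hp₀⟩ rfl
  have hF3 : ∀ b : B, (F b).1.1 = b := by
    intro b
    have := congrFun hF2 b
    exact congrArg Subtype.val this
  let u : E → X := fun b => if h : b ∈ B then (F ⟨b, h⟩).1.2 else 0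
  have hu : ∀ (b : E) (h : b ∈ B), (b, u b) = (F ⟨b, h⟩).1 := by
    intro b h
    have e1 : u b = (F ⟨b, h⟩).1.2 := dif_pos h
    rw [e1]
    exact Prod.ext (hF3 ⟨b, h⟩).symm rfl
  have huR : ∀ b ∈ B, (b, u b) ∈ R := by
    intro b hb
    rw [hu b hb]
    exact (F ⟨b, hb⟩).2
  refine ⟨u, ?_, ?_, huR⟩
  · have hcu : ContinuousOn u B := by
      rw [continuousOn_iff_continuous_domRestrict]
      have : B.domRestrict u = fun b : B => (F b).1.2 := by
        funext b
        exact dif_pos b.2
      rw [this]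
      fun_prop
    intro b hb
    obtain ⟨e, hp, he, hde⟩ := CL_local Φ (h1 _ (huR b hb)).1 (h1 _ (huR b hb)).2
    have hcu' : ContinuousAt (fun b' => (b', u b')) b :=
      continuousAt_id.prodMk (hcu.continuousAt (hB.mem_nhds hb))
    have hev : u =ᶠ[𝓝 b] fun b' => (e.symm ((b', 0) : E × X)).2 := by
      filter_upwards [hcu'.preimage_mem_nhds (e.open_source.mem_nhds hp), hB.mem_nhds hb] with b' h1 h2
      have e1 : e (b', u b') = (b', 0) := by rw [he, (h0 _ (huR b' h2)).2]
      rw [← e1, e.left_inv h1]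
    have e0 : e (b, u b) = (b, 0) := by rw [he, (h0 _ (huR b hb)).2]
    rw [e0] at hde
    have h4 : DifferentiableAt ℂ (fun b' : E => e.symm ((b', 0) : E × X)) b :=
      DifferentiableAt.comp b hde (by fun_prop)
    exact (hev.differentiableAt_iff.2 h4.snd).differentiableWithinAt
  · have := hu p₀.1 hb₀
    rw [hF1] at this
    exact congrArg Prod.snd this

end NB
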