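import Pool.Agent.NB.A8
import Pool.Agent.NB.A9
/-!
D1. Reduction to one variable near a periodic point.  With `G (F, (z, w)) = (T F)^[n] (z, w)`, analytic at
`(F₀, v₀)`, the equation `(G (F, (z, w))).1 = z` can be solved for `z`: its `z`-derivative is `a - 1` with
`‖a‖ ≥ 1800` (`dcone_iter` with `e = (1, 0)`).  `Z F w` is the solution and
`φ F w = (G (F, (Z F w, w))).2 - w`.
-/
open Set Metric Filter Topology
open SkewBif
namespace NB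

theorem D1_invertible (f : ℂ →L[ℂ] ℂ) (h : f 1 ≠ 0) : f.IsInvertible := by
  refine ⟨ContinuousLinearEquiv.unitsEquivAut ℂ (Units.mk0 (f 1) h), ?_⟩
  ext
  simp

/-- A set which is a neighbourhood contains a product of balls of small radius. -/
theorem D1_ball {F₀ : Coef 2} {a b : ℂ} {S : Set ((Coef 2 × ℂ) × ℂ)} (hS : S ∈ 𝓝 ((F₀, a), b)) :
    ∃ r > 0, ∀ F ∈ ball F₀ r, ∀ w ∈ ball a r, ∀ z ∈ ball b r, ((F, w), z) ∈ S := by
  obtain ⟨r, hr, h⟩ := Metric.mem_nhds_iff.1 hS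
  refine ⟨r, hr, fun F hF w hw z hz => h ?_⟩
  rw [← ball_prod_same, ← ball_prod_same]
  exact ⟨⟨hF, hw⟩, hz⟩

theorem D1_ball2 {F₀ : Coef 2} {a : ℂ} {S : Set (Coef 2 × ℂ)} (hS : S ∈ 𝓝 (F₀, a)) :
    ∃ r > 0, ∀ F ∈ ball F₀ r, ∀ w ∈ ball a r, (F, w) ∈ S := by
  obtain ⟨r, hr, h⟩ := Metric.mem_nhds_iff.1 hS
  refine ⟨r, hr, fun F hF w hw => h ?_⟩
  rw [← ball_prod_same]
  exact ⟨hF, hw⟩

theorem reduce1 {F₀ : Coef 2} (hF : Adm F₀) {n : ℕ} (hn : 1 ≤ n) {v₀ : X2} (hv : Per F₀ n v₀) {η : ℝ}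
    (hη : 0 < η) :
    ∃ ε > 0, ∃ ρ > 0, ∃ ρz > 0, ε < η ∧ ρ < η ∧ ρz < η ∧ ∃ Z φ : Coef 2 → ℂ → ℂ,
      DifferentiableOn ℂ (fun q : Coef 2 × ℂ => Z q.1 q.2) (ball F₀ ε ×ˢ ball v₀.2 ρ) ∧
      DifferentiableOn ℂ (fun q : Coef 2 × ℂ => φ q.1 q.2) (ball F₀ ε ×ˢ ball v₀.2 ρ) ∧
      (∀ F ∈ ball F₀ ε, ∀ w ∈ ball v₀.2 ρ, Z F w ∈ ball v₀.1 ρz) ∧
      (∀ F ∈ ball F₀ ε, ∀ z ∈ ball v₀.1 ρz, ∀ w ∈ ball v₀.2 ρ,
        ((T 2 F)^[n] (z, w) = (z, w) ↔ z = Z F w ∧ φ F w = 0)) := by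
  set G : Coef 2 × X2 → X2 := fun q => (T 2 q.1)^[n] q.2 with hG
  have hGa : AnalyticAt ℂ G (F₀, v₀) := iter_analytic hF hv.1 n
  set u : (Coef 2 × ℂ) × ℂ := ((F₀, v₀.2), v₀.1) with hu
  set g : (Coef 2 × ℂ) × ℂ → Coef 2 × X2 := fun p => (p.1.1, (p.2, p.1.2)) with hg
  have hga : AnalyticAt ℂ g u :=
    (((ContinuousLinearMap.fst ℂ (Coef 2) ℂ).comp
      (ContinuousLinearMap.fst ℂ (Coef 2 × ℂ) ℂ)).prod
      ((ContinuousLinearMap.snd ℂ (Coef 2 × ℂ) ℂ).prod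
        ((ContinuousLinearMap.snd ℂ (Coef 2) ℂ).comp
          (ContinuousLinearMap.fst ℂ (Coef 2 × ℂ) ℂ)))).analyticAt u
  have hgu : g u = (F₀, v₀) := rfl
  set f : (Coef 2 × ℂ) × ℂ → ℂ := fun p => (G (g p)).1 - p.2 with hf
  have hGg : AnalyticAt ℂ (G ∘ g) u := AnalyticAt.comp (by rw [hgu]; exact hGa) hga
  have hfst : AnalyticAt ℂ (fun p => (G (g p)).1) u :=
    ((ContinuousLinearMap.fst ℂ ℂ ℂ).analyticAt _).comp hGg
  have hfa : AnalyticAt ℂ f u := hfst.sub analyticAt_snd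
  have hfu : f u = 0 := by
    have h0 : G (g u) = v₀ := hv.2
    show (G (g u)).1 - v₀.1 = 0
    rw [h0, sub_self]
  -- the derivative in z
  have hDv : HasFDerivAt ((T 2 F₀)^[n]) (fderiv ℂ ((T 2 F₀)^[n]) v₀) v₀ :=
    (iter_analytic' hF hv.1 n).differentiableAt.hasFDerivAt
  have hfd : HasFDerivAt f (fderiv ℂ f u) u := hfa.differentiableAt.hasFDerivAt
  have hline : HasDerivAt (fun z : ℂ => (((F₀, v₀.2), z) : (Coef 2 × ℂ) × ℂ))
      ((0 : Coef 2 × ℂ), (1 : ℂ)) v₀.1 := (hasDerivAt_const _ _).prodMk (hasDerivAt_id _)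
  have h1 : HasDerivAt (fun z : ℂ => f ((F₀, v₀.2), z)) (fderiv ℂ f u ((0 : Coef 2 × ℂ), (1 : ℂ)))
      v₀.1 := hfd.comp_hasDerivAt v₀.1 hline
  have hline2 : HasDerivAt (fun z : ℂ => ((z, v₀.2) : X2)) ((1 : ℂ), (0 : ℂ)) v₀.1 :=
    (hasDerivAt_id _).prodMk (hasDerivAt_const _ _)
  have h2 : HasDerivAt (fun z : ℂ => (T 2 F₀)^[n] (z, v₀.2))
      (fderiv ℂ ((T 2 F₀)^[n]) v₀ ((1 : ℂ), (0 : ℂ))) v₀.1 :=
    HasFDerivAt.comp_hasDerivAt (f := fun z : ℂ => ((z, v₀.2) : X2)) v₀.1 hDv hline2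
  have h3 : HasDerivAt (fun z : ℂ => ((T 2 F₀)^[n] (z, v₀.2)).1)
      ((fderiv ℂ ((T 2 F₀)^[n]) v₀ ((1 : ℂ), (0 : ℂ))).1) v₀.1 :=
    (ContinuousLinearMap.fst ℂ ℂ ℂ).hasFDerivAt.comp_hasDerivAt v₀.1 h2
  have h4 : fderiv ℂ f u ((0 : Coef 2 × ℂ), (1 : ℂ))
      = (fderiv ℂ ((T 2 F₀)^[n]) v₀ ((1 : ℂ), (0 : ℂ))).1 - 1 :=
    h1.unique (h3.sub (hasDerivAt_id _))
  have h5 := (dcone_iter hF hv.1 hn ((1 : ℂ), (0 : ℂ)) (by simp)).1
  have h6 : fderiv ℂ f u ((0 : Coef 2 × ℂ), (1 : ℂ)) ≠ 0 := by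
    rw [h4]
    intro h0
    rw [sub_eq_zero] at h0
    rw [h0] at h5
    norm_num at h5
  have hinv : (fderiv ℂ f u ∘L .inr ℂ (Coef 2 × ℂ) ℂ).IsInvertible := by
    apply D1_invertible
    simpa using h6
  have cdf : ContDiffAt ℂ 1 f u := hfa.contDiffAt
  have hω : (1 : WithTop ℕ∞) ≠ 0 := by simp
  set ψ := cdf.implicitFunction hω hinv with hψ
  have hψ0 : ψ u.1 = u.2 := cdf.implicitFunction_apply_self hω hinv
  have hψiff : ∀ᶠ v in 𝓝 u, f v = f u ↔ ψ v.1 = v.2 :=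
    cdf.eventually_apply_eq_iff_implicitFunction hω hinv
  have hψd : ContDiffAt ℂ 1 ψ u.1 := cdf.contDiffAt_implicitFunction hω hinv
  have hψd1 : ∀ᶠ x in 𝓝 u.1, DifferentiableAt ℂ ψ x :=
    (hψd.eventually (by simp)).mono fun x hx => hx.differentiableAt (by simp)
  have hψc : ContinuousAt ψ u.1 := hψd.continuousAt
  have hGd : ∀ᶠ q in 𝓝 (F₀, v₀), DifferentiableAt ℂ G q :=
    hGa.eventually_analyticAt.mono fun q hq => hq.differentiableAt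
  have hcomp : ContinuousAt (fun x : Coef 2 × ℂ => ((x.1, (ψ x, x.2)) : Coef 2 × X2)) u.1 :=
    continuousAt_fst.prodMk (hψc.prodMk continuousAt_snd)
  have hGd1 : ∀ᶠ x in 𝓝 u.1, DifferentiableAt ℂ G (x.1, (ψ x, x.2)) := by
    have hpt : ((u.1.1, (ψ u.1, u.1.2)) : Coef 2 × X2) = (F₀, v₀) := by
      rw [hψ0]
    have := hcomp.tendsto
    rw [hpt] at this
    exact this.eventually hGd
  obtain ⟨a, ha, hSa⟩ := D1_ball hψiff
  set ρz := min a (η / 2) with hρz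
  have hρz0 : 0 < ρz := lt_min ha (by linarith)
  have hψball : ∀ᶠ x in 𝓝 u.1, ψ x ∈ ball v₀.1 ρz := by
    have : Tendsto ψ (𝓝 u.1) (𝓝 v₀.1) := by
      have h := hψc.tendsto
      rw [hψ0] at h
      exact h
    exact this.eventually (ball_mem_nhds _ hρz0)
  obtain ⟨b, hb, hSb⟩ := D1_ball2 (F₀ := F₀) (a := v₀.2)
    ((hψd1.and (hGd1.and hψball)) : ∀ᶠ x in 𝓝 (F₀, v₀.2), _)
  set ε := min (min a b) (η / 2) with hε
  have hε0 : 0 < ε := lt_min (lt_min ha hb) (by linarith)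
  have hεa : ε ≤ a := (min_le_left _ _).trans (min_le_left _ _)
  have hεb : ε ≤ b := (min_le_left _ _).trans (min_le_right _ _)
  have hεη : ε < η := lt_of_le_of_lt (min_le_right _ _) (by linarith)
  have hρη : ρz < η := lt_of_le_of_lt (min_le_right _ _) (by linarith)
  refine ⟨ε, hε0, ε, hε0, ρz, hρz0, hεη, hεη, hρη, fun F w => ψ (F, w),
    fun F w => (G (F, (ψ (F, w), w))).2 - w, ?_, ?_, ?_, ?_⟩
  · rintro ⟨F, w⟩ ⟨hF', hw⟩
    exact (hSb F (ball_subset_ball hεb hF') w (ball_subset_ball hεb hw)).1.differentiableWithinAt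
  · rintro ⟨F, w⟩ ⟨hF', hw⟩
    apply DifferentiableAt.differentiableWithinAt
    obtain ⟨k1, k2, k3⟩ := hSb F (ball_subset_ball hεb hF') w (ball_subset_ball hεb hw)
    have k4 : DifferentiableAt ℂ (fun x : Coef 2 × ℂ => ((x.1, (ψ x, x.2)) : Coef 2 × X2))
        (F, w) := differentiableAt_fst.prodMk (k1.prodMk differentiableAt_snd)
    have k5 : DifferentiableAt ℂ (fun x : Coef 2 × ℂ => G (x.1, (ψ x, x.2))) (F, w) :=
      DifferentiableAt.comp (g := G) (F, w) k2 k4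
    exact (k5.snd).sub differentiableAt_snd
  · intro F hF' w hw
    exact (hSb F (ball_subset_ball hεb hF') w (ball_subset_ball hεb hw)).2.2
  · intro F hF' z hz w hw
    have k := hSa F (ball_subset_ball hεa hF') w (ball_subset_ball hεa hw) z
      (ball_subset_ball (min_le_left _ _) hz)
    have k' : ((T 2 F)^[n] (z, w)).1 = z ↔ ψ (F, w) = z := by
      have e : f ((F, w), z) = ((T 2 F)^[n] (z, w)).1 - z := rfl
      have k'' : f ((F, w), z) = f u ↔ ψ (F, w) = z := k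
      rw [hfu, e, sub_eq_zero] at k''
      exact k''
    constructor
    · intro h
      have e1 : ψ (F, w) = z := k'.1 (by rw [h])
      refine ⟨e1.symm, ?_⟩
      show ((T 2 F)^[n] (ψ (F, w), w)).2 - w = 0
      rw [e1, h, sub_self]
    · rintro ⟨e1, e2⟩
      have e3 : ((T 2 F)^[n] (z, w)).1 = z := k'.2 e1.symm
      have e4 : ((T 2 F)^[n] (ψ (F, w), w)).2 - w = 0 := e2
      have e1' : z = ψ (F, w) := e1
      rw [← e1'] at e4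
      exact Prod.ext e3 (sub_eq_zero.1 e4)

end NB
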