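import Pool.Agent.NB.D1
import Pool.Agent.NB.A10
/-!
D2. The same reduction near a periodic point having an eigenvalue `ν` of modulus `1`, together with an
analytic logarithm `L` of the small eigenvalue.  The other eigenvalue of `D₀ = fderiv (T^[n]) v₀` is `≥ 1800`
in modulus (`dcone_iter`, `cone_eig`), so `ν` is a simple root of the characteristic polynomial
`X² - tr X + det`; its coefficients are analytic functions of `(F, v)`, the quadratic formula gives an
analytic root `λ (F, v)` near `ν`, and `L F w = log (λ (F, (Z F w, w)))` with a branch of the logarithm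
near `ν ≠ 0`.  The second root is close to the large eigenvalue (`tr - λ`).
-/
open Set Metric Filter Topology
open SkewBif
namespace NB

lemma D2_apply (D : X2 →L[ℂ] X2) (e : X2) : D e = e.1 • D (1, 0) + e.2 • D (0, 1) := by
  rw [← map_smul, ← map_smul, ← map_add]
  congr 1
  ext <;> simp

lemma D2_eig_iff (D : X2 →L[ℂ] X2) (μ : ℂ) :
    Module.End.HasEigenvalue (D : X2 →ₗ[ℂ] X2) μ ↔
      μ ^ 2 - ((D (1, 0)).1 + (D (0, 1)).2) * μ +
        ((D (1, 0)).1 * (D (0, 1)).2 - (D (0, 1)).1 * (D (1, 0)).2) = 0 := by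
  set a := (D (1, 0)).1 with ha
  set c := (D (1, 0)).2 with hc
  set b := (D (0, 1)).1 with hb
  set d := (D (0, 1)).2 with hd
  have key : ∀ e : X2, D e = μ • e ↔ a * e.1 + b * e.2 = μ * e.1 ∧ c * e.1 + d * e.2 = μ * e.2 := by
    intro e
    rw [D2_apply D e, Prod.ext_iff]
    simp only [Prod.fst_add, Prod.snd_add, Prod.smul_fst, Prod.smul_snd, smul_eq_mul, ← ha, ← hb,
      ← hc, ← hd]
    constructor
    · rintro ⟨h1, h2⟩
      exact ⟨by linear_combination h1, by linear_combination h2⟩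
    · rintro ⟨h1, h2⟩
      exact ⟨by linear_combination h1, by linear_combination h2⟩
  constructor
  · intro h
    obtain ⟨e, he1, he2⟩ := h.exists_hasEigenvector
    rw [Module.End.mem_eigenspace_iff] at he1
    obtain ⟨h1, h2⟩ := (key e).1 he1
    have h3 : (μ ^ 2 - (a + d) * μ + (a * d - b * c)) * e.1 = 0 := by
      linear_combination (d - μ) * h1 - b * h2
    have h4 : (μ ^ 2 - (a + d) * μ + (a * d - b * c)) * e.2 = 0 := by
      linear_combination (a - μ) * h2 - c * h1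
    by_contra hne
    apply he2
    ext
    · exact (mul_eq_zero.1 h3).resolve_left hne
    · exact (mul_eq_zero.1 h4).resolve_left hne
  · intro h
    have h1 : ∃ e : X2, e ≠ 0 ∧ D e = μ • e := by
      by_cases k1 : (b, μ - a) = (0 : X2)
      · rw [Prod.ext_iff] at k1
        have k2 : b = 0 := k1.1
        have k3 : μ - a = 0 := k1.2
        by_cases k4 : (μ - d, c) = (0 : X2)
        · rw [Prod.ext_iff] at k4
          have k5 : μ - d = 0 := k4.1
          have k6 : c = 0 := k4.2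
          refine ⟨(1, 0), fun h => ?_, ?_⟩
          · have := congrArg Prod.fst h
            simp at this
          · rw [key]
            simp only [mul_one, mul_zero, add_zero]
            exact ⟨by linear_combination -k3, k6⟩
        · refine ⟨(μ - d, c), k4, ?_⟩
          rw [key]
          refine ⟨?_, ?_⟩
          · show a * (μ - d) + b * c = μ * (μ - d)
            linear_combination c * k2 - (μ - d) * k3
          · show c * (μ - d) + d * c = μ * c
            ring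
      · refine ⟨(b, μ - a), k1, ?_⟩
        rw [key]
        refine ⟨?_, ?_⟩
        · show a * b + b * (μ - a) = μ * b
          ring
        · show c * b + d * (μ - a) = μ * (μ - a)
          linear_combination -h
    obtain ⟨e, he, he'⟩ := h1
    refine Module.End.hasEigenvalue_of_hasEigenvector (x := e) ⟨?_, he⟩
    rw [Module.End.mem_eigenspace_iff]
    exact he'

theorem reduce2 {F₀ : Coef 2} (hF : Adm F₀) {n : ℕ} (hn : 1 ≤ n) {v₀ : X2} (hv : Neut F₀ n v₀) {η : ℝ}
    (hη : 0 < η) :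
    ∃ ε > 0, ∃ ρ > 0, ∃ ρz > 0, ε < η ∧ ρ < η ∧ ρz < η ∧ ∃ Z φ L : Coef 2 → ℂ → ℂ,
      DifferentiableOn ℂ (fun q : Coef 2 × ℂ => Z q.1 q.2) (ball F₀ ε ×ˢ ball v₀.2 ρ) ∧
      DifferentiableOn ℂ (fun q : Coef 2 × ℂ => φ q.1 q.2) (ball F₀ ε ×ˢ ball v₀.2 ρ) ∧
      DifferentiableOn ℂ (fun q : Coef 2 × ℂ => L q.1 q.2) (ball F₀ ε ×ˢ ball v₀.2 ρ) ∧
      (∀ F ∈ ball F₀ ε, ∀ w ∈ ball v₀.2 ρ, Z F w ∈ ball v₀.1 ρz) ∧
      (∀ F ∈ ball F₀ ε, ∀ z ∈ ball v₀.1 ρz, ∀ w ∈ ball v₀.2 ρ,
        ((T 2 F)^[n] (z, w) = (z, w) ↔ z = Z F w ∧ φ F w = 0)) ∧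
      (∀ F ∈ ball F₀ ε, ∀ w ∈ ball v₀.2 ρ, φ F w = 0 → Per F n (Z F w, w) ∧
        Eig F n (Z F w, w) (Complex.exp (L F w)) ∧
        ∀ μ, Eig F n (Z F w, w) μ → μ = Complex.exp (L F w) ∨ 1 < ‖μ‖) := by
  obtain ⟨hP, ν, hν, hν1⟩ := hv
  have hν0 : ν ≠ 0 := fun h => by rw [h, norm_zero] at hν1; exact zero_ne_one hν1
  -- the large eigenvalue
  obtain ⟨M, e, he, _, hDe, hM⟩ := cone_eig (fderiv ℂ ((T 2 F₀)^[n]) v₀) 1800 (by norm_num)
    (fun e he => dcone_iter hF hP.1 hn e he)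
  have hM' : Eig F₀ n v₀ M := by
    refine Module.End.hasEigenvalue_of_hasEigenvector (x := e) ⟨?_, he⟩
    rw [Module.End.mem_eigenspace_iff]
    exact hDe
  have hνM : ν - M ≠ 0 := fun h => by
    rw [sub_eq_zero.1 h] at hν1
    linarith
  -- the functions of the pair
  set q₀ : Coef 2 × X2 := (F₀, v₀) with hq₀
  let G : Coef 2 × X2 → X2 := fun q => (T 2 q.1)^[n] q.2
  have hG : AnalyticAt ℂ G q₀ := iter_analytic hF hP.1 n
  have hGe : ∀ᶠ q in 𝓝 q₀, AnalyticAt ℂ G q := hG.eventually_analyticAt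
  have hE : AnalyticAt ℂ (fderiv ℂ G) q₀ := hG.fderiv
  have hEe : ∀ᶠ q in 𝓝 q₀, AnalyticAt ℂ (fderiv ℂ G) q := hE.eventually_analyticAt
  have hpart : ∀ q : Coef 2 × X2, AnalyticAt ℂ G q → ∀ e : X2,
      fderiv ℂ ((T 2 q.1)^[n]) q.2 e = fderiv ℂ G q (0, e) := by
    intro q hq e
    have h1 : HasFDerivAt G (fderiv ℂ G q) q := hq.differentiableAt.hasFDerivAt
    have h2 : HasFDerivAt (fun v : X2 => (q.1, v)) (ContinuousLinearMap.inr ℂ (Coef 2) X2) q.2 :=
      hasFDerivAt_prodMk_right q.1 q.2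
    have h3 : HasFDerivAt (fun v : X2 => G (q.1, v))
        ((fderiv ℂ G q).comp (ContinuousLinearMap.inr ℂ (Coef 2) X2)) q.2 :=
      HasFDerivAt.comp (g := G) (f := fun v : X2 => (q.1, v)) q.2 h1 h2
    have h4 : fderiv ℂ ((T 2 q.1)^[n]) q.2
        = (fderiv ℂ G q).comp (ContinuousLinearMap.inr ℂ (Coef 2) X2) := h3.fderiv
    rw [h4]
    simp
  let fa : Coef 2 × X2 → ℂ := fun q => (fderiv ℂ G q (0, ((1, 0) : X2))).1
  let fc' : Coef 2 × X2 → ℂ := fun q => (fderiv ℂ G q (0, ((1, 0) : X2))).2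
  let fb : Coef 2 × X2 → ℂ := fun q => (fderiv ℂ G q (0, ((0, 1) : X2))).1
  let fd : Coef 2 × X2 → ℂ := fun q => (fderiv ℂ G q (0, ((0, 1) : X2))).2
  let tr : Coef 2 × X2 → ℂ := fun q => fa q + fd q
  let dt : Coef 2 × X2 → ℂ := fun q => fa q * fd q - fb q * fc' q
  let disc : Coef 2 × X2 → ℂ := fun q => tr q ^ 2 - 4 * dt q
  let lam : Coef 2 × X2 → ℂ := fun q =>
    (tr q + (ν - M) * Complex.exp (Complex.log (disc q / (ν - M) ^ 2) / 2)) / 2
  let Lt : Coef 2 × X2 → ℂ := fun q => Complex.log (lam q / ν) + Complex.log ν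
  have hχ : ∀ q : Coef 2 × X2, AnalyticAt ℂ G q → ∀ μ : ℂ,
      Eig q.1 n q.2 μ ↔ μ ^ 2 - tr q * μ + dt q = 0 := by
    intro q hq μ
    unfold Eig
    rw [D2_eig_iff, hpart q hq, hpart q hq]
  have h1 := (hχ q₀ hG ν).1 hν
  have h2 := (hχ q₀ hG M).1 hM'
  have htr : tr q₀ = ν + M := by
    have h3 : (ν - M) * (ν + M - tr q₀) = 0 := by linear_combination h1 - h2
    have h4 := (mul_eq_zero.1 h3).resolve_left hνM
    linear_combination -h4
  have hdt : dt q₀ = ν * M := by
    rw [htr] at h1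
    linear_combination h1
  have hdisc : disc q₀ = (ν - M) ^ 2 := by
    show tr q₀ ^ 2 - 4 * dt q₀ = (ν - M) ^ 2
    rw [htr, hdt]; ring
  have hlam : lam q₀ = ν := by
    show (tr q₀ + (ν - M) * Complex.exp (Complex.log (disc q₀ / (ν - M) ^ 2) / 2)) / 2 = ν
    rw [hdisc, div_self (pow_ne_zero 2 hνM), Complex.log_one, zero_div, Complex.exp_zero, htr]
    ring
  -- differentiability
  have hdE : ∀ q, AnalyticAt ℂ (fderiv ℂ G) q → DifferentiableAt ℂ fa q ∧ DifferentiableAt ℂ fb q ∧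
      DifferentiableAt ℂ fc' q ∧ DifferentiableAt ℂ fd q := by
    intro q hq
    have h3 : ∀ e : Coef 2 × X2, DifferentiableAt ℂ (fun q => fderiv ℂ G q e) q := fun e =>
      hq.differentiableAt.clm_apply (differentiableAt_const e)
    exact ⟨(h3 _).fst, (h3 _).fst, (h3 _).snd, (h3 _).snd⟩
  have htrd : ∀ q, AnalyticAt ℂ (fderiv ℂ G) q → DifferentiableAt ℂ tr q ∧ DifferentiableAt ℂ dt q ∧
      DifferentiableAt ℂ disc q := by
    intro q hq
    obtain ⟨k1, k2, k3, k4⟩ := hdE q hq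
    have k5 : DifferentiableAt ℂ tr q := k1.add k4
    have k6 : DifferentiableAt ℂ dt q := (k1.mul k4).sub (k2.mul k3)
    exact ⟨k5, k6, (k5.pow 2).sub (k6.const_mul 4)⟩
  have hld : ∀ q, AnalyticAt ℂ (fderiv ℂ G) q → disc q / (ν - M) ^ 2 ∈ Complex.slitPlane →
      DifferentiableAt ℂ lam q := by
    intro q hq hs
    obtain ⟨k5, k6, k7⟩ := htrd q hq
    have k7' : DifferentiableAt ℂ (fun q => disc q / (ν - M) ^ 2) q := by
      simp only [div_eq_mul_inv]
      exact k7.mul_const _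
    have k8 : DifferentiableAt ℂ (fun q => Complex.log (disc q / (ν - M) ^ 2)) q := k7'.clog hs
    have k9 : DifferentiableAt ℂ (fun q => Complex.log (disc q / (ν - M) ^ 2) / 2) q := by
      simp only [div_eq_mul_inv] at k8 ⊢
      exact k8.mul_const _
    have k10 : DifferentiableAt ℂ (fun q => tr q +
        (ν - M) * Complex.exp (Complex.log (disc q / (ν - M) ^ 2) / 2)) q :=
      k5.add (k9.cexp.const_mul (ν - M))
    show DifferentiableAt ℂ (fun q => (tr q +
        (ν - M) * Complex.exp (Complex.log (disc q / (ν - M) ^ 2) / 2)) / 2) q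
    simp only [div_eq_mul_inv] at k10 ⊢
    exact k10.mul_const _
  have hLd : ∀ q, AnalyticAt ℂ (fderiv ℂ G) q → disc q / (ν - M) ^ 2 ∈ Complex.slitPlane →
      lam q / ν ∈ Complex.slitPlane → DifferentiableAt ℂ Lt q := by
    intro q hq hs hs'
    have k1 : DifferentiableAt ℂ (fun q => lam q / ν) q := by
      have k0 := hld q hq hs
      simp only [div_eq_mul_inv]
      exact k0.mul_const _
    exact (k1.clog hs').add_const _
  have hs0 : disc q₀ / (ν - M) ^ 2 ∈ Complex.slitPlane := by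
    rw [hdisc, div_self (pow_ne_zero 2 hνM)]
    exact Complex.one_mem_slitPlane
  have hs0' : lam q₀ / ν ∈ Complex.slitPlane := by
    rw [hlam, div_self hν0]
    exact Complex.one_mem_slitPlane
  have e1 : ∀ᶠ q in 𝓝 q₀, disc q / (ν - M) ^ 2 ∈ Complex.slitPlane :=
    (((htrd q₀ hE).2.2.continuousAt).div_const _).eventually
      (Complex.isOpen_slitPlane.mem_nhds hs0)
  have e2 : ∀ᶠ q in 𝓝 q₀, lam q / ν ∈ Complex.slitPlane :=
    (((hld q₀ hE hs0).continuousAt).div_const _).eventually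
      (Complex.isOpen_slitPlane.mem_nhds hs0')
  have e3 : ∀ᶠ q in 𝓝 q₀, 1 < ‖tr q - lam q‖ := by
    have k1 : ContinuousAt (fun q => ‖tr q - lam q‖) q₀ :=
      (((htrd q₀ hE).1.continuousAt).sub ((hld q₀ hE hs0).continuousAt)).norm
    refine k1.eventually_const_lt ?_
    show 1 < ‖tr q₀ - lam q₀‖
    rw [htr, hlam, add_sub_cancel_left]
    linarith
  have e4 := per_nhds hF hn hP
  obtain ⟨δ, hδ, hN⟩ := Metric.eventually_nhds_iff_ball.1
    (hGe.and (hEe.and (e1.and (e2.and (e3.and e4)))))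
  obtain ⟨ε, hε, ρ, hρ, ρz, hρz, g1, g2, g3, Z, φ, hZ, hφ, hZm, hZφ⟩ :=
    reduce1 hF hn hP (lt_min hη hδ)
  have hmem : ∀ F ∈ ball F₀ ε, ∀ w ∈ ball v₀.2 ρ, ((F, (Z F w, w)) : Coef 2 × X2) ∈ ball q₀ δ := by
    intro F hF' w hw
    have k1 := hZm F hF' w hw
    rw [mem_ball] at hF' hw k1 ⊢
    rw [hq₀, Prod.dist_eq, Prod.dist_eq]
    have k2 := min_le_right η δ
    exact max_lt (by linarith) (max_lt (by linarith) (by linarith))
  refine ⟨ε, hε, ρ, hρ, ρz, hρz, g1.trans_le (min_le_left _ _), g2.trans_le (min_le_left _ _),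
    g3.trans_le (min_le_left _ _), Z, φ, fun F w => Lt (F, (Z F w, w)), hZ, hφ, ?_, hZm, hZφ, ?_⟩
  · intro p hp
    have hp' := hmem p.1 hp.1 p.2 hp.2
    obtain ⟨_, n2, n3, n4, _, _⟩ := hN _ hp'
    have k1 : DifferentiableWithinAt ℂ (fun q : Coef 2 × ℂ => ((q.1, (Z q.1 q.2, q.2)) : Coef 2 × X2))
        (ball F₀ ε ×ˢ ball v₀.2 ρ) p :=
      (differentiableWithinAt_fst).prodMk ((hZ p hp).prodMk differentiableWithinAt_snd)
    exact (hLd _ n2 n3 n4).comp_differentiableWithinAt p k1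
  · intro F hF' w hw hφ0
    have hp' := hmem F hF' w hw
    obtain ⟨n1, n2, n3, n4, n5, n6⟩ := hN _ hp'
    have hfix : (T 2 F)^[n] (Z F w, w) = (Z F w, w) :=
      (hZφ F hF' _ (hZm F hF' w hw) w hw).2 ⟨rfl, hφ0⟩
    set q : Coef 2 × X2 := (F, (Z F w, w)) with hq
    have hexp : Complex.exp (Lt q) = lam q := by
      show Complex.exp (Complex.log (lam q / ν) + Complex.log ν) = lam q
      rw [Complex.exp_add, Complex.exp_log (Complex.slitPlane_ne_zero n4), Complex.exp_log hν0,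
        div_mul_cancel₀ _ hν0]
    have hroot : lam q ^ 2 - tr q * lam q + dt q = 0 := by
      set x := Complex.exp (Complex.log (disc q / (ν - M) ^ 2) / 2) with hx
      have k1 : x ^ 2 = disc q / (ν - M) ^ 2 := by
        rw [hx, ← Complex.exp_nat_mul]
        have k2 : ((2 : ℕ) : ℂ) * (Complex.log (disc q / (ν - M) ^ 2) / 2)
            = Complex.log (disc q / (ν - M) ^ 2) := by
          push_cast; ring
        rw [k2, Complex.exp_log (Complex.slitPlane_ne_zero n3)]
      have k2 : ((ν - M) * x) ^ 2 = disc q := by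
        rw [mul_pow, k1, mul_div_cancel₀]
        exact pow_ne_zero 2 hνM
      have k3 : lam q = (tr q + (ν - M) * x) / 2 := rfl
      have k4 : disc q = tr q ^ 2 - 4 * dt q := rfl
      rw [k4] at k2
      rw [k3]
      linear_combination (1 / 4 : ℂ) * k2
    refine ⟨n6 hfix, ?_, ?_⟩
    · show Eig F n (Z F w, w) (Complex.exp (Lt q))
      rw [hexp]
      exact (hχ q n1 _).2 hroot
    · intro μ hμ
      show μ = Complex.exp (Lt q) ∨ 1 < ‖μ‖
      rw [hexp]
      have k1 := (hχ q n1 μ).1 hμ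
      have k2 : (μ - lam q) * (μ - (tr q - lam q)) = 0 := by
        linear_combination k1 - hroot
      rcases mul_eq_zero.1 k2 with k3 | k3
      · left; exact sub_eq_zero.1 k3
      · right
        rw [sub_eq_zero.1 k3]
        exact n5

end NB
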