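import Pool.Agent.NB.D1
/-!
D3. The periodic points of period `n` in `K F` are isolated, hence finitely many.
`A = {v | Per F n v}` is compact (`K_compact`, continuity of the iterate on `K F`).  Suppose the set `A'` of
its accumulation points is nonempty; it is compact, let `v* ∈ A'` have maximal `‖v.2‖`.  By D1 (with
`F = F₀` fixed) `A` near `v*` is `{(Z w, w) | φ w = 0}` (use `per_nhds` for points near `v*`), so `v*.2` is a
nonisolated zero of the analytic function `φ`, which vanishes near `v*.2`.  Then all `(Z w, w)`, `w` near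
`v*.2`, are in `A'`, and some of them have a larger `‖w‖`.
-/
open Set Metric Filter Topology
open SkewBif
namespace NB

theorem per_finite {F : Coef 2} (hF : Adm F) {n : ℕ} (hn : 1 ≤ n) : {v | Per F n v}.Finite := by
  set A : Set X2 := {v | Per F n v} with hA
  have hAcl : IsClosed A := by
    apply isClosed_of_closure_subset
    intro v₀ hv₀
    show Per F n v₀
    apply per_limit hF
    intro ε hε
    obtain ⟨v, hv, hd⟩ := Metric.mem_closure_iff.1 hv₀ ε hε
    exact ⟨F, v, by rwa [dist_self], by rwa [dist_comm], hv⟩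
  have hAc : IsCompact A := (K_compact hF).of_isClosed_subset hAcl (fun v hv => hv.1)
  by_contra hfin
  have hinf : A.Infinite := hfin
  obtain ⟨x, hxA, hx⟩ := hinf.exists_accPt_of_subset_isCompact hAc subset_rfl
  have hA'c : IsCompact (derivedSet A) :=
    hAc.of_isClosed_subset (isClosed_derivedSet A) ((isClosed_iff_derivedSet_subset A).1 hAcl)
  obtain ⟨v, hv, hmax⟩ := hA'c.exists_isMaxOn ⟨x, hx⟩
    (f := fun v : X2 => ‖v.2‖) (continuous_snd.norm).continuousOn
  have hvA : Per F n v := (isClosed_iff_derivedSet_subset A).1 hAcl hv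
  obtain ⟨ε, hε, ρ, hρ, ρz, hρz, -, -, -, Z, φ, hZ, hφ, hZm, hiff⟩ :=
    reduce1 hF hn hvA (η := 1) one_pos
  have hFm : F ∈ ball F ε := mem_ball_self hε
  have hslice : ∀ f : Coef 2 → ℂ → ℂ,
      DifferentiableOn ℂ (fun q : Coef 2 × ℂ => f q.1 q.2) (ball F ε ×ˢ ball v.2 ρ) →
      DifferentiableOn ℂ (f F) (ball v.2 ρ) := by
    intro f hf w hw
    have h1 : DifferentiableAt ℂ (fun q : Coef 2 × ℂ => f q.1 q.2) (F, w) :=
      hf.differentiableAt ((isOpen_ball.prod isOpen_ball).mem_nhds ⟨hFm, hw⟩)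
    have h2 : DifferentiableAt ℂ (fun w : ℂ => (F, w)) w :=
      (differentiableAt_const F).prodMk differentiableAt_id
    exact (h1.comp w h2).differentiableWithinAt
  have hψ : AnalyticOnNhd ℂ (φ F) (ball v.2 ρ) := (hslice φ hφ).analyticOnNhd isOpen_ball
  have hZc : ContinuousOn (Z F) (ball v.2 ρ) := (hslice Z hZ).continuousOn
  have hv2 : v.2 ∈ ball v.2 ρ := mem_ball_self hρ
  have hv1 : v.1 ∈ ball v.1 ρz := mem_ball_self hρz
  have hvZ : v.1 = Z F v.2 ∧ φ F v.2 = 0 := (hiff F hFm v.1 hv1 v.2 hv2).1 hvA.2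
  -- the function `φ F` vanishes
  have hfr : ∃ᶠ w in 𝓝[≠] v.2, φ F w = 0 := by
    have h1 := accPt_iff_frequently.1 hv
    have h2 : ∀ᶠ y : X2 in 𝓝 v, y.1 ∈ ball v.1 ρz ∧ y.2 ∈ ball v.2 ρ := by
      have ha : ∀ᶠ y : X2 in 𝓝 v, y.1 ∈ ball v.1 ρz :=
        continuous_fst.continuousAt.eventually (isOpen_ball.mem_nhds hv1)
      have hb : ∀ᶠ y : X2 in 𝓝 v, y.2 ∈ ball v.2 ρ :=
        continuous_snd.continuousAt.eventually (isOpen_ball.mem_nhds hv2)
      exact ha.and hb
    rw [frequently_nhdsWithin_iff]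
    have h3 : ∃ᶠ y : X2 in 𝓝 v, φ F y.2 = 0 ∧ y.2 ∈ ({v.2}ᶜ : Set ℂ) := by
      refine (h1.and_eventually h2).mono ?_
      rintro y ⟨⟨hne, hyA⟩, hy1, hy2⟩
      have h4 := (hiff F hFm y.1 hy1 y.2 hy2).1 hyA.2
      refine ⟨h4.2, fun h5 => hne ?_⟩
      rw [mem_singleton_iff] at h5
      apply Prod.ext
      · rw [h4.1, h5, ← hvZ.1]
      · exact h5
    exact (continuous_snd.continuousAt (x := v)).tendsto.frequently h3
  have hzero : EqOn (φ F) 0 (ball v.2 ρ) :=
    hψ.eqOn_zero_of_preconnected_of_frequently_eq_zero (convex_ball _ _).isPreconnected hv2 hfr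
  -- points of the curve
  have hg : ∀ w ∈ ball v.2 ρ, ContinuousAt (fun w => (Z F w, w)) w := fun w hw =>
    (hZc.continuousAt (isOpen_ball.mem_nhds hw)).prodMk continuousAt_id
  have hgv : (Z F v.2, v.2) = v := Prod.ext hvZ.1.symm rfl
  have hper : ∀ᶠ w in 𝓝 v.2, (Z F w, w) ∈ A := by
    have h1 := per_nhds hF hn hvA
    have h2 : Tendsto (fun w : ℂ => (F, (Z F w, w))) (𝓝 v.2) (𝓝 (F, v)) := by
      have h3 : ContinuousAt (fun w : ℂ => (F, (Z F w, w))) v.2 :=
        continuousAt_const.prodMk (hg v.2 hv2)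
      have h4 := h3.tendsto
      rwa [hgv] at h4
    filter_upwards [h2.eventually h1, isOpen_ball.mem_nhds hv2] with w hw hwb
    apply hw
    have h5 : Z F w ∈ ball v.1 ρz := hZm F hFm w hwb
    exact (hiff F hFm (Z F w) h5 w hwb).2 ⟨rfl, hzero hwb⟩
  have hacc : ∀ᶠ w in 𝓝 v.2, (Z F w, w) ∈ derivedSet A := by
    filter_upwards [hper.eventually_nhds, isOpen_ball.mem_nhds hv2] with w hw hwb
    show AccPt (Z F w, w) (𝓟 A)
    rw [accPt_iff_frequently]
    have h1 : Tendsto (fun w => (Z F w, w)) (𝓝[≠] w) (𝓝 (Z F w, w)) :=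
      (hg w hwb).tendsto.mono_left nhdsWithin_le_nhds
    refine h1.frequently (Eventually.frequently ?_)
    filter_upwards [nhdsWithin_le_nhds hw, self_mem_nhdsWithin] with w' h2 h3
    refine ⟨fun h4 => h3 ?_, h2⟩
    exact congrArg Prod.snd h4
  have hle : ∀ᶠ w in 𝓝 v.2, ‖w‖ ≤ ‖v.2‖ := hacc.mono fun w hw => hmax hw
  -- contradiction
  obtain ⟨u, hu⟩ : ∃ u : ℂ, ∀ t : ℝ, 0 < t → ‖v.2 + t * u‖ = ‖v.2‖ + t := by
    by_cases h0 : v.2 = 0
    · refine ⟨1, fun t ht => ?_⟩
      rw [h0, zero_add, norm_zero, zero_add, mul_one, Complex.norm_real, Real.norm_eq_abs,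
        abs_of_pos ht]
    · have hpos : 0 < ‖v.2‖ := norm_pos_iff.2 h0
      refine ⟨v.2 / ‖v.2‖, fun t ht => ?_⟩
      have e : v.2 + t * (v.2 / ‖v.2‖) = ((1 + t / ‖v.2‖ : ℝ) : ℂ) * v.2 := by
        push_cast
        ring
      rw [e, norm_mul, Complex.norm_real, Real.norm_eq_abs, abs_of_pos (by positivity)]
      field_simp
  have ht : Tendsto (fun t : ℝ => v.2 + t * u) (𝓝[>] 0) (𝓝 v.2) := by
    have hc : Continuous (fun t : ℝ => v.2 + t * u) := by fun_prop
    have := (hc.tendsto 0).mono_left (nhdsWithin_le_nhds (s := Ioi (0 : ℝ)))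
    simpa using this
  obtain ⟨t, h1, h2⟩ := ((ht.eventually hle).and self_mem_nhdsWithin).exists
  have h3 : (0 : ℝ) < t := h2
  rw [hu t h3] at h1
  linarith

end NB
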