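import Mathlib
/-!
Z2. A circle integral depending holomorphically on a parameter.  The integrand
`L s w * (∂_w φ s w / φ s w)` is jointly continuous on `ball s₀ δ ×ˢ sphere a ρ` and holomorphic in `s`
(`∂_w φ` is jointly holomorphic, by joint analyticity of `φ`).  Use differentiation under the
integral sign (`hasDerivAt_integral_of_dominated_loc_of_deriv_le`) on compact subdiscs.
-/
open Set Metric Filter Topology
namespace NB

/-- Holomorphy of a parameter integral. -/
theorem Z2_integral {α : Type*} {m : MeasurableSpace α} {μ : MeasureTheory.Measure α}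
    {F : ℂ → α → ℂ} {s₀ : ℂ} {r : ℝ} (hr : 0 < r)
    (hd : ∀ a, DifferentiableOn ℂ (fun s => F s a) (ball s₀ r))
    (hm : ∀ s ∈ ball s₀ r, MeasureTheory.AEStronglyMeasurable (F s) μ)
    {b : α → ℝ} (hb : MeasureTheory.Integrable b μ)
    (hbd : ∀ s ∈ ball s₀ r, ∀ a, ‖F s a‖ ≤ b a) :
    DifferentiableAt ℂ (fun s => ∫ a, F s a ∂μ) s₀ := by
  set F' : ℂ → α → ℂ := fun s a => deriv (fun s => F s a) s with hF'
  have hs₀ : s₀ ∈ ball s₀ r := mem_ball_self hr
  have hdiff : ∀ a, ∀ s ∈ ball s₀ r, HasDerivAt (fun s => F s a) (F' s a) s := by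
    intro a s hs
    exact ((hd a).differentiableAt (isOpen_ball.mem_nhds hs)).hasDerivAt
  have hF'm : MeasureTheory.AEStronglyMeasurable (F' s₀) μ := by
    have hlim : ∀ a, Tendsto (fun n : ℕ => ((r / (n + 2) : ℝ) : ℂ)⁻¹ •
        (F (s₀ + ((r / (n + 2) : ℝ) : ℂ)) a - F s₀ a)) atTop (𝓝 (F' s₀ a)) := by
      intro a
      have h1 := (hasDerivAt_iff_tendsto_slope_zero.1 (hdiff a s₀ hs₀))
      have h2 : Tendsto (fun n : ℕ => ((r / (n + 2) : ℝ) : ℂ)) atTop (𝓝[≠] 0) := by
        rw [tendsto_nhdsWithin_iff]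
        constructor
        · have h3 : Tendsto (fun n : ℕ => r / ((n : ℝ) + 2)) atTop (𝓝 0) := by
            apply tendsto_const_nhds.div_atTop
            exact tendsto_atTop_add_const_right _ _ tendsto_natCast_atTop_atTop
          have h4 := (Complex.continuous_ofReal.tendsto 0).comp h3
          rw [Complex.ofReal_zero] at h4
          exact h4
        · refine Eventually.of_forall fun n => ?_
          have : r / ((n : ℝ) + 2) ≠ 0 := by positivity
          rw [mem_compl_iff, mem_singleton_iff, Complex.ofReal_eq_zero]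
          exact this
      exact h1.comp h2
    refine aestronglyMeasurable_of_tendsto_ae atTop (fun n : ℕ => ?_)
      (MeasureTheory.ae_of_all _ hlim)
    have hms : s₀ + ((r / (n + 2) : ℝ) : ℂ) ∈ ball s₀ r := ?_
    · exact ((hm _ hms).sub (hm s₀ hs₀)).const_smul (((r / (n + 2) : ℝ) : ℂ)⁻¹)
    rw [mem_ball, dist_eq_norm, add_sub_cancel_left, Complex.norm_real, Real.norm_eq_abs,
      abs_of_pos (by positivity)]
    rw [div_lt_iff₀ (by positivity)]
    have : (0 : ℝ) ≤ n := Nat.cast_nonneg n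
    nlinarith
  have hr2 : 0 < r / 2 := by positivity
  have hnhds : ball s₀ (r / 2) ∈ 𝓝 s₀ := ball_mem_nhds _ hr2
  have hbound : ∀ a, ∀ s ∈ ball s₀ (r / 2), ‖F' s a‖ ≤ b a / (r / 2) := by
    intro a s hs
    have hsub : closedBall s (r / 2) ⊆ ball s₀ r := by
      intro w hw
      rw [mem_closedBall] at hw
      rw [mem_ball] at hs ⊢
      linarith [dist_triangle w s s₀]
    apply Complex.norm_deriv_le_of_forall_mem_sphere_norm_le hr2
    · apply DifferentiableOn.diffContOnCl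
      rw [closure_ball _ hr2.ne']
      exact (hd a).mono hsub
    · intro z hz
      exact hbd z (hsub (sphere_subset_closedBall hz)) a
  have hint : MeasureTheory.Integrable (F s₀) μ :=
    hb.mono' (hm s₀ hs₀) (MeasureTheory.ae_of_all _ fun a => hbd s₀ hs₀ a)
  have hmeas : ∀ᶠ s in 𝓝 s₀, MeasureTheory.AEStronglyMeasurable (F s) μ := by
    filter_upwards [ball_mem_nhds s₀ hr] with s hs using hm s hs
  have hsub2 : ball s₀ (r / 2) ⊆ ball s₀ r := ball_subset_ball (by linarith)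
  exact (hasDerivAt_integral_of_dominated_loc_of_deriv_le hnhds hmeas hint hF'm
    (MeasureTheory.ae_of_all _ fun a s hs => hbound a s hs) (hb.div_const _)
    (MeasureTheory.ae_of_all _ fun a s hs => hdiff a s (hsub2 hs))).2.differentiableAt

/-- A circle integral of a continuous function which is holomorphic in the parameter. -/
theorem Z2_circle {s₀ a : ℂ} {δ ρ : ℝ} (hρ : 0 < ρ) {f : ℂ → ℂ → ℂ}
    (hc : ContinuousOn (fun q : ℂ × ℂ => f q.1 q.2) (ball s₀ δ ×ˢ sphere a ρ))
    (hd : ∀ w ∈ sphere a ρ, DifferentiableOn ℂ (fun s => f s w) (ball s₀ δ)) :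
    DifferentiableOn ℂ (fun s => ∮ w in C(a, ρ), f s w) (ball s₀ δ) := by
  intro s₁ hs₁
  apply DifferentiableAt.differentiableWithinAt
  obtain ⟨r, hr, hrO⟩ := nhds_basis_closedBall.mem_iff.1 (isOpen_ball.mem_nhds hs₁)
  have hK : IsCompact (closedBall s₁ r ×ˢ sphere a ρ) :=
    (isCompact_closedBall s₁ r).prod (isCompact_sphere a ρ)
  obtain ⟨C, hC⟩ := hK.exists_bound_of_continuousOn (hc.mono (prod_mono hrO Subset.rfl))
  have hcm : ∀ θ, circleMap a ρ θ ∈ sphere a ρ := circleMap_mem_sphere a hρ.le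
  have hpi : (0 : ℝ) ≤ 2 * Real.pi := by positivity
  have key : (fun s => ∮ w in C(a, ρ), f s w) = fun s =>
      ∫ θ, deriv (circleMap a ρ) θ • f s (circleMap a ρ θ)
        ∂(MeasureTheory.volume.restrict (Ioc 0 (2 * Real.pi))) := by
    funext s
    rw [circleIntegral, intervalIntegral.integral_of_le hpi]
  rw [key]
  apply Z2_integral hr (b := fun _ => ρ * C)
  · intro θ
    exact ((hd _ (hcm θ)).mono (ball_subset_closedBall.trans hrO)).const_smul
      (deriv (circleMap a ρ) θ)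
  · intro s hs
    have hs' : s ∈ ball s₀ δ := hrO (ball_subset_closedBall hs)
    have h1 : Continuous fun θ => f s (circleMap a ρ θ) :=
      hc.comp_continuous (continuous_const.prodMk (continuous_circleMap a ρ))
        fun θ => ⟨hs', hcm θ⟩
    have h2 : Continuous (deriv (circleMap a ρ)) := by
      have : deriv (circleMap a ρ) = fun θ => circleMap 0 ρ θ * Complex.I := by
        funext θ; exact deriv_circleMap a ρ θ
      rw [this]
      exact (continuous_circleMap 0 ρ).mul continuous_const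
    exact (h2.smul h1).aestronglyMeasurable
  · have : MeasureTheory.IsFiniteMeasure
        (MeasureTheory.volume.restrict (Ioc (0 : ℝ) (2 * Real.pi))) := inferInstance
    exact MeasureTheory.integrable_const _
  · intro s hs θ
    rw [norm_smul, deriv_circleMap, norm_mul, Complex.norm_I, mul_one, norm_circleMap_zero,
      abs_of_pos hρ]
    exact mul_le_mul_of_nonneg_left (hC (s, circleMap a ρ θ)
      ⟨ball_subset_closedBall hs, hcm θ⟩) hρ.le

theorem Z2_lip {g : ℂ → ℂ} {c : ℂ} {r M : ℝ} (hr : 0 < r)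
    (hg : DifferentiableOn ℂ g (ball c (2 * r))) (hb : ∀ z ∈ ball c (2 * r), ‖g z‖ ≤ M) :
    ∀ z ∈ ball c r, ∀ z' ∈ ball c r, ‖g z - g z'‖ ≤ M / r * ‖z - z'‖ := by
  intro z hz z' hz'
  refine (convex_ball c r).norm_image_sub_le_of_norm_deriv_le (𝕜 := ℂ)
    (fun x hx => hg.differentiableAt (isOpen_ball.mem_nhds ?_)) (fun x hx => ?_) hz' hz
  · exact ball_subset_ball (by linarith) hx
  · have hsub : closedBall x r ⊆ ball c (2 * r) := by
      intro w hw
      rw [mem_closedBall] at hw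
      rw [mem_ball] at hx ⊢
      linarith [dist_triangle w x c]
    apply Complex.norm_deriv_le_of_forall_mem_sphere_norm_le hr
    · apply DifferentiableOn.diffContOnCl
      rw [closure_ball _ hr.ne']
      exact hg.mono hsub
    · intro w hw
      exact hb w (hsub (sphere_subset_closedBall hw))

section

variable {s₀ a : ℂ} {δ ρ' : ℝ} {φ : ℂ → ℂ → ℂ}

theorem Z2_slice1 (hφ : DifferentiableOn ℂ (fun q : ℂ × ℂ => φ q.1 q.2)
    (ball s₀ δ ×ˢ ball a ρ')) {w : ℂ} (hw : w ∈ ball a ρ') :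
    DifferentiableOn ℂ (fun s => φ s w) (ball s₀ δ) := by
  have h1 : DifferentiableOn ℂ (fun s : ℂ => (s, w)) (ball s₀ δ) :=
    (differentiable_id.prodMk (differentiable_const w)).differentiableOn
  exact hφ.comp h1 fun s hs => ⟨hs, hw⟩

theorem Z2_slice2 (hφ : DifferentiableOn ℂ (fun q : ℂ × ℂ => φ q.1 q.2)
    (ball s₀ δ ×ˢ ball a ρ')) {s : ℂ} (hs : s ∈ ball s₀ δ) :
    DifferentiableOn ℂ (φ s) (ball a ρ') := by
  have h1 : DifferentiableOn ℂ (fun w : ℂ => (s, w)) (ball a ρ') :=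
    ((differentiable_const s).prodMk differentiable_id).differentiableOn
  exact hφ.comp h1 fun w hw => ⟨hs, hw⟩

/-- The derivative in the second variable is holomorphic in the first variable. -/
theorem Z2_deriv_hol (hφ : DifferentiableOn ℂ (fun q : ℂ × ℂ => φ q.1 q.2)
    (ball s₀ δ ×ˢ ball a ρ')) {w : ℂ} (hw : w ∈ ball a ρ') :
    DifferentiableOn ℂ (fun s => deriv (φ s) w) (ball s₀ δ) := by
  obtain ⟨r, hr, hrO⟩ := nhds_basis_closedBall.mem_iff.1 (isOpen_ball.mem_nhds hw)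
  have h1 : ∀ s ∈ ball s₀ δ, deriv (φ s) w
      = (2 * Real.pi * Complex.I : ℂ)⁻¹ • ∮ ζ in C(w, r), (ζ - w)⁻¹ ^ 2 * φ s ζ := by
    intro s hs
    have h2 := Complex.two_pi_I_inv_smul_circleIntegral_sub_sq_inv_smul_of_differentiable
      (U := ball a ρ') isOpen_ball hrO (Z2_slice2 hφ hs) (mem_ball_self hr)
    rw [← h2]
    congr 1
    refine circleIntegral.integral_congr hr.le fun ζ _ => ?_
    simp [smul_eq_mul]
  have h3 : DifferentiableOn ℂ (fun s => ∮ ζ in C(w, r), (ζ - w)⁻¹ ^ 2 * φ s ζ)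
      (ball s₀ δ) := by
    apply Z2_circle hr
    · apply ContinuousOn.mul
      · apply ContinuousOn.pow
        apply ContinuousOn.inv₀
        · exact (continuous_snd.sub continuous_const).continuousOn
        · rintro ⟨s, ζ⟩ ⟨_, hζ⟩
          simp only [mem_sphere_iff_norm] at hζ
          intro h0
          simp only at h0
          rw [h0, norm_zero] at hζ
          linarith
      · exact hφ.continuousOn.mono (prod_mono Subset.rfl (sphere_subset_closedBall.trans hrO))
    · intro ζ hζ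
      exact (Z2_slice1 hφ (hrO (sphere_subset_closedBall hζ))).const_mul _
  exact (h3.const_smul ((2 * Real.pi * Complex.I : ℂ)⁻¹)).congr h1

/-- The derivative in the second variable is jointly continuous. -/
theorem Z2_deriv_cont (hφ : DifferentiableOn ℂ (fun q : ℂ × ℂ => φ q.1 q.2)
    (ball s₀ δ ×ˢ ball a ρ')) :
    ContinuousOn (fun q : ℂ × ℂ => deriv (φ q.1) q.2) (ball s₀ δ ×ˢ ball a ρ') := by
  rintro ⟨s₁, w₁⟩ ⟨hs₁, hw₁⟩
  apply ContinuousAt.continuousWithinAt
  simp only at hs₁ hw₁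
  obtain ⟨r₁, hr₁, hrO₁⟩ := nhds_basis_closedBall.mem_iff.1 (isOpen_ball.mem_nhds hs₁)
  obtain ⟨r₂, hr₂, hrO₂⟩ := nhds_basis_closedBall.mem_iff.1 (isOpen_ball.mem_nhds hw₁)
  set r := min r₁ r₂ / 3 with hrdef
  have hr : 0 < r := by
    have := lt_min hr₁ hr₂
    positivity
  have hm1 : 3 * r ≤ r₁ := by
    have := min_le_left r₁ r₂
    rw [hrdef]; linarith
  have hm2 : 3 * r ≤ r₂ := by
    have := min_le_right r₁ r₂
    rw [hrdef]; linarith
  have hK : IsCompact (closedBall s₁ r₁ ×ˢ closedBall w₁ r₂) :=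
    (isCompact_closedBall s₁ r₁).prod (isCompact_closedBall w₁ r₂)
  obtain ⟨M, hM⟩ := hK.exists_bound_of_continuousOn (hφ.continuousOn.mono (prod_mono hrO₁ hrO₂))
  have hb : ∀ s ∈ ball s₁ (2 * r), ∀ w ∈ ball w₁ (2 * r), ‖deriv (φ s) w‖ ≤ M / r := by
    intro s hs w hw
    have hs1 : s ∈ closedBall s₁ r₁ := by
      rw [mem_ball] at hs
      rw [mem_closedBall]
      linarith
    have hsub : closedBall w r ⊆ closedBall w₁ r₂ := by
      intro z hz
      rw [mem_closedBall] at hz ⊢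
      rw [mem_ball] at hw
      linarith [dist_triangle z w w₁]
    apply Complex.norm_deriv_le_of_forall_mem_sphere_norm_le hr
    · apply DifferentiableOn.diffContOnCl
      rw [closure_ball _ hr.ne']
      exact (Z2_slice2 hφ (hrO₁ hs1)).mono (hsub.trans hrO₂)
    · intro z hz
      exact hM (s, z) ⟨hs1, hsub (sphere_subset_closedBall hz)⟩
  have hlip : ∀ s ∈ ball s₁ r, ∀ w ∈ ball w₁ r,
      ‖deriv (φ s) w - deriv (φ s₁) w₁‖ ≤ M / r / r * (‖s - s₁‖ + ‖w - w₁‖) := by
    intro s hs w hw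
    have hw2 : w ∈ ball w₁ (2 * r) := ball_subset_ball (by linarith) hw
    have hw' : w ∈ ball a ρ' := hrO₂ (by
      rw [mem_ball] at hw
      rw [mem_closedBall]
      linarith)
    have e1 := Z2_lip hr ((Z2_deriv_hol hφ hw').mono (s := ball s₁ (2 * r)) (fun z hz => hrO₁ (by
      rw [mem_ball] at hz
      rw [mem_closedBall]
      linarith))) (fun z hz => hb z hz w hw2) s hs s₁ (mem_ball_self hr)
    have hd2 : DifferentiableOn ℂ (deriv (φ s₁)) (ball w₁ (2 * r)) := by
      have := (Z2_slice2 hφ (hrO₁ (mem_closedBall_self hr₁.le))).deriv isOpen_ball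
      refine this.mono fun z hz => hrO₂ ?_
      rw [mem_ball] at hz
      rw [mem_closedBall]
      linarith
    have e2 := Z2_lip hr hd2 (fun z hz => hb s₁ (mem_ball_self (by linarith)) z hz) w hw w₁
      (mem_ball_self hr)
    calc ‖deriv (φ s) w - deriv (φ s₁) w₁‖
        = ‖(deriv (φ s) w - deriv (φ s₁) w) + (deriv (φ s₁) w - deriv (φ s₁) w₁)‖ := by
          congr 1; ring
      _ ≤ ‖deriv (φ s) w - deriv (φ s₁) w‖ + ‖deriv (φ s₁) w - deriv (φ s₁) w₁‖ :=
          norm_add_le _ _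
      _ ≤ M / r / r * ‖s - s₁‖ + M / r / r * ‖w - w₁‖ := add_le_add e1 e2
      _ = M / r / r * (‖s - s₁‖ + ‖w - w₁‖) := by ring
  rw [ContinuousAt, tendsto_iff_norm_sub_tendsto_zero]
  have hz : Tendsto (fun q : ℂ × ℂ => M / r / r * (‖q.1 - s₁‖ + ‖q.2 - w₁‖)) (𝓝 (s₁, w₁))
      (𝓝 0) := by
    have : Continuous (fun q : ℂ × ℂ => M / r / r * (‖q.1 - s₁‖ + ‖q.2 - w₁‖)) := by fun_prop
    have h := this.tendsto (s₁, w₁)
    simpa using h
  refine squeeze_zero_norm' ?_ hz
  have hn : ball s₁ r ×ˢ ball w₁ r ∈ 𝓝 (s₁, w₁) :=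
    prod_mem_nhds (ball_mem_nhds _ hr) (ball_mem_nhds _ hr)
  filter_upwards [hn] with q hq
  rw [norm_norm]
  exact hlip q.1 hq.1 q.2 hq.2

end

theorem param_int {s₀ a : ℂ} {δ ρ ρ' : ℝ} (hρ : 0 < ρ) (hρ' : ρ < ρ') {φ L : ℂ → ℂ → ℂ}
    (hφ : DifferentiableOn ℂ (fun q : ℂ × ℂ => φ q.1 q.2) (ball s₀ δ ×ˢ ball a ρ'))
    (hL : DifferentiableOn ℂ (fun q : ℂ × ℂ => L q.1 q.2) (ball s₀ δ ×ˢ ball a ρ'))
    (hne : ∀ s ∈ ball s₀ δ, ∀ w ∈ sphere a ρ, φ s w ≠ 0) :
    DifferentiableOn ℂ (fun s => ∮ w in C(a, ρ), L s w * (deriv (φ s) w / φ s w)) (ball s₀ δ) := by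
  have hsub : sphere a ρ ⊆ ball a ρ' := by
    intro w hw
    rw [mem_sphere] at hw
    rw [mem_ball]
    linarith
  have hprod : ball s₀ δ ×ˢ sphere a ρ ⊆ ball s₀ δ ×ˢ ball a ρ' := prod_mono Subset.rfl hsub
  apply Z2_circle hρ
  · apply (hL.continuousOn.mono hprod).mul
    apply ((Z2_deriv_cont hφ).mono hprod).div (hφ.continuousOn.mono hprod)
    rintro ⟨s, w⟩ ⟨hs, hw⟩
    exact hne s hs w hw
  · intro w hw
    apply (Z2_slice1 hL (hsub hw)).mul
    exact (Z2_deriv_hol hφ (hsub hw)).div (Z2_slice1 hφ (hsub hw)) fun s hs => hne s hs w hw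

end NB
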