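import Pool.Agent.NB.Z1
import Pool.Agent.NB.Z2
/-!
Z3. Minimum principle for the sum of the real parts of `L` over the zeros of `φ s`.
`S s = (2πi)⁻¹ ∮ L φ_w / φ` is holomorphic on `ball 0 2`, `Re S s = ∑ m_i Re L (s, w_i) ≥ 0`, and
`Re S 0 = 0`; so `‖exp (- S)‖ ≤ 1` has a maximum at `0`, is constant, and `Re S ≡ 0`; at `s = 1` all terms
vanish (multiplicities `≥ 1`).
-/
open Set Metric Filter Topology
namespace NB

theorem zero_min {a : ℂ} {ρ ρ' : ℝ} (hρ : 0 < ρ) (hρ' : ρ < ρ') {φ L : ℂ → ℂ → ℂ}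
    (hφ : DifferentiableOn ℂ (fun q : ℂ × ℂ => φ q.1 q.2) (ball 0 2 ×ˢ ball a ρ'))
    (hL : DifferentiableOn ℂ (fun q : ℂ × ℂ => L q.1 q.2) (ball 0 2 ×ˢ ball a ρ'))
    (hne : ∀ s ∈ ball (0 : ℂ) 2, ∀ w ∈ sphere a ρ, φ s w ≠ 0)
    (hpos : ∀ s ∈ ball (0 : ℂ) 2, ∀ w ∈ ball a ρ, φ s w = 0 → 0 ≤ (L s w).re)
    (h0 : ∀ w ∈ ball a ρ, φ 0 w = 0 → (L 0 w).re = 0) :
    ∀ w ∈ ball a ρ, φ 1 w = 0 → (L 1 w).re = 0 := by
  have hc : (2 * Real.pi * Complex.I : ℂ) ≠ 0 := Complex.two_pi_I_ne_zero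
  have hsl : ∀ s ∈ ball (0 : ℂ) 2, ∀ f : ℂ → ℂ → ℂ,
      DifferentiableOn ℂ (fun q : ℂ × ℂ => f q.1 q.2) (ball 0 2 ×ˢ ball a ρ') →
      DifferentiableOn ℂ (f s) (ball a ρ') := by
    intro s hs f hf w hw
    have h1 : DifferentiableAt ℂ (fun q : ℂ × ℂ => f q.1 q.2) (s, w) :=
      hf.differentiableAt ((isOpen_ball.prod isOpen_ball).mem_nhds ⟨hs, hw⟩)
    have h2 : DifferentiableAt ℂ (fun w : ℂ => (s, w)) w :=
      (differentiableAt_const s).prodMk differentiableAt_id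
    exact (h1.comp w h2).differentiableWithinAt
  have hz : ∀ s ∈ ball (0 : ℂ) 2, ∃ (Z : Finset ℂ) (m : ℂ → ℕ),
      (∀ w, w ∈ Z ↔ w ∈ ball a ρ ∧ φ s w = 0) ∧ (∀ w ∈ Z, 1 ≤ m w) ∧
      (∮ w in C(a, ρ), L s w * (deriv (φ s) w / φ s w)) =
        2 * Real.pi * Complex.I * ∑ w ∈ Z, (m w : ℂ) * L s w := fun s hs =>
    zero_sum a hρ hρ' (hsl s hs φ hφ) (hsl s hs L hL) (hne s hs)
  choose! Z m hZ hm hS using hz
  set S : ℂ → ℂ := fun s => (2 * Real.pi * Complex.I)⁻¹ *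
    ∮ w in C(a, ρ), L s w * (deriv (φ s) w / φ s w) with hSd
  have hSdiff : DifferentiableOn ℂ S (ball 0 2) :=
    (param_int hρ hρ' hφ hL hne).const_mul _
  have hSeq : ∀ s ∈ ball (0 : ℂ) 2, S s = ∑ w ∈ Z s, (m s w : ℂ) * L s w := by
    intro s hs
    rw [hSd]
    show (2 * Real.pi * Complex.I : ℂ)⁻¹ * _ = _
    rw [hS s hs, ← mul_assoc, inv_mul_cancel₀ hc, one_mul]
  have hSre : ∀ s ∈ ball (0 : ℂ) 2, (S s).re = ∑ w ∈ Z s, (m s w : ℝ) * (L s w).re := by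
    intro s hs
    rw [hSeq s hs, Complex.re_sum]
    refine Finset.sum_congr rfl fun w _ => ?_
    rw [← Complex.ofReal_natCast, Complex.re_ofReal_mul]
  have hterm : ∀ s ∈ ball (0 : ℂ) 2, ∀ w ∈ Z s, 0 ≤ (m s w : ℝ) * (L s w).re := by
    intro s hs w hw
    have h1 := (hZ s hs w).1 hw
    exact mul_nonneg (Nat.cast_nonneg _) (hpos s hs w h1.1 h1.2)
  have hS0 : ∀ s ∈ ball (0 : ℂ) 2, 0 ≤ (S s).re := by
    intro s hs
    rw [hSre s hs]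
    exact Finset.sum_nonneg (hterm s hs)
  have h00 : (0 : ℂ) ∈ ball (0 : ℂ) 2 := mem_ball_self two_pos
  have h11 : (1 : ℂ) ∈ ball (0 : ℂ) 2 := by
    rw [mem_ball_zero_iff]; norm_num
  have hS00 : (S 0).re = 0 := by
    rw [hSre 0 h00]
    refine Finset.sum_eq_zero fun w hw => ?_
    have h1 := (hZ 0 h00 w).1 hw
    rw [h0 w h1.1 h1.2, mul_zero]
  have hEd : DifferentiableOn ℂ (fun s => Complex.exp (-S s)) (ball 0 2) := hSdiff.neg.cexp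
  have hmax : IsMaxOn (norm ∘ fun s => Complex.exp (-S s)) (ball (0 : ℂ) 2) 0 := by
    intro s hs
    show ‖Complex.exp (-S s)‖ ≤ ‖Complex.exp (-S 0)‖
    rw [Complex.norm_exp, Complex.norm_exp, Complex.neg_re, Complex.neg_re, hS00]
    apply Real.exp_le_exp.2
    linarith [hS0 s hs]
  have hconst := Complex.norm_eqOn_of_isPreconnected_of_isMaxOn
    (convex_ball (0 : ℂ) 2).isPreconnected isOpen_ball hEd h00 hmax
  have h2 := hconst h11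
  have h3 : (S 1).re = 0 := by
    have h4 : ‖Complex.exp (-S 1)‖ = ‖Complex.exp (-S 0)‖ := h2
    rw [Complex.norm_exp, Complex.norm_exp, Complex.neg_re, Complex.neg_re, hS00] at h4
    have := Real.exp_injective h4
    linarith
  intro w hw hφw
  have h5 : w ∈ Z 1 := (hZ 1 h11 w).2 ⟨hw, hφw⟩
  rw [hSre 1 h11, Finset.sum_eq_zero_iff_of_nonneg (hterm 1 h11)] at h3
  have h6 := h3 w h5
  have h7 : (0 : ℝ) < m 1 w := by
    have := hm 1 h11 w h5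
    exact_mod_cast this
  exact (mul_eq_zero.1 h6).resolve_left h7.ne'

end NB
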