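import Pool.Agent.NB.D2
import Pool.Agent.NB.D3
import Pool.Agent.NB.Z3
/-!
D5. A neutral periodic point which is a limit of repelling ones (for nearby maps) is a limit of
attracting ones.
Take `reduce2` with small `η`.  By `per_finite` the zeros of `φ F₀` near `v₀.2` are isolated: choose
`ρ₁ < ρ` with `φ F₀ w ≠ 0` for `0 < ‖w - v₀.2‖ ≤ ρ₁`, and `ε₁ ≤ ε` with `φ F w ≠ 0` for `F ∈ ball F₀ ε₁`, `w` in
the circle of radius `ρ₁` (compactness).  Suppose there is no attracting point within `ε'`; then for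
`F ∈ ball F₀ ε₁` (`ε₁, η ≤ ε'`) all zeros `w ∈ ball v₀.2 ρ₁` of `φ F` satisfy `Re (L F w) ≥ 0`.  Take a
repelling point `(F, v)` with `dist F F₀ < ε₁ / 2` and `v` near `v₀`, and apply `zero_min` to
`s ↦ F₀ + s (F - F₀)`, `s ∈ ball 0 2`: at `s = 0` the only zero is `v₀.2`, where `Re L = 0` (the eigenvalue
`ν` of modulus `1` must be `exp L`), so at `s = 1` the zero `v.2` has `Re L = 0`, an eigenvalue of modulus
`1`, contradiction with `Rep`.
-/
open Set Metric Filter Topology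
open SkewBif
namespace NB

/-- a finite set misses small punctured discs -/
theorem D5_isolate {Z : Set ℂ} (hZ : Z.Finite) (a : ℂ) {ρ : ℝ} (hρ : 0 < ρ) :
    ∃ ρ₁ > 0, ρ₁ < ρ ∧ ∀ w ∈ Z, dist w a ≤ ρ₁ → w = a := by
  have h1 : IsOpen (Z \ {a})ᶜ := ((hZ.subset sdiff_subset).isClosed).isOpen_compl
  have h2 : a ∈ (Z \ {a})ᶜ := fun h => h.2 rfl
  obtain ⟨r, hr, h3⟩ := Metric.isOpen_iff.1 h1 a h2
  refine ⟨min (r / 2) (ρ / 2), lt_min (by linarith) (by linarith),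
    (min_le_right _ _).trans_lt (by linarith), fun w hw hd => ?_⟩
  by_contra hne
  have h4 : w ∈ ball a r := by
    rw [mem_ball]
    have := min_le_left (r / 2) (ρ / 2)
    linarith
  exact h3 h4 ⟨hw, hne⟩

theorem neutral_limit {F₀ : Coef 2} (hF : Adm F₀) {n : ℕ} (hn : 1 ≤ n) {v₀ : X2}
    (hN : Neut F₀ n v₀) (hlim : ∀ ε > 0, ∃ F v, dist F F₀ < ε ∧ dist v v₀ < ε ∧ Rep F n v) :
    ∀ ε > 0, ∃ F v, dist F F₀ < ε ∧ dist v v₀ < ε ∧ Attr F n v := by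
  intro ε' hε'
  by_contra hcon
  push Not at hcon
  obtain ⟨ε, hε, ρ, hρ, ρz, hρz, hεη, hρη, hρzη, Z, φ, L, hZd, hφd, hLd, hZm, hiff, hzero⟩ :=
    reduce2 hF hn hN hε'
  -- no attracting point
  have hnn : ∀ F ∈ ball F₀ ε, ∀ w ∈ ball v₀.2 ρ, φ F w = 0 → 0 ≤ (L F w).re := by
    intro F hFb w hw h0
    by_contra hneg
    push Not at hneg
    obtain ⟨hP, hE, -⟩ := hzero F hFb w hw h0
    refine hcon F (Z F w, w) ?_ ?_ ⟨hP, Complex.exp (L F w), hE, ?_⟩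
    · exact (mem_ball.1 hFb).trans hεη
    · rw [Prod.dist_eq]
      exact max_lt ((mem_ball.1 (hZm F hFb w hw)).trans hρzη) ((mem_ball.1 hw).trans hρη)
    · rw [Complex.norm_exp]
      exact Real.exp_lt_one_iff.2 hneg
  -- the zeros for F₀
  have hF₀b : F₀ ∈ ball F₀ ε := mem_ball_self hε
  set ZS : Set ℂ := {w | w ∈ ball v₀.2 ρ ∧ φ F₀ w = 0} with hZS
  have hZSfin : ZS.Finite := by
    have h1 := per_finite hF hn
    have h2 : (Prod.snd '' {v : X2 | Per F₀ n v}).Finite := h1.image _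
    refine h2.subset ?_
    rintro w ⟨hw, hw0⟩
    exact ⟨(Z F₀ w, w), (hzero F₀ hF₀b w hw hw0).1, rfl⟩
  obtain ⟨ρ₁, hρ₁, hρ₁ρ, hiso⟩ := D5_isolate hZSfin v₀.2 hρ
  have hball : ∀ w ∈ ball v₀.2 ρ₁, w ∈ ball v₀.2 ρ := fun w hw =>
    ball_subset_ball hρ₁ρ.le hw
  have hsph : ∀ w ∈ sphere v₀.2 ρ₁, w ∈ ball v₀.2 ρ := fun w hw => by
    rw [mem_ball, mem_sphere.1 hw]
    exact hρ₁ρ
  have hsph0 : ∀ w ∈ sphere v₀.2 ρ₁, φ F₀ w ≠ 0 := by
    intro w hw h0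
    have h1 := hiso w ⟨hsph w hw, h0⟩ (mem_sphere.1 hw).le
    rw [h1, mem_sphere, dist_self] at hw
    exact hρ₁.ne hw
  -- nonvanishing on the circle for nearby maps
  have hev : ∀ᶠ F in 𝓝 F₀, ∀ w ∈ sphere v₀.2 ρ₁, φ F w ≠ 0 := by
    refine (isCompact_sphere v₀.2 ρ₁).eventually_forall_of_forall_eventually ?_
    intro w hw
    have hmem : ball F₀ ε ×ˢ ball v₀.2 ρ ∈ 𝓝 (F₀, w) :=
      (isOpen_ball.prod isOpen_ball).mem_nhds ⟨hF₀b, hsph w hw⟩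
    have hc : ContinuousAt (fun q : Coef 2 × ℂ => φ q.1 q.2) (F₀, w) :=
      (hφd.differentiableAt hmem).continuousAt
    exact hc.eventually_ne (hsph0 w hw)
  obtain ⟨ε₂, hε₂, hne₂⟩ := Metric.eventually_nhds_iff_ball.1 hev
  set ε₁ : ℝ := min ε ε₂ with hε₁def
  have hε₁ : 0 < ε₁ := lt_min hε hε₂
  have hε₁ε : ε₁ ≤ ε := min_le_left _ _
  have hε₁ε₂ : ε₁ ≤ ε₂ := min_le_right _ _
  -- a repelling point
  obtain ⟨F, v, hFd, hvd, hR⟩ := hlim (min (ε₁ / 2) (min ρ₁ ρz))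
    (lt_min (by linarith) (lt_min hρ₁ hρz))
  have hFd' : dist F F₀ < ε₁ / 2 := hFd.trans_le (min_le_left _ _)
  have hv1 : dist v v₀ < ρ₁ := hvd.trans_le ((min_le_right _ _).trans (min_le_left _ _))
  have hv2 : dist v v₀ < ρz := hvd.trans_le ((min_le_right _ _).trans (min_le_right _ _))
  have hFb : F ∈ ball F₀ ε := by
    rw [mem_ball]; linarith
  have hvz : v.1 ∈ ball v₀.1 ρz := by
    rw [mem_ball]
    exact lt_of_le_of_lt (by rw [Prod.dist_eq]; exact le_max_left _ _) hv2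
  have hvw : v.2 ∈ ball v₀.2 ρ₁ := by
    rw [mem_ball]
    exact lt_of_le_of_lt (by rw [Prod.dist_eq]; exact le_max_right _ _) hv1
  obtain ⟨hvZ, hvφ⟩ := (hiff F hFb v.1 hvz v.2 (hball _ hvw)).1 hR.1.2
  -- the family
  set G : ℂ → Coef 2 := fun s => F₀ + s • (F - F₀) with hG
  have hG0 : G 0 = F₀ := by simp [hG]
  have hG1 : G 1 = F := by simp [hG]
  have hGb : ∀ s ∈ ball (0 : ℂ) 2, G s ∈ ball F₀ ε₁ := by
    intro s hs
    rw [mem_ball, dist_eq_norm, hG]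
    simp only [add_sub_cancel_left]
    rw [norm_smul]
    rw [mem_ball, dist_zero_right] at hs
    rw [dist_eq_norm] at hFd'
    have h1 : ‖s‖ * ‖F - F₀‖ ≤ 2 * ‖F - F₀‖ :=
      mul_le_mul_of_nonneg_right hs.le (norm_nonneg _)
    linarith
  have hGd : Differentiable ℂ G :=
    (differentiable_const F₀).add (differentiable_id.smul_const (F - F₀))
  have hpair : DifferentiableOn ℂ (fun q : ℂ × ℂ => ((G q.1, q.2) : Coef 2 × ℂ))
      (ball 0 2 ×ˢ ball v₀.2 ρ) :=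
    ((hGd.comp differentiable_fst).prodMk differentiable_snd).differentiableOn
  have hmaps : MapsTo (fun q : ℂ × ℂ => ((G q.1, q.2) : Coef 2 × ℂ))
      (ball 0 2 ×ˢ ball v₀.2 ρ) (ball F₀ ε ×ˢ ball v₀.2 ρ) := by
    rintro ⟨s, w⟩ ⟨hs, hw⟩
    exact ⟨ball_subset_ball hε₁ε (hGb s hs), hw⟩
  have key := zero_min (a := v₀.2) hρ₁ hρ₁ρ (φ := fun s w => φ (G s) w)
    (L := fun s w => L (G s) w) (hφd.comp hpair hmaps) (hLd.comp hpair hmaps)
    (fun s hs w hw => hne₂ (G s) (ball_subset_ball hε₁ε₂ (hGb s hs)) w hw)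
    (fun s hs w hw h0 => hnn (G s) (ball_subset_ball hε₁ε (hGb s hs)) w (hball w hw) h0) ?_
  · have h1 := key v.2 hvw (by simp only [hG1]; exact hvφ)
    simp only [hG1] at h1
    obtain ⟨-, hE, -⟩ := hzero F hFb v.2 (hball _ hvw) hvφ
    have hv : (Z F v.2, v.2) = v := by
      rw [← hvZ]
    rw [hv] at hE
    have h2 := hR.2 _ hE
    rw [Complex.norm_exp, h1, Real.exp_zero] at h2
    exact lt_irrefl _ h2
  · intro w hw h0
    simp only [hG0] at h0 ⊢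
    have hw0 : w = v₀.2 := hiso w ⟨hball w hw, h0⟩ (mem_ball.1 hw).le
    subst hw0
    obtain ⟨hP, ν, hν, hν1⟩ := hN
    obtain ⟨-, -, hall⟩ := hzero F₀ hF₀b v₀.2 (hball _ hw) h0
    have hZv : v₀.1 = Z F₀ v₀.2 :=
      ((hiff F₀ hF₀b v₀.1 (mem_ball_self hρz) v₀.2 (hball _ hw)).1 hP.2).1
    have hv : (Z F₀ v₀.2, v₀.2) = v₀ := by
      rw [← hZv]
    rw [hv] at hall
    rcases hall ν hν with h1 | h1
    · have h2 : ‖Complex.exp (L F₀ v₀.2)‖ = 1 := by rw [← h1]; exact hν1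
      rw [Complex.norm_exp, Real.exp_eq_one_iff] at h2
      exact h2
    · rw [hν1] at h1
      exact (lt_irrefl _ h1).elim

end NB
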