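import Pool.Agent.SK.Defs

/-!
# The bifurcation locus of P^2 is not the closure of its interior (problem MP_9cfccf_an)

Definitions. The family is
`f_c (z, w) = (1000 (z ^ 2 - 1), w ^ 2 + 50 (z - 1) + c)`, `c ∈ [0, 12]`, and everything is stated
for all small perturbations `F` of these maps in the space `Coef 2` of triples of quadratic forms.
-/

open Set Metric Filter Topology
open SkewBif

namespace NB

/-- The coefficients of `(1000 (x² - y²), y², t² + 50 x y + (c - 50) y²)`. -/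
noncomputable def fc (c : ℂ) : Coef 2 := ![
  fun m => if (m.1.1 : ℕ) = 2 then 1000 else
    if (m.1.1 : ℕ) = 0 ∧ (m.1.2 : ℕ) = 0 then -1000 else 0,
  fun m => if (m.1.1 : ℕ) = 0 ∧ (m.1.2 : ℕ) = 0 then 1 else 0,
  fun m => if (m.1.2 : ℕ) = 2 then 1 else
    if (m.1.1 : ℕ) = 1 ∧ (m.1.2 : ℕ) = 0 then 50 else
    if (m.1.1 : ℕ) = 0 ∧ (m.1.2 : ℕ) = 0 then c - 50 else 0]

/-- The box of the symbol `s ∈ {1, -1}`, of vertical size `ρ`. -/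
def box (s : ℂ) (ρ : ℝ) : Set X2 := closedBall s (1 / 500) ×ˢ closedBall (0 : ℂ) ρ

/-- The two symbols. -/
def Sgn (s : ℂ) : Prop := s = 1 ∨ s = -1

/-- The core region. -/
def Core : Set X2 := box 1 11 ∪ box (-1) 11

/-- The set of points whose whole forward orbit is in the core region. -/
def K (F : Coef 2) : Set X2 := {v | ∀ j : ℕ, (T 2 F)^[j] v ∈ Core}

/-- `v` is a critical point of the map induced by `F` in the chart. -/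
def Crit (F : Coef 2) (v : X2) : Prop := ∃ e : X2, e ≠ 0 ∧ fderiv ℂ (T 2 F) v e = 0

/-- `μ` is an eigenvalue of the derivative of the `n`-th iterate at `v`. -/
def Eig (F : Coef 2) (n : ℕ) (v : X2) (μ : ℂ) : Prop :=
  Module.End.HasEigenvalue (fderiv ℂ ((T 2 F)^[n]) v : X2 →ₗ[ℂ] X2) μ

/-- `v` is a point of `K F` fixed by the `n`-th iterate. -/
def Per (F : Coef 2) (n : ℕ) (v : X2) : Prop := v ∈ K F ∧ (T 2 F)^[n] v = v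

/-- Repelling periodic points of `K F`. -/
def Rep (F : Coef 2) (n : ℕ) (v : X2) : Prop := Per F n v ∧ ∀ μ, Eig F n v μ → 1 < ‖μ‖

/-- Periodic points of `K F` with an eigenvalue of modulus `< 1` (the other one is large). -/
def Attr (F : Coef 2) (n : ℕ) (v : X2) : Prop := Per F n v ∧ ∃ μ, Eig F n v μ ∧ ‖μ‖ < 1

/-- Periodic points of `K F` with an eigenvalue of modulus `1`. -/
def Neut (F : Coef 2) (n : ℕ) (v : X2) : Prop := Per F n v ∧ ∃ μ, Eig F n v μ ∧ ‖μ‖ = 1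

/-- The admissible maps: a list of quantitative properties shared by the maps `f_c`,
`c ∈ [0, 12]`, and their small perturbations. -/
structure Adm (F : Coef 2) : Prop where
  nd : Nondeg 2 F
  good : ∀ s, Sgn s → ∀ v ∈ box s 12, ev 2 F (lift v) 1 ≠ 0
  lip1 : ∀ s, Sgn s → ∀ v ∈ box s 12, ∀ v' ∈ box s 12,
    ‖(T 2 F v).1 - (T 2 F v').1 - 2000 * s * (v.1 - v'.1)‖ ≤
      100 * ‖v.1 - v'.1‖ + 1 / 10 * ‖v.2 - v'.2‖
  lip2 : ∀ s, Sgn s → ∀ v ∈ box s 12, ∀ v' ∈ box s 12,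
    ‖(T 2 F v).2 - (T 2 F v').2‖ ≤ 60 * ‖v.1 - v'.1‖ + 25 * ‖v.2 - v'.2‖
  cen : ∀ s, Sgn s → ∀ w : ℂ, ‖w‖ ≤ 12 → ‖(T 2 F (s, w)).1‖ ≤ 1 / 10
  out : ∀ s, Sgn s → ∀ v ∈ box s 12, 11 ≤ ‖v.2‖ → 12 < ‖(T 2 F v).2‖
  reg1 : ∀ v ∈ box 1 12, 49 / 10 ≤ ‖v.2‖ → 11 < ‖(T 2 F v).2‖
  reg2 : ∀ v ∈ box (-1) 12, ‖v.2‖ ≤ 87 / 10 → 11 < ‖(T 2 F v).2‖
  crit1 : ∀ v ∈ box 1 12, ∀ v' ∈ box 1 12, ‖v.2‖ ≤ 5 → ‖v'.2‖ ≤ 5 → Crit F v → Crit F v' →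
    ‖v.2 - v'.2‖ ≤ ‖v.1 - v'.1‖
  crit2 : ∀ v ∈ box (-1) 12, 8 ≤ ‖v.2‖ → ¬ Crit F v
  per : ∀ n : ℕ, 1 ≤ n → ∀ u : Fin 3 → ℂ, u ≠ 0 → RepPer 2 F n u → u 1 ≠ 0 ∧ chart u ∈ K F

/-- The open set of parameters. -/
def U : Set (Coef 2) := interior {F | Adm F}

/-- No sequence of attracting periodic points over `B` tends to a neutral one over `B`. -/
def NA (B : Set (Coef 2)) : Prop :=
  ∀ F₂ ∈ B, ∀ m : ℕ, 1 ≤ m → ∀ v₂, Neut F₂ m v₂ →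
    ¬ ∀ ε > 0, ∃ F v, dist F F₂ < ε ∧ dist v v₂ < ε ∧ Attr F m v

/-- The small Julia set (lifted to `ℂ³`): every scalar invariant open neighbourhood of `u`
contains, for all large `n`, at least `c * 8 ^ n` (`c > 0`) normalised lifts of repelling periodic
points of period `n`. -/
def JSet (F : Coef 2) : Set (Fin 3 → ℂ) :=
  {u | ∀ V : Set (Fin 3 → ℂ), IsOpen V → (∀ v ∈ V, ∀ a : ℂ, a ≠ 0 → a • v ∈ V) → u ∈ V →
    ∃ c > (0 : ℝ), ∀ᶠ n : ℕ in atTop, ∃ S : Finset (Fin 3 → ℂ),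
      (∀ v ∈ S, v ∈ V ∧ v ≠ 0 ∧ RepPer 2 F n v) ∧ c * 8 ^ n ≤ (S.card : ℝ)}

/-- Stability of the repelling periodic points in the class `J`. -/
def StabOn (J : Coef 2 → Set (Fin 3 → ℂ)) (F₀ : Coef 2) : Prop :=
  ∃ B : Set (Coef 2), IsOpen B ∧ F₀ ∈ B ∧ (∀ F ∈ B, Nondeg 2 F) ∧
    ∀ n : ℕ, 1 ≤ n → ∀ F₁ ∈ B, ∀ u₁ : Fin 3 → ℂ, u₁ ≠ 0 → RepPer 2 F₁ n u₁ → u₁ ∈ J F₁ →
      ∃ u : Coef 2 → (Fin 3 → ℂ), DifferentiableOn ℂ u B ∧ u F₁ = u₁ ∧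
        ∀ F ∈ B, u F ≠ 0 ∧ RepPer 2 F n (u F) ∧ u F ∈ J F

end NB
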