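import Mathlib
/-!
E0. Semicontinuity of eigenvalues (abstract, finite dimensional complex space).
`eig_upper`: `D - z` is invertible for `z` in the closed unit disc; invertibility is open and the disc is compact
(for large `‖z‖` nothing is needed).  `eig_lower`: the characteristic polynomial of `D'` at `ν` is
`∏ (ν - μ_i')` up to sign and tends to `0`, so some `‖ν - μ_i'‖` is small.
`eig_pow`: spectral mapping for powers.
-/
open Set Metric Filter Topology
namespace NB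

variable {V : Type} [NormedAddCommGroup V] [NormedSpace ℂ V] [FiniteDimensional ℂ V]

/-- eigenvalues and units -/
theorem E0_unit (D : V →L[ℂ] V) (z : ℂ) :
    IsUnit (z • (1 : V →L[ℂ] V) - D) ↔ ¬ Module.End.HasEigenvalue (D : V →ₗ[ℂ] V) z := by
  have : CompleteSpace V := FiniteDimensional.complete ℂ V
  rw [Module.End.hasEigenvalue_iff_mem_spectrum, ← ContinuousLinearMap.spectrum_eq,
    spectrum.mem_iff, not_not, Algebra.algebraMap_eq_smul_one]

theorem eig_upper (D : V →L[ℂ] V)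
    (h : ∀ μ : ℂ, Module.End.HasEigenvalue (D : V →ₗ[ℂ] V) μ → 1 < ‖μ‖) :
    ∀ᶠ D' : V →L[ℂ] V in 𝓝 D, ∀ μ : ℂ, Module.End.HasEigenvalue (D' : V →ₗ[ℂ] V) μ → 1 < ‖μ‖ := by
  have : CompleteSpace V := FiniteDimensional.complete ℂ V
  have hK : IsCompact (closedBall (0 : ℂ) 1) := isCompact_closedBall 0 1
  have key : ∀ᶠ D' : V →L[ℂ] V in 𝓝 D, ∀ z ∈ closedBall (0 : ℂ) 1,
      IsUnit (z • (1 : V →L[ℂ] V) - D') := by
    refine hK.eventually_forall_of_forall_eventually fun z hz => ?_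
    have hc : Continuous fun p : (V →L[ℂ] V) × ℂ => p.2 • (1 : V →L[ℂ] V) - p.1 := by fun_prop
    have ho : IsOpen {p : (V →L[ℂ] V) × ℂ | IsUnit (p.2 • (1 : V →L[ℂ] V) - p.1)} :=
      (Units.isOpen (R := V →L[ℂ] V)).preimage hc
    refine ho.mem_nhds ?_
    change IsUnit (z • (1 : V →L[ℂ] V) - D)
    rw [E0_unit]
    intro h1
    have := h z h1
    rw [mem_closedBall_zero_iff] at hz
    linarith
  filter_upwards [key] with D' h1 μ hμ
  by_contra h2
  exact (E0_unit D' μ).1 (h1 μ (mem_closedBall_zero_iff.2 (not_lt.1 h2))) hμ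

theorem eig_lower (D : V →L[ℂ] V) {ν : ℂ} (hν : Module.End.HasEigenvalue (D : V →ₗ[ℂ] V) ν)
    (h1 : ‖ν‖ < 1) :
    ∀ᶠ D' : V →L[ℂ] V in 𝓝 D, ∃ μ : ℂ, Module.End.HasEigenvalue (D' : V →ₗ[ℂ] V) μ ∧ ‖μ‖ < 1 := by
  have hev : ∀ D' : V →L[ℂ] V, (D' : V →ₗ[ℂ] V).charpoly.eval ν
      = (ν • (1 : V →L[ℂ] V) - D').det := by
    intro D'
    rw [LinearMap.eval_charpoly]
    rfl
  have hc : Continuous fun D' : V →L[ℂ] V => (ν • (1 : V →L[ℂ] V) - D').det :=
    ContinuousLinearMap.continuous_det.comp (by fun_prop)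
  have h0 : (ν • (1 : V →L[ℂ] V) - D).det = 0 := by
    rw [← hev]
    exact (Module.End.hasEigenvalue_iff_isRoot_charpoly _ _).1 hν
  have hpos : 0 < (1 - ‖ν‖) ^ Module.finrank ℂ V := pow_pos (by linarith) _
  have hlim : ∀ᶠ D' : V →L[ℂ] V in 𝓝 D,
      ‖(ν • (1 : V →L[ℂ] V) - D').det‖ < (1 - ‖ν‖) ^ Module.finrank ℂ V := by
    have h2 : Tendsto (fun D' : V →L[ℂ] V => ‖(ν • (1 : V →L[ℂ] V) - D').det‖) (𝓝 D)
        (𝓝 ‖(ν • (1 : V →L[ℂ] V) - D).det‖) := (hc.tendsto D).norm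
    rw [h0, norm_zero] at h2
    exact h2.eventually_lt_const hpos
  filter_upwards [hlim] with D' h2
  by_contra h3
  push Not at h3
  rw [← hev] at h2
  have hmon := LinearMap.charpoly_monic (D' : V →ₗ[ℂ] V)
  have hsp := IsAlgClosed.splits (D' : V →ₗ[ℂ] V).charpoly
  rw [hsp.eval_eq_prod_roots_of_monic hmon] at h2
  have h4 : ∀ s : Multiset ℂ, (∀ μ ∈ s, 1 ≤ ‖μ‖) →
      (1 - ‖ν‖) ^ (Multiset.card s) ≤ ‖(s.map fun x => ν - x).prod‖ := by
    intro s
    induction s using Multiset.induction_on with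
    | empty => intro _; simp
    | cons a s ih =>
      intro hs
      rw [Multiset.map_cons, Multiset.prod_cons, norm_mul, Multiset.card_cons, pow_succ, mul_comm]
      have e1 : 1 - ‖ν‖ ≤ ‖ν - a‖ := by
        have e2 := hs a (Multiset.mem_cons_self a s)
        have e3 := norm_sub_norm_le a ν
        rw [norm_sub_rev] at e3
        linarith
      exact mul_le_mul e1 (ih fun μ hμ => hs μ (Multiset.mem_cons_of_mem hμ))
        (pow_nonneg (by linarith) _) (norm_nonneg _)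
  have h5 := h4 (D' : V →ₗ[ℂ] V).charpoly.roots fun μ hμ => h3 μ (by
    rw [Module.End.hasEigenvalue_iff_isRoot_charpoly]
    exact (Polynomial.mem_roots'.1 hμ).2)
  rw [← hsp.natDegree_eq_card_roots, LinearMap.charpoly_natDegree] at h5
  linarith

theorem eig_pow (D : V →L[ℂ] V) {k : ℕ} (hk : 1 ≤ k) {μ : ℂ} :
    Module.End.HasEigenvalue ((D ^ k : V →L[ℂ] V) : V →ₗ[ℂ] V) μ ↔
      ∃ ν : ℂ, Module.End.HasEigenvalue (D : V →ₗ[ℂ] V) ν ∧ ν ^ k = μ := by
  rw [ContinuousLinearMap.toLinearMap_pow, Module.End.hasEigenvalue_iff_mem_spectrum,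
    spectrum.map_pow_of_pos _ (by omega : 0 < k)]
  simp only [Module.End.hasEigenvalue_iff_mem_spectrum]
  rfl

end NB
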