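import Pool.Agent.NB.E0
import Pool.Agent.NB.A8
/-!
E1. Persistence of the type of a periodic point: `per_nhds`, `fderiv_cont`, `eig_upper`, `eig_lower`.
`rep_mul`: `fderiv (T^[n*k]) v = (fderiv (T^[n]) v)^k` at a periodic point (chain rule), then `eig_pow`.
-/
open Set Metric Filter Topology
open SkewBif
namespace NB

theorem e1_fix {F : Coef 2} {n : ℕ} {v : X2} (h : (T 2 F)^[n] v = v) (k : ℕ) :
    (T 2 F)^[k * n] v = v := by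
  have h1 : Function.IsFixedPt ((T 2 F)^[n]) v := h
  have h2 := h1.iterate k
  rw [← Function.iterate_mul, mul_comm] at h2
  exact h2

theorem fderiv_pow {F : Coef 2} (hF : Adm F) {n : ℕ} {v : X2} (hv : Per F n v) (k : ℕ) :
    fderiv ℂ ((T 2 F)^[k * n]) v = (fderiv ℂ ((T 2 F)^[n]) v) ^ k := by
  induction k with
  | zero =>
    rw [Nat.zero_mul, pow_zero, Function.iterate_zero, fderiv_id]
    rfl
  | succ k ih =>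
    rw [Nat.succ_mul, fderiv_iter hF hv.1, hv.2, ih, pow_succ]
    rfl

theorem rep_nhds {F₀ : Coef 2} (hF₀ : Adm F₀) {n : ℕ} (hn : 1 ≤ n) {v₀ : X2} (hv : Rep F₀ n v₀) :
    ∀ᶠ q : Coef 2 × X2 in 𝓝 (F₀, v₀), (T 2 q.1)^[n] q.2 = q.2 → Rep q.1 n q.2 := by
  have h1 := per_nhds hF₀ hn hv.1
  have h2 : ∀ᶠ q : Coef 2 × X2 in 𝓝 (F₀, v₀), ∀ μ : ℂ, Eig q.1 n q.2 μ → 1 < ‖μ‖ :=
    (fderiv_cont hF₀ hv.1.1 n).eventually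
      (eig_upper (fderiv ℂ ((T 2 F₀)^[n]) v₀) (fun μ hμ => hv.2 μ hμ))
  filter_upwards [h1, h2] with q hq1 hq2 hq3
  exact ⟨hq1 hq3, hq2⟩

theorem attr_nhds {F₀ : Coef 2} (hF₀ : Adm F₀) {n : ℕ} (hn : 1 ≤ n) {v₀ : X2}
    (hv : Attr F₀ n v₀) :
    ∀ᶠ q : Coef 2 × X2 in 𝓝 (F₀, v₀), (T 2 q.1)^[n] q.2 = q.2 → Attr q.1 n q.2 := by
  have h1 := per_nhds hF₀ hn hv.1
  obtain ⟨ν, hν, hν1⟩ := hv.2
  have h2 : ∀ᶠ q : Coef 2 × X2 in 𝓝 (F₀, v₀), ∃ μ : ℂ, Eig q.1 n q.2 μ ∧ ‖μ‖ < 1 :=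
    (fderiv_cont hF₀ hv.1.1 n).eventually
      (eig_lower (fderiv ℂ ((T 2 F₀)^[n]) v₀) hν hν1)
  filter_upwards [h1, h2] with q hq1 hq2 hq3
  exact ⟨hq1 hq3, hq2⟩

theorem rep_mul {F : Coef 2} (hF : Adm F) {n k : ℕ} (hk : 1 ≤ k) {v : X2} (hv : Rep F n v) :
    Rep F (k * n) v := by
  refine ⟨⟨hv.1.1, e1_fix hv.1.2 k⟩, fun μ hμ => ?_⟩
  have h1 : Module.End.HasEigenvalue
      (((fderiv ℂ ((T 2 F)^[n]) v) ^ k : X2 →L[ℂ] X2) : X2 →ₗ[ℂ] X2) μ := by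
    rw [← fderiv_pow hF hv.1 k]
    exact hμ
  obtain ⟨ν, hν, rfl⟩ := (eig_pow _ hk).1 h1
  have h2 : 1 < ‖ν‖ := hv.2 ν hν
  rw [norm_pow]
  exact one_lt_pow₀ h2 (by omega)

end NB
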