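import Pool.Agent.NB.E1
import Pool.Agent.NB.A9
import Pool.Agent.NB.A10
/-!
E2. Continuation of attracting periodic points.  The number `1` is not an eigenvalue of
`fderiv (T^[n]) P₀`: there is the large eigenvalue (`dcone_iter`, `cone_eig`) and one of modulus `< 1`,
and no third one (`eig_two`).  So the implicit function theorem gives a solution of
`(T F)^[n] P = P` near `P₀` for `F` near `F₀`; it is attracting by `attr_nhds`.
-/
open Set Metric Filter Topology
open SkewBif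
namespace NB

theorem E2_eig {F₀ : Coef 2} (hF₀ : Adm F₀) {n : ℕ} (hn : 1 ≤ n) {P₀ : X2}
    (hP : Attr F₀ n P₀) (e : X2) (he : fderiv ℂ ((T 2 F₀)^[n]) P₀ e = e) : e = 0 := by
  by_contra hne
  obtain ⟨hper, μ, hμ, hμ1⟩ := hP
  set D := fderiv ℂ ((T 2 F₀)^[n]) P₀ with hD
  obtain ⟨ν, e', he', -, hDe', hν⟩ := cone_eig D 1800 (by norm_num) (fun e he => by
    exact dcone_iter hF₀ hper.1 hn e he)
  have hνE : Module.End.HasEigenvalue (D : X2 →ₗ[ℂ] X2) ν := by
    apply Module.End.hasEigenvalue_of_hasEigenvector (x := e')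
    rw [Module.End.hasEigenvector_iff]
    refine ⟨?_, he'⟩
    rw [Module.End.mem_eigenspace_iff]
    exact hDe'
  have h1E : Module.End.HasEigenvalue (D : X2 →ₗ[ℂ] X2) 1 := by
    apply Module.End.hasEigenvalue_of_hasEigenvector (x := e)
    rw [Module.End.hasEigenvector_iff]
    refine ⟨?_, hne⟩
    rw [Module.End.mem_eigenspace_iff, one_smul]
    exact he
  have hμE : Module.End.HasEigenvalue (D : X2 →ₗ[ℂ] X2) μ := hμ
  have hμν : μ ≠ ν := by
    intro h
    rw [h] at hμ1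
    linarith
  rcases eig_two D hμν hμE hνE h1E with h | h
  · rw [← h] at hμ1
    simp at hμ1
  · rw [← h] at hν
    norm_num at hν

theorem attr_cont {F₀ : Coef 2} (hF₀ : Adm F₀) {n : ℕ} (hn : 1 ≤ n) {P₀ : X2}
    (hP : Attr F₀ n P₀) {ε : ℝ} (hε : 0 < ε) :
    ∃ δ > 0, ∀ F ∈ ball F₀ δ, ∃ P, dist P P₀ < ε ∧ Attr F n P := by
  have hK : P₀ ∈ K F₀ := hP.1.1
  have han := iter_analytic hF₀ hK n
  set G : Coef 2 × X2 → X2 := fun q => (T 2 q.1)^[n] q.2 with hG
  have hstr : HasStrictFDerivAt G (fderiv ℂ G (F₀, P₀)) (F₀, P₀) := han.hasStrictFDerivAt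
  set L := fderiv ℂ G (F₀, P₀) with hL
  -- the partial derivative
  have hpart : ∀ v : X2, L (0, v) = fderiv ℂ ((T 2 F₀)^[n]) P₀ v := by
    intro v
    have h1 : HasFDerivAt (fun w : X2 => ((F₀, w) : Coef 2 × X2))
        (ContinuousLinearMap.inr ℂ (Coef 2) X2) P₀ := hasFDerivAt_prodMk_right F₀ P₀
    have h2 : HasFDerivAt (G ∘ fun w : X2 => ((F₀, w) : Coef 2 × X2))
        (L.comp (ContinuousLinearMap.inr ℂ (Coef 2) X2)) P₀ :=
      HasFDerivAt.comp P₀ hstr.hasFDerivAt h1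
    have h3 : (G ∘ fun w : X2 => ((F₀, w) : Coef 2 × X2)) = (T 2 F₀)^[n] := by
      funext w
      rfl
    rw [h3] at h2
    rw [h2.fderiv]
    rfl
  set Φ : Coef 2 × X2 → Coef 2 × X2 := fun q => (q.1, G q - q.2) with hΦ
  have hΦd : HasStrictFDerivAt Φ
      ((ContinuousLinearMap.fst ℂ (Coef 2) X2).prod
        (L - ContinuousLinearMap.snd ℂ (Coef 2) X2)) (F₀, P₀) := by
    exact hasStrictFDerivAt_fst.prodMk (hstr.sub hasStrictFDerivAt_snd)
  have hsurj : ((ContinuousLinearMap.fst ℂ (Coef 2) X2).prod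
        (L - ContinuousLinearMap.snd ℂ (Coef 2) X2)).range = ⊤ := by
    rw [LinearMap.range_eq_top]
    rintro ⟨a, b⟩
    have hinj : Function.Injective
        (((fderiv ℂ ((T 2 F₀)^[n]) P₀ : X2 →L[ℂ] X2) : X2 →ₗ[ℂ] X2) -
          (LinearMap.id : X2 →ₗ[ℂ] X2)) := by
      rw [← LinearMap.ker_eq_bot, LinearMap.ker_eq_bot']
      intro e he
      apply E2_eig hF₀ hn hP e
      rw [LinearMap.sub_apply, LinearMap.id_apply, sub_eq_zero] at he
      exact he
    have hsur := LinearMap.injective_iff_surjective.mp hinj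
    obtain ⟨v, hv⟩ := hsur (b - L (a, 0))
    refine ⟨(a, v), ?_⟩
    have hv' : fderiv ℂ ((T 2 F₀)^[n]) P₀ v - v = b - L (a, 0) := by
      simpa using hv
    have hsplit : L (a, v) = L (a, 0) + L (0, v) := by
      rw [← map_add]
      simp
    simp only [ContinuousLinearMap.coe_coe, ContinuousLinearMap.prod_apply,
      ContinuousLinearMap.coe_fst', sub_apply, ContinuousLinearMap.coe_snd']
    rw [hsplit, hpart v]
    refine Prod.ext rfl ?_
    show L (a, 0) + (fderiv ℂ ((T 2 F₀)^[n]) P₀) v - v = b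
    rw [add_sub_assoc, hv']
    abel
  have hmap := hΦd.map_nhds_eq_of_surj hsurj
  have hΦ0 : Φ (F₀, P₀) = (F₀, 0) := by
    show (F₀, (T 2 F₀)^[n] P₀ - P₀) = (F₀, 0)
    rw [hP.1.2, sub_self]
  rw [hΦ0] at hmap
  have hev : ∀ᶠ q : Coef 2 × X2 in 𝓝 (F₀, P₀),
      dist q.2 P₀ < ε ∧ ((T 2 q.1)^[n] q.2 = q.2 → Attr q.1 n q.2) := by
    apply Filter.Eventually.and
    · have : ContinuousAt (fun q : Coef 2 × X2 => q.2) (F₀, P₀) := continuousAt_snd
      exact this (ball_mem_nhds P₀ hε)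
    · exact attr_nhds hF₀ hn hP
  have himg := Filter.image_mem_map (m := Φ) hev
  rw [hmap] at himg
  rw [Metric.mem_nhds_iff] at himg
  obtain ⟨δ, hδ, hsub⟩ := himg
  refine ⟨δ, hδ, ?_⟩
  intro F hF
  have hmem : ((F, 0) : Coef 2 × X2) ∈ ball ((F₀, 0) : Coef 2 × X2) δ := by
    rw [mem_ball, Prod.dist_eq]
    simp only [dist_self]
    exact max_lt (mem_ball.mp hF) hδ
  obtain ⟨q, hq, hqe⟩ := hsub hmem
  have h1 : q.1 = F := congrArg Prod.fst hqe
  have h2 : G q - q.2 = 0 := congrArg Prod.snd hqe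
  refine ⟨q.2, hq.1, ?_⟩
  have h3 : (T 2 q.1)^[n] q.2 = q.2 := sub_eq_zero.mp h2
  have h4 := hq.2 h3
  rw [h1] at h4
  exact h4

end NB
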