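import Pool.Agent.NB.E1
import Pool.Agent.NB.A9
import Pool.Agent.NB.A10
/-!
E3. `neut_iter`: if `D(T^[n])(v) e = μ e`, `‖μ‖ = 1`, then `D(T^[n])(T v) (DT(v) e) = μ DT(v) e` (chain rule for
`T^[n+1]` in two ways) and `DT(v) e ≠ 0` (else `μ = 0`).
`not_attr_neut`: `D(T^[m * n])(v)` is both the `m`-th power of `D(T^[n])(v)` and the `n`-th power of
`D(T^[m])(v)` (`fderiv_pow`).  The eigenvalues of `D(T^[n])(v)` are one of modulus `< 1` and one of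
modulus `≥ 1800` (`dcone_iter`, `cone_eig`, `eig_two`), so those of the power have modulus `≠ 1` (`eig_pow`).
-/
open Set Metric Filter Topology
open SkewBif
namespace NB

theorem E3_per {F : Coef 2} {n : ℕ} {v : X2} (hv : Per F n v) : Per F n (T 2 F v) := by
  refine ⟨K_step hv.1, ?_⟩
  rw [← Function.iterate_succ_apply, Function.iterate_succ_apply', hv.2]

theorem E3_ne {F : Coef 2} (hF : Adm F) {n : ℕ} (hn : 1 ≤ n) {v e : X2} (hv : v ∈ K F) {μ : ℂ}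
    (hμ : μ ≠ 0) (he : e ≠ 0) (h : fderiv ℂ ((T 2 F)^[n]) v e = μ • e) :
    fderiv ℂ ((T 2 F)^[1]) v e ≠ 0 := by
  intro h0
  obtain ⟨k, rfl⟩ : ∃ k, n = k + 1 := ⟨n - 1, by omega⟩
  rw [fderiv_iter hF hv k 1, ContinuousLinearMap.comp_apply, h0, map_zero] at h
  rcases smul_eq_zero.1 h.symm with h1 | h1
  · exact hμ h1
  · exact he h1

theorem E3_step {F : Coef 2} (hF : Adm F) {n : ℕ} (hn : 1 ≤ n) {v : X2} (hv : Neut F n v) :
    Neut F n (T 2 F v) := by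
  obtain ⟨hP, μ, hE, hμ⟩ := hv
  refine ⟨E3_per hP, μ, ?_, hμ⟩
  obtain ⟨e, he⟩ := hE.exists_hasEigenvector
  have he1 : fderiv ℂ ((T 2 F)^[n]) v e = μ • e := he.apply_eq_smul
  have hμ0 : μ ≠ 0 := by
    rintro rfl
    simp at hμ
  have h1 := fderiv_iter hF hP.1 n 1
  have h2 := fderiv_iter hF hP.1 1 n
  rw [hP.2, add_comm 1 n] at h2
  have h3 : fderiv ℂ ((T 2 F)^[n]) (T 2 F v) (fderiv ℂ ((T 2 F)^[1]) v e)
      = μ • fderiv ℂ ((T 2 F)^[1]) v e := by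
    have h4 : (fderiv ℂ ((T 2 F)^[n]) ((T 2 F)^[1] v)).comp (fderiv ℂ ((T 2 F)^[1]) v) e
        = (fderiv ℂ ((T 2 F)^[1]) v).comp (fderiv ℂ ((T 2 F)^[n]) v) e := by
      rw [← h1, ← h2]
    rw [ContinuousLinearMap.comp_apply, ContinuousLinearMap.comp_apply, he1, map_smul] at h4
    exact h4
  refine Module.End.hasEigenvalue_of_hasEigenvector
    (x := fderiv ℂ ((T 2 F)^[1]) v e) ⟨?_, ?_⟩
  · rw [Module.End.mem_eigenspace_iff]
    exact h3
  · exact E3_ne hF hn hP.1 hμ0 he.2 he1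

theorem neut_iter {F : Coef 2} (hF : Adm F) {n : ℕ} (hn : 1 ≤ n) {v : X2} (hv : Neut F n v)
    (i : ℕ) : Neut F n ((T 2 F)^[i] v) := by
  induction i with
  | zero => exact hv
  | succ i ih =>
    rw [Function.iterate_succ_apply']
    exact E3_step hF hn ih

theorem not_attr_neut {F : Coef 2} (hF : Adm F) {n m : ℕ} (hn : 1 ≤ n) (hm : 1 ≤ m) {v : X2}
    (hA : Attr F n v) (hN : Neut F m v) : False := by
  obtain ⟨hP, a, ha, ha1⟩ := hA
  obtain ⟨hQ, μ, hμ, hμ1⟩ := hN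
  obtain ⟨b, e, he0, -, he1, hb⟩ := cone_eig (fderiv ℂ ((T 2 F)^[n]) v) 1800 (by norm_num)
    (fun e he => dcone_iter hF hP.1 hn e he)
  have hbE : Module.End.HasEigenvalue (fderiv ℂ ((T 2 F)^[n]) v : X2 →ₗ[ℂ] X2) b := by
    refine Module.End.hasEigenvalue_of_hasEigenvector (x := e) ⟨?_, he0⟩
    rw [Module.End.mem_eigenspace_iff]
    exact he1
  have hab : a ≠ b := by
    rintro rfl
    linarith
  have h1 := fderiv_pow hF hP m
  have h2 := fderiv_pow hF hQ n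
  rw [mul_comm n m, h1] at h2
  have h3 : Module.End.HasEigenvalue
      (((fderiv ℂ ((T 2 F)^[m]) v) ^ n : X2 →L[ℂ] X2) : X2 →ₗ[ℂ] X2) (μ ^ n) :=
    (eig_pow _ hn).2 ⟨μ, hμ, rfl⟩
  rw [← h2] at h3
  obtain ⟨ν, hν, hν1⟩ := (eig_pow _ hm).1 h3
  have h4 : ‖ν‖ ^ m = 1 := by
    rw [← norm_pow, hν1, norm_pow, hμ1, one_pow]
  have h5 : ‖ν‖ = 1 := (pow_eq_one_iff_of_nonneg (norm_nonneg ν) (by omega)).1 h4
  rcases eig_two _ hab ha hbE hν with rfl | rfl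
  · linarith
  · linarith

end NB
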