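import Pool.Agent.NB.E2
import Pool.Agent.NB.E3
import Pool.Agent.NB.C5
/-!
E5. Near a parameter with an attracting cycle the property `NA` holds.
`ball F₀ δ ⊆ U` is small so that every `F₂ ∈ ball F₀ δ` has a point `P₂` with `Attr F₂ n P₂` (`attr_cont` at
`F₀`).  Let `F₂ ∈ ball F₀ δ`, `Neut F₂ m v₂`, and let attracting points `(F_j, v_j)` of period `m` tend to
`(F₂, v₂)`.  By `attr_cont` at `F₂` there are `P_j → P₂` with `Attr F_j n P_j`, and by `attr_unique`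
`P_j = (T F_j)^[i_j] v_j` with `i_j < m`; on a subsequence `i_j = i`, so `P₂ = (T F₂)^[i] v₂` (continuity
of the iterates, `iter_analytic`).  Then `P₂` is neutral (`neut_iter`) and attracting:
contradiction with `not_attr_neut`.
-/
open Set Metric Filter Topology
open SkewBif
namespace NB

theorem na_of_attr {F₀ : Coef 2} (hF₀ : F₀ ∈ U) {n : ℕ} (hn : 1 ≤ n) {P₀ : X2}
    (hP : Attr F₀ n P₀) : ∃ δ > 0, ball F₀ δ ⊆ U ∧ NA (ball F₀ δ) := by
  have hUA : ∀ F ∈ U, Adm F := fun F hF => interior_subset hF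
  obtain ⟨δ₁, hδ₁, h1⟩ := attr_cont (hUA F₀ hF₀) hn hP one_pos
  obtain ⟨δ₂, hδ₂, h2⟩ := Metric.isOpen_iff.1 (isOpen_interior : IsOpen U) F₀ hF₀
  refine ⟨min δ₁ δ₂, lt_min hδ₁ hδ₂, (ball_subset_ball (min_le_right _ _)).trans h2, ?_⟩
  intro F₂ hF₂ m hm v₂ hN hcon
  have hF₂U : F₂ ∈ U := h2 (ball_subset_ball (min_le_right _ _) hF₂)
  have hA₂ := hUA F₂ hF₂U
  obtain ⟨P₂, -, hP₂⟩ := h1 F₂ (ball_subset_ball (min_le_left _ _) hF₂)
  -- `P₂` is on the orbit of `v₂`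
  have hkey : ∃ i < m, P₂ = (T 2 F₂)^[i] v₂ := by
    by_contra hno
    push Not at hno
    have hr : ∃ r > (0 : ℝ), ∀ i ∈ Finset.range m, r < dist P₂ ((T 2 F₂)^[i] v₂) := by
      have h3 : ∀ᶠ r in 𝓝[>] (0 : ℝ), ∀ i ∈ Finset.range m, r < dist P₂ ((T 2 F₂)^[i] v₂) := by
        rw [Filter.eventually_all_finset]
        intro i hi
        have h4 : 0 < dist P₂ ((T 2 F₂)^[i] v₂) := dist_pos.2 (hno i (Finset.mem_range.1 hi))
        exact nhdsWithin_le_nhds (Iio_mem_nhds h4)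
      have h5 : ∀ᶠ r in 𝓝[>] (0 : ℝ), 0 < r := self_mem_nhdsWithin
      obtain ⟨r, hr1, hr2⟩ := (h5.and h3).exists
      exact ⟨r, hr1, hr2⟩
    obtain ⟨r, hr0, hr⟩ := hr
    have hc : ∀ᶠ q : Coef 2 × X2 in 𝓝 (F₂, v₂), ∀ i ∈ Finset.range m,
        dist ((T 2 q.1)^[i] q.2) ((T 2 F₂)^[i] v₂) < r / 2 := by
      rw [Filter.eventually_all_finset]
      intro i _
      have h6 := (iter_analytic hA₂ hN.1.1 i).continuousAt
      exact h6 (Metric.ball_mem_nhds _ (by positivity))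
    obtain ⟨ε₁, hε₁, h7⟩ := Metric.eventually_nhds_iff.1 hc
    obtain ⟨δ₃, hδ₃, h8⟩ := attr_cont hA₂ hn hP₂ (half_pos hr0)
    obtain ⟨δ₄, hδ₄, h9⟩ := Metric.isOpen_iff.1 (isOpen_interior : IsOpen U) F₂ hF₂U
    obtain ⟨F, v, hF, hv, hA⟩ := hcon (min ε₁ (min δ₃ δ₄)) (lt_min hε₁ (lt_min hδ₃ hδ₄))
    have hF1 : dist F F₂ < ε₁ := lt_of_lt_of_le hF (min_le_left _ _)
    have hF3 : dist F F₂ < δ₃ := lt_of_lt_of_le hF ((min_le_right _ _).trans (min_le_left _ _))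
    have hF4 : dist F F₂ < δ₄ := lt_of_lt_of_le hF ((min_le_right _ _).trans (min_le_right _ _))
    have hv1 : dist v v₂ < ε₁ := lt_of_lt_of_le hv (min_le_left _ _)
    obtain ⟨P, hPd, hPA⟩ := h8 F hF3
    obtain ⟨i, hi, hPi⟩ := attr_unique (hUA F (h9 hF4)) hm hn hA hPA
    have h10 := h7 (y := (F, v)) (by
      rw [Prod.dist_eq]
      exact max_lt hF1 hv1) i (Finset.mem_range.2 hi)
    have h11 := hr i (Finset.mem_range.2 hi)
    have h12 : dist P₂ ((T 2 F₂)^[i] v₂) ≤ dist P₂ P + dist P ((T 2 F₂)^[i] v₂) :=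
      dist_triangle _ _ _
    rw [dist_comm P₂ P] at h12
    simp only at h10
    rw [← hPi] at h10
    linarith
  obtain ⟨i, -, hi⟩ := hkey
  have h13 := neut_iter hA₂ hm hN i
  rw [← hi] at h13
  exact not_attr_neut hA₂ hn hm hP₂ h13

theorem dense_NA {F : Coef 2} (hF : F ∈ U) {ε : ℝ} (hε : 0 < ε) :
    ∃ F' ∈ ball F ε, ∃ δ > 0, ball F' δ ⊆ U ∧ NA (ball F' δ) := by
  obtain ⟨ε', hε', hsub⟩ := Metric.isOpen_iff.1 (isOpen_interior : IsOpen U) F hF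
  set r := min ε ε' with hr
  have hr0 : 0 < r := lt_min hε hε'
  by_cases h : ∃ G ∈ ball F r, ∃ n ≥ 1, ∃ v, Attr G n v
  · obtain ⟨G, hG, n, hn, v, hv⟩ := h
    obtain ⟨δ, hδ, h1, h2⟩ := na_of_attr (hsub (ball_subset_ball (min_le_right _ _) hG)) hn hv
    exact ⟨G, ball_subset_ball (min_le_left _ _) hG, δ, hδ, h1, h2⟩
  · refine ⟨F, mem_ball_self hε, r, hr0, (ball_subset_ball (min_le_right _ _)).trans hsub, ?_⟩
    intro F₂ hF₂ m hm v₂ _ hcon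
    apply h
    have hd : 0 < r - dist F₂ F := by
      have := mem_ball.1 hF₂
      linarith
    obtain ⟨G, v, hG, -, hA⟩ := hcon _ hd
    refine ⟨G, ?_, m, hm, v, hA⟩
    rw [mem_ball]
    calc dist G F ≤ dist G F₂ + dist F₂ F := dist_triangle _ _ _
      _ < r := by linarith

end NB
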