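import Pool.Agent.NB.E1
import Pool.Agent.NB.D5
/-!
E7. Over a set with the property `NA`, limits of repelling periodic points are repelling.
The limit is in `K F₂` and periodic (`per_limit`); it has no eigenvalue of modulus `< 1` (`attr_nhds`: the
nearby points would be attracting, but all their eigenvalues have modulus `> 1`), and none of
modulus `1` (`neutral_limit` and `NA`).
-/
open Set Metric Filter Topology
open SkewBif
namespace NB

theorem rep_limit {B : Set (Coef 2)} (hBU : B ⊆ U) (hNA : NA B) {F₂ : Coef 2} (hF₂ : F₂ ∈ B) {m : ℕ}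
    (hm : 1 ≤ m) {v₂ : X2}
    (h : ∀ ε > 0, ∃ F v, dist F F₂ < ε ∧ dist v v₂ < ε ∧ Rep F m v) : Rep F₂ m v₂ := by
  have hA : Adm F₂ := interior_subset (hBU hF₂)
  have hP : Per F₂ m v₂ := per_limit hA fun ε hε => by
    obtain ⟨F, v, h1, h2, h3⟩ := h ε hε
    exact ⟨F, v, h1, h2, h3.1⟩
  refine ⟨hP, fun μ hμ => ?_⟩
  by_contra hcon
  rw [not_lt] at hcon
  rcases hcon.lt_or_eq with hlt | heq
  · have hev := attr_nhds hA hm ⟨hP, μ, hμ, hlt⟩
    rw [Metric.eventually_nhds_iff] at hev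
    obtain ⟨ε, hε, hev⟩ := hev
    obtain ⟨F, v, h1, h2, h3⟩ := h ε hε
    have : Attr F m v := hev (y := (F, v)) (by
      rw [Prod.dist_eq]; exact max_lt h1 h2) h3.1.2
    obtain ⟨-, ν, hν, hν1⟩ := this
    have := h3.2 ν hν
    linarith
  · exact hNA F₂ hF₂ m hm v₂ ⟨hP, μ, hμ, heq⟩ (neutral_limit hA hm ⟨hP, μ, hμ, heq⟩ h)

end NB
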