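import Pool.Agent.NB.A6
/-!
E8. Relation between the chart map and the homogeneous lift.
`chart_iter`: for `u 1 ≠ 0`, `u = u 1 • lift (chart u)` and `ev` is homogeneous of degree `2`, so
`(ev u) 1 = (u 1)² (ev (lift (chart u))) 1 ≠ 0` for `chart u ∈ Core`, and `chart (ev u) = T (chart u)`.
`eig_rel`: let `D = fderiv (ev^[n]) u`, `D' = fderiv (T^[n]) (chart u)`, `π = fderiv chart u`: then
`π ∘ D = D' ∘ π`, `π` is surjective with kernel `ℂ u`, `D u = 2^n u` (Euler).  If `D x = μ x`, `π x ≠ 0`, then `μ` is an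
eigenvalue of `D'`; if `π x = 0`, then `μ = 2^n`.  Conversely, if `D' e = μ e`, `π x = e`, then
`D x = μ x + a u`, and `x + b u` with `b = a / (μ - 2^n)` is an eigenvector.
-/
open Set Metric Filter Topology
open SkewBif
namespace NB

theorem E8_ev_smul (F : Coef 2) (a : ℂ) (u : Fin 3 → ℂ) :
    ev 2 F (a • u) = a ^ 2 • ev 2 F u := by
  funext k
  simp only [ev, Pi.smul_apply, smul_eq_mul]
  rw [Finset.mul_sum]
  refine Finset.sum_congr rfl fun m _ => ?_
  have hm := m.2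
  have h : a ^ 2 = a ^ (m.1.1 : ℕ) * a ^ (2 - (m.1.1 : ℕ) - (m.1.2 : ℕ)) * a ^ (m.1.2 : ℕ) := by
    rw [← pow_add, ← pow_add]
    congr 1
    omega
  rw [h, mul_pow, mul_pow, mul_pow]
  ring

theorem E8_iter_smul (F : Coef 2) (n : ℕ) (a : ℂ) (u : Fin 3 → ℂ) :
    (ev 2 F)^[n] (a • u) = a ^ (2 ^ n) • (ev 2 F)^[n] u := by
  induction n with
  | zero => simp
  | succ n ih =>
    rw [Function.iterate_succ_apply', Function.iterate_succ_apply', ih, E8_ev_smul, ← pow_mul,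
      ← pow_succ]

theorem E8_chart_smul {a : ℂ} (ha : a ≠ 0) (u : Fin 3 → ℂ) : chart (a • u) = chart u := by
  simp only [chart, Pi.smul_apply, smul_eq_mul]
  rw [mul_div_mul_left _ _ ha, mul_div_mul_left _ _ ha]

theorem E8_lift_chart {u : Fin 3 → ℂ} (hu : u 1 ≠ 0) : u = u 1 • lift (chart u) := by
  funext i
  fin_cases i
  · simp only [lift, chart]
    change u 0 = u 1 * (u 0 / u 1)
    rw [mul_div_cancel₀ _ hu]
  · simp only [lift, chart]
    change u 1 = u 1 * 1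
    rw [mul_one]
  · simp only [lift, chart]
    change u 2 = u 1 * (u 2 / u 1)
    rw [mul_div_cancel₀ _ hu]

theorem E8_chart_ev (F : Coef 2) {u : Fin 3 → ℂ} (hu : u 1 ≠ 0) :
    chart (ev 2 F u) = T 2 F (chart u) := by
  rw [T]
  conv_lhs => rw [E8_lift_chart hu]
  rw [E8_ev_smul, E8_chart_smul (pow_ne_zero 2 hu)]

theorem E8_chart_iter (F : Coef 2) (n : ℕ) {u : Fin 3 → ℂ}
    (h : ∀ j < n, ((ev 2 F)^[j] u) 1 ≠ 0) :
    chart ((ev 2 F)^[n] u) = (T 2 F)^[n] (chart u) := by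
  induction n with
  | zero => rfl
  | succ n ih =>
    rw [Function.iterate_succ_apply', Function.iterate_succ_apply', E8_chart_ev F (h n (by omega)),
      ih fun j hj => h j (by omega)]

theorem E8_ev_diff (F : Coef 2) : Differentiable ℂ (ev 2 F) := by
  unfold ev
  fun_prop

theorem E8_iter_diff (F : Coef 2) (n : ℕ) : Differentiable ℂ ((ev 2 F)^[n]) := by
  induction n with
  | zero => exact differentiable_id
  | succ n ih => rw [Function.iterate_succ]; exact ih.comp (E8_ev_diff F)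

theorem E8_chart_deriv {u : Fin 3 → ℂ} (hu : u 1 ≠ 0) :
    ∃ P : (Fin 3 → ℂ) →L[ℂ] X2, HasFDerivAt chart P u ∧
      ∀ x, P x = ((x 0 * u 1 - u 0 * x 1) / u 1 ^ 2, (x 2 * u 1 - u 2 * x 1) / u 1 ^ 2) := by
  have h (i : Fin 3) : HasFDerivAt (fun x : Fin 3 → ℂ => x i)
      (ContinuousLinearMap.proj (R := ℂ) (φ := fun _ : Fin 3 => ℂ) i) u :=
    (ContinuousLinearMap.proj (R := ℂ) (φ := fun _ : Fin 3 => ℂ) i).hasFDerivAt
  have hi : HasFDerivAt (fun x : Fin 3 → ℂ => (x 1)⁻¹)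
      ((-(u 1 ^ 2)⁻¹) • ContinuousLinearMap.proj (R := ℂ) (φ := fun _ : Fin 3 => ℂ) 1) u :=
    (hasDerivAt_inv hu).comp_hasFDerivAt u (h 1)
  have h0 := (h 0).mul hi
  have h2 := (h 2).mul hi
  refine ⟨_, h0.prodMk h2, fun x => ?_⟩
  simp only [ContinuousLinearMap.prod_apply, ContinuousLinearMap.add_apply,
    ContinuousLinearMap.smul_apply, ContinuousLinearMap.proj_apply, smul_eq_mul]
  ext
  · change u 0 * (-(u 1 ^ 2)⁻¹ * x 1) + (u 1)⁻¹ * x 0 = (x 0 * u 1 - u 0 * x 1) / u 1 ^ 2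
    field_simp
    ring
  · change u 2 * (-(u 1 ^ 2)⁻¹ * x 1) + (u 1)⁻¹ * x 2 = (x 2 * u 1 - u 2 * x 1) / u 1 ^ 2
    field_simp
    ring

theorem E8_ker {u : Fin 3 → ℂ} (hu : u 1 ≠ 0) {x : Fin 3 → ℂ}
    (h : (((x 0 * u 1 - u 0 * x 1) / u 1 ^ 2, (x 2 * u 1 - u 2 * x 1) / u 1 ^ 2) : X2) = 0) :
    x = (x 1 / u 1) • u := by
  rw [Prod.mk_eq_zero, div_eq_zero_iff, div_eq_zero_iff] at h
  have hu2 := pow_ne_zero 2 hu
  obtain ⟨h1, h2⟩ := h
  have h1 := h1.resolve_right hu2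
  have h2 := h2.resolve_right hu2
  funext i
  rw [Pi.smul_apply, smul_eq_mul]
  fin_cases i
  · change x 0 = x 1 / u 1 * u 0
    field_simp
    linear_combination h1
  · change x 1 = x 1 / u 1 * u 1
    field_simp
  · change x 2 = x 1 / u 1 * u 2
    field_simp
    linear_combination h2

theorem E8_surj {u : Fin 3 → ℂ} (hu : u 1 ≠ 0) (e : X2) :
    ∃ x : Fin 3 → ℂ,
      (((x 0 * u 1 - u 0 * x 1) / u 1 ^ 2, (x 2 * u 1 - u 2 * x 1) / u 1 ^ 2) : X2) = e := by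
  refine ⟨![u 1 * e.1, 0, u 1 * e.2], ?_⟩
  ext
  · change (u 1 * e.1 * u 1 - u 0 * 0) / u 1 ^ 2 = e.1
    field_simp
    ring
  · change (u 1 * e.2 * u 1 - u 2 * 0) / u 1 ^ 2 = e.2
    field_simp
    ring

theorem E8_euler {F : Coef 2} {n : ℕ} {u : Fin 3 → ℂ} (hfix : (ev 2 F)^[n] u = u) :
    fderiv ℂ ((ev 2 F)^[n]) u u = (2 : ℂ) ^ n • u := by
  have h1 : HasDerivAt (fun a : ℂ => (ev 2 F)^[n] (a • u)) (fderiv ℂ ((ev 2 F)^[n]) u u) 1 := by
    have ha : HasDerivAt (fun a : ℂ => a • u) u 1 := by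
      simpa using (hasDerivAt_id (1 : ℂ)).smul_const u
    have hb : HasFDerivAt ((ev 2 F)^[n]) (fderiv ℂ ((ev 2 F)^[n]) u) ((1 : ℂ) • u) := by
      rw [one_smul]
      exact ((E8_iter_diff F n) u).hasFDerivAt
    exact hb.comp_hasDerivAt 1 ha
  have h2 : HasDerivAt (fun a : ℂ => (ev 2 F)^[n] (a • u)) ((2 : ℂ) ^ n • u) 1 := by
    have : (fun a : ℂ => (ev 2 F)^[n] (a • u)) = fun a : ℂ => a ^ (2 ^ n) • u := by
      funext a
      rw [E8_iter_smul, hfix]
    rw [this]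
    have h3 := (hasDerivAt_pow (2 ^ n) (1 : ℂ)).smul_const u
    simpa using h3
  exact h1.unique h2

theorem chart_iter {F : Coef 2} (hF : Adm F) {u : Fin 3 → ℂ} (hu : u 1 ≠ 0)
    (hv : chart u ∈ K F) (n : ℕ) :
    ((ev 2 F)^[n] u) 1 ≠ 0 ∧ chart ((ev 2 F)^[n] u) = (T 2 F)^[n] (chart u) := by
  induction n with
  | zero => exact ⟨hu, rfl⟩
  | succ n ih =>
    obtain ⟨h1, h2⟩ := ih
    rw [Function.iterate_succ_apply', Function.iterate_succ_apply']
    refine ⟨?_, ?_⟩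
    · have hK : chart ((ev 2 F)^[n] u) ∈ Core := by
        rw [h2]
        exact hv n
      rw [E8_lift_chart h1, E8_ev_smul, Pi.smul_apply, smul_eq_mul]
      exact mul_ne_zero (pow_ne_zero 2 h1) (good_core hF hK)
    · rw [E8_chart_ev F h1, h2]

theorem eig_rel {F : Coef 2} (hF : Adm F) {n : ℕ} (hn : 1 ≤ n) {u : Fin 3 → ℂ} (hu : u 1 ≠ 0)
    (hv : chart u ∈ K F) (hfix : (ev 2 F)^[n] u = u) {μ : ℂ} (hμ : μ ≠ 2 ^ n) :
    Module.End.HasEigenvalue (fderiv ℂ ((ev 2 F)^[n]) u : (Fin 3 → ℂ) →ₗ[ℂ] (Fin 3 → ℂ)) μ ↔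
      Eig F n (chart u) μ := by
  obtain ⟨P, hP, hPx⟩ := E8_chart_deriv hu
  set D := fderiv ℂ ((ev 2 F)^[n]) u with hD
  set D' := fderiv ℂ ((T 2 F)^[n]) (chart u) with hD'
  have hDd : HasFDerivAt ((ev 2 F)^[n]) D u := ((E8_iter_diff F n) u).hasFDerivAt
  have hD'd : HasFDerivAt ((T 2 F)^[n]) D' (chart u) :=
    (iter_analytic' hF hv n).differentiableAt.hasFDerivAt
  have hcomm : ∀ x, P (D x) = D' (P x) := by
    have hev : (fun w => chart ((ev 2 F)^[n] w)) =ᶠ[𝓝 u] fun w => (T 2 F)^[n] (chart w) := by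
      have : ∀ᶠ w in 𝓝 u, ∀ j < n, ((ev 2 F)^[j] w) 1 ≠ 0 := by
        have h3 : ∀ j ∈ Finset.range n, ∀ᶠ w in 𝓝 u, ((ev 2 F)^[j] w) 1 ≠ 0 := by
          intro j _
          have hc : Continuous fun w : Fin 3 → ℂ => ((ev 2 F)^[j] w) 1 :=
            (continuous_apply 1).comp (E8_iter_diff F j).continuous
          exact hc.continuousAt.eventually_ne (chart_iter hF hu hv j).1
        filter_upwards [(Finset.eventually_all _).2 h3] with w hw j hj
        exact hw j (Finset.mem_range.2 hj)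
      filter_upwards [this] with w hw
      exact E8_chart_iter F n hw
    have h1 : HasFDerivAt (fun w => chart ((ev 2 F)^[n] w)) (P.comp D) u := by
      have hP' : HasFDerivAt chart P ((ev 2 F)^[n] u) := by rw [hfix]; exact hP
      exact hP'.comp u hDd
    have h2 : HasFDerivAt (fun w => (T 2 F)^[n] (chart w)) (D'.comp P) u := hD'd.comp u hP
    have h3 := h1.unique (h2.congr_of_eventuallyEq hev)
    intro x
    exact congrArg (fun L : (Fin 3 → ℂ) →L[ℂ] X2 => L x) h3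
  have hker : ∀ x, P x = 0 → x = (x 1 / u 1) • u := by
    intro x hx
    rw [hPx] at hx
    exact E8_ker hu hx
  have hu0 : u ≠ 0 := fun h => hu (by rw [h]; rfl)
  have hEu : D u = (2 : ℂ) ^ n • u := E8_euler hfix
  have hPu : P u = 0 := by
    rw [hPx]
    have h1 : u 0 * u 1 - u 0 * u 1 = 0 := sub_self _
    have h2 : u 2 * u 1 - u 2 * u 1 = 0 := sub_self _
    rw [h1, h2, zero_div]
    rfl
  constructor
  · intro h
    obtain ⟨x, hx⟩ := h.exists_hasEigenvector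
    have hx1 : D x = μ • x := Module.End.mem_eigenspace_iff.1 hx.1
    by_cases hPx0 : P x = 0
    · exfalso
      have h4 := hker x hPx0
      have h5 : D x = (2 : ℂ) ^ n • x := by
        rw [h4, map_smul, hEu, smul_comm]
      rw [hx1] at h5
      have h6 : (μ - 2 ^ n) • x = 0 := by rw [sub_smul, h5, sub_self]
      rcases smul_eq_zero.1 h6 with h7 | h7
      · exact hμ (sub_eq_zero.1 h7)
      · exact hx.2 h7
    · refine Module.End.hasEigenvalue_of_hasEigenvector (x := P x) ⟨?_, hPx0⟩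
      rw [Module.End.mem_eigenspace_iff]
      change D' (P x) = μ • P x
      rw [← hcomm, hx1, map_smul]
  · intro h
    obtain ⟨e, he⟩ := h.exists_hasEigenvector
    have he1 : D' e = μ • e := Module.End.mem_eigenspace_iff.1 he.1
    obtain ⟨x, hx⟩ := E8_surj hu e
    rw [← hPx] at hx
    have h4 : P (D x - μ • x) = 0 := by
      rw [map_sub, hcomm, map_smul, hx, he1, sub_self]
    have h5 := hker _ h4
    set a := (D x - μ • x) 1 / u 1 with ha
    have h6 : D x = μ • x + a • u := by rw [← h5]; abel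
    have hne : μ - 2 ^ n ≠ 0 := sub_ne_zero.2 hμ
    refine Module.End.hasEigenvalue_of_hasEigenvector (x := x + (a / (μ - 2 ^ n)) • u) ⟨?_, ?_⟩
    · rw [Module.End.mem_eigenspace_iff]
      change D (x + (a / (μ - 2 ^ n)) • u) = μ • (x + (a / (μ - 2 ^ n)) • u)
      rw [map_add, map_smul, hEu, h6, smul_add, add_assoc, smul_smul, smul_smul, ← add_smul]
      congr 2
      field_simp
      ring
    · intro h0
      have h7 : P (x + (a / (μ - 2 ^ n)) • u) = 0 := by rw [h0, map_zero]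
      rw [map_add, map_smul, hPu, smul_zero, add_zero, hx] at h7
      exact he.2 h7

theorem repPer_iff {F : Coef 2} (hF : Adm F) {n : ℕ} (hn : 1 ≤ n) {u : Fin 3 → ℂ} (hu : u ≠ 0) :
    RepPer 2 F n u ↔ (ev 2 F)^[n] u = u ∧ u 1 ≠ 0 ∧ Rep F n (chart u) := by
  have h2 : (1 : ℝ) < ‖(2 : ℂ) ^ n‖ := by
    rw [norm_pow]
    have : ‖(2 : ℂ)‖ = 2 := by simp
    rw [this]
    exact one_lt_pow₀ (by norm_num) (by omega)
  constructor
  · intro h
    obtain ⟨h1, hK⟩ := hF.per n hn u hu h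
    refine ⟨h.1, h1, ⟨hK, ?_⟩, fun μ hμ => ?_⟩
    · rw [← (chart_iter hF h1 hK n).2, h.1]
    · by_cases hμ2 : μ = 2 ^ n
      · rw [hμ2]; exact h2
      · exact h.2 μ ((eig_rel hF hn h1 hK h.1 hμ2).2 hμ)
  · rintro ⟨hfix, h1, ⟨hK, -⟩, hR⟩
    refine ⟨hfix, fun μ hμ => ?_⟩
    by_cases hμ2 : μ = 2 ^ n
    · rw [hμ2]; exact h2
    · exact hR μ ((eig_rel hF hn h1 hK hfix hμ2).1 hμ)

end NB
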