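import Pool.Agent.NB.Defs
/-!
E9a. Bounds for lifted periodic points.  For `F` in a compact set `C` of nondegenerate triples there are
`0 < m ≤ M` with `m ‖u‖² ≤ ‖ev F u‖ ≤ M ‖u‖²` (compactness of `C × sphere`, homogeneity).  If
`ev^[n] u = u ≠ 0`, look at the points of the orbit of maximal and of minimal norm:
`1/M ≤ ‖u‖ ≤ 1/m`.
-/
open Set Metric Filter Topology
open SkewBif
namespace NB

theorem E9a_ev_an1 (p : Coef 2 × (Fin 3 → ℂ)) :
    AnalyticAt ℂ (fun q : Coef 2 × (Fin 3 → ℂ) => ev 2 q.1 q.2) p := by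
  have hc1 : ∀ (k : Fin 3) (m : Mon 2), AnalyticAt ℂ
      (fun q : Coef 2 × (Fin 3 → ℂ) => q.1 k m) p := by
    intro k m
    have h : AnalyticAt ℂ (((ContinuousLinearMap.proj (R := ℂ) (φ := fun _ : Mon 2 => ℂ) m).comp
      (ContinuousLinearMap.proj (R := ℂ) (φ := fun _ : Fin 3 => Mon 2 → ℂ) k)).comp
      (ContinuousLinearMap.fst ℂ (Coef 2) (Fin 3 → ℂ))) p :=
      ContinuousLinearMap.analyticAt _ p
    exact h
  have hc2 : ∀ k : Fin 3, AnalyticAt ℂ (fun q : Coef 2 × (Fin 3 → ℂ) => q.2 k) p := by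
    intro k
    have h : AnalyticAt ℂ ((ContinuousLinearMap.proj (R := ℂ) (φ := fun _ : Fin 3 => ℂ) k).comp
      (ContinuousLinearMap.snd ℂ (Coef 2) (Fin 3 → ℂ))) p :=
      ContinuousLinearMap.analyticAt _ p
    exact h
  apply AnalyticAt.pi
  intro k
  apply Finset.analyticAt_fun_sum
  intro m _
  exact (hc1 k m).mul ((((hc2 0).pow _).mul ((hc2 1).pow _)).mul ((hc2 2).pow _))

theorem E9a_homog (F : Coef 2) (u : Fin 3 → ℂ) (t : ℂ) : ev 2 F (t • u) = t ^ 2 • ev 2 F u := by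
  funext k
  simp only [ev, Pi.smul_apply, smul_eq_mul, Finset.mul_sum]
  refine Finset.sum_congr rfl fun m _ => ?_
  have hm := m.2
  have e : t ^ 2 = t ^ (m.1.1 : ℕ) * t ^ (2 - (m.1.1 : ℕ) - (m.1.2 : ℕ)) * t ^ (m.1.2 : ℕ) := by
    rw [← pow_add, ← pow_add]
    congr 1
    omega
  rw [e, mul_pow, mul_pow, mul_pow]
  ring

theorem per_bounds {C : Set (Coef 2)} (hC : IsCompact C) (hn : ∀ F ∈ C, Nondeg 2 F) :
    ∃ a > (0 : ℝ), ∃ b > (0 : ℝ), ∀ F ∈ C, ∀ n : ℕ, 1 ≤ n → ∀ u : Fin 3 → ℂ, u ≠ 0 →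
      (ev 2 F)^[n] u = u → a ≤ ‖u‖ ∧ ‖u‖ ≤ b := by
  rcases C.eq_empty_or_nonempty with rfl | hne
  · exact ⟨1, one_pos, 1, one_pos, fun F hF => absurd hF (notMem_empty F)⟩
  have hcont : Continuous (fun q : Coef 2 × (Fin 3 → ℂ) => ‖ev 2 q.1 q.2‖) :=
    (continuous_iff_continuousAt.2 fun q => (E9a_ev_an1 q).continuousAt).norm
  have hS : IsCompact (C ×ˢ sphere (0 : Fin 3 → ℂ) 1) := hC.prod (isCompact_sphere _ _)
  have hSne : (C ×ˢ sphere (0 : Fin 3 → ℂ) 1).Nonempty := by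
    obtain ⟨F, hF⟩ := hne
    refine ⟨(F, fun _ => 1), hF, ?_⟩
    rw [mem_sphere_zero_iff_norm, pi_norm_const, norm_one]
  obtain ⟨p, hp, hpmin⟩ := hS.exists_isMinOn hSne hcont.continuousOn
  obtain ⟨p', hp', hpmax⟩ := hS.exists_isMaxOn hSne hcont.continuousOn
  set m := ‖ev 2 p.1 p.2‖ with hm
  set M := ‖ev 2 p'.1 p'.2‖ with hM
  have hm0 : 0 < m := by
    apply norm_pos_iff.2
    apply hn p.1 hp.1
    intro h0
    have := hp.2
    rw [h0, mem_sphere_zero_iff_norm, norm_zero] at this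
    exact zero_ne_one this
  have hmM : m ≤ M := isMinOn_iff.1 hpmin p' hp'
  have hM0 : 0 < M := lt_of_lt_of_le hm0 hmM
  have hb : ∀ F ∈ C, ∀ u : Fin 3 → ℂ, m * ‖u‖ ^ 2 ≤ ‖ev 2 F u‖ ∧ ‖ev 2 F u‖ ≤ M * ‖u‖ ^ 2 := by
    intro F hF u
    by_cases hu : u = 0
    · have h0 : ev 2 F u = 0 := by
        have := E9a_homog F u 0
        rw [zero_smul, ← hu] at this
        rw [this]
        simp
      rw [h0, hu]
      simp
    · have hu0 : ‖u‖ ≠ 0 := norm_ne_zero_iff.2 hu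
      obtain ⟨w, hw⟩ : ∃ w : Fin 3 → ℂ, w = ((‖u‖ : ℂ)⁻¹) • u := ⟨_, rfl⟩
      have hw1 : w ∈ sphere (0 : Fin 3 → ℂ) 1 := by
        rw [mem_sphere_zero_iff_norm, hw, norm_smul, norm_inv, Complex.norm_real, norm_norm]
        exact inv_mul_cancel₀ hu0
      have huw : u = (‖u‖ : ℂ) • w := by
        rw [hw, smul_smul, mul_inv_cancel₀ (by exact_mod_cast hu0), one_smul]
      have hFw : (F, w) ∈ C ×ˢ sphere (0 : Fin 3 → ℂ) 1 := ⟨hF, hw1⟩
      have h1 : m ≤ ‖ev 2 F w‖ := isMinOn_iff.1 hpmin (F, w) hFw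
      have h2 : ‖ev 2 F w‖ ≤ M := isMaxOn_iff.1 hpmax (F, w) hFw
      have h3 : ‖ev 2 F u‖ = ‖u‖ ^ 2 * ‖ev 2 F w‖ := by
        have h4 := E9a_homog F w (‖u‖ : ℂ)
        rw [← huw] at h4
        rw [h4, norm_smul, norm_pow, Complex.norm_real, norm_norm]
      rw [h3]
      have h4 : 0 ≤ ‖u‖ ^ 2 := by positivity
      constructor <;> nlinarith
  refine ⟨1 / M, by positivity, 1 / m, by positivity, fun F hF n h1 u hu hper => ?_⟩
  have hu0 : 0 < ‖u‖ := norm_pos_iff.2 hu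
  obtain ⟨k, rfl⟩ : ∃ k, n = k + 1 := ⟨n - 1, by omega⟩
  have hstep : ∀ j, (ev 2 F)^[j + 1] u = ev 2 F ((ev 2 F)^[j] u) := fun j =>
    Function.iterate_succ_apply' _ _ _
  constructor
  · by_contra hcon
    push Not at hcon
    rw [lt_div_iff₀ hM0] at hcon
    have hj : ∀ j, M * ‖(ev 2 F)^[j] u‖ ≤ M * ‖u‖ := by
      intro j
      induction j with
      | zero => exact le_refl _
      | succ j ih =>
        rw [hstep j]
        have h2 := (hb F hF ((ev 2 F)^[j] u)).2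
        have h3 : 0 ≤ M * ‖(ev 2 F)^[j] u‖ := by positivity
        calc M * ‖ev 2 F ((ev 2 F)^[j] u)‖ ≤ M * (M * ‖(ev 2 F)^[j] u‖ ^ 2) :=
              mul_le_mul_of_nonneg_left h2 hM0.le
          _ = (M * ‖(ev 2 F)^[j] u‖) * (M * ‖(ev 2 F)^[j] u‖) := by ring
          _ ≤ 1 * (M * ‖u‖) := mul_le_mul (by linarith) ih h3 zero_le_one
          _ = M * ‖u‖ := one_mul _
    have h4 := hj k
    have h5 := (hb F hF ((ev 2 F)^[k] u)).2
    rw [← hstep k, hper] at h5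
    have h6 : 0 ≤ M * ‖(ev 2 F)^[k] u‖ := by positivity
    have h7 : M * ‖u‖ ≤ (M * ‖u‖) * (M * ‖u‖) := by
      calc M * ‖u‖ ≤ M * (M * ‖(ev 2 F)^[k] u‖ ^ 2) := mul_le_mul_of_nonneg_left h5 hM0.le
        _ = (M * ‖(ev 2 F)^[k] u‖) * (M * ‖(ev 2 F)^[k] u‖) := by ring
        _ ≤ (M * ‖u‖) * (M * ‖u‖) := mul_le_mul h4 h4 h6 (by positivity)
    have h8 : 0 < M * ‖u‖ := by positivity
    nlinarith
  · by_contra hcon
    push Not at hcon
    rw [div_lt_iff₀ hm0] at hcon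
    have hj : ∀ j, m * ‖u‖ ≤ m * ‖(ev 2 F)^[j] u‖ := by
      intro j
      induction j with
      | zero => exact le_refl _
      | succ j ih =>
        rw [hstep j]
        have h2 := (hb F hF ((ev 2 F)^[j] u)).1
        calc m * ‖u‖ = 1 * (m * ‖u‖) := (one_mul _).symm
          _ ≤ (m * ‖(ev 2 F)^[j] u‖) * (m * ‖(ev 2 F)^[j] u‖) :=
              mul_le_mul (by linarith) ih (by positivity) (by positivity)
          _ = m * (m * ‖(ev 2 F)^[j] u‖ ^ 2) := by ring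
          _ ≤ m * ‖ev 2 F ((ev 2 F)^[j] u)‖ := mul_le_mul_of_nonneg_left h2 hm0.le
    have h4 := hj k
    have h5 := (hb F hF ((ev 2 F)^[k] u)).1
    rw [← hstep k, hper] at h5
    have h7 : (m * ‖u‖) * (m * ‖u‖) ≤ m * ‖u‖ := by
      calc (m * ‖u‖) * (m * ‖u‖) ≤ (m * ‖(ev 2 F)^[k] u‖) * (m * ‖(ev 2 F)^[k] u‖) :=
            mul_le_mul h4 h4 (by positivity) (by positivity)
        _ = m * (m * ‖(ev 2 F)^[k] u‖ ^ 2) := by ring
        _ ≤ m * ‖u‖ := mul_le_mul_of_nonneg_left h5 hm0.le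
    nlinarith

/-- Joint analyticity of the iterates of the lift (polynomial in `(F, u)`). -/
theorem ev_analytic (n : ℕ) (p : Coef 2 × (Fin 3 → ℂ)) :
    AnalyticAt ℂ (fun q : Coef 2 × (Fin 3 → ℂ) => (ev 2 q.1)^[n] q.2) p := by
  induction n with
  | zero => exact analyticAt_snd
  | succ n ih =>
    have h1 : AnalyticAt ℂ (fun q : Coef 2 × (Fin 3 → ℂ) => (q.1, (ev 2 q.1)^[n] q.2)) p :=
      AnalyticAt.prod analyticAt_fst ih
    have h2 := (E9a_ev_an1 (p.1, (ev 2 p.1)^[n] p.2)).comp_of_eq h1 rfl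
    refine h2.congr (Eventually.of_forall fun q => ?_)
    exact (Function.iterate_succ_apply' _ _ _).symm

theorem ev_fderiv_cont (n : ℕ) (p : Coef 2 × (Fin 3 → ℂ)) :
    ContinuousAt (fun q : Coef 2 × (Fin 3 → ℂ) => fderiv ℂ ((ev 2 q.1)^[n]) q.2) p := by
  have h1 : ContinuousAt (fderiv ℂ (fun q : Coef 2 × (Fin 3 → ℂ) => (ev 2 q.1)^[n] q.2)) p :=
    (ev_analytic n p).fderiv.continuousAt
  have h3 : Continuous fun L : (Coef 2 × (Fin 3 → ℂ)) →L[ℂ] (Fin 3 → ℂ) =>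
      L.comp (ContinuousLinearMap.inr ℂ (Coef 2) (Fin 3 → ℂ)) :=
    ((ContinuousLinearMap.compL ℂ (Fin 3 → ℂ) (Coef 2 × (Fin 3 → ℂ)) (Fin 3 → ℂ)).flip
      (ContinuousLinearMap.inr ℂ (Coef 2) (Fin 3 → ℂ))).continuous
  refine (h3.continuousAt.comp h1).congr (Eventually.of_forall fun q => ?_)
  have h7 : HasFDerivAt (fun u : Fin 3 → ℂ => (q.1, u))
      (ContinuousLinearMap.inr ℂ (Coef 2) (Fin 3 → ℂ)) q.2 := hasFDerivAt_prodMk_right q.1 q.2
  have h8 : HasFDerivAt (fun q : Coef 2 × (Fin 3 → ℂ) => (ev 2 q.1)^[n] q.2)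
      (fderiv ℂ (fun q : Coef 2 × (Fin 3 → ℂ) => (ev 2 q.1)^[n] q.2) (q.1, q.2)) (q.1, q.2) :=
    (ev_analytic n (q.1, q.2)).differentiableAt.hasFDerivAt
  have h9 := h8.comp q.2 h7
  exact (HasFDerivAt.fderiv (f := (ev 2 q.1)^[n]) h9).symm

end NB
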