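import Pool.Agent.NB.E0
import Pool.Agent.NB.E7
import Pool.Agent.NB.E8
import Pool.Agent.NB.E9a
/-!
E9b. The set of lifted repelling periodic points over `B` (with `NA B`, `B ⊆ U`) is relatively open among the
solutions of `ev^[n] u = u`, and compact over compact subsets of `B`.
`rep3_open`: `eig_upper` and `ev_fderiv_cont`.
`rep3_compact`: it is bounded (`per_bounds`).  Closed: let `(F_j, u_j) → (F₂, u₂)`, `F₂ ∈ C ⊆ B`.  By
`repPer_iff`, `u_j 1 ≠ 0` and `chart u_j ∈ K F_j`, so `‖u_j‖ ≤ 11 ‖u_j 1‖` and `‖u₂ 1‖ ≥ a / 11 > 0`; the charts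
converge, `rep_limit` gives `Rep F₂ n (chart u₂)`, and `repPer_iff` gives `RepPer 2 F₂ n u₂`.
-/
open Set Metric Filter Topology
open SkewBif
namespace NB

/-- The lifted repelling points of period `n` over `B`. -/
def R3 (B : Set (Coef 2)) (n : ℕ) : Set (Coef 2 × (Fin 3 → ℂ)) :=
  {p | p.1 ∈ B ∧ p.2 ≠ 0 ∧ RepPer 2 p.1 n p.2}

theorem rep3_open {B : Set (Coef 2)} (hB : IsOpen B) {n : ℕ} (p : Coef 2 × (Fin 3 → ℂ))
    (hp : p ∈ R3 B n) :
    ∀ᶠ q in 𝓝 p, (ev 2 q.1)^[n] q.2 - q.2 = 0 → q ∈ R3 B n := by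
  obtain ⟨h1, h2, h3⟩ := hp
  have e1 : ∀ᶠ q : Coef 2 × (Fin 3 → ℂ) in 𝓝 p, q.1 ∈ B :=
    continuousAt_fst.eventually (hB.mem_nhds h1)
  have e2 : ∀ᶠ q : Coef 2 × (Fin 3 → ℂ) in 𝓝 p, q.2 ≠ 0 :=
    continuousAt_snd.eventually_ne h2
  have e3 := (ev_fderiv_cont n p).eventually (eig_upper _ h3.2)
  filter_upwards [e1, e2, e3] with q q1 q2 q3 hq
  exact ⟨q1, q2, sub_eq_zero.mp hq, q3⟩

/-- The norm of a lifted point whose chart is in the core. -/
theorem E9b_norm {u : Fin 3 → ℂ} (h1 : u 1 ≠ 0) (hc : chart u ∈ Core) : ‖u‖ ≤ 11 * ‖u 1‖ := by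
  have h2 : ‖(chart u).1‖ ≤ 11 ∧ ‖(chart u).2‖ ≤ 11 := by
    rcases hc with hc | hc
    · obtain ⟨c1, c2⟩ := hc
      rw [mem_closedBall, dist_eq_norm] at c1 c2
      rw [sub_zero] at c2
      refine ⟨?_, c2⟩
      have := norm_sub_norm_le (chart u).1 1
      rw [norm_one] at this
      linarith
    · obtain ⟨c1, c2⟩ := hc
      rw [mem_closedBall, dist_eq_norm] at c1 c2
      rw [sub_zero] at c2
      refine ⟨?_, c2⟩
      have := norm_sub_norm_le (chart u).1 (-1)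
      rw [norm_neg, norm_one] at this
      linarith
  have h3 : 0 < ‖u 1‖ := norm_pos_iff.mpr h1
  rw [pi_norm_le_iff_of_nonneg (by positivity)]
  intro i
  fin_cases i
  · have h4 := h2.1
    unfold chart at h4
    simp only [norm_div] at h4
    rwa [div_le_iff₀ h3] at h4
  · show ‖u 1‖ ≤ 11 * ‖u 1‖
    linarith
  · have h4 := h2.2
    unfold chart at h4
    simp only [norm_div] at h4
    rwa [div_le_iff₀ h3] at h4

theorem rep3_compact {B : Set (Coef 2)} (hBU : B ⊆ U) (hNA : NA B) {n : ℕ} (hn : 1 ≤ n)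
    {C : Set (Coef 2)} (hC : IsCompact C) (hCB : C ⊆ B) :
    IsCompact (R3 B n ∩ (C ×ˢ univ)) := by
  have hadm : ∀ F ∈ B, Adm F := fun F hF => interior_subset (hBU hF)
  obtain ⟨a, ha, b, hb, hab⟩ := per_bounds hC (fun F hF => (hadm F (hCB hF)).nd)
  refine IsCompact.of_isClosed_subset (hC.prod (isCompact_closedBall (0 : Fin 3 → ℂ) b)) ?_ ?_
  · refine IsSeqClosed.isClosed ?_
    intro x p hx hp
    obtain ⟨F₂, u₂⟩ := p
    have hF : Tendsto (fun j => (x j).1) atTop (𝓝 F₂) :=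
      (continuous_fst.tendsto (F₂, u₂)).comp hp
    have hu : Tendsto (fun j => (x j).2) atTop (𝓝 u₂) :=
      (continuous_snd.tendsto (F₂, u₂)).comp hp
    have hxB : ∀ j, (x j).1 ∈ B := fun j => (hx j).1.1
    have hxC : ∀ j, (x j).1 ∈ C := fun j => (hx j).2.1
    have hx0 : ∀ j, (x j).2 ≠ 0 := fun j => (hx j).1.2.1
    have hxR : ∀ j, RepPer 2 (x j).1 n (x j).2 := fun j => (hx j).1.2.2
    have hF₂C : F₂ ∈ C := hC.isClosed.mem_of_tendsto hF (Eventually.of_forall hxC)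
    have hF₂B : F₂ ∈ B := hCB hF₂C
    have hrep := fun j => (repPer_iff (hadm _ (hxB j)) hn (hx0 j)).mp (hxR j)
    have hla : ∀ j, a ≤ ‖(x j).2‖ := fun j => (hab _ (hxC j) n hn _ (hx0 j) (hxR j).1).1
    have hu₂a : a ≤ ‖u₂‖ := ge_of_tendsto hu.norm (Eventually.of_forall hla)
    have hu₂0 : u₂ ≠ 0 := by
      intro h
      rw [h, norm_zero] at hu₂a
      linarith
    have hfix : (ev 2 F₂)^[n] u₂ = u₂ := by
      have h1 : Tendsto (fun j => (ev 2 (x j).1)^[n] (x j).2) atTop (𝓝 ((ev 2 F₂)^[n] u₂)) :=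
        ((ev_analytic n (F₂, u₂)).continuousAt.tendsto).comp hp
      have h2 : (fun j => (ev 2 (x j).1)^[n] (x j).2) = fun j => (x j).2 := by
        funext j
        exact (hxR j).1
      rw [h2] at h1
      exact tendsto_nhds_unique h1 hu
    have h11 : ‖u₂‖ ≤ 11 * ‖u₂ 1‖ := by
      have h1 : Tendsto (fun j => 11 * ‖(x j).2 1‖) atTop (𝓝 (11 * ‖u₂ 1‖)) :=
        (((continuous_apply (1 : Fin 3)).tendsto u₂).comp hu).norm.const_mul 11
      refine le_of_tendsto_of_tendsto hu.norm h1 (Eventually.of_forall fun j => ?_)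
      have h2 := (hrep j).2.2.1.1 0
      simp only [Function.iterate_zero, id] at h2
      exact E9b_norm (hrep j).2.1 h2
    have hu₂1 : u₂ 1 ≠ 0 := by
      intro h
      rw [h, norm_zero, mul_zero] at h11
      linarith
    have hch : Tendsto (fun j => chart (x j).2) atTop (𝓝 (chart u₂)) := by
      have h1 : ContinuousAt (fun u : Fin 3 → ℂ => chart u) u₂ := by
        unfold chart
        exact (((continuous_apply (0 : Fin 3)).continuousAt).div
          ((continuous_apply (1 : Fin 3)).continuousAt) hu₂1).prodMk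
          (((continuous_apply (2 : Fin 3)).continuousAt).div
          ((continuous_apply (1 : Fin 3)).continuousAt) hu₂1)
      exact h1.tendsto.comp hu
    have hlim : Rep F₂ n (chart u₂) := by
      refine rep_limit hBU hNA hF₂B hn fun ε hε => ?_
      have h1 := (Metric.tendsto_nhds.mp hF ε hε).and (Metric.tendsto_nhds.mp hch ε hε)
      obtain ⟨j, hj1, hj2⟩ := h1.exists
      exact ⟨(x j).1, chart (x j).2, hj1, hj2, (hrep j).2.2⟩
    exact ⟨⟨hF₂B, hu₂0, (repPer_iff (hadm _ hF₂B) hn hu₂0).mpr ⟨hfix, hu₂1, hlim⟩⟩,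
      hF₂C, mem_univ _⟩
  · rintro ⟨F, u⟩ ⟨⟨h1, h2, h3⟩, h4, -⟩
    refine ⟨h4, ?_⟩
    rw [mem_closedBall, dist_eq_norm, sub_zero]
    exact (hab F h4 n hn u h2 h3.1).2

/-- The partial derivative of `ev^[n] u - u` in `u` is injective at a repelling point. -/
theorem rep3_inj {n : ℕ} {F : Coef 2} {u : Fin 3 → ℂ} (h : RepPer 2 F n u) (e : Fin 3 → ℂ)
    (he : fderiv ℂ (fun q : Coef 2 × (Fin 3 → ℂ) => (ev 2 q.1)^[n] q.2 - q.2) (F, u) (0, e) = 0) :
    e = 0 := by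
  by_contra hne
  have h1 : DifferentiableAt ℂ (fun q : Coef 2 × (Fin 3 → ℂ) => (ev 2 q.1)^[n] q.2) (F, u) :=
    (ev_analytic n (F, u)).differentiableAt
  have h2 : HasFDerivAt (fun q : Coef 2 × (Fin 3 → ℂ) => (ev 2 q.1)^[n] q.2 - q.2)
      (fderiv ℂ (fun q : Coef 2 × (Fin 3 → ℂ) => (ev 2 q.1)^[n] q.2) (F, u) -
        ContinuousLinearMap.snd ℂ _ _) (F, u) := h1.hasFDerivAt.sub hasFDerivAt_snd
  have h3 : HasFDerivAt (fun x : Fin 3 → ℂ => ((F, x) : Coef 2 × (Fin 3 → ℂ)))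
      (ContinuousLinearMap.inr ℂ (Coef 2) (Fin 3 → ℂ)) u := hasFDerivAt_prodMk_right F u
  have h4 : HasFDerivAt ((ev 2 F)^[n])
      ((fderiv ℂ (fun q : Coef 2 × (Fin 3 → ℂ) => (ev 2 q.1)^[n] q.2) (F, u)).comp
        (ContinuousLinearMap.inr ℂ (Coef 2) (Fin 3 → ℂ))) u :=
    HasFDerivAt.comp u (f := fun x : Fin 3 → ℂ => ((F, x) : Coef 2 × (Fin 3 → ℂ))) h1.hasFDerivAt h3
  rw [h2.fderiv] at he
  have h5 : fderiv ℂ ((ev 2 F)^[n]) u e = e := by
    rw [h4.fderiv]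
    have h6 : (fderiv ℂ (fun q : Coef 2 × (Fin 3 → ℂ) => (ev 2 q.1)^[n] q.2) (F, u)) (0, e) - e = 0 :=
      he
    exact sub_eq_zero.mp h6
  have h6 : Module.End.HasEigenvalue
      (fderiv ℂ ((ev 2 F)^[n]) u : (Fin 3 → ℂ) →ₗ[ℂ] (Fin 3 → ℂ)) 1 := by
    refine Module.End.hasEigenvalue_of_hasEigenvector (x := e) ⟨?_, hne⟩
    rw [Module.End.mem_eigenspace_iff, one_smul]
    exact h5
  have h7 := h.2 1 h6
  rw [norm_one] at h7
  exact lt_irrefl _ h7

end NB
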