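import Pool.Agent.NB.CL
import Pool.Agent.NB.E9b
/-!
E9. Over a ball `B ⊆ U` with the property `NA` all repelling periodic points move holomorphically.
-/
open Set Metric Filter Topology
open SkewBif
namespace NB

theorem rep_section {F₀ : Coef 2} {δ : ℝ} (hBU : ball F₀ δ ⊆ U) (hNA : NA (ball F₀ δ)) {n : ℕ}
    (hn : 1 ≤ n) {F₁ : Coef 2} (hF₁ : F₁ ∈ ball F₀ δ) {u₁ : Fin 3 → ℂ} (h0 : u₁ ≠ 0)
    (hR : RepPer 2 F₁ n u₁) :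
    ∃ u : Coef 2 → (Fin 3 → ℂ), DifferentiableOn ℂ u (ball F₀ δ) ∧ u F₁ = u₁ ∧
      ∀ F ∈ ball F₀ δ, u F ≠ 0 ∧ RepPer 2 F n (u F) := by
  obtain ⟨u, hu, hu1, hu2⟩ := continuation (E := Coef 2) (X := Fin 3 → ℂ) (B := ball F₀ δ)
    isOpen_ball (convex_ball _ _) (fun q => (ev 2 q.1)^[n] q.2 - q.2) (R3 (ball F₀ δ) n)
    (fun p hp => ⟨hp.1, by rw [hp.2.2.1, sub_self]⟩)
    (fun p hp => ⟨(ev_analytic n p).sub analyticAt_snd, fun e he => rep3_inj hp.2.2 e he⟩)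
    (fun p hp => rep3_open isOpen_ball p hp)
    (fun C hC hCc => rep3_compact hBU hNA hn hCc hC)
    (p₀ := (F₁, u₁)) ⟨hF₁, h0, hR⟩
  exact ⟨u, hu, hu1, fun F hF => (hu2 F hF).2⟩

end NB
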