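import Pool.Agent.NB.CL
import Pool.Agent.NB.E1
import Pool.Agent.NB.E8
import Pool.Agent.NB.E9b
/-!
F1. Two holomorphic sections of repelling periodic points over a ball.
`section_inj`: the set where two sections with the same `n` coincide is closed and open in the ball
(`local_unique` for `ev^[n] u - u`, `rep3_inj`), and the ball is connected.
`section_dich`: the same for the chart points of two sections of periods `n`, `n'`: both are points
with `Rep F (n * n')` (`rep_mul`), and `local_unique` applies to `T^[n * n'] v - v` at a repelling point.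
-/
open Set Metric Filter Topology
open SkewBif
namespace NB

/-- A holomorphic section of lifted repelling points of period `n`. -/
def Sec (B : Set (Coef 2)) (n : ℕ) (u : Coef 2 → (Fin 3 → ℂ)) : Prop :=
  ContinuousOn u B ∧ ∀ F ∈ B, u F ≠ 0 ∧ RepPer 2 F n (u F)

theorem F1_dich {E X : Type} [PseudoMetricSpace E] [MetricSpace X] {B : Set E}
    (hB : IsPreconnected B) {f g : E → X} (hf : ContinuousOn f B) (hg : ContinuousOn g B)
    (hl : ∀ b ∈ B, f b = g b → ∃ ε > 0, ∀ b' ∈ B, dist b' b < ε → dist (f b') (f b) < ε →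
      dist (g b') (f b) < ε → f b' = g b') :
    (∀ b ∈ B, f b = g b) ∨ (∀ b ∈ B, f b ≠ g b) := by
  have : PreconnectedSpace B := Subtype.preconnectedSpace hB
  have hf' := continuousOn_iff_continuous_domRestrict.1 hf
  have hg' := continuousOn_iff_continuous_domRestrict.1 hg
  set S : Set B := {x | B.domRestrict f x = B.domRestrict g x} with hS
  have hcl : IsClosed S := isClosed_eq hf' hg'
  have hop : IsOpen S := by
    rw [isOpen_iff_mem_nhds]
    intro x hx
    have hx' : f x = g x := hx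
    obtain ⟨ε, hε, h⟩ := hl x x.2 hx'
    have h1 : ∀ᶠ y : B in 𝓝 x, dist (y : E) x < ε :=
      continuous_subtype_val.continuousAt.eventually (ball_mem_nhds (x : E) hε)
    have h2 : ∀ᶠ y : B in 𝓝 x, dist (f y) (f x) < ε :=
      hf'.continuousAt.eventually (ball_mem_nhds (B.domRestrict f x) hε)
    have h3 : ∀ᶠ y : B in 𝓝 x, dist (g y) (g x) < ε :=
      hg'.continuousAt.eventually (ball_mem_nhds (B.domRestrict g x) hε)
    filter_upwards [h1, h2, h3] with y hy1 hy2 hy3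
    rw [← hx'] at hy3
    exact h y y.2 hy1 hy2 hy3
  by_cases hne : S.Nonempty
  · left
    have h := IsClopen.eq_univ ⟨hcl, hop⟩ hne
    intro b hb
    have : (⟨b, hb⟩ : B) ∈ S := by rw [h]; trivial
    exact this
  · right
    intro b hb h
    exact hne ⟨⟨b, hb⟩, h⟩

theorem section_inj {B : Set (Coef 2)} (hB : IsPreconnected B) {n : ℕ}
    {u u' : Coef 2 → (Fin 3 → ℂ)} (hu : Sec B n u) (hu' : Sec B n u')
    {F₁ : Coef 2} (hF₁ : F₁ ∈ B) (h : u F₁ = u' F₁) : ∀ F ∈ B, u F = u' F := by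
  have key : (∀ b ∈ B, u b = u' b) ∨ (∀ b ∈ B, u b ≠ u' b) := by
    refine F1_dich hB hu.1 hu'.1 (fun b hb _ => ?_)
    obtain ⟨ε, hε, h2⟩ := local_unique
      (fun q : Coef 2 × (Fin 3 → ℂ) => (ev 2 q.1)^[n] q.2 - q.2) (p := (b, u b))
      ((ev_analytic n _).sub analyticAt_snd) (fun e he => rep3_inj (hu.2 b hb).2 e he)
    refine ⟨ε, hε, fun b' hb' h3 h4 h5 => h2 b' _ _ h3 h4 h5 ?_ ?_⟩
    · change (ev 2 b')^[n] (u b') - u b' = 0
      rw [(hu.2 b' hb').2.1, sub_self]
    · change (ev 2 b')^[n] (u' b') - u' b' = 0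
      rw [(hu'.2 b' hb').2.1, sub_self]
  rcases key with h1 | h1
  · exact h1
  · exact absurd h (h1 F₁ hF₁)

theorem F1_inj {F : Coef 2} (hF : Adm F) {n : ℕ} {v : X2} (hv : Rep F n v) (e : X2)
    (he : fderiv ℂ (fun q : Coef 2 × X2 => (T 2 q.1)^[n] q.2 - q.2) (F, v) (0, e) = 0) :
    e = 0 := by
  have h1 : DifferentiableAt ℂ (fun q : Coef 2 × X2 => (T 2 q.1)^[n] q.2 - q.2) (F, v) :=
    ((iter_analytic hF hv.1.1 n).sub analyticAt_snd).differentiableAt
  have h2 : HasFDerivAt (fun x : X2 => ((F, x) : Coef 2 × X2))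
      (ContinuousLinearMap.inr ℂ (Coef 2) X2) v := hasFDerivAt_prodMk_right F v
  have h3 : HasFDerivAt (fun x : X2 => (T 2 F)^[n] x - x)
      ((fderiv ℂ (fun q : Coef 2 × X2 => (T 2 q.1)^[n] q.2 - q.2) (F, v)).comp
        (ContinuousLinearMap.inr ℂ (Coef 2) X2)) v := h1.hasFDerivAt.comp v h2
  have h4 : HasFDerivAt (fun x : X2 => (T 2 F)^[n] x - x)
      (fderiv ℂ ((T 2 F)^[n]) v - ContinuousLinearMap.id ℂ X2) v :=
    (iter_analytic' hF hv.1.1 n).differentiableAt.hasFDerivAt.sub (hasFDerivAt_id v)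
  have h5 := h3.unique h4
  have h6 : fderiv ℂ ((T 2 F)^[n]) v e - e = 0 := by
    have := congrArg (fun L : X2 →L[ℂ] X2 => L e) h5
    simp only [ContinuousLinearMap.comp_apply, ContinuousLinearMap.inr_apply] at this
    rw [he] at this
    exact this.symm
  by_contra hne
  have h7 : Eig F n v 1 := by
    refine Module.End.hasEigenvalue_of_hasEigenvector (x := e) ⟨?_, hne⟩
    rw [Module.End.mem_eigenspace_iff, one_smul]
    exact sub_eq_zero.1 h6
  have := hv.2 1 h7
  rw [norm_one] at this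
  exact lt_irrefl _ this

theorem F1_chart_cont {B : Set (Coef 2)} (hBU : B ⊆ U) {n : ℕ}
    (hn : 1 ≤ n) {u : Coef 2 → (Fin 3 → ℂ)} (hu : Sec B n u) :
    (∀ F ∈ B, (u F) 1 ≠ 0 ∧ Rep F n (chart (u F))) ∧ ContinuousOn (fun F => chart (u F)) B := by
  have h1 : ∀ F ∈ B, (u F) 1 ≠ 0 ∧ Rep F n (chart (u F)) := fun F hF =>
    ((repPer_iff (interior_subset (hBU hF)) hn (hu.2 F hF).1).1 (hu.2 F hF).2).2
  refine ⟨h1, fun F hF => ?_⟩
  obtain ⟨P, hP, -⟩ := E8_chart_deriv (h1 F hF).1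
  exact hP.continuousAt.comp_continuousWithinAt (hu.1 F hF)

theorem section_dich {B : Set (Coef 2)} (hB : IsPreconnected B) (hBU : B ⊆ U) {n n' : ℕ}
    (hn : 1 ≤ n) (hn' : 1 ≤ n') {u u' : Coef 2 → (Fin 3 → ℂ)} (hu : Sec B n u) (hu' : Sec B n' u') :
    (∀ F ∈ B, chart (u F) = chart (u' F)) ∨ (∀ F ∈ B, chart (u F) ≠ chart (u' F)) := by
  obtain ⟨h1, h2⟩ := F1_chart_cont hBU hn hu
  obtain ⟨h1', h2'⟩ := F1_chart_cont hBU hn' hu'
  refine F1_dich hB h2 h2' (fun b hb _ => ?_)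
  have hA : Adm b := interior_subset (hBU hb)
  have hR : Rep b (n' * n) (chart (u b)) := rep_mul hA hn' (h1 b hb).2
  obtain ⟨ε, hε, h3⟩ := local_unique
    (fun q : Coef 2 × X2 => (T 2 q.1)^[n' * n] q.2 - q.2) (p := (b, chart (u b)))
    ((iter_analytic hA hR.1.1 _).sub analyticAt_snd) (fun e he => F1_inj hA hR e he)
  refine ⟨ε, hε, fun b' hb' h4 h5 h6 => h3 b' _ _ h4 h5 h6 ?_ ?_⟩
  · have hR' : Rep b' (n' * n) (chart (u b')) :=
      rep_mul (interior_subset (hBU hb')) hn' (h1 b' hb').2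
    exact sub_eq_zero.2 hR'.1.2
  · have hR' : Rep b' (n * n') (chart (u' b')) :=
      rep_mul (interior_subset (hBU hb')) hn (h1' b' hb').2
    rw [mul_comm] at hR'
    exact sub_eq_zero.2 hR'.1.2

end NB
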