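import Mathlib
/-!
F2. Harnack's inequality in the disc of radius `2`, between `0` and `1`: for `v = log (C / ‖g‖) ≥ 0`
harmonic, `v 1 ≥ v 0 / 3`.  (If `‖g‖ = C` somewhere, `g` is constant.)  A proof: `g = exp γ` on the disc
(holomorphic branch of the logarithm), `H = log C - γ` maps the disc to the right half plane, and
Schwarz's lemma for `(H - H 0) / (H + conj (H 0))` gives `Re H 1 ≥ Re H 0 * (2 - 1) / (2 + 1)`.
-/
open Set Metric Filter Topology
namespace NB

/-- A holomorphic logarithm of `g / g 0` on the disc. -/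
theorem F2_log {g : ℂ → ℂ} (hg : DifferentiableOn ℂ g (ball 0 2))
    (h0 : ∀ s ∈ ball (0 : ℂ) 2, g s ≠ 0) :
    ∃ H : ℂ → ℂ, DifferentiableOn ℂ H (ball 0 2) ∧ H 0 = 0 ∧
      ∀ z ∈ ball (0 : ℂ) 2, g z = g 0 * Complex.exp (H z) := by
  have hd : DifferentiableOn ℂ (deriv g) (ball 0 2) := hg.deriv isOpen_ball
  have hq : DifferentiableOn ℂ (fun z => deriv g z / g z) (ball 0 2) := hd.div hg h0
  obtain ⟨H, hH0, hH⟩ := (hq.isExactOn_ball).with_val_at 0 0
  refine ⟨H, fun z hz => (hH z hz).differentiableAt.differentiableWithinAt, hH0, ?_⟩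
  have h0m : (0 : ℂ) ∈ ball (0 : ℂ) 2 := mem_ball_self (by norm_num)
  have hc : ∀ z ∈ ball (0 : ℂ) 2, g z * Complex.exp (-H z) = g 0 * Complex.exp (-H 0) := by
    intro z hz
    have hder : ∀ x ∈ ball (0 : ℂ) 2, HasDerivAt (fun z => g z * Complex.exp (-H z)) 0 x := by
      intro x hx
      have h1 : HasDerivAt g (deriv g x) x := (hg.differentiableAt (isOpen_ball.mem_nhds hx)).hasDerivAt
      have h2 := h1.mul ((hH x hx).neg.cexp)
      have h3 : deriv g x * Complex.exp (-H x) +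
          g x * (Complex.exp (-H x) * -(deriv g x / g x)) = 0 := by
        field_simp [h0 x hx]
        ring
      rw [← h3]
      exact h2
    have := (convex_ball (0 : ℂ) 2).is_const_of_fderivWithin_eq_zero (𝕜 := ℂ)
      (f := fun z => g z * Complex.exp (-H z))
      (fun x hx => (hder x hx).differentiableAt.differentiableWithinAt)
      (fun x hx => by
        rw [fderivWithin_of_isOpen isOpen_ball hx]
        ext
        simp [(hder x hx).hasFDerivAt.fderiv]) hz h0m
    exact this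
  intro z hz
  have h1 := hc z hz
  rw [hH0, neg_zero, Complex.exp_zero, mul_one] at h1
  rw [← h1, mul_assoc, ← Complex.exp_add, neg_add_cancel, Complex.exp_zero, mul_one]

theorem F2_aux {g : ℂ → ℂ} (hg : DifferentiableOn ℂ g (ball 0 2))
    (h0 : ∀ s ∈ ball (0 : ℂ) 2, g s ≠ 0) {C : ℝ} (hC : ∀ s ∈ ball (0 : ℂ) 2, ‖g s‖ ≤ C) :
    ‖g 0‖ ^ 3 ≤ C ^ 2 * ‖g 1‖ := by
  obtain ⟨H, hH, hH0, he⟩ := F2_log hg h0
  have h0m : (0 : ℂ) ∈ ball (0 : ℂ) 2 := mem_ball_self (by norm_num)
  have h1m : (1 : ℂ) ∈ ball (0 : ℂ) 2 := by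
    rw [mem_ball_zero_iff, norm_one]
    norm_num
  have hg0 : 0 < ‖g 0‖ := norm_pos_iff.mpr (h0 0 h0m)
  have hCp : 0 < C := hg0.trans_le (hC 0 h0m)
  have hn : ∀ z ∈ ball (0 : ℂ) 2, ‖g z‖ = ‖g 0‖ * Real.exp (H z).re := by
    intro z hz
    rw [he z hz, norm_mul, Complex.norm_exp]
  set A : ℝ := Real.log (C / ‖g 0‖) with hA
  have hA0 : 0 ≤ A := Real.log_nonneg ((one_le_div hg0).mpr (hC 0 h0m))
  have hre : ∀ z ∈ ball (0 : ℂ) 2, (H z).re ≤ A := by
    intro z hz
    rw [hA, Real.le_log_iff_exp_le (div_pos hCp hg0), le_div_iff₀ hg0, mul_comm, ← hn z hz]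
    exact hC z hz
  have hb : ∀ δ : ℝ, 0 < δ → -(2 * (A + δ)) ≤ (H 1).re := by
    intro δ hδ
    have h2 := Complex.borelCaratheodory_zero (M := A + δ) (R := 2) (by linarith) hH
      (fun z hz => by
        have := hre z hz
        show (H z).re ≤ A + δ
        linarith) (by norm_num) h1m hH0
    rw [norm_one] at h2
    norm_num at h2
    have h3 := Complex.abs_re_le_norm (H 1)
    have h4 := neg_abs_le (H 1).re
    linarith
  have h2A : -(2 * A) ≤ (H 1).re := by
    by_contra hc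
    push Not at hc
    have := hb ((-(2 * A) - (H 1).re) / 4) (by linarith)
    linarith
  rw [hn 1 h1m]
  have h3 : Real.exp (-(2 * A)) ≤ Real.exp (H 1).re := Real.exp_le_exp.mpr h2A
  have h4 : Real.exp (-(2 * A)) = (‖g 0‖ / C) ^ 2 := by
    have h5 : -(2 * A) = Real.log ((‖g 0‖ / C) ^ 2) := by
      rw [Real.log_pow, hA, Real.log_div hCp.ne' hg0.ne', Real.log_div hg0.ne' hCp.ne']
      push_cast
      ring
    rw [h5, Real.exp_log (by positivity)]
  rw [h4] at h3
  have h5 : C ^ 2 * (‖g 0‖ * (‖g 0‖ / C) ^ 2) = ‖g 0‖ ^ 3 := by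
    field_simp
  rw [← h5]
  exact mul_le_mul_of_nonneg_left (mul_le_mul_of_nonneg_left h3 hg0.le) (by positivity)

/-- The automorphism of the disc of radius `2` that exchanges `0` and `1`. -/
noncomputable def F2_phi (z : ℂ) : ℂ := 4 * (1 - z) / (4 - z)

theorem F2_ne {z : ℂ} (hz : z ∈ ball (0 : ℂ) 2) : (4 : ℂ) - z ≠ 0 := by
  intro h
  have h1 : z = 4 := by linear_combination -h
  rw [mem_ball_zero_iff, h1] at hz
  norm_num at hz

theorem F2_maps {z : ℂ} (hz : z ∈ ball (0 : ℂ) 2) : F2_phi z ∈ ball (0 : ℂ) 2 := by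
  have h1 := F2_ne hz
  rw [mem_ball_zero_iff] at hz ⊢
  unfold F2_phi
  rw [norm_div, div_lt_iff₀ (norm_pos_iff.mpr h1)]
  have h2 : Complex.normSq z < 4 := by
    rw [← Complex.sq_norm]
    nlinarith [norm_nonneg z]
  rw [Complex.normSq_apply] at h2
  rw [← sq_lt_sq₀ (norm_nonneg _) (by positivity), mul_pow, Complex.sq_norm, Complex.sq_norm]
  simp only [Complex.normSq_apply, Complex.mul_re, Complex.mul_im, Complex.sub_re, Complex.sub_im,
    Complex.one_re, Complex.one_im]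
  norm_num
  nlinarith

theorem harnack {g : ℂ → ℂ} (hg : DifferentiableOn ℂ g (ball 0 2))
    (h0 : ∀ s ∈ ball (0 : ℂ) 2, g s ≠ 0) {C : ℝ} (hC : ∀ s ∈ ball (0 : ℂ) 2, ‖g s‖ ≤ C) :
    ‖g 1‖ ^ 3 ≤ C ^ 2 * ‖g 0‖ := by
  have hd : DifferentiableOn ℂ (fun z => g (F2_phi z)) (ball 0 2) := by
    refine hg.comp ?_ fun z hz => F2_maps hz
    intro z hz
    have h1 : DifferentiableAt ℂ F2_phi z := by
      unfold F2_phi
      exact ((differentiableAt_const _).mul ((differentiableAt_const _).sub differentiableAt_id)).div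
        ((differentiableAt_const _).sub differentiableAt_id) (F2_ne hz)
    exact h1.differentiableWithinAt
  have h := F2_aux hd (fun s hs => h0 _ (F2_maps hs)) (fun s hs => hC _ (F2_maps hs))
  have e0 : F2_phi 0 = 1 := by
    unfold F2_phi
    norm_num
  have e1 : F2_phi 1 = 0 := by
    unfold F2_phi
    norm_num
  simp only [e0, e1] at h
  exact h

end NB
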