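import Pool.Agent.NB.A2
import Pool.Agent.NB.E9
import Pool.Agent.NB.F1
import Pool.Agent.NB.F2
/-!
F3. The motion of the repelling points over a ball with `NA` preserves the small Julia set (on the
concentric ball of radius `δ / 5`).
Let `V` be an open scalar invariant neighbourhood of `u F`.  There is `η > 0` such that `x 1 ≠ 0`,
`dist (chart x) (chart (u F)) < η` imply `x ∈ V` (`near_cone`).  Take `η₁` with `484 η₁ ≤ (η/2)^3`, and
`V₁ = {x | x 1 ≠ 0 ∧ dist (chart x) (chart (u F₁)) < η₁}`, open and scalar invariant.  For large `m` the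
hypothesis gives a finset `S ⊆ V₁` of points `x` with `RepPer 2 F₁ m x` and `card ≥ c 8^m`.  Let `u_x` be the
section through `x` (`rep_section`).  The map `x ↦ u_x F` is injective (`section_inj`), its values are
repelling.  They are in `V`: by `section_dich` either `chart (u_x F) = chart (u F)`, or the two charts differ
over the whole ball, and then by `K_graph` their second coordinates differ: on `ball 0 2` the function
`g s = (chart (u_x G_s)).2 - (chart (u G_s)).2`, `G_s = F₁ + s (F - F₁) ∈ ball F₀ δ`, is holomorphic, nowhere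
zero and bounded by `22`; `harnack` gives `‖g 1‖^3 ≤ 484 η₁`, and the first coordinates are closer
(`K_graph`).
-/
open Set Metric Filter Topology
open SkewBif
namespace NB

theorem near_cone {V : Set (Fin 3 → ℂ)} (hV : IsOpen V)
    (hs : ∀ v ∈ V, ∀ a : ℂ, a ≠ 0 → a • v ∈ V) {u : Fin 3 → ℂ} (hu : u ∈ V) (h1 : u 1 ≠ 0) :
    ∃ η > 0, ∀ x : Fin 3 → ℂ, x 1 ≠ 0 → dist (chart x) (chart u) < η → x ∈ V := by
  have hc : Continuous lift := by
    refine continuous_pi fun i => ?_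
    fin_cases i
    · exact continuous_fst
    · exact continuous_const
    · exact continuous_snd
  have hmem : lift (chart u) ∈ V := by
    have h2 := hs u hu (u 1)⁻¹ (inv_ne_zero h1)
    rw [E8_lift_chart h1, smul_smul] at h2
    have h3 : (u 1 • lift (chart u)) 1 = u 1 := by
      rw [← E8_lift_chart h1]
    rw [h3, inv_mul_cancel₀ h1, one_smul] at h2
    exact h2
  obtain ⟨η, hη, h⟩ := Metric.isOpen_iff.1 (hV.preimage hc) (chart u) hmem
  refine ⟨η, hη, fun x hx hd => ?_⟩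
  have h4 : lift (chart x) ∈ V := h hd
  rw [E8_lift_chart hx]
  exact hs _ h4 _ hx

theorem F3_chart_diff {B : Set (Coef 2)} (hB : IsOpen B) {u : Coef 2 → (Fin 3 → ℂ)}
    (hd : DifferentiableOn ℂ u B) {F : Coef 2} (hF : F ∈ B) (h1 : (u F) 1 ≠ 0) :
    DifferentiableAt ℂ (fun G => chart (u G)) F := by
  obtain ⟨P, hP, -⟩ := E8_chart_deriv h1
  exact hP.differentiableAt.comp F ((hd F hF).differentiableAt (hB.mem_nhds hF))

theorem F3_norm {F : Coef 2} {v : X2} (hv : v ∈ K F) : ‖v.2‖ ≤ 11 := by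
  have h := hv 0
  rcases h with h | h
  · exact mem_closedBall_zero_iff.1 h.2
  · exact mem_closedBall_zero_iff.1 h.2

/-- Hölder estimate for two sections. -/
theorem section_close {F₀ : Coef 2} {δ : ℝ} (hBU : ball F₀ δ ⊆ U) {n n' : ℕ} (hn : 1 ≤ n)
    (hn' : 1 ≤ n') {u u' : Coef 2 → (Fin 3 → ℂ)} (hd : DifferentiableOn ℂ u (ball F₀ δ))
    (hd' : DifferentiableOn ℂ u' (ball F₀ δ)) (hu : Sec (ball F₀ δ) n u)
    (hu' : Sec (ball F₀ δ) n' u') {F₁ F : Coef 2} (hF₁ : F₁ ∈ ball F₀ (δ / 5))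
    (hF : F ∈ ball F₀ (δ / 5)) :
    dist (chart (u F)) (chart (u' F)) ^ 3 ≤ 484 * dist (chart (u F₁)) (chart (u' F₁)) := by
  have hF₁' := hF₁
  have hF' := hF
  rw [mem_ball, dist_eq_norm] at hF₁' hF'
  have hδ : 0 < δ := by
    have := norm_nonneg (F₁ - F₀)
    linarith
  have hsub : ∀ {G : Coef 2}, G ∈ ball F₀ (δ / 5) → G ∈ ball F₀ δ := fun {G} hG =>
    ball_subset_ball (by linarith) hG
  obtain ⟨h1, -⟩ := F1_chart_cont hBU hn hu
  obtain ⟨h1', -⟩ := F1_chart_cont hBU hn' hu'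
  rcases section_dich (convex_ball F₀ δ).isPreconnected hBU hn hn' hu hu' with h | h
  · rw [h F (hsub hF), h F₁ (hsub hF₁)]
    simp
  · have hne : ∀ G ∈ ball F₀ δ, ‖(chart (u G)).1 - (chart (u' G)).1‖ <
        ‖(chart (u G)).2 - (chart (u' G)).2‖ := by
      intro G hG
      by_contra hcon
      rw [not_lt] at hcon
      exact h G hG (K_graph (interior_subset (hBU hG)) (h1 G hG).2.1.1 (h1' G hG).2.1.1 hcon)
    set G : ℂ → Coef 2 := fun s => F₁ + s • (F - F₁) with hGdef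
    have hGb : ∀ s ∈ ball (0 : ℂ) 2, G s ∈ ball F₀ δ := by
      intro s hs
      rw [mem_ball_zero_iff] at hs
      rw [mem_ball, dist_eq_norm]
      have e1 : G s - F₀ = (F₁ - F₀) + s • ((F - F₀) - (F₁ - F₀)) := by
        simp only [hGdef]
        rw [sub_sub_sub_cancel_right]
        abel
      have e2 : ‖s • ((F - F₀) - (F₁ - F₀))‖ ≤ 2 * (‖F - F₀‖ + ‖F₁ - F₀‖) := by
        rw [norm_smul]
        exact mul_le_mul hs.le (norm_sub_le _ _) (norm_nonneg _) (by norm_num)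
      rw [e1]
      have e3 := norm_add_le (F₁ - F₀) (s • ((F - F₀) - (F₁ - F₀)))
      linarith
    have hG0 : G 0 = F₁ := by simp [hGdef]
    have hG1 : G 1 = F := by simp [hGdef]
    have hGd : Differentiable ℂ G := by
      intro s
      exact (differentiableAt_const _).add (differentiableAt_id.smul_const _)
    set g : ℂ → ℂ := fun s => (chart (u (G s))).2 - (chart (u' (G s))).2 with hg
    have hgd : DifferentiableOn ℂ g (ball 0 2) := by
      intro s hs
      have a1 := F3_chart_diff isOpen_ball hd (hGb s hs) (h1 _ (hGb s hs)).1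
      have a2 := F3_chart_diff isOpen_ball hd' (hGb s hs) (h1' _ (hGb s hs)).1
      have b1 : DifferentiableAt ℂ (fun s => chart (u (G s))) s := a1.comp s (hGd s)
      have b2 : DifferentiableAt ℂ (fun s => chart (u' (G s))) s := a2.comp s (hGd s)
      exact (b1.snd.sub b2.snd).differentiableWithinAt
    have hg0 : ∀ s ∈ ball (0 : ℂ) 2, g s ≠ 0 := by
      intro s hs h0
      have h2 := hne _ (hGb s hs)
      have h3 : ‖g s‖ = 0 := by rw [h0, norm_zero]
      have h4 := norm_nonneg ((chart (u (G s))).1 - (chart (u' (G s))).1)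
      have h5 : ‖(chart (u (G s))).2 - (chart (u' (G s))).2‖ = 0 := h3
      linarith
    have hgC : ∀ s ∈ ball (0 : ℂ) 2, ‖g s‖ ≤ 22 := by
      intro s hs
      have h2 := F3_norm (h1 _ (hGb s hs)).2.1.1
      have h3 := F3_norm (h1' _ (hGb s hs)).2.1.1
      have h4 := norm_sub_le (chart (u (G s))).2 (chart (u' (G s))).2
      have h5 : ‖g s‖ = ‖(chart (u (G s))).2 - (chart (u' (G s))).2‖ := rfl
      linarith
    have hH := harnack hgd hg0 hgC
    have e1 : dist (chart (u F)) (chart (u' F)) = ‖g 1‖ := by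
      have h2 := hne F (hsub hF)
      rw [Prod.dist_eq, dist_eq_norm, dist_eq_norm, max_eq_right h2.le]
      simp only [hg, hG1]
    have e2 : ‖g 0‖ ≤ dist (chart (u F₁)) (chart (u' F₁)) := by
      rw [Prod.dist_eq, dist_eq_norm, dist_eq_norm]
      simp only [hg, hG0]
      exact le_max_right _ _
    rw [e1]
    linarith

theorem J_pres {F₀ : Coef 2} {δ : ℝ} (hBU : ball F₀ δ ⊆ U) (hNA : NA (ball F₀ δ)) {n : ℕ}
    (hn : 1 ≤ n) {u : Coef 2 → (Fin 3 → ℂ)} (hd : DifferentiableOn ℂ u (ball F₀ δ))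
    (hu : Sec (ball F₀ δ) n u) {F₁ F : Coef 2} (hF₁ : F₁ ∈ ball F₀ (δ / 5))
    (hF : F ∈ ball F₀ (δ / 5)) (hJ : u F₁ ∈ JSet F₁) : u F ∈ JSet F := by
  intro V hV hVs huV
  have hδ : 0 < δ := by
    have h2 := mem_ball.1 hF
    have := dist_nonneg (x := F) (y := F₀)
    linarith
  have hsub : ∀ {G : Coef 2}, G ∈ ball F₀ (δ / 5) → G ∈ ball F₀ δ := fun {G} hG =>
    ball_subset_ball (by linarith) hG
  obtain ⟨h1, -⟩ := F1_chart_cont hBU hn hu
  obtain ⟨η, hη, hnear⟩ := near_cone hV hVs huV (h1 F (hsub hF)).1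
  have hη3 : 0 < η ^ 3 := pow_pos hη 3
  set η₁ : ℝ := η ^ 3 / 1000 with hη₁
  have hη₁0 : 0 < η₁ := by positivity
  have hc : ContinuousOn chart {x : Fin 3 → ℂ | x 1 ≠ 0} := by
    intro x hx
    obtain ⟨P, hP, -⟩ := E8_chart_deriv (u := x) hx
    exact hP.continuousAt.continuousWithinAt
  have hop : IsOpen {x : Fin 3 → ℂ | x 1 ≠ 0} :=
    isOpen_ne_fun (continuous_apply 1) continuous_const
  have hV₁ : IsOpen ({x : Fin 3 → ℂ | x 1 ≠ 0} ∩ chart ⁻¹' (ball (chart (u F₁)) η₁)) :=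
    hc.isOpen_inter_preimage hop isOpen_ball
  obtain ⟨c, hc0, hev⟩ := hJ _ hV₁ (fun v hv a ha => by
    refine ⟨?_, ?_⟩
    · change (a • v) 1 ≠ 0
      rw [Pi.smul_apply, smul_eq_mul]
      exact mul_ne_zero ha hv.1
    · have h2 := hv.2
      rw [mem_preimage] at h2 ⊢
      rw [E8_chart_smul ha]
      exact h2) ⟨(h1 F₁ (hsub hF₁)).1, mem_ball_self hη₁0⟩
  refine ⟨c, hc0, ?_⟩
  filter_upwards [hev, eventually_ge_atTop 1] with m hm hm1
  obtain ⟨S, hS, hcard⟩ := hm
  have hsec : ∀ x : Fin 3 → ℂ, ∃ w : Coef 2 → (Fin 3 → ℂ), x ∈ S →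
      DifferentiableOn ℂ w (ball F₀ δ) ∧ w F₁ = x ∧
        ∀ F ∈ ball F₀ δ, w F ≠ 0 ∧ RepPer 2 F m (w F) := by
    intro x
    by_cases hx : x ∈ S
    · obtain ⟨w, hw⟩ := rep_section hBU hNA hm1 (hsub hF₁) (hS x hx).2.1 (hS x hx).2.2
      exact ⟨w, fun _ => hw⟩
    · exact ⟨0, fun h => absurd h hx⟩
  choose w hw using hsec
  have hwS : ∀ x ∈ S, Sec (ball F₀ δ) m (w x) := fun x hx =>
    ⟨(hw x hx).1.continuousOn, (hw x hx).2.2⟩
  have hinj : Set.InjOn (fun x => w x F) (S : Set (Fin 3 → ℂ)) := by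
    intro x hx y hy hxy
    have hx' : x ∈ S := hx
    have hy' : y ∈ S := hy
    have h3 := section_inj (convex_ball F₀ δ).isPreconnected (hwS x hx') (hwS y hy')
      (hsub hF) hxy F₁ (hsub hF₁)
    rw [(hw x hx').2.1, (hw y hy').2.1] at h3
    exact h3
  classical
  refine ⟨S.image fun x => w x F, fun y hy => ?_, ?_⟩
  · obtain ⟨x, hx, rfl⟩ := Finset.mem_image.1 hy
    obtain ⟨h5, h6⟩ := (hw x hx).2.2 F (hsub hF)
    refine ⟨?_, h5, h6⟩
    obtain ⟨h7, -⟩ := F1_chart_cont hBU hm1 (hwS x hx)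
    refine hnear _ (h7 F (hsub hF)).1 ?_
    have h8 := section_close hBU hm1 hn (hw x hx).1 hd (hwS x hx) hu hF₁ hF
    rw [(hw x hx).2.1] at h8
    have h9 : dist (chart x) (chart (u F₁)) < η₁ := (hS x hx).1.2
    refine lt_of_pow_lt_pow_left₀ 3 hη.le ?_
    rw [hη₁] at h9
    linarith
  · rw [Finset.card_image_of_injOn hinj]
    exact hcard

end NB
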