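import Pool.Agent.NB.H0
import Pool.Agent.NB.E8
/-!
F4. The map `f_12`.  Put `Q = closedBall 0 2 ×ˢ closedBall 0 11`.
`branches12`: the four inverse branches of `f_12` on `Q`: for `(Z, W) ∈ Q` let `z = ± sqrt (1 + Z / 1000)`
(principal branch, `z` within `1/500` of `±1`) and `w = ± i sqrt (12 + 50 (z - 1) - W)` for the symbol `1`
(the real part of the radicand is `≥ 1 - 1/10`), `w = ± sqrt (W - 50 (z - 1) - 12)` for the symbol `-1`
(real part `≥ 76`).  The Lipschitz constants in the sup norm: in `z` at most `1 / 1900`; in `w` at most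
`(1 + 50/1900) / (2 * 0.94) ≤ 3/5`.  The images of different branches are disjoint (different symbols or
opposite nonzero `w`), contained in the core.
`rep12`: on `K (f_12)` the derivative is lower triangular with diagonal entries `2000 z`, `2 w`, and
`‖w‖ ≥ 0.94` (`w² = w₁ - 12 - 50 (z - 1)`, `‖w₁‖ ≤ 11`, for the symbol `1`), so the derivative of the
iterate is lower triangular with diagonal entries of modulus `> 1`.
-/
open Set Metric Filter Topology
open SkewBif
namespace NB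

/-- The domain of the inverse branches. -/
def Q12 : Set X2 := closedBall (0 : ℂ) 2 ×ˢ closedBall (0 : ℂ) 11

lemma F4_rt : ∃ rt : ℂ → ℂ, ∀ a, rt a ^ 2 = a ∧ 0 ≤ (rt a).re := by
  have : ∀ a : ℂ, ∃ s : ℂ, s ^ 2 = a ∧ 0 ≤ s.re := by
    intro a
    obtain ⟨s, hs⟩ := IsAlgClosed.exists_pow_nat_eq a (n := 2) (by norm_num)
    rcases le_total 0 s.re with h | h
    · exact ⟨s, hs, h⟩
    · exact ⟨-s, by rw [neg_sq, hs], by rw [Complex.neg_re]; linarith⟩
  choose rt h using this
  exact ⟨rt, h⟩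

lemma F4_re {s a : ℂ} {m : ℝ} (h : s ^ 2 = a) (h0 : 0 ≤ s.re) (ha : m ^ 2 ≤ a.re) :
    m ≤ s.re := by
  have h1 : a.re = s.re ^ 2 - s.im ^ 2 := by
    rw [← h, sq, Complex.mul_re]
    ring
  by_contra hlt
  rw [not_le] at hlt
  nlinarith [sq_nonneg s.im]

lemma F4_lip {a b s t : ℂ} {m : ℝ} (hm : 0 < m) (hs : s ^ 2 = a) (ht : t ^ 2 = b)
    (h : m ≤ s.re) (h' : m ≤ t.re) : ‖s - t‖ ≤ ‖a - b‖ / (2 * m) := by
  rw [le_div_iff₀ (by positivity)]
  have h1 : a - b = (s - t) * (s + t) := by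
    rw [← hs, ← ht]
    ring
  rw [h1, norm_mul]
  refine mul_le_mul_of_nonneg_left ?_ (norm_nonneg _)
  have := Complex.re_le_norm (s + t)
  rw [Complex.add_re] at this
  linarith

/-- the symbol of a branch -/
def F4_sg (a : Fin 4) : ℂ := if a.val < 2 then 1 else -1

/-- the sign of the second coordinate -/
def F4_tg (a : Fin 4) : ℂ := if a.val % 2 = 0 then 1 else -1

lemma F4_z {rt : ℂ → ℂ} (hrt : ∀ a, rt a ^ 2 = a ∧ 0 ≤ (rt a).re) {v : X2} (hv : v ∈ Q12) :
    499 / 500 ≤ (rt (1 + v.1 / 1000)).re ∧ ‖rt (1 + v.1 / 1000) - 1‖ ≤ 1 / 500 := by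
  have hv1 : ‖v.1‖ ≤ 2 := by
    have := hv.1
    rwa [mem_closedBall_zero_iff] at this
  have h1 : ‖v.1 / 1000‖ ≤ 1 / 500 := by
    rw [norm_div]
    have : ‖(1000 : ℂ)‖ = 1000 := by norm_num
    rw [this]
    linarith
  obtain ⟨h2, h3⟩ := hrt (1 + v.1 / 1000)
  have h4 : 1 - 1 / 500 ≤ (1 + v.1 / 1000).re := by
    rw [Complex.add_re, Complex.one_re]
    have := Complex.abs_re_le_norm (v.1 / 1000)
    have := neg_abs_le (v.1 / 1000).re
    linarith
  have h5 : 499 / 500 ≤ (rt (1 + v.1 / 1000)).re := F4_re h2 h3 (by norm_num at h4 ⊢; linarith)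
  refine ⟨h5, ?_⟩
  have h6 : (rt (1 + v.1 / 1000) - 1) * (rt (1 + v.1 / 1000) + 1) = v.1 / 1000 := by
    linear_combination h2
  have h7 : 1 ≤ ‖rt (1 + v.1 / 1000) + 1‖ := by
    have := Complex.re_le_norm (rt (1 + v.1 / 1000) + 1)
    rw [Complex.add_re, Complex.one_re] at this
    linarith
  have h8 := congrArg norm h6
  rw [norm_mul] at h8
  nlinarith [norm_nonneg (rt (1 + v.1 / 1000) - 1)]

/-- The second coordinate: bounds on the radicand. -/
lemma F4_rad1 {z W : ℂ} (hz : ‖z - 1‖ ≤ 1 / 500) (hW : ‖W‖ ≤ 11) :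
    (9 / 10 : ℝ) ≤ (12 + 50 * (z - 1) - W).re ∧ ‖12 + 50 * (z - 1) - W‖ ≤ 24 := by
  have h1 : ‖50 * (z - 1)‖ ≤ 1 / 10 := by
    rw [norm_mul]
    have : ‖(50 : ℂ)‖ = 50 := by norm_num
    rw [this]
    linarith
  constructor
  · rw [Complex.sub_re, Complex.add_re]
    have h2 := Complex.abs_re_le_norm (50 * (z - 1))
    have h3 := neg_abs_le (50 * (z - 1)).re
    have h4 := Complex.re_le_norm W
    have h5 : (12 : ℂ).re = 12 := by norm_num
    rw [h5]
    linarith
  · have h2 := norm_sub_le (12 + 50 * (z - 1)) W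
    have h3 := norm_add_le (12 : ℂ) (50 * (z - 1))
    have h4 : ‖(12 : ℂ)‖ = 12 := by norm_num
    linarith

lemma F4_rad2 {z W : ℂ} (hz : ‖z + 1‖ ≤ 1 / 500) (hW : ‖W‖ ≤ 11) :
    (76 : ℝ) ≤ (W - 50 * (z - 1) - 12).re ∧ ‖W - 50 * (z - 1) - 12‖ ≤ 100 := by
  have h0 : W - 50 * (z - 1) - 12 = 88 + W - 50 * (z + 1) := by ring
  rw [h0]
  have h1 : ‖50 * (z + 1)‖ ≤ 1 / 10 := by
    rw [norm_mul]
    have : ‖(50 : ℂ)‖ = 50 := by norm_num
    rw [this]
    linarith
  constructor
  · rw [Complex.sub_re, Complex.add_re]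
    have h2 := Complex.abs_re_le_norm (50 * (z + 1))
    have h3 := le_abs_self (50 * (z + 1)).re
    have h4 := Complex.abs_re_le_norm W
    have h6 := neg_abs_le W.re
    have h5 : (88 : ℂ).re = 88 := by norm_num
    rw [h5]
    linarith
  · have h2 := norm_sub_le (88 + W) (50 * (z + 1))
    have h3 := norm_add_le (88 : ℂ) W
    have h4 : ‖(88 : ℂ)‖ = 88 := by norm_num
    linarith

theorem branches12 : ∃ G : Fin 4 → X2 → X2,
    (∀ a, ∀ v ∈ Q12, G a v ∈ Core ∧ G a v ∈ Q12 ∧ T 2 (fc 12) (G a v) = v) ∧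
    (∀ a, ∀ v ∈ Q12, ∀ v' ∈ Q12, dist (G a v) (G a v') ≤ 3 / 5 * dist v v') ∧
    (∀ a b, a ≠ b → ∀ v ∈ Q12, ∀ v' ∈ Q12, G a v ≠ G b v') ∧
    (∀ x ∈ Core, T 2 (fc 12) x ∈ Q12 → ∃ a, x = G a (T 2 (fc 12) x)) := by
  obtain ⟨rt, hrt⟩ := F4_rt
  -- the building blocks
  let zz : Fin 4 → X2 → ℂ := fun a v => F4_sg a * rt (1 + v.1 / 1000)
  let ww : Fin 4 → X2 → ℂ := fun a v =>
    if a.val < 2 then F4_tg a * (Complex.I * rt (12 + 50 * (zz a v - 1) - v.2))
    else F4_tg a * rt (v.2 - 50 * (zz a v - 1) - 12)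
  have htg : ∀ a, F4_tg a ^ 2 = 1 := by
    intro a
    unfold F4_tg
    split_ifs <;> norm_num
  have htgn : ∀ a, ‖F4_tg a‖ = 1 := by
    intro a
    unfold F4_tg
    split_ifs <;> simp
  have hQ2 : ∀ v ∈ Q12, ‖v.2‖ ≤ 11 := by
    intro v hv
    have := hv.2
    rwa [mem_closedBall_zero_iff] at this
  have hz1 : ∀ a : Fin 4, a.val < 2 → ∀ v ∈ Q12, ‖zz a v - 1‖ ≤ 1 / 500 ∧
      zz a v = rt (1 + v.1 / 1000) := by
    intro a ha v hv
    have : zz a v = rt (1 + v.1 / 1000) := by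
      show F4_sg a * _ = _
      rw [F4_sg, if_pos ha, one_mul]
    exact ⟨by rw [this]; exact (F4_z hrt hv).2, this⟩
  have hz2 : ∀ a : Fin 4, ¬ a.val < 2 → ∀ v ∈ Q12, ‖zz a v + 1‖ ≤ 1 / 500 ∧
      zz a v = - rt (1 + v.1 / 1000) := by
    intro a ha v hv
    have : zz a v = - rt (1 + v.1 / 1000) := by
      show F4_sg a * _ = _
      rw [F4_sg, if_neg ha, neg_one_mul]
    refine ⟨?_, this⟩
    rw [this]
    have h := (F4_z hrt hv).2
    rw [← norm_neg] at h
    have e : - rt (1 + v.1 / 1000) + 1 = -(rt (1 + v.1 / 1000) - 1) := by ring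
    rw [e]
    exact h
  have hw1 : ∀ a : Fin 4, a.val < 2 → ∀ v,
      ww a v = F4_tg a * (Complex.I * rt (12 + 50 * (zz a v - 1) - v.2)) := by
    intro a ha v
    exact if_pos ha
  have hw2 : ∀ a : Fin 4, ¬ a.val < 2 → ∀ v,
      ww a v = F4_tg a * rt (v.2 - 50 * (zz a v - 1) - 12) := by
    intro a ha v
    exact if_neg ha
  have hzsq : ∀ a v, zz a v ^ 2 = 1 + v.1 / 1000 := by
    intro a v
    show (F4_sg a * _) ^ 2 = _
    rw [mul_pow, (hrt _).1]
    have : F4_sg a ^ 2 = 1 := by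
      unfold F4_sg
      split_ifs <;> norm_num
    rw [this, one_mul]
  have hwsq : ∀ a v, ww a v ^ 2 = v.2 - 50 * (zz a v - 1) - 12 := by
    intro a v
    by_cases ha : a.val < 2
    · rw [hw1 a ha v, mul_pow, mul_pow, (hrt _).1, htg, Complex.I_sq]
      ring
    · rw [hw2 a ha v, mul_pow, (hrt _).1, htg, one_mul]
  have hzn : ∀ a, ∀ v ∈ Q12, ‖zz a v‖ ≤ 2 := by
    intro a v hv
    by_cases ha : a.val < 2
    · have h1 := (hz1 a ha v hv).1
      have h2 := norm_sub_le (zz a v - 1) (-1)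
      have h3 : zz a v - 1 - (-1) = zz a v := by ring
      rw [h3, norm_neg, norm_one] at h2
      linarith
    · have h1 := (hz2 a ha v hv).1
      have h2 := norm_sub_le (zz a v + 1) 1
      have h3 : zz a v + 1 - 1 = zz a v := by ring
      rw [h3, norm_one] at h2
      linarith
  have hwn : ∀ a, ∀ v ∈ Q12, ‖ww a v‖ ≤ 11 := by
    intro a v hv
    have h1 : ‖ww a v‖ ^ 2 ≤ 100 := by
      rw [← norm_pow, hwsq]
      by_cases ha : a.val < 2
      · have h2 := (F4_rad1 (hz1 a ha v hv).1 (hQ2 v hv)).2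
        have e : v.2 - 50 * (zz a v - 1) - 12 = -(12 + 50 * (zz a v - 1) - v.2) := by ring
        rw [e, norm_neg]
        linarith
      · exact (F4_rad2 (hz2 a ha v hv).1 (hQ2 v hv)).2
    nlinarith [norm_nonneg (ww a v)]
  refine ⟨fun a v => (zz a v, ww a v), ?_, ?_, ?_, ?_⟩
  · intro a v hv
    refine ⟨?_, ⟨?_, ?_⟩, ?_⟩
    · by_cases ha : a.val < 2
      · left
        refine ⟨?_, ?_⟩
        · rw [mem_closedBall, dist_eq_norm]
          exact (hz1 a ha v hv).1
        · rw [mem_closedBall_zero_iff]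
          exact hwn a v hv
      · right
        refine ⟨?_, ?_⟩
        · rw [mem_closedBall, dist_eq_norm, sub_neg_eq_add]
          exact (hz2 a ha v hv).1
        · rw [mem_closedBall_zero_iff]
          exact hwn a v hv
    · rw [mem_closedBall_zero_iff]
      exact hzn a v hv
    · rw [mem_closedBall_zero_iff]
      exact hwn a v hv
    · rw [T_fc]
      refine Prod.ext ?_ ?_
      · show 1000 * (zz a v ^ 2 - 1) = v.1
        rw [hzsq]
        ring
      · show ww a v ^ 2 + 50 * (zz a v - 1) + 12 = v.2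
        rw [hwsq]
        ring
  · intro a v hv v' hv'
    have hd1 : ‖v.1 - v'.1‖ ≤ dist v v' := by
      rw [Prod.dist_eq, ← dist_eq_norm]
      exact le_max_left _ _
    have hd2 : ‖v.2 - v'.2‖ ≤ dist v v' := by
      rw [Prod.dist_eq, ← dist_eq_norm]
      exact le_max_right _ _
    have hzl : ‖zz a v - zz a v'‖ ≤ 1 / 1900 * dist v v' := by
      have e : ‖zz a v - zz a v'‖ = ‖rt (1 + v.1 / 1000) - rt (1 + v'.1 / 1000)‖ := by
        by_cases ha : a.val < 2
        · rw [(hz1 a ha v hv).2, (hz1 a ha v' hv').2]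
        · rw [(hz2 a ha v hv).2, (hz2 a ha v' hv').2, ← norm_neg]
          congr 1
          ring
      rw [e]
      refine (F4_lip (m := 499 / 500) (by norm_num) (hrt _).1 (hrt _).1 (F4_z hrt hv).1
        (F4_z hrt hv').1).trans ?_
      have e2 : (1 + v.1 / 1000) - (1 + v'.1 / 1000) = (v.1 - v'.1) / 1000 := by ring
      rw [e2, norm_div]
      have : ‖(1000 : ℂ)‖ = 1000 := by norm_num
      rw [this, div_div, div_le_iff₀ (by norm_num)]
      have := norm_nonneg (v.1 - v'.1)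
      nlinarith
    have hrad : ‖(v.2 - 50 * (zz a v - 1) - 12) - (v'.2 - 50 * (zz a v' - 1) - 12)‖ ≤
        (1 + 50 / 1900) * dist v v' := by
      have e : (v.2 - 50 * (zz a v - 1) - 12) - (v'.2 - 50 * (zz a v' - 1) - 12) =
          (v.2 - v'.2) - 50 * (zz a v - zz a v') := by ring
      rw [e]
      refine (norm_sub_le _ _).trans ?_
      rw [norm_mul]
      have : ‖(50 : ℂ)‖ = 50 := by norm_num
      rw [this]
      linarith
    have hd0 : 0 ≤ dist v v' := dist_nonneg
    have hwl : ‖ww a v - ww a v'‖ ≤ 3 / 5 * dist v v' := by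
      by_cases ha : a.val < 2
      · have h1 := F4_rad1 (hz1 a ha v hv).1 (hQ2 v hv)
        have h1' := F4_rad1 (hz1 a ha v' hv').1 (hQ2 v' hv')
        rw [hw1 a ha v, hw1 a ha v', ← mul_sub, ← mul_sub, norm_mul, norm_mul, htgn, Complex.norm_I,
          one_mul, one_mul]
        refine (F4_lip (m := 94 / 100) (by norm_num) (hrt _).1 (hrt _).1
          (F4_re (hrt _).1 (hrt _).2 (le_trans (by norm_num) h1.1))
          (F4_re (hrt _).1 (hrt _).2 (le_trans (by norm_num) h1'.1))).trans ?_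
        have e : (12 + 50 * (zz a v - 1) - v.2) - (12 + 50 * (zz a v' - 1) - v'.2) =
            -((v.2 - 50 * (zz a v - 1) - 12) - (v'.2 - 50 * (zz a v' - 1) - 12)) := by ring
        rw [e, norm_neg, div_le_iff₀ (by norm_num)]
        nlinarith
      · have h1 := F4_rad2 (hz2 a ha v hv).1 (hQ2 v hv)
        have h1' := F4_rad2 (hz2 a ha v' hv').1 (hQ2 v' hv')
        rw [hw2 a ha v, hw2 a ha v', ← mul_sub, norm_mul, htgn, one_mul]
        refine (F4_lip (m := 94 / 100) (by norm_num) (hrt _).1 (hrt _).1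
          (F4_re (hrt _).1 (hrt _).2 (le_trans (by norm_num) h1.1))
          (F4_re (hrt _).1 (hrt _).2 (le_trans (by norm_num) h1'.1))).trans ?_
        rw [div_le_iff₀ (by norm_num)]
        nlinarith
    show dist (zz a v, ww a v) (zz a v', ww a v') ≤ _
    rw [Prod.dist_eq]
    refine max_le ?_ ?_
    · show dist (zz a v) (zz a v') ≤ _
      rw [dist_eq_norm]
      linarith
    · show dist (ww a v) (ww a v') ≤ _
      rw [dist_eq_norm]
      exact hwl
  · intro a b hab v hv v' hv' heq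
    have hz : zz a v = zz b v' := congrArg Prod.fst heq
    have hw : ww a v = ww b v' := congrArg Prod.snd heq
    have r1 := (F4_z hrt hv).1
    have r2 := (F4_z hrt hv').1
    by_cases ha : a.val < 2
    · by_cases hb : b.val < 2
      · -- same symbol
        rw [hw1 a ha v, hw1 b hb v'] at hw
        have p1 : 94 / 100 ≤ (rt (12 + 50 * (zz a v - 1) - v.2)).re :=
          F4_re (hrt _).1 (hrt _).2
            (le_trans (by norm_num) (F4_rad1 (hz1 a ha v hv).1 (hQ2 v hv)).1)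
        have p2 : 94 / 100 ≤ (rt (12 + 50 * (zz b v' - 1) - v'.2)).re :=
          F4_re (hrt _).1 (hrt _).2
            (le_trans (by norm_num) (F4_rad1 (hz1 b hb v' hv').1 (hQ2 v' hv')).1)
        have hI : F4_tg a * rt (12 + 50 * (zz a v - 1) - v.2) =
            F4_tg b * rt (12 + 50 * (zz b v' - 1) - v'.2) := by
          have := congrArg (fun x => -Complex.I * x) hw
          have e : ∀ x y : ℂ, -Complex.I * (x * (Complex.I * y)) = x * y := by
            intro x y
            linear_combination (-x * y) * Complex.I_sq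
          rwa [e, e] at this
        have := congrArg Complex.re hI
        have hne : F4_tg a ≠ F4_tg b ∧ (F4_tg a = 1 ∨ F4_tg a = -1) ∧
            (F4_tg b = 1 ∨ F4_tg b = -1) := by
          have h1 : a.val ≠ b.val := fun h => hab (Fin.ext h)
          unfold F4_tg
          split_ifs with h2 h3 h3
          · omega
          · norm_num
          · norm_num
          · omega
        rcases hne with ⟨h1, h2 | h2, h3 | h3⟩
        · exact h1 (h2.trans h3.symm)
        · rw [h2, h3, one_mul, neg_one_mul, Complex.neg_re] at this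
          linarith
        · rw [h2, h3, one_mul, neg_one_mul, Complex.neg_re] at this
          linarith
        · exact h1 (h2.trans h3.symm)
      · rw [(hz1 a ha v hv).2, (hz2 b hb v' hv').2] at hz
        have := congrArg Complex.re hz
        rw [Complex.neg_re] at this
        linarith
    · by_cases hb : b.val < 2
      · rw [(hz2 a ha v hv).2, (hz1 b hb v' hv').2] at hz
        have := congrArg Complex.re hz
        rw [Complex.neg_re] at this
        linarith
      · rw [hw2 a ha v, hw2 b hb v'] at hw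
        have p1 : 94 / 100 ≤ (rt (v.2 - 50 * (zz a v - 1) - 12)).re :=
          F4_re (hrt _).1 (hrt _).2
            (le_trans (by norm_num) (F4_rad2 (hz2 a ha v hv).1 (hQ2 v hv)).1)
        have p2 : 94 / 100 ≤ (rt (v'.2 - 50 * (zz b v' - 1) - 12)).re :=
          F4_re (hrt _).1 (hrt _).2
            (le_trans (by norm_num) (F4_rad2 (hz2 b hb v' hv').1 (hQ2 v' hv')).1)
        have := congrArg Complex.re hw
        have hne : F4_tg a ≠ F4_tg b ∧ (F4_tg a = 1 ∨ F4_tg a = -1) ∧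
            (F4_tg b = 1 ∨ F4_tg b = -1) := by
          have h1 : a.val ≠ b.val := fun h => hab (Fin.ext h)
          have h4 := a.isLt
          have h5 := b.isLt
          unfold F4_tg
          split_ifs with h2 h3 h3
          · omega
          · norm_num
          · norm_num
          · omega
        rcases hne with ⟨h1, h2 | h2, h3 | h3⟩
        · exact h1 (h2.trans h3.symm)
        · rw [h2, h3, one_mul, neg_one_mul, Complex.neg_re] at this
          linarith
        · rw [h2, h3, one_mul, neg_one_mul, Complex.neg_re] at this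
          linarith
        · exact h1 (h2.trans h3.symm)
  · intro x _ hx
    have hT : T 2 (fc 12) x = (1000 * (x.1 ^ 2 - 1), x.2 ^ 2 + 50 * (x.1 - 1) + 12) := T_fc 12 x
    set v := T 2 (fc 12) x with hv
    have hv1 : v.1 = 1000 * (x.1 ^ 2 - 1) := by rw [hT]
    have hv2 : v.2 = x.2 ^ 2 + 50 * (x.1 - 1) + 12 := by rw [hT]
    have hsq : x.1 ^ 2 = rt (1 + v.1 / 1000) ^ 2 := by
      rw [(hrt _).1, hv1]
      ring
    rcases sq_eq_sq_iff_eq_or_eq_neg.1 hsq with h | h
    · -- symbol 1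
      have hw : x.2 ^ 2 = (Complex.I * rt (12 + 50 * (x.1 - 1) - v.2)) ^ 2 := by
        rw [mul_pow, (hrt _).1, Complex.I_sq, hv2]
        ring
      have key : ∀ a : Fin 4, a.val < 2 → zz a v = x.1 := fun a ha => by
        rw [(hz1 a ha v hx).2, h]
      rcases sq_eq_sq_iff_eq_or_eq_neg.1 hw with h' | h'
      · refine ⟨0, Prod.ext ?_ ?_⟩
        · exact (key 0 (by norm_num)).symm
        · show x.2 = ww 0 v
          rw [hw1 0 (by norm_num) v, key 0 (by norm_num)]
          have : F4_tg 0 = 1 := by unfold F4_tg; norm_num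
          rw [this, one_mul]
          exact h'
      · refine ⟨1, Prod.ext ?_ ?_⟩
        · exact (key 1 (by norm_num)).symm
        · show x.2 = ww 1 v
          rw [hw1 1 (by norm_num) v, key 1 (by norm_num)]
          have : F4_tg 1 = -1 := by unfold F4_tg; norm_num
          rw [this, neg_one_mul]
          exact h'
    · have hw : x.2 ^ 2 = (rt (v.2 - 50 * (x.1 - 1) - 12)) ^ 2 := by
        rw [(hrt _).1, hv2]
        ring
      have key : ∀ a : Fin 4, ¬ a.val < 2 → zz a v = x.1 := fun a ha => by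
        rw [(hz2 a ha v hx).2, h]
      rcases sq_eq_sq_iff_eq_or_eq_neg.1 hw with h' | h'
      · refine ⟨2, Prod.ext ?_ ?_⟩
        · exact (key 2 (by norm_num)).symm
        · show x.2 = ww 2 v
          rw [hw2 2 (by norm_num) v, key 2 (by norm_num)]
          have : F4_tg 2 = 1 := by unfold F4_tg; norm_num
          rw [this, one_mul]
          exact h'
      · refine ⟨3, Prod.ext ?_ ?_⟩
        · exact (key 3 (by norm_num)).symm
        · show x.2 = ww 3 v
          rw [hw2 3 (by norm_num) v, key 3 (by norm_num)]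
          have : F4_tg 3 = -1 := by unfold F4_tg; norm_num
          rw [this, neg_one_mul]
          exact h'

/-! ### repelling periodic points -/

lemma F4_diff : Differentiable ℂ (T 2 (fc 12)) := by
  have : T 2 (fc 12) = fun v : X2 => ((1000 * (v.1 ^ 2 - 1), v.2 ^ 2 + 50 * (v.1 - 1) + 12) : X2) :=
    funext fun v => T_fc 12 v
  rw [this]
  fun_prop

lemma F4_K {v : X2} (hv : v ∈ K (fc 12)) : T 2 (fc 12) v ∈ K (fc 12) := by
  intro j
  have := hv (j + 1)
  rwa [Function.iterate_succ_apply] at this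

lemma F4_diag {v : X2} (hv : v ∈ K (fc 12)) : 1 < ‖2000 * v.1‖ ∧ 1 < ‖2 * v.2‖ := by
  have h0 : v ∈ Core := hv 0
  have h1 : T 2 (fc 12) v ∈ Core := hv 1
  have h2 : ‖(T 2 (fc 12) v).2‖ ≤ 11 := by
    rcases h1 with h | h
    · have := h.2
      rwa [mem_closedBall_zero_iff] at this
    · have := h.2
      rwa [mem_closedBall_zero_iff] at this
  rw [T_fc] at h2
  have h2' : ‖v.2 ^ 2 + 50 * (v.1 - 1) + 12‖ ≤ 11 := h2
  have e50 : ‖(50 : ℂ)‖ = 50 := by norm_num
  have e2000 : ‖(2000 : ℂ)‖ = 2000 := by norm_num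
  have e2 : ‖(2 : ℂ)‖ = 2 := by norm_num
  rw [norm_mul, norm_mul, e2000, e2]
  have hmain : (9 / 10 : ℝ) ≤ ‖v.2‖ ^ 2 ∧ 499 / 500 ≤ ‖v.1‖ := by
    rcases h0 with h | h
    · have h3 : ‖v.1 - 1‖ ≤ 1 / 500 := by
        have := h.1
        rwa [mem_closedBall, dist_eq_norm] at this
      constructor
      · rw [← norm_pow]
        have h4 : (12 : ℂ) = (v.2 ^ 2 + 50 * (v.1 - 1) + 12) - v.2 ^ 2 - 50 * (v.1 - 1) := by ring
        have h5 : ‖(12 : ℂ)‖ ≤ ‖v.2 ^ 2 + 50 * (v.1 - 1) + 12‖ + ‖v.2 ^ 2‖ + ‖50 * (v.1 - 1)‖ := by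
          calc ‖(12 : ℂ)‖ = ‖(v.2 ^ 2 + 50 * (v.1 - 1) + 12) - v.2 ^ 2 - 50 * (v.1 - 1)‖ := by
                rw [← h4]
            _ ≤ ‖(v.2 ^ 2 + 50 * (v.1 - 1) + 12) - v.2 ^ 2‖ + ‖50 * (v.1 - 1)‖ := norm_sub_le _ _
            _ ≤ _ := by
                have := norm_sub_le (v.2 ^ 2 + 50 * (v.1 - 1) + 12) (v.2 ^ 2)
                linarith
        have e12 : ‖(12 : ℂ)‖ = 12 := by norm_num
        rw [e12, norm_mul, e50] at h5
        linarith
      · have h4 : ‖(1 : ℂ)‖ ≤ ‖v.1‖ + ‖v.1 - 1‖ := by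
          have := norm_sub_le v.1 (v.1 - 1)
          rwa [sub_sub_cancel] at this
        rw [norm_one] at h4
        linarith
    · have h3 : ‖v.1 + 1‖ ≤ 1 / 500 := by
        have := h.1
        rwa [mem_closedBall, dist_eq_norm, sub_neg_eq_add] at this
      constructor
      · rw [← norm_pow]
        have h4 : (88 : ℂ) = v.2 ^ 2 - (v.2 ^ 2 + 50 * (v.1 - 1) + 12) + 50 * (v.1 + 1) := by ring
        have h5 : ‖(88 : ℂ)‖ ≤ ‖v.2 ^ 2‖ + ‖v.2 ^ 2 + 50 * (v.1 - 1) + 12‖ + ‖50 * (v.1 + 1)‖ := by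
          calc ‖(88 : ℂ)‖ = ‖v.2 ^ 2 - (v.2 ^ 2 + 50 * (v.1 - 1) + 12) + 50 * (v.1 + 1)‖ := by
                rw [← h4]
            _ ≤ ‖v.2 ^ 2 - (v.2 ^ 2 + 50 * (v.1 - 1) + 12)‖ + ‖50 * (v.1 + 1)‖ := norm_add_le _ _
            _ ≤ _ := by
                have := norm_sub_le (v.2 ^ 2) (v.2 ^ 2 + 50 * (v.1 - 1) + 12)
                linarith
        have e88 : ‖(88 : ℂ)‖ = 88 := by norm_num
        rw [e88, norm_mul, e50] at h5
        linarith
      · have h4 : ‖(1 : ℂ)‖ ≤ ‖v.1 + 1‖ + ‖v.1‖ := by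
          have := norm_sub_le (v.1 + 1) v.1
          rwa [add_sub_cancel_left] at this
        rw [norm_one] at h4
        linarith
  constructor
  · linarith [hmain.2]
  · nlinarith [hmain.1, norm_nonneg v.2]

lemma F4_tri (n : ℕ) : ∀ v ∈ K (fc 12), ∃ A B C : ℂ,
    (∀ e : X2, fderiv ℂ ((T 2 (fc 12))^[n]) v e = (A * e.1, B * e.1 + C * e.2)) ∧
    1 ≤ ‖A‖ ∧ 1 ≤ ‖C‖ ∧ (1 ≤ n → 1 < ‖A‖ ∧ 1 < ‖C‖) := by
  induction n with
  | zero =>
    intro v _
    refine ⟨1, 0, 1, fun e => ?_, by simp, by simp, fun h => by omega⟩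
    rw [Function.iterate_zero, fderiv_id]
    simp
  | succ n ih =>
    intro v hv
    obtain ⟨A, B, C, h1, h2, h3, -⟩ := ih _ (F4_K hv)
    obtain ⟨d1, d2⟩ := F4_diag hv
    have hlt : ∀ x y : ℝ, 1 ≤ x → 1 < y → 1 < x * y := by
      intro x y hx hy
      nlinarith
    refine ⟨A * (2000 * v.1), B * (2000 * v.1) + C * 50, C * (2 * v.2), fun e => ?_, ?_, ?_, ?_⟩
    · have hcomp : fderiv ℂ ((T 2 (fc 12))^[n + 1]) v =
          (fderiv ℂ ((T 2 (fc 12))^[n]) (T 2 (fc 12) v)).comp (fderiv ℂ (T 2 (fc 12)) v) := by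
        rw [Function.iterate_succ]
        exact fderiv_comp v ((F4_diff.iterate n) _) (F4_diff v)
      rw [hcomp, ContinuousLinearMap.comp_apply, fderiv_T_fc, h1]
      refine Prod.ext ?_ ?_
      · show A * (2000 * v.1 * e.1) = A * (2000 * v.1) * e.1
        ring
      · show B * (2000 * v.1 * e.1) + C * (50 * e.1 + 2 * v.2 * e.2) =
          (B * (2000 * v.1) + C * 50) * e.1 + C * (2 * v.2) * e.2
        ring
    · rw [norm_mul]
      exact (hlt _ _ h2 d1).le
    · rw [norm_mul]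
      exact (hlt _ _ h3 d2).le
    · intro _
      rw [norm_mul, norm_mul C]
      exact ⟨hlt _ _ h2 d1, hlt _ _ h3 d2⟩

theorem rep12 {n : ℕ} (hn : 1 ≤ n) {v : X2} (hv : Per (fc 12) n v) : Rep (fc 12) n v := by
  refine ⟨hv, fun μ hμ => ?_⟩
  obtain ⟨A, B, C, h1, -, -, h2⟩ := F4_tri n v hv.1
  obtain ⟨hA, hC⟩ := h2 hn
  obtain ⟨e, he⟩ := hμ.exists_hasEigenvector
  have h3 := he.apply_eq_smul
  have h4 : fderiv ℂ ((T 2 (fc 12))^[n]) v e = μ • e := h3
  rw [h1] at h4
  have h5 : A * e.1 = μ * e.1 := congrArg Prod.fst h4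
  have h6 : B * e.1 + C * e.2 = μ * e.2 := congrArg Prod.snd h4
  by_cases he1 : e.1 = 0
  · have he2 : e.2 ≠ 0 := fun h => he.2 (Prod.ext he1 h)
    rw [he1, mul_zero, zero_add] at h6
    rw [← mul_right_cancel₀ he2 h6]
    exact hC
  · rw [← mul_right_cancel₀ he1 h5]
    exact hA

end NB
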