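import Pool.Agent.NB.F4
/-!
F5. Counting the periodic points of `f_12` near a fixed point `P` of `K (f_12)`.
`P = G a P` for some `a` (`branches12`), choose `j` with `(G a)^[j] Q12 ⊆ ball P ε` (contraction factor
`(3/5)^j`, diameter `22`).  For `n ≥ j` and a word `β` of length `n - j` the map
`(G a)^[j] ∘ G_β : Q12 → Q12` is a contraction of the compact convex set `Q12`, with a fixed point `p_β`
(for `n ≥ 1`); `T^[n] p_β = p_β` and `p_β ∈ ball P ε`; the orbit of `p_β` is in the core.  Different words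
give different points (the images of the branches are disjoint).
-/
open Set Metric Filter Topology
open SkewBif
namespace NB

/-- Composition of the branches along a word. -/
def F5_w (G : Fin 4 → X2 → X2) : List (Fin 4) → X2 → X2
  | [] => id
  | b :: β => fun v => G b (F5_w G β v)

theorem F5_append (G : Fin 4 → X2 → X2) (α β : List (Fin 4)) (v : X2) :
    F5_w G (α ++ β) v = F5_w G α (F5_w G β v) := by
  induction α with
  | nil => rfl
  | cons b α ih =>
    show G b (F5_w G (α ++ β) v) = G b (F5_w G α (F5_w G β v))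
    rw [ih]

theorem F5_core_sub : Core ⊆ Q12 := by
  have hle : ∀ {s z : ℂ}, ‖s‖ = 1 → dist z s ≤ 1 / 500 → ‖z‖ ≤ 2 := by
    intro s z hs hz
    rw [dist_eq_norm] at hz
    have := norm_sub_norm_le z s
    linarith
  rintro v (⟨h1, h2⟩ | ⟨h1, h2⟩)
  · refine ⟨?_, h2⟩
    rw [mem_closedBall] at h1
    rw [mem_closedBall, dist_eq_norm, sub_zero]
    exact hle (by simp) h1
  · refine ⟨?_, h2⟩
    rw [mem_closedBall] at h1
    rw [mem_closedBall, dist_eq_norm, sub_zero]
    exact hle (by simp) h1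

theorem F5_diam {v v' : X2} (hv : v ∈ Q12) (hv' : v' ∈ Q12) : dist v v' ≤ 22 := by
  obtain ⟨h1, h2⟩ := hv
  obtain ⟨h3, h4⟩ := hv'
  rw [mem_closedBall] at h1 h2 h3 h4
  rw [Prod.dist_eq]
  refine max_le ?_ ?_
  · have := dist_triangle_right v.1 v'.1 0
    linarith
  · have := dist_triangle_right v.2 v'.2 0
    linarith

section

variable {G : Fin 4 → X2 → X2}
  (hG1 : ∀ a, ∀ v ∈ Q12, G a v ∈ Core ∧ G a v ∈ Q12 ∧ T 2 (fc 12) (G a v) = v)
  (hG2 : ∀ a, ∀ v ∈ Q12, ∀ v' ∈ Q12, dist (G a v) (G a v') ≤ 3 / 5 * dist v v')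
  (hG3 : ∀ a b, a ≠ b → ∀ v ∈ Q12, ∀ v' ∈ Q12, G a v ≠ G b v')

include hG1 in
theorem F5_maps (β : List (Fin 4)) {v : X2} (hv : v ∈ Q12) : F5_w G β v ∈ Q12 := by
  induction β with
  | nil => exact hv
  | cons b β ih => exact (hG1 b _ ih).2.1

include hG1 hG2 in
theorem F5_lip (β : List (Fin 4)) {v v' : X2} (hv : v ∈ Q12) (hv' : v' ∈ Q12) :
    dist (F5_w G β v) (F5_w G β v') ≤ (3 / 5) ^ β.length * dist v v' := by
  induction β with
  | nil => simp [F5_w]
  | cons b β ih =>
    calc dist (G b (F5_w G β v)) (G b (F5_w G β v'))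
        ≤ 3 / 5 * dist (F5_w G β v) (F5_w G β v') :=
          hG2 b _ (F5_maps hG1 β hv) _ (F5_maps hG1 β hv')
      _ ≤ 3 / 5 * ((3 / 5) ^ β.length * dist v v') := by
          exact mul_le_mul_of_nonneg_left ih (by norm_num)
      _ = (3 / 5) ^ (b :: β).length * dist v v' := by
          rw [List.length_cons, pow_succ]
          ring

include hG1 in
theorem F5_iter (β : List (Fin 4)) {v : X2} (hv : v ∈ Q12) :
    (T 2 (fc 12))^[β.length] (F5_w G β v) = v := by
  induction β with
  | nil => rfl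
  | cons b β ih =>
    rw [List.length_cons, Function.iterate_succ_apply]
    have h1 : T 2 (fc 12) (F5_w G (b :: β) v) = F5_w G β v :=
      (hG1 b _ (F5_maps hG1 β hv)).2.2
    rw [h1, ih]

include hG1 in
theorem F5_core (β : List (Fin 4)) {v : X2} (hv : v ∈ Q12) :
    ∀ i < β.length, (T 2 (fc 12))^[i] (F5_w G β v) ∈ Core := by
  induction β with
  | nil => intro i hi; exact absurd hi (Nat.not_lt_zero i)
  | cons b β ih =>
    intro i hi
    cases i with
    | zero => exact (hG1 b _ (F5_maps hG1 β hv)).1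
    | succ i =>
      rw [Function.iterate_succ_apply]
      have h1 : T 2 (fc 12) (F5_w G (b :: β) v) = F5_w G β v :=
        (hG1 b _ (F5_maps hG1 β hv)).2.2
      rw [h1]
      rw [List.length_cons] at hi
      exact ih i (by omega)

include hG1 hG3 in
theorem F5_inj : ∀ (β β' : List (Fin 4)) (v v' : X2), v ∈ Q12 → v' ∈ Q12 →
    β.length = β'.length → F5_w G β v = F5_w G β' v' → β = β'
  | [], [], _, _, _, _, _, _ => rfl
  | [], _ :: _, _, _, _, _, hl, _ => by simp at hl
  | _ :: _, [], _, _, _, _, hl, _ => by simp at hl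
  | b :: β, b' :: β', v, v', hv, hv', hl, h => by
    have h1 : G b (F5_w G β v) = G b' (F5_w G β' v') := h
    have hb : b = b' := by
      by_contra hne
      exact hG3 b b' hne _ (F5_maps hG1 β hv) _ (F5_maps hG1 β' hv') h1
    have h2 : F5_w G β v = F5_w G β' v' := by
      rw [← (hG1 b _ (F5_maps hG1 β hv)).2.2, h1, (hG1 b' _ (F5_maps hG1 β' hv')).2.2]
    have h3 : β.length = β'.length := by simpa using hl
    rw [hb, F5_inj β β' v v' hv hv' h3 h2]

include hG1 hG2 in
theorem F5_fix (β : List (Fin 4)) (hβ : 1 ≤ β.length) : ∃ p ∈ Q12, F5_w G β p = p := by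
  have hcomp : IsComplete Q12 :=
    ((isCompact_closedBall (0 : ℂ) 2).prod (isCompact_closedBall (0 : ℂ) 11)).isComplete
  have hmaps : MapsTo (F5_w G β) Q12 Q12 := fun v hv => F5_maps hG1 β hv
  have h0 : ((0, 0) : X2) ∈ Q12 := by
    refine ⟨?_, ?_⟩ <;> simp
  have hK : ContractingWith ((3 / 5 : NNReal) ^ β.length) (hmaps.restrict (F5_w G β) Q12 Q12) := by
    refine ⟨pow_lt_one₀ (by norm_num) ?_ (by omega), ?_⟩
    · rw [div_lt_one (by norm_num)]
      norm_num
    · refine LipschitzWith.of_dist_le_mul ?_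
      rintro ⟨v, hv⟩ ⟨v', hv'⟩
      have h1 := F5_lip hG1 hG2 β hv hv'
      have h2 : (((3 / 5 : NNReal) ^ β.length : NNReal) : ℝ) = (3 / 5) ^ β.length := by
        push_cast
        rfl
      rw [h2]
      exact h1
  obtain ⟨y, hy, hy2, -⟩ := ContractingWith.exists_fixedPoint' hcomp hmaps hK h0
    (edist_ne_top _ _)
  exact ⟨y, hy, hy2⟩

end

theorem count12 {P : X2} (hP : Per (fc 12) 1 P) {ε : ℝ} (hε : 0 < ε) :
    ∃ j : ℕ, ∀ n ≥ j, 1 ≤ n → ∃ S : Finset X2, 4 ^ (n - j) ≤ S.card ∧
      ∀ v ∈ S, dist v P < ε ∧ Per (fc 12) n v := by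
  classical
  obtain ⟨G, hG1, hG2, hG3, hG4⟩ := branches12
  have hTP : T 2 (fc 12) P = P := hP.2
  have hPc : P ∈ Core := hP.1 0
  have hPQ : P ∈ Q12 := F5_core_sub hPc
  obtain ⟨a, ha⟩ := hG4 P hPc (by rw [hTP]; exact hPQ)
  rw [hTP] at ha
  obtain ⟨j, hj⟩ : ∃ j : ℕ, (3 / 5 : ℝ) ^ j * 22 < ε := by
    obtain ⟨j, hj⟩ := exists_pow_lt_of_lt_one (show 0 < ε / 22 by positivity)
      (show (3 / 5 : ℝ) < 1 by norm_num)
    exact ⟨j, by rw [lt_div_iff₀ (by norm_num)] at hj; exact hj⟩
  have hPa : ∀ k : ℕ, F5_w G (List.replicate k a) P = P := by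
    intro k
    induction k with
    | zero => rfl
    | succ k ih =>
      rw [List.replicate_succ]
      show G a (F5_w G (List.replicate k a) P) = P
      rw [ih, ← ha]
  refine ⟨j, fun n hn hn1 => ?_⟩
  let w : (Fin (n - j) → Fin 4) → List (Fin 4) := fun β => List.replicate j a ++ List.ofFn β
  have hwl : ∀ β, (w β).length = n := by
    intro β
    simp only [w, List.length_append, List.length_replicate, List.length_ofFn]
    omega
  have hfix : ∀ β, ∃ p ∈ Q12, F5_w G (w β) p = p := fun β =>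
    F5_fix hG1 hG2 (w β) (by rw [hwl]; exact hn1)
  choose p hpQ hpf using hfix
  have hinj : Function.Injective p := by
    intro β β' hββ
    have h1 : F5_w G (w β) (p β) = F5_w G (w β') (p β') := by
      rw [hpf, hpf, hββ]
    have h2 := F5_inj hG1 hG3 _ _ _ _ (hpQ β) (hpQ β') (by rw [hwl, hwl]) h1
    exact List.ofFn_injective (List.append_cancel_left h2)
  refine ⟨Finset.univ.image p, ?_, ?_⟩
  · rw [Finset.card_image_of_injective _ hinj, Finset.card_univ, Fintype.card_fun,
      Fintype.card_fin, Fintype.card_fin]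
  · intro v hv
    rw [Finset.mem_image] at hv
    obtain ⟨β, -, rfl⟩ := hv
    have hper : (T 2 (fc 12))^[n] (p β) = p β := by
      have h1 := F5_iter hG1 (w β) (hpQ β)
      rw [hwl, hpf] at h1
      exact h1
    refine ⟨?_, ?_, hper⟩
    · have h1 : p β = F5_w G (List.replicate j a) (F5_w G (List.ofFn β) (p β)) := by
        rw [← F5_append]
        exact (hpf β).symm
      calc dist (p β) P = dist (F5_w G (List.replicate j a) (F5_w G (List.ofFn β) (p β)))
            (F5_w G (List.replicate j a) P) := by rw [hPa, ← h1]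
        _ ≤ (3 / 5) ^ (List.replicate j a).length * dist (F5_w G (List.ofFn β) (p β)) P :=
          F5_lip hG1 hG2 _ (F5_maps hG1 _ (hpQ β)) hPQ
        _ ≤ (3 / 5) ^ j * 22 := by
          rw [List.length_replicate]
          exact mul_le_mul_of_nonneg_left (F5_diam (F5_maps hG1 _ (hpQ β)) hPQ) (by positivity)
        _ < ε := hj
    · intro i
      have h1 : (T 2 (fc 12))^[i] (p β) = (T 2 (fc 12))^[i % n] (p β) := by
        have h2 : Function.IsPeriodicPt (T 2 (fc 12)) n (p β) := hper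
        exact (h2.iterate_mod_apply i).symm
      rw [h1]
      have h2 := F5_core hG1 (w β) (hpQ β) (i % n) (by rw [hwl]; exact Nat.mod_lt _ (by omega))
      rw [hpf] at h2
      exact h2

end NB
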