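import Pool.Agent.NB.E8
/-!
F6. Lifts of a repelling periodic point `v` of the chart.  `u = θ • lift v` satisfies
`ev^[n] u = θ^(2^n) • ev^[n] (lift v)` and `ev^[n] (lift v) = b • lift v` with `b ≠ 0` (`chart_iter`), so
`ev^[n] u = u` iff `θ^(2^n - 1) b = 1`: exactly `2^n - 1` values of `θ`; then `repPer_iff`.
-/
open Set Metric Filter Topology
open SkewBif
namespace NB

private theorem F6_ev_smul (F : Coef 2) (θ : ℂ) (u : Fin 3 → ℂ) :
    ev 2 F (θ • u) = θ ^ 2 • ev 2 F u := by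
  funext k
  simp only [ev, Pi.smul_apply, smul_eq_mul]
  rw [Finset.mul_sum]
  refine Finset.sum_congr rfl fun m _ => ?_
  have hm : (m.1.1 : ℕ) + (m.1.2 : ℕ) ≤ 2 := m.2
  have he : θ ^ 2 = θ ^ (m.1.1 : ℕ) * θ ^ (2 - (m.1.1 : ℕ) - (m.1.2 : ℕ)) * θ ^ (m.1.2 : ℕ) := by
    rw [← pow_add, ← pow_add]
    congr 1
    omega
  rw [mul_pow, mul_pow, mul_pow, he]
  ring

private theorem F6_iter_smul (F : Coef 2) (θ : ℂ) (u : Fin 3 → ℂ) (n : ℕ) :
    (ev 2 F)^[n] (θ • u) = θ ^ (2 ^ n) • (ev 2 F)^[n] u := by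
  induction n with
  | zero => simp
  | succ n ih =>
    rw [Function.iterate_succ_apply', Function.iterate_succ_apply', ih, F6_ev_smul, ← pow_mul,
      pow_succ]

private theorem F6_eq_smul_lift {x : Fin 3 → ℂ} (hx : x 1 ≠ 0) : x = x 1 • lift (chart x) := by
  funext k
  fin_cases k
  · simp [lift, chart]
    field_simp
  · simp [lift]
  · simp [lift, chart]
    field_simp

private theorem F6_chart_lift (v : X2) : chart (lift v) = v := by
  simp [lift, chart]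

private theorem F6_chart_smul (v : X2) {θ : ℂ} (hθ : θ ≠ 0) : chart (θ • lift v) = v := by
  ext <;> simp [lift, chart, hθ]

theorem lifts_count {F : Coef 2} (hF : Adm F) {n : ℕ} (hn : 1 ≤ n) {v : X2} (hv : Rep F n v) :
    ∃ S : Finset (Fin 3 → ℂ), S.card = 2 ^ n - 1 ∧
      ∀ u ∈ S, u ≠ 0 ∧ RepPer 2 F n u ∧ u 1 ≠ 0 ∧ chart u = v := by
  classical
  have hL1 : lift v 1 = 1 := by simp [lift]
  have hL1' : lift v 1 ≠ 0 := by rw [hL1]; exact one_ne_zero
  have hK : chart (lift v) ∈ K F := by rw [F6_chart_lift]; exact hv.1.1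
  obtain ⟨hb, hc⟩ := chart_iter hF hL1' hK n
  rw [F6_chart_lift, hv.1.2] at hc
  set b : ℂ := ((ev 2 F)^[n] (lift v)) 1 with hbdef
  have hbL : (ev 2 F)^[n] (lift v) = b • lift v := by
    have := F6_eq_smul_lift hb
    rw [hc] at this
    exact this
  have hk : 0 < 2 ^ n - 1 := by
    have : 2 ^ 1 ≤ 2 ^ n := Nat.pow_le_pow_right (by norm_num) hn
    omega
  obtain ⟨θ0, hθ0⟩ := IsAlgClosed.exists_pow_nat_eq b⁻¹ hk
  have hθ0ne : θ0 ≠ 0 := by
    rintro rfl
    rw [zero_pow hk.ne'] at hθ0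
    exact (inv_ne_zero hb) hθ0.symm
  have hprim := Complex.isPrimitiveRoot_exp (2 ^ n - 1) hk.ne'
  refine ⟨(Polynomial.nthRootsFinset (2 ^ n - 1) (1 : ℂ)).image fun ζ => (θ0 * ζ) • lift v, ?_, ?_⟩
  · rw [Finset.card_image_of_injective, hprim.card_nthRootsFinset]
    intro ζ ζ' h
    have h1 := congrFun h 1
    simp only [Pi.smul_apply, smul_eq_mul, hL1, mul_one] at h1
    exact mul_left_cancel₀ hθ0ne h1
  · intro u hu
    rw [Finset.mem_image] at hu
    obtain ⟨ζ, hζ, rfl⟩ := hu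
    rw [Polynomial.mem_nthRootsFinset hk] at hζ
    have hζne : ζ ≠ 0 := by
      rintro rfl
      rw [zero_pow hk.ne'] at hζ
      exact zero_ne_one hζ
    have hθne : θ0 * ζ ≠ 0 := mul_ne_zero hθ0ne hζne
    have hu1 : ((θ0 * ζ) • lift v) 1 = θ0 * ζ := by
      simp [hL1]
    have hune : (θ0 * ζ) • lift v ≠ 0 := by
      intro h
      have := congrFun h 1
      rw [hu1] at this
      exact hθne this
    have hch : chart ((θ0 * ζ) • lift v) = v := F6_chart_smul v hθne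
    refine ⟨hune, ?_, by rw [hu1]; exact hθne, hch⟩
    rw [repPer_iff hF hn hune]
    refine ⟨?_, by rw [hu1]; exact hθne, by rw [hch]; exact hv⟩
    rw [F6_iter_smul, hbL, smul_smul]
    congr 1
    have h2 : (θ0 * ζ) ^ (2 ^ n - 1) = b⁻¹ := by
      rw [mul_pow, hθ0, hζ, mul_one]
    have h3 : (θ0 * ζ) ^ (2 ^ n) = (θ0 * ζ) ^ (2 ^ n - 1) * (θ0 * ζ) := by
      rw [← pow_succ]
      congr 1
      omega
    rw [h3, h2]
    field_simp

end NB
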