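import Pool.Agent.NB.F3
import Pool.Agent.NB.F5
import Pool.Agent.NB.F6
/-!
F7. The repelling fixed points of `f_12` are in the small Julia set.  Let `V ∋ u` be open and scalar
invariant; by `near_cone` there is `η` with: `x 1 ≠ 0` and `dist (chart x) (chart u) < η` imply `x ∈ V`.  Take the
`4^(n-j)` points of `count12` (`ε = η`), all repelling (`rep12`), and their `2^n - 1` lifts each
(`lifts_count`, disjoint for different points): `4^(n-j) (2^n - 1) ≥ 8^n 4^(-j) / 2`.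
-/
open Set Metric Filter Topology
open SkewBif
namespace NB

theorem J12 (hA : Adm (fc 12)) {u : Fin 3 → ℂ} (hu : u ≠ 0) (hR : RepPer 2 (fc 12) 1 u) :
    u ∈ JSet (fc 12) := by
  classical
  obtain ⟨-, hu1, hRep⟩ := (repPer_iff hA le_rfl hu).1 hR
  intro V hV hs huV
  obtain ⟨η, hη, hnear⟩ := near_cone hV hs huV hu1
  obtain ⟨j, hj⟩ := count12 hRep.1 hη
  refine ⟨(4 ^ j)⁻¹ / 2, by positivity, ?_⟩
  filter_upwards [eventually_ge_atTop j, eventually_ge_atTop 1] with n hnj hn1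
  obtain ⟨S, hcard, hS⟩ := hj n hnj hn1
  have hlift : ∀ v : X2, ∃ L : Finset (Fin 3 → ℂ), v ∈ S → (L.card = 2 ^ n - 1 ∧
      ∀ x ∈ L, x ≠ 0 ∧ RepPer 2 (fc 12) n x ∧ x 1 ≠ 0 ∧ chart x = v) := by
    intro v
    by_cases hv : v ∈ S
    · obtain ⟨L, hL1, hL2⟩ := lifts_count hA hn1 (rep12 hn1 (hS v hv).2)
      exact ⟨L, fun _ => ⟨hL1, hL2⟩⟩
    · exact ⟨∅, fun h => absurd h hv⟩
  choose L hL using hlift
  refine ⟨S.biUnion L, ?_, ?_⟩
  · intro x hx
    rw [Finset.mem_biUnion] at hx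
    obtain ⟨v, hv, hxv⟩ := hx
    obtain ⟨h0, h1, h2, h3⟩ := (hL v hv).2 x hxv
    exact ⟨hnear x h2 (by rw [h3]; exact (hS v hv).1), h0, h1⟩
  · have hdisj : (S : Set X2).PairwiseDisjoint L := by
      intro v hv v' hv' hne
      rw [Function.onFun, Finset.disjoint_left]
      intro x hx hx'
      exact hne (((hL v hv).2 x hx).2.2.2.symm.trans ((hL v' hv').2 x hx').2.2.2)
    rw [Finset.card_biUnion hdisj, Finset.sum_congr rfl fun v hv => (hL v hv).1,
      Finset.sum_const, smul_eq_mul]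
    have h2n : 2 ^ n ≤ 2 * (2 ^ n - 1) := by
      have : 2 ^ 1 ≤ 2 ^ n := Nat.pow_le_pow_right (by norm_num) hn1
      omega
    have h4 : 4 ^ (n - j) * 2 ^ n ≤ S.card * (2 * (2 ^ n - 1)) := Nat.mul_le_mul hcard h2n
    have h5 : ((4 : ℝ) ^ (n - j)) * 2 ^ n ≤ 2 * ((S.card * (2 ^ n - 1) : ℕ) : ℝ) := by
      have : ((4 ^ (n - j) * 2 ^ n : ℕ) : ℝ) ≤ ((S.card * (2 * (2 ^ n - 1)) : ℕ) : ℝ) := by
        exact_mod_cast h4
      push_cast at this ⊢
      linarith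
    have h6 : (8 : ℝ) ^ n = 4 ^ j * (4 ^ (n - j) * 2 ^ n) := by
      rw [← mul_assoc, ← pow_add, show j + (n - j) = n by omega, ← mul_pow]
      norm_num
    have h7 : (4 : ℝ) ^ j ≠ 0 := by positivity
    calc (4 ^ j)⁻¹ / 2 * (8 : ℝ) ^ n = ((4 : ℝ) ^ (n - j) * 2 ^ n) / 2 := by
          rw [h6]
          field_simp
      _ ≤ _ := by linarith

end NB
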