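import Pool.Agent.NB.H0
/-!
G1. Repelling fixed points of the lift.  Fixed points `(x, y, t)` of `ev 2 (fc c)`: `y ∈ {0, 1}`.  If `y = 0` the
derivative has the eigenvalue `0` (its second row vanishes).  If `y = 1`, then `x` is one of the two roots
of `1000 x² - x - 1000 = 0` and `t² - t + 50 (x - 1) + c = 0`; the derivative
`(2000 x, -2000 y, 0; 0, 2 y, 0; 50 y, 50 x + 2 (c - 50) y, 2 t)` has the eigenvalues `2000 x`, `2`, `2 t`.
For `c = 12` all four points are repelling (`‖t‖² = 12.02..`, `t = 9.89..`, `t = -8.89..`).  For `c = 0` and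
the root `x = 1.0005..` one of the two values of `t` is `0.0257..`, so at most three are repelling.
-/
open Set Metric Filter Topology
open SkewBif
namespace NB

/-- The derivative of the lift. -/
noncomputable def G1_D (c : ℂ) (u : Fin 3 → ℂ) : (Fin 3 → ℂ) →L[ℂ] (Fin 3 → ℂ) :=
  ContinuousLinearMap.pi ![
    (2000 * u 0) • ContinuousLinearMap.proj 0 + (-2000 * u 1) • ContinuousLinearMap.proj 1,
    (2 * u 1) • ContinuousLinearMap.proj 1,
    (50 * u 1) • ContinuousLinearMap.proj 0 + (50 * u 0 + 2 * (c - 50) * u 1) • ContinuousLinearMap.proj 1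
      + (2 * u 2) • ContinuousLinearMap.proj 2]

lemma G1_hasFDerivAt (c : ℂ) (u : Fin 3 → ℂ) : HasFDerivAt (ev 2 (fc c)) (G1_D c u) u := by
  have h0 : ev 2 (fc c) = fun u => ![1000 * (u 0 ^ 2 - u 1 ^ 2), u 1 ^ 2,
      u 2 ^ 2 + 50 * u 0 * u 1 + (c - 50) * u 1 ^ 2] := funext fun u => ev_fc c u
  rw [h0, hasFDerivAt_pi']
  have hp : ∀ i : Fin 3, HasFDerivAt (fun u : Fin 3 → ℂ => u i)
      (ContinuousLinearMap.proj (R := ℂ) (φ := fun _ : Fin 3 => ℂ) i) u := fun i =>
    (ContinuousLinearMap.proj (R := ℂ) (φ := fun _ : Fin 3 => ℂ) i).hasFDerivAt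
  intro i
  fin_cases i
  · have h1 := (((hp 0).pow 2).sub ((hp 1).pow 2)).const_mul (1000 : ℂ)
    refine h1.congr_fderiv ?_
    ext e
    simp [G1_D]
    ring
  · have h1 := (hp 1).pow 2
    refine h1.congr_fderiv ?_
    ext e
    simp [G1_D]
  · have h1 := (((hp 2).pow 2).add (((hp 0).const_mul (50 : ℂ)).mul (hp 1))).add
      (((hp 1).pow 2).const_mul (c - 50))
    refine h1.congr_fderiv ?_
    ext e
    simp [G1_D]
    ring

lemma G1_apply (c : ℂ) (u e : Fin 3 → ℂ) : G1_D c u e = ![2000 * u 0 * e 0 - 2000 * u 1 * e 1,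
    2 * u 1 * e 1, 50 * u 1 * e 0 + (50 * u 0 + 2 * (c - 50) * u 1) * e 1 + 2 * u 2 * e 2] := by
  ext i
  fin_cases i
  · simp [G1_D]; ring
  · simp [G1_D]
  · simp [G1_D]

lemma G1_fderiv (c : ℂ) (u : Fin 3 → ℂ) :
    fderiv ℂ ((ev 2 (fc c))^[1]) u = G1_D c u := by
  rw [Function.iterate_one]
  exact (G1_hasFDerivAt c u).fderiv

lemma G1_eig (c : ℂ) (u : Fin 3 → ℂ) {μ : ℂ} {e : Fin 3 → ℂ} (he : e ≠ 0)
    (h : G1_D c u e = μ • e) : Module.End.HasEigenvalue
      (fderiv ℂ ((ev 2 (fc c))^[1]) u : (Fin 3 → ℂ) →ₗ[ℂ] (Fin 3 → ℂ)) μ := by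
  refine Module.End.hasEigenvalue_of_hasEigenvector (x := e) ⟨?_, he⟩
  rw [Module.End.mem_eigenspace_iff, G1_fderiv]
  exact h

/-- sufficient condition for a repelling fixed point -/
lemma G1_rep {c x t : ℂ} (hx : 1000 * x ^ 2 - x - 1000 = 0)
    (ht : t ^ 2 - t + 50 * (x - 1) + c = 0) (h1 : 1 < ‖2000 * x‖) (h2 : 1 < ‖2 * t‖) :
    (![x, 1, t] : Fin 3 → ℂ) ≠ 0 ∧ RepPer 2 (fc c) 1 ![x, 1, t] := by
  refine ⟨fun h => ?_, ?_, fun μ hμ => ?_⟩
  · have := congrFun h 1
    simp at this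
  · rw [Function.iterate_one, ev_fc]
    ext i
    fin_cases i
    · simp
      linear_combination hx
    · simp
    · simp
      linear_combination ht
  · obtain ⟨e, he1, he2⟩ := hμ.exists_hasEigenvector
    rw [Module.End.mem_eigenspace_iff, G1_fderiv] at he1
    have h3 : G1_D c ![x, 1, t] e = μ • e := he1
    rw [G1_apply] at h3
    have e0 := congrFun h3 0
    have e1 := congrFun h3 1
    have e2 := congrFun h3 2
    simp at e0 e1 e2
    by_cases k1 : e 1 = 0
    · by_cases k0 : e 0 = 0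
      · have k2 : e 2 ≠ 0 := by
          intro k2
          apply he2
          ext i
          fin_cases i
          · exact k0
          · exact k1
          · exact k2
        rw [k0, k1] at e2
        have h4 : μ = 2 * t := by
          apply mul_right_cancel₀ k2
          linear_combination -e2
        rw [h4]; exact h2
      · rw [k1] at e0
        have h4 : μ = 2000 * x := by
          apply mul_right_cancel₀ k0
          linear_combination -e0
        rw [h4]; exact h1
    · have h4 : μ = 2 := by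
        rcases e1 with e1 | e1
        · exact e1.symm
        · exact absurd e1 k1
      rw [h4]
      norm_num

/-- necessary conditions for a repelling fixed point -/
lemma G1_nec {c : ℂ} {u : Fin 3 → ℂ} (h : RepPer 2 (fc c) 1 u) :
    u = ![u 0, 1, u 2] ∧ 1000 * u 0 ^ 2 - u 0 - 1000 = 0 ∧
      u 2 ^ 2 - u 2 + 50 * (u 0 - 1) + c = 0 ∧ 1 < ‖2 * u 2‖ := by
  obtain ⟨h1, h2⟩ := h
  rw [Function.iterate_one, ev_fc] at h1
  have e0 := congrFun h1 0
  have e1 := congrFun h1 1
  have e2 := congrFun h1 2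
  simp at e0 e1 e2
  have k1 : u 1 = 1 := by
    by_contra k1
    have k0 : u 1 = 0 := by
      have h3 : u 1 * (u 1 - 1) = 0 := by linear_combination e1
      rcases mul_eq_zero.1 h3 with h4 | h4
      · exact h4
      · exact absurd (sub_eq_zero.1 h4) k1
    have h3 : ∃ e : Fin 3 → ℂ, e ≠ 0 ∧ G1_D c u e = (0 : ℂ) • e := by
      by_cases k2 : u 0 = 0
      · refine ⟨![1, 0, 0], fun h => ?_, ?_⟩
        · have := congrFun h 0
          simp at this
        · rw [G1_apply, k0, k2]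
          ext i
          fin_cases i <;> simp
      · refine ⟨![0, 2 * u 2, -50 * u 0], fun h => ?_, ?_⟩
        · have := congrFun h 2
          simp at this
          exact k2 this
        · rw [G1_apply, k0]
          ext i
          fin_cases i
          · simp
          · simp
          · simp
            ring
    obtain ⟨e, he1, he2⟩ := h3
    have h4 := h2 0 (G1_eig c u he1 he2)
    rw [norm_zero] at h4
    linarith
  rw [k1] at e0 e2
  refine ⟨?_, ?_, ?_, ?_⟩
  · ext i
    fin_cases i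
    · simp
    · simp [k1]
    · simp
  · linear_combination e0
  · linear_combination e2
  · refine h2 _ (G1_eig c u (e := ![0, 0, 1]) (fun h => ?_) ?_)
    · have := congrFun h 2
      simp at this
    · rw [G1_apply]
      ext i
      fin_cases i <;> simp

theorem four12 : ∃ S : Finset (Fin 3 → ℂ), S.card = 4 ∧
    ∀ u ∈ S, u ≠ 0 ∧ RepPer 2 (fc 12) 1 u := by
  set s := Real.sqrt 4000001 with hs
  have hs2 : s ^ 2 = 4000001 := Real.sq_sqrt (by norm_num)
  have hs1 : 2000 < s := by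
    rw [hs]; exact Real.lt_sqrt_of_sq_lt (by norm_num)
  have hs3 : s < 2001 := by
    rw [hs, Real.sqrt_lt' (by norm_num)]; norm_num
  set a := (1 + s) / 2000 with ha
  set b := (1 - s) / 2000 with hb
  have ha2 : 1000 * a ^ 2 - a - 1000 = 0 := by
    rw [ha]; ring_nf; rw [hs2]; norm_num
  have hb2 : 1000 * b ^ 2 - b - 1000 = 0 := by
    rw [hb]; ring_nf; rw [hs2]; norm_num
  set p := 4 * (50 * (a - 1) + 12) - 1 with hp
  set q := 1 - 4 * (50 * (b - 1) + 12) with hq
  have hpos : 4 < p := by rw [hp, ha]; linarith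
  have hqos : 16 < q := by rw [hq, hb]; linarith
  set r := Real.sqrt p with hr
  set r' := Real.sqrt q with hr'
  have hr2 : r ^ 2 = p := Real.sq_sqrt (by linarith)
  have hr'2 : r' ^ 2 = q := Real.sq_sqrt (by linarith)
  have hr1 : 2 < r := by rw [hr]; exact Real.lt_sqrt_of_sq_lt (by linarith)
  have hr'1 : 4 < r' := by rw [hr']; exact Real.lt_sqrt_of_sq_lt (by linarith)
  have hac : (1000 : ℂ) * (a : ℂ) ^ 2 - a - 1000 = 0 := by exact_mod_cast ha2
  have hbc : (1000 : ℂ) * (b : ℂ) ^ 2 - b - 1000 = 0 := by exact_mod_cast hb2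
  have hr2c : (r : ℂ) ^ 2 = 4 * (50 * ((a : ℂ) - 1) + 12) - 1 := by
    have : ((r ^ 2 : ℝ) : ℂ) = ((4 * (50 * (a - 1) + 12) - 1 : ℝ) : ℂ) := by rw [hr2]
    push_cast at this
    exact this
  have hr'2c : (r' : ℂ) ^ 2 = 1 - 4 * (50 * ((b : ℂ) - 1) + 12) := by
    have : ((r' ^ 2 : ℝ) : ℂ) = ((1 - 4 * (50 * (b - 1) + 12) : ℝ) : ℂ) := by rw [hr'2]
    push_cast at this
    exact this
  have hna : 1 < ‖(2000 : ℂ) * (a : ℂ)‖ := by
    have e : (2000 : ℂ) * (a : ℂ) = ((2000 * a : ℝ) : ℂ) := by push_cast; ring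
    rw [e, Complex.norm_real, Real.norm_eq_abs, lt_abs]
    left; rw [ha]; linarith
  have hnb : 1 < ‖(2000 : ℂ) * (b : ℂ)‖ := by
    have e : (2000 : ℂ) * (b : ℂ) = ((2000 * b : ℝ) : ℂ) := by push_cast; ring
    rw [e, Complex.norm_real, Real.norm_eq_abs, lt_abs]
    right; rw [hb]; linarith
  have k1 := G1_rep (c := 12) (x := a) (t := (1 + r * Complex.I) / 2) hac (by
      linear_combination (-1 / 4 : ℂ) * hr2c + (r : ℂ) ^ 2 / 4 * Complex.I_sq) hna (by
      have h1 := Complex.abs_im_le_norm (2 * ((1 + (r : ℂ) * Complex.I) / 2))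
      have h2 : (2 * ((1 + (r : ℂ) * Complex.I) / 2)).im = r := by
        rw [mul_div_cancel₀ _ (two_ne_zero : (2 : ℂ) ≠ 0)]; simp
      rw [h2, abs_of_pos (by linarith)] at h1
      linarith)
  have k2 := G1_rep (c := 12) (x := a) (t := (1 - r * Complex.I) / 2) hac (by
      linear_combination (-1 / 4 : ℂ) * hr2c + (r : ℂ) ^ 2 / 4 * Complex.I_sq) hna (by
      have h1 := Complex.abs_im_le_norm (2 * ((1 - (r : ℂ) * Complex.I) / 2))
      have h2 : (2 * ((1 - (r : ℂ) * Complex.I) / 2)).im = -r := by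
        rw [mul_div_cancel₀ _ (two_ne_zero : (2 : ℂ) ≠ 0)]; simp
      rw [h2, abs_neg, abs_of_pos (by linarith)] at h1
      linarith)
  have k3 := G1_rep (c := 12) (x := b) (t := (1 + r') / 2) hbc (by
      linear_combination (1 / 4 : ℂ) * hr'2c) hnb (by
      have e : (2 : ℂ) * ((1 + (r' : ℂ)) / 2) = ((1 + r' : ℝ) : ℂ) := by push_cast; ring
      rw [e, Complex.norm_real, Real.norm_eq_abs, lt_abs]
      left; linarith)
  have k4 := G1_rep (c := 12) (x := b) (t := (1 - r') / 2) hbc (by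
      linear_combination (1 / 4 : ℂ) * hr'2c) hnb (by
      have e : (2 : ℂ) * ((1 - (r' : ℂ)) / 2) = ((1 - r' : ℝ) : ℂ) := by push_cast; ring
      rw [e, Complex.norm_real, Real.norm_eq_abs, lt_abs]
      right; linarith)
  have hab : (a : ℂ) ≠ b := by
    have : a ≠ b := by rw [ha, hb]; intro h; linarith
    exact_mod_cast this
  have hrc : (r : ℂ) ≠ 0 := by
    have : r ≠ 0 := by linarith
    exact_mod_cast this
  have hrc' : (r' : ℂ) ≠ 0 := by
    have : r' ≠ 0 := by linarith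
    exact_mod_cast this
  refine ⟨{![(a : ℂ), 1, (1 + r * Complex.I) / 2], ![(a : ℂ), 1, (1 - r * Complex.I) / 2],
    ![(b : ℂ), 1, (1 + r') / 2], ![(b : ℂ), 1, (1 - r') / 2]}, ?_, ?_⟩
  · have m1 : ∀ t t' : ℂ, (![(a : ℂ), 1, t] : Fin 3 → ℂ) ≠ ![(b : ℂ), 1, t'] := by
      intro t t' h
      exact hab (congrFun h 0)
    have m2 : (![(a : ℂ), 1, (1 + r * Complex.I) / 2] : Fin 3 → ℂ)
        ≠ ![(a : ℂ), 1, (1 - r * Complex.I) / 2] := by
      intro h
      have h1 : (1 + (r : ℂ) * Complex.I) / 2 = (1 - r * Complex.I) / 2 := congrFun h 2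
      have h2 : (r : ℂ) * Complex.I = 0 := by linear_combination h1
      exact mul_ne_zero hrc Complex.I_ne_zero h2
    have m3 : (![(b : ℂ), 1, (1 + r') / 2] : Fin 3 → ℂ) ≠ ![(b : ℂ), 1, (1 - r') / 2] := by
      intro h
      have h1 : (1 + (r' : ℂ)) / 2 = (1 - r') / 2 := congrFun h 2
      have h2 : (r' : ℂ) = 0 := by linear_combination h1
      exact hrc' h2
    rw [Finset.card_insert_of_notMem, Finset.card_insert_of_notMem, Finset.card_insert_of_notMem,
      Finset.card_singleton]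
    · simp only [Finset.mem_singleton]
      exact m3
    · simp only [Finset.mem_insert, Finset.mem_singleton, not_or]
      exact ⟨m1 _ _, m1 _ _⟩
    · simp only [Finset.mem_insert, Finset.mem_singleton, not_or]
      exact ⟨m2, m1 _ _, m1 _ _⟩
  · intro u hu
    simp only [Finset.mem_insert, Finset.mem_singleton] at hu
    rcases hu with h | h | h | h <;> rw [h]
    · exact k1
    · exact k2
    · exact k3
    · exact k4

theorem three0 (S : Finset (Fin 3 → ℂ)) (hS : ∀ u ∈ S, u ≠ 0 ∧ RepPer 2 (fc 0) 1 u) :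
    S.card ≤ 3 := by
  set s := Real.sqrt 4000001 with hs
  have hs2 : s ^ 2 = 4000001 := Real.sq_sqrt (by norm_num)
  have hs1 : 2000 < s := by
    rw [hs]; exact Real.lt_sqrt_of_sq_lt (by norm_num)
  have hs3 : s < 2001 := by
    rw [hs, Real.sqrt_lt' (by norm_num)]; norm_num
  set a := (1 + s) / 2000 with ha
  set b := (1 - s) / 2000 with hb
  set p := 1 - 4 * (50 * (a - 1)) with hp
  set q := 1 - 4 * (50 * (b - 1)) with hq
  have hpos : 0 < p := by rw [hp, ha]; linarith
  have hp1 : p < 1 := by rw [hp, ha]; linarith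
  have hqos : 16 < q := by rw [hq, hb]; linarith
  set r := Real.sqrt p with hr
  set r' := Real.sqrt q with hr'
  have hr2 : r ^ 2 = p := Real.sq_sqrt (by linarith)
  have hr'2 : r' ^ 2 = q := Real.sq_sqrt (by linarith)
  have hr0 : 0 < r := Real.sqrt_pos.2 hpos
  have hr1 : r < 1 := by rw [hr, Real.sqrt_lt' one_pos]; linarith
  have hr2c : (r : ℂ) ^ 2 = 1 - 4 * (50 * ((a : ℂ) - 1)) := by
    have : ((r ^ 2 : ℝ) : ℂ) = ((1 - 4 * (50 * (a - 1)) : ℝ) : ℂ) := by rw [hr2]
    push_cast at this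
    exact this
  have hr'2c : (r' : ℂ) ^ 2 = 1 - 4 * (50 * ((b : ℂ) - 1)) := by
    have : ((r' ^ 2 : ℝ) : ℂ) = ((1 - 4 * (50 * (b - 1)) : ℝ) : ℂ) := by rw [hr'2]
    push_cast at this
    exact this
  have hsc : (s : ℂ) ^ 2 = 4000001 := by exact_mod_cast hs2
  have hac : (a : ℂ) = (1 + s) / 2000 := by rw [ha]; push_cast; ring
  have hbc : (b : ℂ) = (1 - s) / 2000 := by rw [hb]; push_cast; ring
  have hsub : S ⊆ {![(a : ℂ), 1, (1 + r) / 2], ![(b : ℂ), 1, (1 + r') / 2],
      ![(b : ℂ), 1, (1 - r') / 2]} := by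
    intro u hu
    obtain ⟨h1, h2, h3, h4⟩ := G1_nec (hS u hu).2
    simp only [Finset.mem_insert, Finset.mem_singleton]
    have h5 : (u 0 - a) * (u 0 - b) = 0 := by
      rw [hac, hbc]
      linear_combination (1 / 1000 : ℂ) * h2 - (1 / 4000000 : ℂ) * hsc
    rcases mul_eq_zero.1 h5 with h6 | h6
    · left
      have h7 : u 0 = a := sub_eq_zero.1 h6
      rw [h7] at h3
      have h8 : (u 2 - (1 + r) / 2) * (u 2 - (1 - r) / 2) = 0 := by
        linear_combination h3 - (1 / 4 : ℂ) * hr2c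
      rcases mul_eq_zero.1 h8 with h9 | h9
      · rw [h1, h7, sub_eq_zero.1 h9]
      · exfalso
        rw [sub_eq_zero.1 h9] at h4
        have e : (2 : ℂ) * ((1 - (r : ℂ)) / 2) = ((1 - r : ℝ) : ℂ) := by push_cast; ring
        rw [e, Complex.norm_real, Real.norm_eq_abs, abs_of_pos (by linarith)] at h4
        linarith
    · right
      have h7 : u 0 = b := sub_eq_zero.1 h6
      rw [h7] at h3
      have h8 : (u 2 - (1 + r') / 2) * (u 2 - (1 - r') / 2) = 0 := by
        linear_combination h3 - (1 / 4 : ℂ) * hr'2c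
      rcases mul_eq_zero.1 h8 with h9 | h9
      · left
        rw [h1, h7, sub_eq_zero.1 h9]
      · right
        rw [h1, h7, sub_eq_zero.1 h9]
  exact (Finset.card_le_card hsub).trans Finset.card_le_three

end NB
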