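import Pool.Agent.NB.CL
import Pool.Agent.NB.E9b
import Pool.Agent.NB.F1
import Pool.Agent.NB.G1
/-!
G2. If all maps `f_c`, `c ∈ [0, 12]`, were stable (in the class `J`), the number of repelling fixed points
in `J` would not change along the path.
Let `H c` mean: there are four different nonzero `u ∈ J (fc c)` with `RepPer 2 (fc c) 1 u`.  `H 12` holds and `H 0`
does not (`three0`).  `{c ∈ [0, 12] | H c}` is open in `[0, 12]`: the four sections through the points remain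
different nearby.  It is closed: let `c_j → c₀`, `H c_j`, and let `B ∋ fc c₀` be given by `StabOn J (fc c₀)`; for large
`j` the path between `c_j` and `c₀` is in `B`; the four sections through the points at `c_j` are pairwise
different along this segment by `section_inj` (with `B` replaced by the segment of the path, a
preconnected set, `Sec` only asks for continuity), so `H c₀`.
-/
open Set Metric Filter Topology
open SkewBif
namespace NB

/-- four repelling fixed points in the class -/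
def G2_H (J : Coef 2 → Set (Fin 3 → ℂ)) (c : ℝ) : Prop :=
  ∃ S : Finset (Fin 3 → ℂ), S.card = 4 ∧
    ∀ u ∈ S, u ≠ 0 ∧ RepPer 2 (fc (c : ℂ)) 1 u ∧ u ∈ J (fc (c : ℂ))

theorem G2_cont : Continuous (fun c : ℝ => fc (c : ℂ)) :=
  continuous_fc.comp Complex.continuous_ofReal

theorem G2_step (J : Coef 2 → Set (Fin 3 → ℂ)) {B : Set (Coef 2)}
    (hB : ∀ n : ℕ, 1 ≤ n → ∀ F₁ ∈ B, ∀ u₁ : Fin 3 → ℂ, u₁ ≠ 0 → RepPer 2 F₁ n u₁ → u₁ ∈ J F₁ →
      ∃ u : Coef 2 → (Fin 3 → ℂ), DifferentiableOn ℂ u B ∧ u F₁ = u₁ ∧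
        ∀ F ∈ B, u F ≠ 0 ∧ RepPer 2 F n (u F) ∧ u F ∈ J F)
    {c c' : ℝ} (hc : ∀ x ∈ uIcc c c', fc (x : ℂ) ∈ B) (h : G2_H J c) : G2_H J c' := by
  classical
  obtain ⟨S, hS4, hS⟩ := h
  set P : Set (Coef 2) := (fun x : ℝ => fc (x : ℂ)) '' uIcc c c' with hP
  have hPB : P ⊆ B := by
    rintro _ ⟨x, hx, rfl⟩
    exact hc x hx
  have hPp : IsPreconnected P := isPreconnected_uIcc.image _ G2_cont.continuousOn
  have hcP : fc (c : ℂ) ∈ P := ⟨c, left_mem_uIcc, rfl⟩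
  have hc'P : fc (c' : ℂ) ∈ P := ⟨c', right_mem_uIcc, rfl⟩
  choose! u hud hu1 hu using
    fun (u₁ : Fin 3 → ℂ) (h1 : u₁ ∈ S) => hB 1 le_rfl (fc (c : ℂ)) (hPB hcP) u₁ (hS u₁ h1).1
      (hS u₁ h1).2.1 (hS u₁ h1).2.2
  have hsec : ∀ u₁ ∈ S, Sec P 1 (u u₁) := fun u₁ h1 =>
    ⟨(hud u₁ h1).continuousOn.mono hPB, fun F hF => ⟨(hu u₁ h1 F (hPB hF)).1,
      (hu u₁ h1 F (hPB hF)).2.1⟩⟩
  refine ⟨S.image (fun u₁ => u u₁ (fc (c' : ℂ))), ?_, ?_⟩
  · rw [Finset.card_image_of_injOn, hS4]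
    intro u₁ h1 u₂ h2 heq
    have h3 := section_inj hPp (hsec u₁ h1) (hsec u₂ h2) hc'P heq (fc (c : ℂ)) hcP
    rw [hu1 u₁ h1, hu1 u₂ h2] at h3
    exact h3
  · intro w hw
    obtain ⟨u₁, h1, rfl⟩ := Finset.mem_image.1 hw
    exact hu u₁ h1 _ (hPB hc'P)

theorem path_arg (J : Coef 2 → Set (Fin 3 → ℂ))
    (hJ : ∀ u : Fin 3 → ℂ, u ≠ 0 → RepPer 2 (fc 12) 1 u → u ∈ J (fc 12)) :
    ∃ c : ℝ, c ∈ Icc (0 : ℝ) 12 ∧ ¬ StabOn J (fc (c : ℂ)) := by
  by_contra hcon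
  push Not at hcon
  have hloc : IsLocallyConstant (fun c : Icc (0 : ℝ) 12 => G2_H J c.1) := by
    rw [IsLocallyConstant.iff_eventually_eq]
    rintro ⟨c₀, hc₀⟩
    obtain ⟨B, hBo, hB0, -, hB⟩ := hcon c₀ hc₀
    have h1 : ∀ᶠ x in 𝓝 c₀, fc ((x : ℝ) : ℂ) ∈ B :=
      (G2_cont.tendsto c₀).eventually (hBo.mem_nhds hB0)
    obtain ⟨δ, hδ, h2⟩ := Metric.eventually_nhds_iff_ball.1 h1
    have h3 : ∀ᶠ x : Icc (0 : ℝ) 12 in 𝓝 ⟨c₀, hc₀⟩, x.1 ∈ ball c₀ δ :=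
      (continuous_subtype_val.tendsto _).eventually (ball_mem_nhds c₀ hδ)
    filter_upwards [h3] with x hx
    have hsub : ∀ y ∈ uIcc x.1 c₀, fc ((y : ℝ) : ℂ) ∈ B := by
      intro y hy
      apply h2
      have hconv : Convex ℝ (ball c₀ δ) := convex_ball c₀ δ
      have h4 : segment ℝ x.1 c₀ ⊆ ball c₀ δ := hconv.segment_subset hx (mem_ball_self hδ)
      rw [segment_eq_uIcc] at h4
      exact h4 hy
    have hsub' : ∀ y ∈ uIcc c₀ x.1, fc ((y : ℝ) : ℂ) ∈ B := by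
      intro y hy
      rw [uIcc_comm] at hy
      exact hsub y hy
    exact propext ⟨G2_step J hB hsub, G2_step J hB hsub'⟩
  have h0m : (0 : ℝ) ∈ Icc (0 : ℝ) 12 := ⟨le_rfl, by norm_num⟩
  have h12m : (12 : ℝ) ∈ Icc (0 : ℝ) 12 := ⟨by norm_num, le_rfl⟩
  have hps : PreconnectedSpace (Icc (0 : ℝ) 12) := Subtype.preconnectedSpace isPreconnected_Icc
  have heq := hloc.apply_eq_of_preconnectedSpace (⟨12, h12m⟩ : Icc (0 : ℝ) 12) ⟨0, h0m⟩
  have h12 : G2_H J 12 := by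
    obtain ⟨S, hS4, hS⟩ := four12
    refine ⟨S, hS4, fun u hu => ?_⟩
    have e : ((12 : ℝ) : ℂ) = 12 := by norm_num
    rw [e]
    exact ⟨(hS u hu).1, (hS u hu).2, hJ u (hS u hu).1 (hS u hu).2⟩
  have h0 : G2_H J 0 := by
    have := heq ▸ h12
    exact this
  obtain ⟨S, hS4, hS⟩ := h0
  have h5 := three0 S (fun u hu => by
    have := hS u hu
    rw [Complex.ofReal_zero] at this
    exact ⟨this.1, this.2.1⟩)
  omega

end NB
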