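import Pool.Agent.NB.Defs
/-!
H0. Evaluation of the maps `f_c`.
-/
open Set Metric Filter Topology
open SkewBif
namespace NB

theorem H0_sum (f : Mon 2 → ℂ) : ∑ m : Mon 2, f m =
    f ⟨(0, 0), by decide⟩ + f ⟨(0, 1), by decide⟩ + f ⟨(0, 2), by decide⟩ +
      f ⟨(1, 0), by decide⟩ + f ⟨(1, 1), by decide⟩ + f ⟨(2, 0), by decide⟩ := by
  have h : (Finset.univ : Finset (Mon 2)) = {⟨(0, 0), by decide⟩, ⟨(0, 1), by decide⟩,
      ⟨(0, 2), by decide⟩, ⟨(1, 0), by decide⟩, ⟨(1, 1), by decide⟩, ⟨(2, 0), by decide⟩} := by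
    decide
  rw [h, Finset.sum_insert (by decide), Finset.sum_insert (by decide),
    Finset.sum_insert (by decide), Finset.sum_insert (by decide), Finset.sum_insert (by decide),
    Finset.sum_singleton]
  ring

theorem ev_fc (c : ℂ) (u : Fin 3 → ℂ) :
    ev 2 (fc c) u = ![1000 * (u 0 ^ 2 - u 1 ^ 2), u 1 ^ 2,
      u 2 ^ 2 + 50 * u 0 * u 1 + (c - 50) * u 1 ^ 2] := by
  funext k
  fin_cases k
  · simp [ev, H0_sum, fc]
    ring
  · simp [ev, H0_sum, fc]
  · simp [ev, H0_sum, fc]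
    ring

theorem T_fc (c : ℂ) (v : X2) :
    T 2 (fc c) v = (1000 * (v.1 ^ 2 - 1), v.2 ^ 2 + 50 * (v.1 - 1) + c) := by
  unfold T
  rw [ev_fc]
  simp [chart, lift]
  ring

/-- The derivative of `f_c`. -/
theorem fderiv_T_fc (c : ℂ) (v e : X2) :
    fderiv ℂ (T 2 (fc c)) v e = (2000 * v.1 * e.1, 50 * e.1 + 2 * v.2 * e.2) := by
  have h0 : T 2 (fc c) = fun v : X2 => (1000 * (v.1 ^ 2 - 1), v.2 ^ 2 + 50 * (v.1 - 1) + c) := by
    funext v
    exact T_fc c v
  have h1 : HasFDerivAt (fun v : X2 => v.1) (ContinuousLinearMap.fst ℂ ℂ ℂ) v := hasFDerivAt_fst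
  have h2 : HasFDerivAt (fun v : X2 => v.2) (ContinuousLinearMap.snd ℂ ℂ ℂ) v := hasFDerivAt_snd
  have h3 := ((h1.pow 2).sub_const 1).const_mul 1000
  have h4 := ((h2.pow 2).add ((h1.sub_const 1).const_mul 50)).add_const c
  have h5 := h3.prodMk h4
  rw [h0]
  have h6 : fderiv ℂ (fun v : X2 => (1000 * (v.1 ^ 2 - 1), v.2 ^ 2 + 50 * (v.1 - 1) + c)) v = _ :=
    h5.fderiv
  rw [h6]
  simp
  constructor <;> ring

theorem nd_fc (c : ℂ) : Nondeg 2 (fc c) := by
  intro u hu h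
  apply hu
  rw [ev_fc] at h
  have h0 := congrFun h 0
  have h1 := congrFun h 1
  have h2 := congrFun h 2
  simp at h0 h1 h2
  have h3 : u 0 = 0 := by
    rw [h1] at h0
    simpa using h0
  have h4 : u 2 = 0 := by
    rw [h1] at h2
    simpa using h2
  funext k
  fin_cases k
  · exact h3
  · exact h1
  · exact h4

/-- The path `c ↦ f_c` is continuous. -/
theorem continuous_fc : Continuous fc := by
  refine continuous_pi fun k => continuous_pi fun m => ?_
  fin_cases k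
  · simp only [fc]
    exact continuous_const
  · simp only [fc]
    exact continuous_const
  · simp only [fc]
    show Continuous fun c : ℂ => if (m.1.2 : ℕ) = 2 then (1 : ℂ) else
      if (m.1.1 : ℕ) = 1 ∧ (m.1.2 : ℕ) = 0 then 50 else
      if (m.1.1 : ℕ) = 0 ∧ (m.1.2 : ℕ) = 0 then c - 50 else 0
    split_ifs <;> fun_prop

end NB
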