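import Mathlib
/-!
H1. Uniform closeness on a compact convex set (abstract): the derivative of `G` in the second variable is
continuous near `{a} × C`, so for `b` near `a` it differs by at most `ε` from the one at `a`, uniformly on
`C` (tube lemma); mean value inequality on `C`.
-/
open Set Metric Filter Topology
namespace NB

theorem unif_close {E V W : Type} [NormedAddCommGroup E] [NormedSpace ℂ E] [NormedAddCommGroup V]
    [NormedSpace ℂ V] [NormedAddCommGroup W] [NormedSpace ℂ W] (G : E × V → W) {C : Set V}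
    (hC : IsCompact C) (hCc : Convex ℝ C) {a : E} (hG : ∀ v ∈ C, ContDiffAt ℂ 1 G (a, v)) {ε : ℝ}
    (hε : 0 < ε) :
    ∀ᶠ b in 𝓝 a, ∀ v ∈ C, ‖G (b, v) - G (a, v)‖ ≤ ε ∧
      ∀ v' ∈ C, ‖(G (b, v) - G (a, v)) - (G (b, v') - G (a, v'))‖ ≤ ε * ‖v - v'‖ := by
  set A : E × V → V →L[ℂ] W := fun p => (fderiv ℂ G p).comp (ContinuousLinearMap.inr ℂ E V)
    with hA
  have hP : ∀ v ∈ C, ∀ᶠ p : E × V in 𝓝 (a, v), DifferentiableAt ℂ G (p.1, p.2) ∧
      ‖A (p.1, p.2) - A (a, p.2)‖ ≤ ε ∧ ‖G (p.1, p.2) - G (a, p.2)‖ ≤ ε := by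
    intro v hv
    have h1 : ∀ᶠ p : E × V in 𝓝 (a, v), ContDiffAt ℂ 1 G p :=
      (hG v hv).eventually (by simp)
    have hcf : ContinuousAt (fderiv ℂ G) (a, v) := by
      have h2 : ContDiffAt ℂ 0 (fderiv ℂ G) (a, v) := (hG v hv).fderiv_right (by simp)
      exact h2.continuousAt
    have hcA : ContinuousAt A (a, v) := by
      have h3 : Continuous fun L : (E × V) →L[ℂ] W => L.comp (ContinuousLinearMap.inr ℂ E V) :=
        ((ContinuousLinearMap.compL ℂ V (E × V) W).flip
          (ContinuousLinearMap.inr ℂ E V)).continuous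
      exact h3.continuousAt.comp hcf
    have hcG : ContinuousAt G (a, v) := (hG v hv).continuousAt
    have ht : Tendsto (fun p : E × V => (a, p.2)) (𝓝 (a, v)) (𝓝 (a, v)) := by
      have : Continuous fun p : E × V => (a, p.2) := by fun_prop
      exact this.tendsto (a, v)
    have hA2 : Tendsto (fun p : E × V => A (p.1, p.2) - A (a, p.2)) (𝓝 (a, v)) (𝓝 0) := by
      have := hcA.tendsto.sub (hcA.tendsto.comp ht)
      rw [sub_self] at this
      exact this
    have hG2 : Tendsto (fun p : E × V => G (p.1, p.2) - G (a, p.2)) (𝓝 (a, v)) (𝓝 0) := by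
      have := hcG.tendsto.sub (hcG.tendsto.comp ht)
      rw [sub_self] at this
      exact this
    filter_upwards [h1, Metric.tendsto_nhds.1 hA2 ε hε, Metric.tendsto_nhds.1 hG2 ε hε]
      with p h4 h5 h6
    rw [dist_zero_right] at h5 h6
    exact ⟨h4.differentiableAt (by simp), h5.le, h6.le⟩
  have hev := hC.eventually_forall_of_forall_eventually
    (P := fun (b : E) (v : V) => DifferentiableAt ℂ G (b, v) ∧
      ‖A (b, v) - A (a, v)‖ ≤ ε ∧ ‖G (b, v) - G (a, v)‖ ≤ ε) hP
  filter_upwards [hev] with b hb v hv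
  refine ⟨(hb v hv).2.2, fun v' hv' => ?_⟩
  have hd : ∀ x ∈ C, ∀ c : E, DifferentiableAt ℂ G (c, x) →
      HasFDerivWithinAt (fun v => G (c, v)) (A (c, x)) C x := by
    intro x _ c hc
    have h7 : HasFDerivAt (fun v : V => (c, v)) (ContinuousLinearMap.inr ℂ E V) x :=
      hasFDerivAt_prodMk_right c x
    exact (hc.hasFDerivAt.comp x h7).hasFDerivWithinAt
  have hda : ∀ x ∈ C, DifferentiableAt ℂ G (a, x) := fun x hx =>
    (hG x hx).differentiableAt (by simp)
  have h8 := hCc.norm_image_sub_le_of_norm_hasFDerivWithin_le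
    (f := fun v => G (b, v) - G (a, v)) (f' := fun v => A (b, v) - A (a, v)) (C := ε)
    (fun x hx => (hd x hx b (hb x hx).1).sub (hd x hx a (hda x hx)))
    (fun x hx => (hb x hx).2.1) hv' hv
  exact h8

end NB
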