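import Pool.Agent.NB.H0
import Pool.Agent.NB.H1
import Pool.Agent.NB.A6
/-!
H2. The maps close to `f_c`, `c ∈ [0, 12]`, satisfy the first seven conditions of `Adm`.
`close_nhds`: `unif_close` for `(F, v) ↦ T 2 F v` (`T_analytic`; `ev 2 (fc c) (lift v) 1 = 1`) on the two compact
convex boxes; the set where `ev 2 F (lift v) 1 ≠ 0` for all `v` in the boxes is a neighbourhood (compactness).
`basic_of_close`: with `ε = 1/100`; for `f_c`: `T₁(v) - T₁(v') - 2000 s Δz = 1000 (z + z' - 2 s) Δz`,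
`‖z + z' - 2 s‖ ≤ 1/250`; `‖w² - w'²‖ ≤ 24 ‖Δw‖`; `T₁(s, w) = 0`; for `‖w‖ ≥ 11`: `‖T₂‖ ≥ 121 - 100 - 1/10`;
for `s = 1`, `‖w‖ ≥ 49/10`: `‖T₂‖ ≥ 24.01 - 12 - 1/10`; for `s = -1`, `‖w‖ ≤ 87/10`:
`‖T₂‖ = ‖w² - (100 - c) + 50 (z + 1)‖ ≥ 88 - 75.69 - 1/10`.
-/
open Set Metric Filter Topology
open SkewBif
namespace NB

/-- `F` is `ε`-close to `f_c` on the boxes. -/
def Close (c : ℂ) (ε : ℝ) (F : Coef 2) : Prop :=
  ∀ s, Sgn s → ∀ v ∈ box s 12, ev 2 F (lift v) 1 ≠ 0 ∧ ‖T 2 F v - T 2 (fc c) v‖ ≤ ε ∧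
    ∀ v' ∈ box s 12,
      ‖(T 2 F v - T 2 (fc c) v) - (T 2 F v' - T 2 (fc c) v')‖ ≤ ε * ‖v - v'‖

theorem H2_ev_ne (c : ℂ) (v : X2) : ev 2 (fc c) (lift v) 1 ≠ 0 := by
  rw [ev_fc]
  change (1 : ℂ) ^ 2 ≠ 0
  norm_num

theorem H2_compact (s : ℂ) (ρ : ℝ) : IsCompact (box s ρ) :=
  (isCompact_closedBall _ _).prod (isCompact_closedBall _ _)

theorem H2_convex (s : ℂ) (ρ : ℝ) : Convex ℝ (box s ρ) :=
  (convex_closedBall _ _).prod (convex_closedBall _ _)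

theorem H2_ev_nhds (c s : ℂ) :
    ∀ᶠ F in 𝓝 (fc c), ∀ v ∈ box s 12, ev 2 F (lift v) 1 ≠ 0 := by
  refine (H2_compact s 12).eventually_forall_of_forall_eventually
    (P := fun F v => ev 2 F (lift v) 1 ≠ 0) fun v _ => ?_
  have hl : Continuous (fun q : Coef 2 × X2 => lift q.2) := by
    refine continuous_pi fun i => ?_
    fin_cases i
    · exact continuous_fst.comp continuous_snd
    · exact continuous_const
    · exact continuous_snd.comp continuous_snd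
  have hl' : ∀ i, Continuous (fun q : Coef 2 × X2 => lift q.2 i) := fun i =>
    (continuous_apply i).comp hl
  have hc : Continuous (fun q : Coef 2 × X2 => ev 2 q.1 (lift q.2) 1) := by
    unfold ev
    refine continuous_finsetSum _ fun m _ => ?_
    refine Continuous.mul ?_ ?_
    · exact (continuous_apply m).comp ((continuous_apply 1).comp continuous_fst)
    · exact (((hl' 0).pow _).mul ((hl' 1).pow _)).mul ((hl' 2).pow _)
  exact hc.continuousAt.eventually_ne (H2_ev_ne c v)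

theorem close_nhds (c : ℂ) {ε : ℝ} (hε : 0 < ε) : ∀ᶠ F in 𝓝 (fc c), Close c ε F := by
  have key : ∀ s : ℂ, ∀ᶠ F in 𝓝 (fc c), ∀ v ∈ box s 12, ‖T 2 F v - T 2 (fc c) v‖ ≤ ε ∧
      ∀ v' ∈ box s 12,
        ‖(T 2 F v - T 2 (fc c) v) - (T 2 F v' - T 2 (fc c) v')‖ ≤ ε * ‖v - v'‖ := fun s =>
    unif_close (fun q : Coef 2 × X2 => T 2 q.1 q.2) (H2_compact s 12) (H2_convex s 12)
      (a := fc c) (fun v _ => (T_analytic (H2_ev_ne c v)).contDiffAt) hε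
  filter_upwards [key 1, key (-1), H2_ev_nhds c 1, H2_ev_nhds c (-1)] with F h1 h2 h3 h4
  intro s hs v hv
  rcases hs with rfl | rfl
  · exact ⟨h3 v hv, h1 v hv⟩
  · exact ⟨h4 v hv, h2 v hv⟩

theorem H2_norm_le (p q : X2) : ‖p - q‖ ≤ ‖p.1 - q.1‖ + ‖p.2 - q.2‖ := by
  rw [Prod.norm_def]
  exact max_le_add_of_nonneg (norm_nonneg _) (norm_nonneg _)

theorem basic_of_close {c : ℝ} (hc : c ∈ Icc (0 : ℝ) 12) {F : Coef 2}
    (h : Close (c : ℂ) (1 / 100) F) :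
    (∀ s, Sgn s → ∀ v ∈ box s 12, ev 2 F (lift v) 1 ≠ 0) ∧
    (∀ s, Sgn s → ∀ v ∈ box s 12, ∀ v' ∈ box s 12,
      ‖(T 2 F v).1 - (T 2 F v').1 - 2000 * s * (v.1 - v'.1)‖ ≤
        100 * ‖v.1 - v'.1‖ + 1 / 10 * ‖v.2 - v'.2‖) ∧
    (∀ s, Sgn s → ∀ v ∈ box s 12, ∀ v' ∈ box s 12,
      ‖(T 2 F v).2 - (T 2 F v').2‖ ≤ 60 * ‖v.1 - v'.1‖ + 25 * ‖v.2 - v'.2‖) ∧
    (∀ s, Sgn s → ∀ w : ℂ, ‖w‖ ≤ 12 → ‖(T 2 F (s, w)).1‖ ≤ 1 / 10) ∧
    (∀ s, Sgn s → ∀ v ∈ box s 12, 11 ≤ ‖v.2‖ → 12 < ‖(T 2 F v).2‖) ∧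
    (∀ v ∈ box 1 12, 49 / 10 ≤ ‖v.2‖ → 11 < ‖(T 2 F v).2‖) ∧
    (∀ v ∈ box (-1) 12, ‖v.2‖ ≤ 87 / 10 → 11 < ‖(T 2 F v).2‖) := by
  have hz : ∀ {s : ℂ} {ρ : ℝ} {v : X2}, v ∈ box s ρ → ‖v.1 - s‖ ≤ 1 / 500 ∧ ‖v.2‖ ≤ ρ := by
    intro s ρ v hv
    exact ⟨mem_closedBall_iff_norm.1 hv.1, mem_closedBall_zero_iff.1 hv.2⟩
  have h2nd : ∀ {s : ℂ}, Sgn s → ∀ {v : X2}, v ∈ box s 12 →
      ‖v.2 ^ 2 + 50 * (v.1 - 1) + c‖ - 1 / 100 ≤ ‖(T 2 F v).2‖ := by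
    intro s hs v hv
    have h1 := (h s hs v hv).2.1
    have h2 := (norm_snd_le (T 2 F v - T 2 (fc c) v)).trans h1
    rw [Prod.snd_sub, T_fc] at h2
    have h3 := norm_sub_norm_le (v.2 ^ 2 + 50 * (v.1 - 1) + (c : ℂ)) (T 2 F v).2
    rw [norm_sub_rev] at h3
    have h4 : ‖(T 2 F v).2 - (v.2 ^ 2 + 50 * (v.1 - 1) + (c : ℂ))‖ ≤ 1 / 100 := h2
    linarith
  have hcn : ‖(c : ℂ)‖ ≤ 12 := by
    rw [Complex.norm_real, Real.norm_eq_abs, abs_of_nonneg hc.1]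
    exact hc.2
  refine ⟨fun s hs v hv => (h s hs v hv).1, ?_, ?_, ?_, ?_, ?_, ?_⟩
  · intro s hs v hv v' hv'
    have h1 := (h s hs v hv).2.2 v' hv'
    have h2 := (norm_fst_le _).trans h1
    have h3 := H2_norm_le v v'
    have h4 : ‖v.1 + v'.1 - 2 * s‖ ≤ 1 / 250 := by
      have e1 : v.1 + v'.1 - 2 * s = (v.1 - s) + (v'.1 - s) := by ring
      rw [e1]
      have := norm_add_le (v.1 - s) (v'.1 - s)
      have h5 := (hz hv).1
      have h6 := (hz hv').1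
      linarith
    have e2 : (T 2 F v).1 - (T 2 F v').1 - 2000 * s * (v.1 - v'.1) =
        ((T 2 F v - T 2 (fc c) v) - (T 2 F v' - T 2 (fc c) v')).1 +
          1000 * ((v.1 + v'.1 - 2 * s) * (v.1 - v'.1)) := by
      rw [T_fc, T_fc]
      simp only [Prod.fst_sub]
      ring
    rw [e2]
    have h7 := norm_add_le (((T 2 F v - T 2 (fc c) v) - (T 2 F v' - T 2 (fc c) v')).1)
      (1000 * ((v.1 + v'.1 - 2 * s) * (v.1 - v'.1)))
    have h8 : ‖(1000 : ℂ) * ((v.1 + v'.1 - 2 * s) * (v.1 - v'.1))‖ ≤ 4 * ‖v.1 - v'.1‖ := by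
      rw [norm_mul, norm_mul]
      have h9 : ‖(1000 : ℂ)‖ = 1000 := by norm_num
      rw [h9]
      have h10 := mul_le_mul_of_nonneg_right h4 (norm_nonneg (v.1 - v'.1))
      linarith
    have h11 := norm_nonneg (v.1 - v'.1)
    have h12 := norm_nonneg (v.2 - v'.2)
    linarith
  · intro s hs v hv v' hv'
    have h1 := (h s hs v hv).2.2 v' hv'
    have h2 := (norm_snd_le _).trans h1
    have h3 := H2_norm_le v v'
    have h4 : ‖v.2 + v'.2‖ ≤ 24 := by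
      have := norm_add_le v.2 v'.2
      have h5 := (hz hv).2
      have h6 := (hz hv').2
      linarith
    have e2 : (T 2 F v).2 - (T 2 F v').2 =
        ((T 2 F v - T 2 (fc c) v) - (T 2 F v' - T 2 (fc c) v')).2 +
          ((v.2 + v'.2) * (v.2 - v'.2) + 50 * (v.1 - v'.1)) := by
      rw [T_fc, T_fc]
      simp only [Prod.snd_sub]
      ring
    rw [e2]
    have h7 := norm_add_le (((T 2 F v - T 2 (fc c) v) - (T 2 F v' - T 2 (fc c) v')).2)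
      ((v.2 + v'.2) * (v.2 - v'.2) + 50 * (v.1 - v'.1))
    have h8 := norm_add_le ((v.2 + v'.2) * (v.2 - v'.2)) (50 * (v.1 - v'.1))
    have h9 : ‖(v.2 + v'.2) * (v.2 - v'.2)‖ ≤ 24 * ‖v.2 - v'.2‖ := by
      rw [norm_mul]
      exact mul_le_mul_of_nonneg_right h4 (norm_nonneg _)
    have h10 : ‖(50 : ℂ) * (v.1 - v'.1)‖ = 50 * ‖v.1 - v'.1‖ := by
      rw [norm_mul]
      norm_num
    have h11 := norm_nonneg (v.1 - v'.1)
    have h12 := norm_nonneg (v.2 - v'.2)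
    linarith
  · intro s hs w hw
    have hv : ((s, w) : X2) ∈ box s 12 := ⟨mem_closedBall_self (by norm_num),
      mem_closedBall_zero_iff.2 hw⟩
    have h1 := (norm_fst_le _).trans (h s hs (s, w) hv).2.1
    rw [T_fc, Prod.fst_sub] at h1
    have hs2 : s ^ 2 = 1 := by
      rcases hs with rfl | rfl <;> norm_num
    simp only [hs2, sub_self, mul_zero, sub_zero] at h1
    linarith
  · intro s hs v hv hw
    refine lt_of_lt_of_le ?_ (h2nd hs hv)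
    have hw2 : 121 ≤ ‖v.2 ^ 2‖ := by
      rw [norm_pow]
      nlinarith
    have hz1 := (hz hv).1
    have h50 : ‖(50 : ℂ) * (v.1 - s)‖ = 50 * ‖v.1 - s‖ := by
      rw [norm_mul]
      norm_num
    have hcs : ‖50 * (s - 1) + (c : ℂ)‖ ≤ 100 := by
      rcases hs with rfl | rfl
      · rw [sub_self, mul_zero, zero_add]
        linarith
      · have e1 : 50 * (-1 - 1) + (c : ℂ) = ((c - 100 : ℝ) : ℂ) := by
          push_cast
          ring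
        rw [e1, Complex.norm_real, Real.norm_eq_abs, abs_le]
        constructor <;> linarith [hc.1, hc.2]
    have e3 : v.2 ^ 2 = (v.2 ^ 2 + 50 * (v.1 - 1) + (c : ℂ)) -
        (50 * (v.1 - s) + (50 * (s - 1) + (c : ℂ))) := by ring
    have h5 := norm_sub_le (v.2 ^ 2 + 50 * (v.1 - 1) + (c : ℂ))
      (50 * (v.1 - s) + (50 * (s - 1) + (c : ℂ)))
    rw [← e3] at h5
    have h6 := norm_add_le (50 * (v.1 - s)) (50 * (s - 1) + (c : ℂ))
    linarith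
  · intro v hv hw
    refine lt_of_lt_of_le ?_ (h2nd (s := 1) (Or.inl rfl) hv)
    have hw2 : 24 ≤ ‖v.2 ^ 2‖ := by
      rw [norm_pow]
      nlinarith
    have hz1 := (hz hv).1
    have h50 : ‖(50 : ℂ) * (v.1 - 1)‖ = 50 * ‖v.1 - 1‖ := by
      rw [norm_mul]
      norm_num
    have e3 : v.2 ^ 2 = (v.2 ^ 2 + 50 * (v.1 - 1) + (c : ℂ)) -
        (50 * (v.1 - 1) + (c : ℂ)) := by ring
    have h5 := norm_sub_le (v.2 ^ 2 + 50 * (v.1 - 1) + (c : ℂ))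
      (50 * (v.1 - 1) + (c : ℂ))
    rw [← e3] at h5
    have h6 := norm_add_le (50 * (v.1 - 1)) (c : ℂ)
    linarith
  · intro v hv hw
    refine lt_of_lt_of_le ?_ (h2nd (s := -1) (Or.inr rfl) hv)
    have hw2 : ‖v.2 ^ 2‖ ≤ 76 := by
      rw [norm_pow]
      nlinarith [norm_nonneg v.2]
    have hz1 := (hz hv).1
    have h50 : ‖(50 : ℂ) * (v.1 - -1)‖ = 50 * ‖v.1 - -1‖ := by
      rw [norm_mul]
      norm_num
    have hcs : 88 ≤ ‖(100 : ℂ) - c‖ := by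
      have e1 : (100 : ℂ) - c = ((100 - c : ℝ) : ℂ) := by
        push_cast
        ring
      rw [e1, Complex.norm_real, Real.norm_eq_abs]
      refine le_trans ?_ (le_abs_self _)
      linarith [hc.2]
    have e3 : (100 : ℂ) - c = (v.2 ^ 2 + 50 * (v.1 - -1)) -
        (v.2 ^ 2 + 50 * (v.1 - 1) + (c : ℂ)) := by ring
    have h5 := norm_sub_le (v.2 ^ 2 + 50 * (v.1 - -1)) (v.2 ^ 2 + 50 * (v.1 - 1) + (c : ℂ))
    rw [← e3] at h5
    have h6 := norm_add_le (v.2 ^ 2) (50 * (v.1 - -1))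
    linarith

end NB
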