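import Pool.Agent.NB.H2
/-!
H3. The critical points of the maps close to `f_c`.
`jac F v` is the determinant of `fderiv (T F) v`; `Crit F v ↔ jac F v = 0`; for `f_c` it is `4000 z w`.
`crit_nhds`: `unif_close` for `(F, v) ↦ jac F v` on the boxes with `ε = 1`.  On `box (-1) 12` with `‖w‖ ≥ 8`:
`‖jac F v‖ ≥ 4000 * 0.99 * 8 - 1 > 0`.  On `box 1 12`, if `jac F v = jac F v' = 0`, then `‖w‖, ‖w'‖ ≤ 1/3000` and
`0 = Δ jac`, with `Δ(4000 z w) = 4000 (z' Δw + w Δz)`, so `3900 ‖Δw‖ ≤ 4 ‖Δz‖ + ‖Δz‖ + ‖Δw‖`.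
-/
open Set Metric Filter Topology
open SkewBif
namespace NB

/-- The Jacobian determinant of the chart map. -/
noncomputable def jac (F : Coef 2) (v : X2) : ℂ :=
  (fderiv ℂ (T 2 F) v (1, 0)).1 * (fderiv ℂ (T 2 F) v (0, 1)).2 -
    (fderiv ℂ (T 2 F) v (0, 1)).1 * (fderiv ℂ (T 2 F) v (1, 0)).2

theorem H3_apply (L : X2 →L[ℂ] X2) (e : X2) : L e = e.1 • L (1, 0) + e.2 • L (0, 1) := by
  rw [← map_smul, ← map_smul, ← map_add]
  congr 1
  ext <;> simp

theorem crit_iff (F : Coef 2) (v : X2) : Crit F v ↔ jac F v = 0 := by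
  unfold Crit jac
  set L := fderiv ℂ (T 2 F) v with hL
  constructor
  · rintro ⟨e, he, h⟩
    rw [H3_apply] at h
    have h1 : e.1 * (L (1, 0)).1 + e.2 * (L (0, 1)).1 = 0 := congrArg Prod.fst h
    have h2 : e.1 * (L (1, 0)).2 + e.2 * (L (0, 1)).2 = 0 := congrArg Prod.snd h
    have h3 : e.1 * ((L (1, 0)).1 * (L (0, 1)).2 - (L (0, 1)).1 * (L (1, 0)).2) = 0 := by
      linear_combination (L (0, 1)).2 * h1 - (L (0, 1)).1 * h2
    have h4 : e.2 * ((L (1, 0)).1 * (L (0, 1)).2 - (L (0, 1)).1 * (L (1, 0)).2) = 0 := by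
      linear_combination (L (1, 0)).1 * h2 - (L (1, 0)).2 * h1
    rcases mul_eq_zero.1 h3 with h5 | h5
    · rcases mul_eq_zero.1 h4 with h6 | h6
      · exact absurd (Prod.ext h5 h6) he
      · exact h6
    · exact h5
  · intro h
    by_cases h1 : (L (0, 1)).1 = 0 ∧ (L (1, 0)).1 = 0
    · by_cases h2 : (L (0, 1)).2 = 0 ∧ (L (1, 0)).2 = 0
      · refine ⟨(1, 0), ?_, Prod.ext h1.2 h2.2⟩
        intro h3
        exact one_ne_zero (congrArg Prod.fst h3)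
      · refine ⟨((L (0, 1)).2, -(L (1, 0)).2), ?_, ?_⟩
        · intro h3
          exact h2 ⟨congrArg Prod.fst h3, neg_eq_zero.1 (congrArg Prod.snd h3)⟩
        · rw [H3_apply]
          refine Prod.ext ?_ ?_
          · change (L (0, 1)).2 * (L (1, 0)).1 + -(L (1, 0)).2 * (L (0, 1)).1 = 0
            rw [h1.1, h1.2]
            ring
          · change (L (0, 1)).2 * (L (1, 0)).2 + -(L (1, 0)).2 * (L (0, 1)).2 = 0
            ring
    · refine ⟨((L (0, 1)).1, -(L (1, 0)).1), ?_, ?_⟩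
      · intro h3
        exact h1 ⟨congrArg Prod.fst h3, neg_eq_zero.1 (congrArg Prod.snd h3)⟩
      · rw [H3_apply]
        refine Prod.ext ?_ ?_
        · change (L (0, 1)).1 * (L (1, 0)).1 + -(L (1, 0)).1 * (L (0, 1)).1 = 0
          ring
        · change (L (0, 1)).1 * (L (1, 0)).2 + -(L (1, 0)).1 * (L (0, 1)).2 = 0
          linear_combination -h

theorem jac_fc (c : ℂ) (v : X2) : jac (fc c) v = 4000 * v.1 * v.2 := by
  unfold jac
  rw [fderiv_T_fc, fderiv_T_fc]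
  simp only
  ring

theorem H3_partial {F : Coef 2} {v : X2} (h : ev 2 F (lift v) 1 ≠ 0) (e : X2) :
    fderiv ℂ (T 2 F) v e = fderiv ℂ (fun q : Coef 2 × X2 => T 2 q.1 q.2) (F, v) (0, e) := by
  have h1 : DifferentiableAt ℂ (fun q : Coef 2 × X2 => T 2 q.1 q.2) (F, v) :=
    (T_analytic h).differentiableAt
  have h2 : HasFDerivAt (fun x : X2 => ((F, x) : Coef 2 × X2))
      (ContinuousLinearMap.inr ℂ (Coef 2) X2) v := hasFDerivAt_prodMk_right F v
  have h3 : HasFDerivAt (T 2 F)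
      ((fderiv ℂ (fun q : Coef 2 × X2 => T 2 q.1 q.2) (F, v)).comp
        (ContinuousLinearMap.inr ℂ (Coef 2) X2)) v := h1.hasFDerivAt.comp v h2
  rw [h3.fderiv]
  rfl

theorem H3_jac_contDiff (c : ℂ) (v : X2) :
    ContDiffAt ℂ 1 (fun q : Coef 2 × X2 => jac q.1 q.2) (fc c, v) := by
  have hl : Continuous (fun q : Coef 2 × X2 => lift q.2) := by
    refine continuous_pi fun i => ?_
    fin_cases i
    · exact continuous_fst.comp continuous_snd
    · exact continuous_const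
    · exact continuous_snd.comp continuous_snd
  have hl' : ∀ i, Continuous (fun q : Coef 2 × X2 => lift q.2 i) := fun i =>
    (continuous_apply i).comp hl
  have hc : Continuous (fun q : Coef 2 × X2 => ev 2 q.1 (lift q.2) 1) := by
    unfold ev
    refine continuous_finsetSum _ fun m _ => ?_
    refine Continuous.mul ?_ ?_
    · exact (continuous_apply m).comp ((continuous_apply 1).comp continuous_fst)
    · exact (((hl' 0).pow _).mul ((hl' 1).pow _)).mul ((hl' 2).pow _)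
  have hev : ∀ᶠ q : Coef 2 × X2 in 𝓝 (fc c, v), ev 2 q.1 (lift q.2) 1 ≠ 0 :=
    hc.continuousAt.eventually_ne (H2_ev_ne c v)
  have hD : AnalyticAt ℂ (fderiv ℂ (fun q : Coef 2 × X2 => T 2 q.1 q.2)) (fc c, v) :=
    (T_analytic (H2_ev_ne c v)).fderiv
  have hDe : ∀ e : X2, AnalyticAt ℂ (fun q : Coef 2 × X2 =>
      fderiv ℂ (fun q : Coef 2 × X2 => T 2 q.1 q.2) q (0, e)) (fc c, v) := fun e =>
    ((ContinuousLinearMap.apply ℂ X2 ((0, e) : Coef 2 × X2)).analyticAt _).comp hD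
  have h1 : ∀ e : X2, AnalyticAt ℂ (fun q : Coef 2 × X2 =>
      (fderiv ℂ (fun q : Coef 2 × X2 => T 2 q.1 q.2) q (0, e)).1) (fc c, v) := fun e =>
    ((ContinuousLinearMap.fst ℂ ℂ ℂ).analyticAt _).comp (hDe e)
  have h2 : ∀ e : X2, AnalyticAt ℂ (fun q : Coef 2 × X2 =>
      (fderiv ℂ (fun q : Coef 2 × X2 => T 2 q.1 q.2) q (0, e)).2) (fc c, v) := fun e =>
    ((ContinuousLinearMap.snd ℂ ℂ ℂ).analyticAt _).comp (hDe e)
  have h3 := ((h1 (1, 0)).mul (h2 (0, 1))).sub ((h1 (0, 1)).mul (h2 (1, 0)))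
  refine (h3.contDiffAt (n := 1)).congr_of_eventuallyEq ?_
  filter_upwards [hev] with q hq
  unfold jac
  rw [H3_partial hq, H3_partial hq]
  rfl

theorem crit_nhds (c : ℂ) : ∀ᶠ F in 𝓝 (fc c),
    (∀ v ∈ box 1 12, ∀ v' ∈ box 1 12, ‖v.2‖ ≤ 5 → ‖v'.2‖ ≤ 5 → Crit F v → Crit F v' →
      ‖v.2 - v'.2‖ ≤ ‖v.1 - v'.1‖) ∧
    (∀ v ∈ box (-1) 12, 8 ≤ ‖v.2‖ → ¬ Crit F v) := by
  have key : ∀ s : ℂ, ∀ᶠ F in 𝓝 (fc c), ∀ v ∈ box s 12, ‖jac F v - jac (fc c) v‖ ≤ 1 ∧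
      ∀ v' ∈ box s 12,
        ‖(jac F v - jac (fc c) v) - (jac F v' - jac (fc c) v')‖ ≤ 1 * ‖v - v'‖ := fun s =>
    unif_close (fun q : Coef 2 × X2 => jac q.1 q.2) (H2_compact s 12) (H2_convex s 12)
      (a := fc c) (fun v _ => H3_jac_contDiff c v) one_pos
  have hz : ∀ {s : ℂ} {v : X2}, ‖s‖ = 1 → v ∈ box s 12 → 499 / 500 ≤ ‖v.1‖ := by
    intro s v hs hv
    have h1 : ‖v.1 - s‖ ≤ 1 / 500 := mem_closedBall_iff_norm.1 hv.1
    have h2 := norm_sub_norm_le s v.1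
    rw [norm_sub_rev, hs] at h2
    linarith
  have h4000 : ‖(4000 : ℂ)‖ = 4000 := by norm_num
  filter_upwards [key 1, key (-1)] with F h1 h2
  constructor
  · intro v hv v' hv' _ _ hcr hcr'
    rw [crit_iff] at hcr hcr'
    have a1 := (h1 v hv).1
    have a2 := (h1 v hv).2 v' hv'
    rw [hcr, jac_fc, zero_sub, norm_neg, norm_mul, norm_mul, h4000] at a1
    rw [hcr, hcr', jac_fc, jac_fc] at a2
    have hz1 := hz norm_one hv
    have hz1' := hz norm_one hv'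
    have hw : ‖v.2‖ ≤ 1 / 3000 := by
      have h3 : 4000 * (499 / 500) * ‖v.2‖ ≤ 4000 * ‖v.1‖ * ‖v.2‖ :=
        mul_le_mul_of_nonneg_right (by linarith) (norm_nonneg _)
      linarith
    have e1 : 4000 * (v'.1 * (v.2 - v'.2)) = -((0 - 4000 * v.1 * v.2) - (0 - 4000 * v'.1 * v'.2)) -
        4000 * (v.2 * (v.1 - v'.1)) := by ring
    have h5 := norm_sub_le (-((0 - 4000 * v.1 * v.2) - (0 - 4000 * v'.1 * v'.2)))
      (4000 * (v.2 * (v.1 - v'.1)))
    rw [← e1, norm_neg, norm_mul, norm_mul, norm_mul, norm_mul, h4000] at h5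
    have h6 := H2_norm_le v v'
    have h7 : (499 / 500) * ‖v.2 - v'.2‖ ≤ ‖v'.1‖ * ‖v.2 - v'.2‖ :=
      mul_le_mul_of_nonneg_right hz1' (norm_nonneg _)
    have h8 : ‖v.2‖ * ‖v.1 - v'.1‖ ≤ 1 / 3000 * ‖v.1 - v'.1‖ :=
      mul_le_mul_of_nonneg_right hw (norm_nonneg _)
    have h9 := norm_nonneg (v.1 - v'.1)
    linarith
  · intro v hv hw hcr
    rw [crit_iff] at hcr
    have a1 := (h2 v hv).1
    rw [hcr, jac_fc, zero_sub, norm_neg, norm_mul, norm_mul, h4000] at a1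
    have hz1 := hz (by rw [norm_neg, norm_one]) hv
    have h3 : 4000 * (499 / 500) * 8 ≤ 4000 * ‖v.1‖ * ‖v.2‖ :=
      mul_le_mul (by linarith) hw (by norm_num) (by positivity)
    linarith

end NB
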