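import Pool.Agent.NB.H0
/-!
H4. Bounds for the lifts near `f_c`.
`ev_close`: the coefficients depend continuously on `F` and `ev`, `det` of the derivative are homogeneous of degree
`2`, `3` in `u`.  `growth_fc`: `f_c` is nondegenerate, compactness of the unit sphere, homogeneity; then
`ev_close` with `ε` half of the constant.
-/
open Set Metric Filter Topology
open SkewBif
namespace NB

/-- The determinant of the derivative of the lift. -/
noncomputable def det3 (F : Coef 2) (u : Fin 3 → ℂ) : ℂ :=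
  LinearMap.det (fderiv ℂ (ev 2 F) u : (Fin 3 → ℂ) →ₗ[ℂ] (Fin 3 → ℂ))

theorem H4_ev (F : Coef 2) (u : Fin 3 → ℂ) (k : Fin 3) : ev 2 F u k =
    F k ⟨(0, 0), by decide⟩ * (u 1 * u 1) + F k ⟨(0, 1), by decide⟩ * (u 1 * u 2) +
    F k ⟨(0, 2), by decide⟩ * (u 2 * u 2) + F k ⟨(1, 0), by decide⟩ * (u 0 * u 1) +
    F k ⟨(1, 1), by decide⟩ * (u 0 * u 2) + F k ⟨(2, 0), by decide⟩ * (u 0 * u 0) := by
  simp only [ev, H0_sum]
  simp
  ring

/-- The Jacobian matrix of the lift. -/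
noncomputable def H4_jac (F : Coef 2) (u : Fin 3 → ℂ) : Matrix (Fin 3) (Fin 3) ℂ :=
  fun k l => ![F k ⟨(1, 0), by decide⟩ * u 1 + F k ⟨(1, 1), by decide⟩ * u 2 +
      2 * F k ⟨(2, 0), by decide⟩ * u 0,
    2 * F k ⟨(0, 0), by decide⟩ * u 1 + F k ⟨(0, 1), by decide⟩ * u 2 +
      F k ⟨(1, 0), by decide⟩ * u 0,
    F k ⟨(0, 1), by decide⟩ * u 1 + 2 * F k ⟨(0, 2), by decide⟩ * u 2 +
      F k ⟨(1, 1), by decide⟩ * u 0] l

theorem H4_fderiv (F : Coef 2) (u : Fin 3 → ℂ) :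
    (fderiv ℂ (ev 2 F) u : (Fin 3 → ℂ) →ₗ[ℂ] (Fin 3 → ℂ)) = Matrix.toLin' (H4_jac F u) := by
  have p : ∀ i : Fin 3, HasFDerivAt (fun u : Fin 3 → ℂ => u i)
    (ContinuousLinearMap.proj (R := ℂ) i) u := fun i => hasFDerivAt_apply i u
  have h := fun k : Fin 3 =>
    ((((((((p 1).mul (p 1)).const_mul (F k ⟨(0, 0), by decide⟩)).add
      (((p 1).mul (p 2)).const_mul (F k ⟨(0, 1), by decide⟩))).add
      (((p 2).mul (p 2)).const_mul (F k ⟨(0, 2), by decide⟩))).add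
      (((p 0).mul (p 1)).const_mul (F k ⟨(1, 0), by decide⟩))).add
      (((p 0).mul (p 2)).const_mul (F k ⟨(1, 1), by decide⟩))).add
      (((p 0).mul (p 0)).const_mul (F k ⟨(2, 0), by decide⟩)))
  have h2 := hasFDerivAt_pi.2 h
  have h3 : ev 2 F = fun u k =>
    F k ⟨(0, 0), by decide⟩ * (u 1 * u 1) + F k ⟨(0, 1), by decide⟩ * (u 1 * u 2) +
    F k ⟨(0, 2), by decide⟩ * (u 2 * u 2) + F k ⟨(1, 0), by decide⟩ * (u 0 * u 1) +
    F k ⟨(1, 1), by decide⟩ * (u 0 * u 2) + F k ⟨(2, 0), by decide⟩ * (u 0 * u 0) := by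
    funext u k
    exact H4_ev F u k
  have h5 := (congrArg (fun f => fderiv ℂ f u) h3).trans h2.fderiv
  rw [h5]
  apply LinearMap.ext
  intro e
  funext k
  rw [Matrix.toLin'_apply, Matrix.mulVec, dotProduct, Fin.sum_univ_three]
  simp [H4_jac]
  ring

theorem H4_det (F : Coef 2) (u : Fin 3 → ℂ) : det3 F u = (H4_jac F u).det := by
  rw [det3, H4_fderiv, LinearMap.det_toLin']

theorem det3_fc (c : ℂ) (u : Fin 3 → ℂ) : det3 (fc c) u = 8000 * u 0 * u 1 * u 2 := by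
  rw [H4_det, Matrix.det_fin_three]
  simp [H4_jac, fc]
  ring

theorem H4_ev_smul (F : Coef 2) (s : ℂ) (u : Fin 3 → ℂ) : ev 2 F (s • u) = s ^ 2 • ev 2 F u := by
  funext k
  rw [Pi.smul_apply, H4_ev, H4_ev]
  simp only [Pi.smul_apply, smul_eq_mul]
  ring

theorem H4_det_smul (F : Coef 2) (s : ℂ) (u : Fin 3 → ℂ) : det3 F (s • u) = s ^ 3 * det3 F u := by
  rw [H4_det, H4_det, Matrix.det_fin_three, Matrix.det_fin_three]
  simp only [H4_jac, Pi.smul_apply, smul_eq_mul]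
  simp
  ring

theorem H4_ev_cont : Continuous fun q : Coef 2 × (Fin 3 → ℂ) => ev 2 q.1 q.2 := by
  refine continuous_pi fun k => ?_
  simp only [H4_ev]
  fun_prop

theorem H4_det_cont : Continuous fun q : Coef 2 × (Fin 3 → ℂ) => det3 q.1 q.2 := by
  simp only [H4_det, Matrix.det_fin_three, H4_jac]
  simp
  fun_prop

/-- reduction to the unit sphere -/
theorem H4_scale (u : Fin 3 → ℂ) (hu : u ≠ 0) : ∃ v : Fin 3 → ℂ, v ∈ sphere (0 : Fin 3 → ℂ) 1 ∧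
    u = (‖u‖ : ℂ) • v := by
  have h0 : ‖u‖ ≠ 0 := norm_ne_zero_iff.2 hu
  have h1 : (‖u‖ : ℂ) ≠ 0 := by exact_mod_cast h0
  refine ⟨(‖u‖ : ℂ)⁻¹ • u, ?_, ?_⟩
  · rw [mem_sphere_zero_iff_norm, norm_smul, norm_inv, Complex.norm_real, norm_norm,
      inv_mul_cancel₀ h0]
  · rw [smul_smul, mul_inv_cancel₀ h1, one_smul]

theorem H4_ev_zero (F : Coef 2) : ev 2 F 0 = 0 := by
  have := H4_ev_smul F 0 0
  rwa [zero_smul, zero_pow two_ne_zero, zero_smul] at this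

theorem H4_det_zero (F : Coef 2) : det3 F 0 = 0 := by
  have := H4_det_smul F 0 0
  rwa [zero_smul, zero_pow three_ne_zero, zero_mul] at this

theorem ev_close (c : ℂ) {ε : ℝ} (hε : 0 < ε) : ∀ᶠ F in 𝓝 (fc c), ∀ u : Fin 3 → ℂ,
    ‖ev 2 F u - ev 2 (fc c) u‖ ≤ ε * ‖u‖ ^ 2 ∧ ‖det3 F u - det3 (fc c) u‖ ≤ ε * ‖u‖ ^ 3 := by
  have hK : IsCompact (sphere (0 : Fin 3 → ℂ) 1) := isCompact_sphere 0 1
  have h1 : ∀ᶠ F in 𝓝 (fc c), ∀ u ∈ sphere (0 : Fin 3 → ℂ) 1,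
      ‖ev 2 F u - ev 2 (fc c) u‖ < ε ∧ ‖det3 F u - det3 (fc c) u‖ < ε := by
    apply hK.eventually_forall_of_forall_eventually
    intro u _
    have c1 : Continuous fun q : Coef 2 × (Fin 3 → ℂ) => ‖ev 2 q.1 q.2 - ev 2 (fc c) q.2‖ :=
      (H4_ev_cont.sub (H4_ev_cont.comp (continuous_const.prodMk continuous_snd))).norm
    have c2 : Continuous fun q : Coef 2 × (Fin 3 → ℂ) => ‖det3 q.1 q.2 - det3 (fc c) q.2‖ :=
      (H4_det_cont.sub (H4_det_cont.comp (continuous_const.prodMk continuous_snd))).norm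
    have e1 := c1.continuousAt.eventually_lt (continuousAt_const (x := (fc c, u)) (y := ε))
      (by simpa using hε)
    have e2 := c2.continuousAt.eventually_lt (continuousAt_const (x := (fc c, u)) (y := ε))
      (by simpa using hε)
    exact e1.and e2
  filter_upwards [h1] with F hF u
  by_cases hu : u = 0
  · rw [hu, H4_ev_zero, H4_ev_zero, H4_det_zero, H4_det_zero]
    simp
  · obtain ⟨v, hv, huv⟩ := H4_scale u hu
    have h2 := hF v hv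
    have h3 : (0 : ℝ) ≤ ‖u‖ := norm_nonneg u
    constructor
    · calc ‖ev 2 F u - ev 2 (fc c) u‖ = ‖(‖u‖ : ℂ) ^ 2 • (ev 2 F v - ev 2 (fc c) v)‖ := by
            rw [smul_sub, ← H4_ev_smul, ← H4_ev_smul, ← huv]
        _ = ‖u‖ ^ 2 * ‖ev 2 F v - ev 2 (fc c) v‖ := by
            rw [norm_smul, norm_pow, Complex.norm_real, norm_norm]
        _ ≤ ε * ‖u‖ ^ 2 := by
            rw [mul_comm]
            exact mul_le_mul_of_nonneg_right h2.1.le (pow_nonneg h3 2)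
    · calc ‖det3 F u - det3 (fc c) u‖ = ‖(‖u‖ : ℂ) ^ 3 * (det3 F v - det3 (fc c) v)‖ := by
            rw [mul_sub, ← H4_det_smul, ← H4_det_smul, ← huv]
        _ = ‖u‖ ^ 3 * ‖det3 F v - det3 (fc c) v‖ := by
            rw [norm_mul, norm_pow, Complex.norm_real, norm_norm]
        _ ≤ ε * ‖u‖ ^ 3 := by
            rw [mul_comm]
            exact mul_le_mul_of_nonneg_right h2.2.le (pow_nonneg h3 3)

theorem growth_fc (c : ℂ) : ∃ m > (0 : ℝ), m ≤ 1 ∧ ∀ᶠ F in 𝓝 (fc c), ∀ u : Fin 3 → ℂ,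
    m * ‖u‖ ^ 2 ≤ ‖ev 2 F u‖ := by
  have hK : IsCompact (sphere (0 : Fin 3 → ℂ) 1) := isCompact_sphere 0 1
  have hc : ContinuousOn (fun u : Fin 3 → ℂ => ‖ev 2 (fc c) u‖) (sphere (0 : Fin 3 → ℂ) 1) :=
    (H4_ev_cont.comp (continuous_const.prodMk continuous_id)).norm.continuousOn
  have hne : (sphere (0 : Fin 3 → ℂ) 1).Nonempty := by
    refine ⟨fun _ => 1, ?_⟩
    rw [mem_sphere_zero_iff_norm, pi_norm_const, norm_one]
  obtain ⟨u₀, hu₀, hmin⟩ := hK.exists_isMinOn hne hc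
  have hu0 : u₀ ≠ 0 := by
    rintro rfl
    rw [mem_sphere_zero_iff_norm, norm_zero] at hu₀
    exact zero_ne_one hu₀
  set m₀ : ℝ := ‖ev 2 (fc c) u₀‖ with hm₀
  have hm₀pos : 0 < m₀ := norm_pos_iff.2 (nd_fc c u₀ hu0)
  refine ⟨min (m₀ / 2) 1, lt_min (by linarith) one_pos, min_le_right _ _, ?_⟩
  filter_upwards [ev_close c (half_pos hm₀pos)] with F hF u
  have h1 : m₀ * ‖u‖ ^ 2 ≤ ‖ev 2 (fc c) u‖ := by
    by_cases hu : u = 0
    · rw [hu, norm_zero]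
      simp
    · obtain ⟨v, hv, huv⟩ := H4_scale u hu
      have h2 : m₀ ≤ ‖ev 2 (fc c) v‖ := hmin hv
      calc m₀ * ‖u‖ ^ 2 ≤ ‖ev 2 (fc c) v‖ * ‖u‖ ^ 2 :=
            mul_le_mul_of_nonneg_right h2 (pow_nonneg (norm_nonneg u) 2)
        _ = ‖(‖u‖ : ℂ) ^ 2 • ev 2 (fc c) v‖ := by
            rw [norm_smul, norm_pow, Complex.norm_real, norm_norm, mul_comm]
        _ = ‖ev 2 (fc c) u‖ := by rw [← H4_ev_smul, ← huv]
  have h2 := (hF u).1
  have h3 : ‖ev 2 (fc c) u‖ ≤ ‖ev 2 F u‖ + ‖ev 2 F u - ev 2 (fc c) u‖ := by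
    have := norm_sub_le (ev 2 F u) (ev 2 F u - ev 2 (fc c) u)
    rwa [sub_sub_cancel] at this
  have h4 : min (m₀ / 2) 1 * ‖u‖ ^ 2 ≤ m₀ / 2 * ‖u‖ ^ 2 :=
    mul_le_mul_of_nonneg_right (min_le_left _ _) (pow_nonneg (norm_nonneg u) 2)
  linarith

end NB
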