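import Pool.Agent.NB.H4
/-!
H5. No repelling periodic points near the line at infinity `u 1 = 0`.
`no_rep`: if `‖u 1‖ ≤ δ ‖u‖`, the same holds for the whole orbit (`h1`), the norms of the orbit are at most
`1 / m` (look at the maximal one, `h0`), so all the determinants are `< 1` in modulus (`h2`) and
`det (fderiv (ev^[n]) u) = ∏ det3 F (ev^[j] u)` has modulus `< 1`; but it is the product of the eigenvalues
(roots of the characteristic polynomial), all of modulus `> 1`.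
`inf_nhds`: for `f_c` and `δ < m`: `‖(ev u) 1‖ = ‖u 1‖² ≤ δ² ‖u‖² < δ m ‖u‖²`, and
`‖det3‖ ≤ 8000 δ ‖u‖³ ≤ 8000 δ / m³`; so take `δ ≤ m / 2`, `16000 δ ≤ m³`, and use `ev_close` with small `ε`.
-/
open Set Metric Filter Topology
open SkewBif
namespace NB

theorem h5_diff (F : Coef 2) : Differentiable ℂ (ev 2 F) := by
  unfold ev
  fun_prop

theorem h5_diff_iter (F : Coef 2) (n : ℕ) : Differentiable ℂ ((ev 2 F)^[n]) := by
  induction n with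
  | zero => exact differentiable_id
  | succ n ih =>
    rw [Function.iterate_succ']
    exact (h5_diff F).comp ih

theorem h5_det (F : Coef 2) (u : Fin 3 → ℂ) (n : ℕ) :
    LinearMap.det (fderiv ℂ ((ev 2 F)^[n]) u : (Fin 3 → ℂ) →ₗ[ℂ] (Fin 3 → ℂ)) =
      ∏ j ∈ Finset.range n, det3 F ((ev 2 F)^[j] u) := by
  induction n with
  | zero =>
    rw [Function.iterate_zero, fderiv_id]
    simp
  | succ n ih =>
    rw [Finset.prod_range_succ, ← ih, Function.iterate_succ',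
      fderiv_comp u (h5_diff F _) (h5_diff_iter F n u), mul_comm]
    unfold det3
    rw [← LinearMap.det_comp]
    rfl

theorem h5_one_le (D : Module.End ℂ (Fin 3 → ℂ))
    (h : ∀ μ : ℂ, D.HasEigenvalue μ → 1 < ‖μ‖) : 1 ≤ ‖LinearMap.det D‖ := by
  rw [Module.End.det_eq_prod_roots_charpoly_of_splits (IsAlgClosed.splits _)]
  have h1 : ‖D.charpoly.roots.prod‖ = (D.charpoly.roots.map norm).prod := by
    exact map_multiset_prod (normHom : ℂ →*₀ ℝ) _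
  rw [h1]
  refine Multiset.one_le_prod_map fun μ hμ => ?_
  exact (h μ ((Module.End.hasEigenvalue_iff_isRoot_charpoly D μ).2
    (Polynomial.isRoot_of_mem_roots hμ))).le

theorem h5_orbit {F : Coef 2} {δ : ℝ}
    (h1 : ∀ u : Fin 3 → ℂ, ‖u 1‖ ≤ δ * ‖u‖ → ‖ev 2 F u 1‖ ≤ δ * ‖ev 2 F u‖)
    {u : Fin 3 → ℂ} (hu : ‖u 1‖ ≤ δ * ‖u‖) (j : ℕ) :
    ‖((ev 2 F)^[j] u) 1‖ ≤ δ * ‖(ev 2 F)^[j] u‖ := by
  induction j with
  | zero => exact hu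
  | succ j ih =>
    rw [Function.iterate_succ_apply']
    exact h1 _ ih

/-- The norms of a periodic orbit are at most `1 / m`. -/
theorem h5_norm {F : Coef 2} {m : ℝ} (hm : 0 < m)
    (h0 : ∀ u : Fin 3 → ℂ, m * ‖u‖ ^ 2 ≤ ‖ev 2 F u‖)
    {n : ℕ} (hn : 1 ≤ n) {u : Fin 3 → ℂ} (hfix : (ev 2 F)^[n] u = u) (j : ℕ) :
    ‖(ev 2 F)^[j] u‖ ≤ 1 / m := by
  obtain ⟨i, hi, hmax⟩ := Finset.exists_max_image (Finset.range n)
    (fun j => ‖(ev 2 F)^[j] u‖) ⟨0, Finset.mem_range.2 (by omega)⟩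
  have hper : Function.IsPeriodicPt (ev 2 F) n u := hfix
  have hall : ∀ k : ℕ, ‖(ev 2 F)^[k] u‖ ≤ ‖(ev 2 F)^[i] u‖ := by
    intro k
    rw [← hper.iterate_mod_apply k]
    exact hmax _ (Finset.mem_range.2 (Nat.mod_lt _ (by omega)))
  have hM : ‖(ev 2 F)^[i] u‖ ≤ 1 / m := by
    rcases (norm_nonneg ((ev 2 F)^[i] u)).eq_or_lt with h | h
    · rw [← h]
      positivity
    · have h2 := h0 ((ev 2 F)^[i] u)
      have h3 := hall (i + 1)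
      rw [Function.iterate_succ_apply'] at h3
      rw [le_div_iff₀ hm]
      have h4 : m * ‖(ev 2 F)^[i] u‖ * ‖(ev 2 F)^[i] u‖ ≤ 1 * ‖(ev 2 F)^[i] u‖ := by
        nlinarith
      have h5 := le_of_mul_le_mul_right h4 h
      linarith
  exact (hall j).trans hM

theorem no_rep {F : Coef 2} {m δ : ℝ} (hm : 0 < m) (hδ : 0 < δ)
    (h0 : ∀ u : Fin 3 → ℂ, m * ‖u‖ ^ 2 ≤ ‖ev 2 F u‖)
    (h1 : ∀ u : Fin 3 → ℂ, ‖u 1‖ ≤ δ * ‖u‖ → ‖ev 2 F u 1‖ ≤ δ * ‖ev 2 F u‖)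
    (h2 : ∀ u : Fin 3 → ℂ, ‖u‖ ≤ 1 / m → ‖u 1‖ ≤ δ * ‖u‖ → ‖det3 F u‖ < 1)
    {n : ℕ} (hn : 1 ≤ n) {u : Fin 3 → ℂ} (hu : u ≠ 0) (hR : RepPer 2 F n u) :
    δ * ‖u‖ < ‖u 1‖ := by
  by_contra hcon
  push Not at hcon
  have hdet := h5_one_le _ hR.2
  rw [h5_det] at hdet
  have hlt : ‖∏ j ∈ Finset.range n, det3 F ((ev 2 F)^[j] u)‖ < 1 := by
    rw [norm_prod]
    obtain ⟨k, rfl⟩ : ∃ k, n = k + 1 := ⟨n - 1, by omega⟩
    rw [Finset.prod_range_succ]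
    have hj : ∀ j : ℕ, ‖det3 F ((ev 2 F)^[j] u)‖ < 1 := fun j =>
      h2 _ (h5_norm hm h0 hn hR.1 j) (h5_orbit h1 hcon j)
    have h3 : ∏ j ∈ Finset.range k, ‖det3 F ((ev 2 F)^[j] u)‖ ≤ 1 :=
      Finset.prod_le_one (fun _ _ => norm_nonneg _) (fun j _ => (hj j).le)
    have h4 : (0 : ℝ) ≤ ∏ j ∈ Finset.range k, ‖det3 F ((ev 2 F)^[j] u)‖ :=
      Finset.prod_nonneg fun _ _ => norm_nonneg _
    have h5 := hj k
    have h6 := norm_nonneg (det3 F ((ev 2 F)^[k] u))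
    nlinarith
  linarith

theorem inf_nhds (c : ℂ) : ∃ δ > (0 : ℝ), ∀ᶠ F in 𝓝 (fc c), ∀ n : ℕ, 1 ≤ n →
    ∀ u : Fin 3 → ℂ, u ≠ 0 → RepPer 2 F n u → δ * ‖u‖ < ‖u 1‖ := by
  obtain ⟨m, hm, hm1, hev⟩ := growth_fc c
  set δ : ℝ := min (m / 2) (m ^ 3 / 16000) with hδ
  have hδ0 : 0 < δ := lt_min (by positivity) (by positivity)
  have hδ1 : δ ≤ m / 2 := min_le_left _ _
  have hδ2 : δ ≤ m ^ 3 / 16000 := min_le_right _ _
  refine ⟨δ, hδ0, ?_⟩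
  have hε : 0 < δ * m / 2 := by positivity
  filter_upwards [hev, ev_close c hε] with F hF0 hF1 n hn u hu hR
  refine no_rep hm hδ0 hF0 ?_ ?_ hn hu hR
  · intro u h
    have h3 : ‖ev 2 F u 1 - ev 2 (fc c) u 1‖ ≤ δ * m / 2 * ‖u‖ ^ 2 :=
      (norm_le_pi_norm (ev 2 F u - ev 2 (fc c) u) 1).trans (hF1 u).1
    have h4 : ev 2 (fc c) u 1 = u 1 ^ 2 := by
      rw [ev_fc]
      rfl
    have h5 : ‖ev 2 F u 1‖ ≤ δ * m / 2 * ‖u‖ ^ 2 + ‖u 1‖ ^ 2 := by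
      have h6 := norm_sub_norm_le (ev 2 F u 1) (ev 2 (fc c) u 1)
      rw [h4] at h6 h3
      rw [norm_pow] at h6
      linarith
    have h7 : ‖u 1‖ ^ 2 ≤ (δ * ‖u‖) ^ 2 := by
      exact pow_le_pow_left₀ (norm_nonneg _) h 2
    have h8 : (δ * ‖u‖) ^ 2 ≤ δ * m / 2 * ‖u‖ ^ 2 := by
      have h9 : 0 ≤ ‖u‖ ^ 2 := by positivity
      have h10 : δ * δ ≤ δ * (m / 2) := mul_le_mul_of_nonneg_left hδ1 hδ0.le
      nlinarith
    have h11 := hF0 u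
    have h12 : δ * (m * ‖u‖ ^ 2) ≤ δ * ‖ev 2 F u‖ := mul_le_mul_of_nonneg_left h11 hδ0.le
    nlinarith
  · intro u hu1 h
    have h3 := (hF1 u).2
    have h4 : ‖det3 F u‖ ≤ δ * m / 2 * ‖u‖ ^ 3 + ‖det3 (fc c) u‖ := by
      have h6 := norm_sub_norm_le (det3 F u) (det3 (fc c) u)
      linarith
    rw [det3_fc, norm_mul, norm_mul, norm_mul] at h4
    have h5 : ‖(8000 : ℂ)‖ = 8000 := by
      rw [show (8000 : ℂ) = ((8000 : ℝ) : ℂ) by norm_num, Complex.norm_real]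
      norm_num
    rw [h5] at h4
    have hn0 : ‖u 0‖ ≤ ‖u‖ := norm_le_pi_norm u 0
    have hn2 : ‖u 2‖ ≤ ‖u‖ := norm_le_pi_norm u 2
    have hu0 : 0 ≤ ‖u‖ := norm_nonneg u
    have h6 : 8000 * ‖u 0‖ * ‖u 1‖ * ‖u 2‖ ≤ 8000 * ‖u‖ * (δ * ‖u‖) * ‖u‖ := by
      have h7 : ‖u 0‖ * ‖u 1‖ ≤ ‖u‖ * (δ * ‖u‖) :=
        mul_le_mul hn0 h (norm_nonneg _) hu0
      have h8 : ‖u 0‖ * ‖u 1‖ * ‖u 2‖ ≤ ‖u‖ * (δ * ‖u‖) * ‖u‖ :=
        mul_le_mul h7 hn2 (norm_nonneg _) (by positivity)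
      nlinarith
    have h7 : ‖u‖ ^ 3 ≤ (1 / m) ^ 3 := pow_le_pow_left₀ hu0 hu1 3
    have h8 : ‖det3 F u‖ ≤ (δ * m / 2 + 8000 * δ) * ‖u‖ ^ 3 := by
      nlinarith
    have h9 : (δ * m / 2 + 8000 * δ) * ‖u‖ ^ 3 ≤ (δ * m / 2 + 8000 * δ) * (1 / m) ^ 3 :=
      mul_le_mul_of_nonneg_left h7 (by positivity)
    have h10 : (δ * m / 2 + 8000 * δ) < m ^ 3 := by
      have : δ * m ≤ δ * 1 := mul_le_mul_of_nonneg_left hm1 hδ0.le
      linarith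
    have h11 : (δ * m / 2 + 8000 * δ) * (1 / m) ^ 3 < m ^ 3 * (1 / m) ^ 3 :=
      mul_lt_mul_of_pos_right h10 (by positivity)
    have h12 : m ^ 3 * (1 / m) ^ 3 = 1 := by
      field_simp
    linarith

end NB
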