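import Pool.Agent.NB.H2
/-!
H6. Bounded periodic orbits of the chart map are in the core.
`trap`: let `v` be periodic with the whole orbit in `{‖v.1‖ ≤ M, ‖v.2‖ ≤ M}`.  If some `z_j` is at distance
`> 1/500` from both `1` and `-1`, then `‖z_{j+1}‖ > 3` and then `‖z‖` increases by more than `1` at every
step for ever, a contradiction.  So all `z_j` are in `closedBall s (1/500)`; if some `‖w_j‖ > 11`, then `‖w‖`
increases by more than `1` for ever.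
`trap_nhds`: for `f_c` itself: `‖z - 1‖, ‖z + 1‖ > 1/500` imply `1000 ‖z² - 1‖ ≥ 2 (2 - 1/500) > 3.9`;
`‖z‖ ≥ 3` implies `1000 (‖z‖² - 1) ≥ 2000 ‖z‖`; `‖w‖ ≥ 11` implies
`‖w² + 50 (z - 1) + c‖ ≥ ‖w‖² - 100.1 ≥ ‖w‖ + 8`.  On the compact region the map of `F` is uniformly close to
the one of `f_c` (`ev (fc c) (lift v) 1 = 1`, continuity and compactness).
-/
open Set Metric Filter Topology
open SkewBif
namespace NB

/-- The trapping conditions on the region `‖z‖, ‖w‖ ≤ M`. -/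
def Trap (M : ℝ) (F : Coef 2) : Prop :=
  ∀ v : X2, ‖v.1‖ ≤ M → ‖v.2‖ ≤ M → ev 2 F (lift v) 1 ≠ 0 ∧
    ((∀ s, Sgn s → 1 / 500 < ‖v.1 - s‖) → 3 < ‖(T 2 F v).1‖) ∧
    (3 ≤ ‖v.1‖ → ‖v.1‖ + 1 < ‖(T 2 F v).1‖) ∧
    (∀ s, Sgn s → ‖v.1 - s‖ ≤ 1 / 500 → 11 < ‖v.2‖ → ‖v.2‖ + 1 < ‖(T 2 F v).2‖)

theorem trap {F : Coef 2} {M : ℝ} (hT : Trap M F) {n : ℕ} (hn : 1 ≤ n) {v : X2}
    (hp : (T 2 F)^[n] v = v)
    (hb : ∀ j : ℕ, ‖((T 2 F)^[j] v).1‖ ≤ M ∧ ‖((T 2 F)^[j] v).2‖ ≤ M) : v ∈ K F := by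
  have hstep : ∀ j, (T 2 F)^[j + 1] v = T 2 F ((T 2 F)^[j] v) := fun j =>
    Function.iterate_succ_apply' _ _ _
  -- the first coordinates
  have h1 : ∀ j, ∃ s, Sgn s ∧ ‖((T 2 F)^[j] v).1 - s‖ ≤ 1 / 500 := by
    intro j
    by_contra hc
    push Not at hc
    have h2 := (hT _ (hb j).1 (hb j).2).2.1 hc
    rw [← hstep j] at h2
    have h3 : ∀ k : ℕ, 3 + (k : ℝ) ≤ ‖((T 2 F)^[j + 1 + k] v).1‖ := by
      intro k
      induction k with
      | zero => simpa using h2.le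
      | succ k ih =>
        have hk : (0 : ℝ) ≤ k := Nat.cast_nonneg k
        have h4 := (hT _ (hb (j + 1 + k)).1 (hb (j + 1 + k)).2).2.2.1 (by linarith)
        rw [← hstep (j + 1 + k)] at h4
        have h5 : j + 1 + (k + 1) = j + 1 + k + 1 := by ring
        rw [h5]
        push_cast
        linarith
    obtain ⟨k, hk⟩ := exists_nat_gt M
    have h6 := h3 k
    have h7 := (hb (j + 1 + k)).1
    linarith
  -- the second coordinates
  have h2 : ∀ j, ‖((T 2 F)^[j] v).2‖ ≤ 11 := by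
    intro j
    by_contra hc
    push Not at hc
    have h3 : ∀ k : ℕ, 11 + (k : ℝ) < ‖((T 2 F)^[j + k] v).2‖ := by
      intro k
      induction k with
      | zero => simpa using hc
      | succ k ih =>
        have hk : (0 : ℝ) ≤ k := Nat.cast_nonneg k
        obtain ⟨s, hs, hs1⟩ := h1 (j + k)
        have h4 := (hT _ (hb (j + k)).1 (hb (j + k)).2).2.2.2 s hs hs1 (by linarith)
        rw [← hstep (j + k)] at h4
        have h5 : j + (k + 1) = j + k + 1 := by ring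
        rw [h5]
        push_cast
        linarith
    obtain ⟨k, hk⟩ := exists_nat_gt M
    have h6 := h3 k
    have h7 := (hb (j + k)).2
    linarith
  intro j
  obtain ⟨s, hs, hs1⟩ := h1 j
  have hmem : (T 2 F)^[j] v ∈ box s 11 := by
    refine ⟨?_, ?_⟩
    · rw [mem_closedBall, dist_eq_norm]
      exact hs1
    · rw [mem_closedBall, dist_eq_norm, sub_zero]
      exact h2 j
  rcases hs with rfl | rfl
  · exact Or.inl hmem
  · exact Or.inr hmem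

/-- The estimates for `f_c`. -/
theorem H6_fc {c : ℝ} (hc : c ∈ Icc (0 : ℝ) 12) (v : X2) :
    ((∀ s, Sgn s → 1 / 500 < ‖v.1 - s‖) → 39 / 10 < ‖(T 2 (fc (c : ℂ)) v).1‖) ∧
    (3 ≤ ‖v.1‖ → ‖v.1‖ + 2 < ‖(T 2 (fc (c : ℂ)) v).1‖) ∧
    (∀ s, Sgn s → ‖v.1 - s‖ ≤ 1 / 500 → 11 < ‖v.2‖ →
      ‖v.2‖ + 2 < ‖(T 2 (fc (c : ℂ)) v).2‖) := by
  rw [T_fc]
  obtain ⟨z, w⟩ := v
  simp only
  refine ⟨fun h => ?_, fun h => ?_, fun s hs h1 h2 => ?_⟩
  · have h1 := h 1 (Or.inl rfl)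
    have h2 := h (-1) (Or.inr rfl)
    rw [sub_neg_eq_add] at h2
    have h3 : (2 : ℝ) ≤ ‖z - 1‖ + ‖z + 1‖ := by
      have h4 : ‖(z + 1) - (z - 1)‖ ≤ ‖z + 1‖ + ‖z - 1‖ := norm_sub_le _ _
      have h5 : (z + 1) - (z - 1) = (2 : ℂ) := by ring
      rw [h5, Complex.norm_ofNat] at h4
      linarith
    have h4 : z ^ 2 - 1 = (z - 1) * (z + 1) := by ring
    rw [h4, norm_mul, norm_mul, Complex.norm_ofNat]
    nlinarith [mul_nonneg (sub_nonneg.mpr h1.le) (sub_nonneg.mpr h2.le)]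
  · rw [norm_mul, Complex.norm_ofNat]
    have h1 : ‖z‖ ^ 2 - 1 ≤ ‖z ^ 2 - 1‖ := by
      have := norm_sub_norm_le (z ^ 2) 1
      rwa [norm_pow, norm_one] at this
    nlinarith
  · have h3 : ‖50 * (z - 1) + (c : ℂ)‖ ≤ 1001 / 10 := by
      obtain ⟨hc0, hc1⟩ := hc
      rcases hs with rfl | rfl
      · calc ‖50 * (z - 1) + (c : ℂ)‖ ≤ ‖50 * (z - 1)‖ + ‖(c : ℂ)‖ := norm_add_le _ _
          _ = 50 * ‖z - 1‖ + |c| := by
            rw [norm_mul, Complex.norm_ofNat, Complex.norm_real, Real.norm_eq_abs]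
          _ ≤ 50 * (1 / 500) + 12 := by
            rw [abs_of_nonneg hc0]
            linarith
          _ ≤ 1001 / 10 := by norm_num
      · have h4 : 50 * (z - 1) + (c : ℂ) = 50 * (z - -1) + ((c - 100 : ℝ) : ℂ) := by
          push_cast
          ring
        rw [h4]
        calc ‖50 * (z - -1) + ((c - 100 : ℝ) : ℂ)‖
            ≤ ‖50 * (z - -1)‖ + ‖((c - 100 : ℝ) : ℂ)‖ := norm_add_le _ _
          _ = 50 * ‖z - -1‖ + |c - 100| := by
            rw [norm_mul, Complex.norm_ofNat, Complex.norm_real, Real.norm_eq_abs]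
          _ ≤ 50 * (1 / 500) + 100 := by
            have h5 : |c - 100| ≤ 100 := by
              rw [abs_le]
              constructor <;> linarith
            linarith
          _ ≤ 1001 / 10 := by norm_num
    have h4 : ‖w‖ ^ 2 - 1001 / 10 ≤ ‖w ^ 2 + 50 * (z - 1) + (c : ℂ)‖ := by
      have h5 : w ^ 2 = (w ^ 2 + 50 * (z - 1) + (c : ℂ)) - (50 * (z - 1) + (c : ℂ)) := by ring
      have h6 : ‖w ^ 2‖ ≤ ‖w ^ 2 + 50 * (z - 1) + (c : ℂ)‖ + ‖50 * (z - 1) + (c : ℂ)‖ := by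
        conv_lhs => rw [h5]
        exact norm_sub_le _ _
      rw [norm_pow] at h6
      linarith
    nlinarith

theorem H6_ev_cont : Continuous (fun q : Coef 2 × X2 => ev 2 q.1 (lift q.2) 1) := by
  unfold ev lift
  simp only [Matrix.cons_val_zero, Matrix.cons_val_one, Matrix.cons_val]
  fun_prop

theorem trap_nhds {c : ℝ} (hc : c ∈ Icc (0 : ℝ) 12) (M : ℝ) : ∀ᶠ F in 𝓝 (fc (c : ℂ)), Trap M F := by
  have hK : IsCompact (closedBall (0 : ℂ) M ×ˢ closedBall (0 : ℂ) M) :=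
    (isCompact_closedBall 0 M).prod (isCompact_closedBall 0 M)
  have hev : ∀ v : X2, ev 2 (fc (c : ℂ)) (lift v) 1 = 1 := by
    intro v
    rw [ev_fc]
    simp [lift]
  have hP : ∀ v ∈ closedBall (0 : ℂ) M ×ˢ closedBall (0 : ℂ) M,
      ∀ᶠ q : Coef 2 × X2 in 𝓝 (fc (c : ℂ), v),
        ev 2 q.1 (lift q.2) 1 ≠ 0 ∧ ‖T 2 q.1 q.2 - T 2 (fc (c : ℂ)) q.2‖ < 1 / 2 := by
    intro v _
    have h1 : ∀ᶠ q : Coef 2 × X2 in 𝓝 (fc (c : ℂ), v), ev 2 q.1 (lift q.2) 1 ≠ 0 := by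
      refine (H6_ev_cont.continuousAt (x := (fc (c : ℂ), v))).eventually_ne ?_
      simp only
      rw [hev]
      exact one_ne_zero
    have h2 : ContinuousAt (fun q : Coef 2 × X2 => T 2 q.1 q.2) (fc (c : ℂ), v) :=
      (T_analytic (by rw [hev]; exact one_ne_zero)).continuousAt
    have h3 : Continuous (fun q : Coef 2 × X2 => T 2 (fc (c : ℂ)) q.2) := by
      have h4 : (fun q : Coef 2 × X2 => T 2 (fc (c : ℂ)) q.2) =
          fun q => (1000 * (q.2.1 ^ 2 - 1), q.2.2 ^ 2 + 50 * (q.2.1 - 1) + (c : ℂ)) := by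
        funext q
        exact T_fc _ _
      rw [h4]
      fun_prop
    have h4 : ContinuousAt (fun q : Coef 2 × X2 => ‖T 2 q.1 q.2 - T 2 (fc (c : ℂ)) q.2‖)
        (fc (c : ℂ), v) := (h2.sub h3.continuousAt).norm
    have h5 : ∀ᶠ q : Coef 2 × X2 in 𝓝 (fc (c : ℂ), v),
        ‖T 2 q.1 q.2 - T 2 (fc (c : ℂ)) q.2‖ < 1 / 2 := by
      refine h4.eventually_lt continuousAt_const ?_
      simp only [sub_self, norm_zero]
      norm_num
    exact h1.and h5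
  have hall := hK.eventually_forall_of_forall_eventually
    (P := fun (F : Coef 2) (v : X2) => ev 2 F (lift v) 1 ≠ 0 ∧
      ‖T 2 F v - T 2 (fc (c : ℂ)) v‖ < 1 / 2) hP
  filter_upwards [hall] with F hF
  intro v hv1 hv2
  obtain ⟨g1, g2⟩ := hF v ⟨by rwa [mem_closedBall, dist_eq_norm, sub_zero],
    by rwa [mem_closedBall, dist_eq_norm, sub_zero]⟩
  obtain ⟨f1, f2, f3⟩ := H6_fc hc v
  have d1 : ‖(T 2 (fc (c : ℂ)) v).1‖ - 1 / 2 ≤ ‖(T 2 F v).1‖ := by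
    have a1 : ‖(T 2 F v - T 2 (fc (c : ℂ)) v).1‖ ≤ ‖T 2 F v - T 2 (fc (c : ℂ)) v‖ :=
      norm_fst_le _
    rw [Prod.fst_sub] at a1
    have a2 := norm_sub_norm_le (T 2 (fc (c : ℂ)) v).1 (T 2 F v).1
    rw [norm_sub_rev] at a2
    linarith
  have d2 : ‖(T 2 (fc (c : ℂ)) v).2‖ - 1 / 2 ≤ ‖(T 2 F v).2‖ := by
    have a1 : ‖(T 2 F v - T 2 (fc (c : ℂ)) v).2‖ ≤ ‖T 2 F v - T 2 (fc (c : ℂ)) v‖ :=
      norm_snd_le _
    rw [Prod.snd_sub] at a1
    have a2 := norm_sub_norm_le (T 2 (fc (c : ℂ)) v).2 (T 2 F v).2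
    rw [norm_sub_rev] at a2
    linarith
  refine ⟨g1, fun h => ?_, fun h => ?_, fun s hs h1 h2 => ?_⟩
  · have := f1 h
    linarith
  · have := f2 h
    linarith
  · have := f3 s hs h1 h2
    linarith

end NB
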