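import Pool.Agent.NB.H3
import Pool.Agent.NB.H5
import Pool.Agent.NB.H6
/-!
H7. All repelling periodic points of the maps near `f_c` are in `K F`, and the maps near `f_c` are admissible.
`per_nhds_fc`: take `δ` from `inf_nhds` and `M = 1 / δ`.  For `RepPer 2 F n u` all the points `u_j = ev^[j] u` of the
orbit are repelling periodic points as well (the derivative of `ev^[n]` at `ev u` is conjugate to the one at `u`),
so `u_j 1 ≠ 0` and `v_j = chart u_j` satisfies `‖v_j.1‖, ‖v_j.2‖ ≤ 1 / δ`, `v_{j+1} = T v_j`; then `trap`.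
-/
open Set Metric Filter Topology
open SkewBif
namespace NB

theorem H7_chart_ev (F : Coef 2) {u : Fin 3 → ℂ} (hu : u 1 ≠ 0) :
    chart (ev 2 F u) = T 2 F (chart u) := by
  have h1 : u = u 1 • lift (chart u) := by
    funext i
    fin_cases i
    · simp only [lift, chart]
      change u 0 = u 1 * (u 0 / u 1)
      rw [mul_div_cancel₀ _ hu]
    · simp only [lift, chart]
      change u 1 = u 1 * 1
      rw [mul_one]
    · simp only [lift, chart]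
      change u 2 = u 1 * (u 2 / u 1)
      rw [mul_div_cancel₀ _ hu]
  have h2 : ∀ (a : ℂ), a ≠ 0 → ∀ w : Fin 3 → ℂ, chart (a • w) = chart w := by
    intro a ha w
    simp only [chart, Pi.smul_apply, smul_eq_mul]
    rw [mul_div_mul_left _ _ ha, mul_div_mul_left _ _ ha]
  rw [T]
  conv_lhs => rw [h1]
  rw [H4_ev_smul, h2 _ (pow_ne_zero 2 hu)]

theorem H7_fderiv_left (F : Coef 2) (n : ℕ) (u : Fin 3 → ℂ) :
    fderiv ℂ ((ev 2 F)^[n + 1]) u =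
      (fderiv ℂ (ev 2 F) ((ev 2 F)^[n] u)).comp (fderiv ℂ ((ev 2 F)^[n]) u) := by
  rw [Function.iterate_succ', fderiv_comp u (h5_diff F _) (h5_diff_iter F n u)]

theorem H7_fderiv_right (F : Coef 2) (n : ℕ) (u : Fin 3 → ℂ) :
    fderiv ℂ ((ev 2 F)^[n + 1]) u =
      (fderiv ℂ ((ev 2 F)^[n]) (ev 2 F u)).comp (fderiv ℂ (ev 2 F) u) := by
  rw [Function.iterate_succ, fderiv_comp u (h5_diff_iter F n _) (h5_diff F u)]

/-- The nonzero eigenvalues of `A P` are eigenvalues of `P A`; if `P A` is injective, so is `A P`. -/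
theorem H7_eig (A P : (Fin 3 → ℂ) →L[ℂ] (Fin 3 → ℂ))
    (h : ∀ μ : ℂ, Module.End.HasEigenvalue ((P.comp A : (Fin 3 → ℂ) →L[ℂ] (Fin 3 → ℂ)) :
      (Fin 3 → ℂ) →ₗ[ℂ] (Fin 3 → ℂ)) μ → 1 < ‖μ‖) (μ : ℂ)
    (hμ : Module.End.HasEigenvalue ((A.comp P : (Fin 3 → ℂ) →L[ℂ] (Fin 3 → ℂ)) :
      (Fin 3 → ℂ) →ₗ[ℂ] (Fin 3 → ℂ)) μ) : 1 < ‖μ‖ := by
  obtain ⟨e, he⟩ := hμ.exists_hasEigenvector
  have he1 : A (P e) = μ • e := he.apply_eq_smul
  have he0 : e ≠ 0 := he.2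
  by_cases hP : P e = 0
  · exfalso
    have hinj : ∀ x, P (A x) = 0 → x = 0 := by
      intro x hx
      by_contra hx0
      have h1 := h 0 (Module.End.hasEigenvalue_of_hasEigenvector (x := x)
        ⟨by rw [Module.End.mem_eigenspace_iff, zero_smul]; exact hx, hx0⟩)
      rw [norm_zero] at h1
      linarith
    have hA : Function.Injective (A : (Fin 3 → ℂ) →ₗ[ℂ] (Fin 3 → ℂ)) := by
      rw [← LinearMap.ker_eq_bot, LinearMap.ker_eq_bot']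
      intro x hx
      refine hinj x ?_
      have hx' : A x = 0 := hx
      rw [hx', map_zero]
    obtain ⟨x, hx⟩ := (LinearMap.injective_iff_surjective.1 hA) e
    have hx' : A x = e := hx
    have hx0 := hinj x (by rw [hx']; exact hP)
    rw [hx0, map_zero] at hx'
    exact he0 hx'.symm
  · refine h μ (Module.End.hasEigenvalue_of_hasEigenvector (x := P e) ⟨?_, hP⟩)
    rw [Module.End.mem_eigenspace_iff]
    show P (A (P e)) = μ • P e
    rw [he1, map_smul]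

theorem H7_rep {F : Coef 2} {n : ℕ} (hn : 1 ≤ n) {u : Fin 3 → ℂ} (h : RepPer 2 F n u) :
    RepPer 2 F n (ev 2 F u) := by
  obtain ⟨k, rfl⟩ : ∃ k, n = k + 1 := ⟨n - 1, by omega⟩
  refine ⟨?_, ?_⟩
  · rw [← Function.iterate_succ_apply, Function.iterate_succ_apply', h.1]
  · have h1 : (ev 2 F)^[k] (ev 2 F u) = u := by
      rw [← Function.iterate_succ_apply]
      exact h.1
    rw [H7_fderiv_left, h1]
    have h2 := h.2
    rw [H7_fderiv_right] at h2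
    exact H7_eig _ _ h2

theorem H7_ne {F : Coef 2} {n : ℕ} (hn : 1 ≤ n) {u : Fin 3 → ℂ} (hu : u ≠ 0)
    (h : RepPer 2 F n u) : ev 2 F u ≠ 0 := by
  intro h0
  obtain ⟨k, rfl⟩ : ∃ k, n = k + 1 := ⟨n - 1, by omega⟩
  have h1 := h.1
  rw [Function.iterate_succ_apply, h0] at h1
  have h2 : ∀ j : ℕ, (ev 2 F)^[j] 0 = 0 := by
    intro j
    induction j with
    | zero => rfl
    | succ j ih => rw [Function.iterate_succ_apply', ih, H4_ev_zero]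
  rw [h2] at h1
  exact hu h1.symm

theorem H7_orbit {F : Coef 2} {n : ℕ} (hn : 1 ≤ n) {u : Fin 3 → ℂ} (hu : u ≠ 0)
    (h : RepPer 2 F n u) (j : ℕ) : (ev 2 F)^[j] u ≠ 0 ∧ RepPer 2 F n ((ev 2 F)^[j] u) := by
  induction j with
  | zero => exact ⟨hu, h⟩
  | succ j ih =>
    rw [Function.iterate_succ_apply']
    exact ⟨H7_ne hn ih.1 ih.2, H7_rep hn ih.2⟩

theorem H7_chart_le {δ : ℝ} (hδ : 0 < δ) {u : Fin 3 → ℂ} (h : δ * ‖u‖ < ‖u 1‖) :
    ‖(chart u).1‖ ≤ 1 / δ ∧ ‖(chart u).2‖ ≤ 1 / δ := by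
  have h1 : 0 < ‖u 1‖ := lt_of_le_of_lt (by positivity) h
  have h2 : ∀ i, ‖u i / u 1‖ ≤ 1 / δ := by
    intro i
    rw [norm_div, div_le_div_iff₀ h1 hδ, one_mul]
    have h3 := norm_le_pi_norm u i
    have h4 : ‖u i‖ * δ ≤ ‖u‖ * δ := mul_le_mul_of_nonneg_right h3 hδ.le
    linarith
  exact ⟨h2 0, h2 2⟩

theorem H7_core {F : Coef 2} {δ : ℝ} (hδ : 0 < δ) (hT : Trap (1 / δ) F)
    (hinf : ∀ n : ℕ, 1 ≤ n → ∀ u : Fin 3 → ℂ, u ≠ 0 → RepPer 2 F n u → δ * ‖u‖ < ‖u 1‖)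
    {n : ℕ} (hn : 1 ≤ n) {u : Fin 3 → ℂ} (hu : u ≠ 0) (h : RepPer 2 F n u) :
    u 1 ≠ 0 ∧ chart u ∈ K F := by
  have hlt : ∀ j : ℕ, δ * ‖(ev 2 F)^[j] u‖ < ‖((ev 2 F)^[j] u) 1‖ := fun j =>
    hinf n hn _ (H7_orbit hn hu h j).1 (H7_orbit hn hu h j).2
  have hne : ∀ j : ℕ, ((ev 2 F)^[j] u) 1 ≠ 0 := by
    intro j h0
    have h1 := hlt j
    rw [h0, norm_zero] at h1
    have h2 : 0 ≤ δ * ‖(ev 2 F)^[j] u‖ := by positivity
    linarith
  have hch : ∀ j : ℕ, chart ((ev 2 F)^[j] u) = (T 2 F)^[j] (chart u) := by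
    intro j
    induction j with
    | zero => rfl
    | succ j ih =>
      rw [Function.iterate_succ_apply', Function.iterate_succ_apply', ← ih,
        H7_chart_ev F (hne j)]
  refine ⟨hne 0, trap hT hn ?_ ?_⟩
  · rw [← hch, h.1]
  · intro j
    rw [← hch]
    exact H7_chart_le hδ (hlt j)

theorem per_nhds_fc {c : ℝ} (hc : c ∈ Icc (0 : ℝ) 12) : ∀ᶠ F in 𝓝 (fc (c : ℂ)),
    ∀ n : ℕ, 1 ≤ n → ∀ u : Fin 3 → ℂ, u ≠ 0 → RepPer 2 F n u → u 1 ≠ 0 ∧ chart u ∈ K F := by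
  obtain ⟨δ, hδ, h1⟩ := inf_nhds (c : ℂ)
  filter_upwards [h1, trap_nhds hc (1 / δ)] with F hF hT n hn u hu h
  exact H7_core hδ hT hF hn hu h

theorem adm_nhds {c : ℝ} (hc : c ∈ Icc (0 : ℝ) 12) : ∀ᶠ F in 𝓝 (fc (c : ℂ)), Adm F := by
  obtain ⟨m, hm, -, h1⟩ := growth_fc (c : ℂ)
  filter_upwards [h1, close_nhds (c : ℂ) (by norm_num : (0 : ℝ) < 1 / 100), crit_nhds (c : ℂ),
    per_nhds_fc hc] with F hg hcl hcr hper
  obtain ⟨b1, b2, b3, b4, b5, b6, b7⟩ := basic_of_close hc hcl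
  refine ⟨?_, b1, b2, b3, b4, b5, b6, b7, hcr.1, hcr.2, hper⟩
  intro u hu h0
  have h2 := hg u
  rw [h0, norm_zero] at h2
  have h3 : 0 < ‖u‖ := norm_pos_iff.2 hu
  have h4 : 0 < m * ‖u‖ ^ 2 := by positivity
  linarith

theorem fc_mem_U {c : ℝ} (hc : c ∈ Icc (0 : ℝ) 12) : fc (c : ℂ) ∈ U :=
  mem_interior_iff_mem_nhds.2 (adm_nhds hc)

end NB
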