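import Pool.Agent.NB.E5
import Pool.Agent.NB.E9
import Pool.Agent.NB.F7
import Pool.Agent.NB.G2
import Pool.Agent.NB.H7
/-!
Z. The final theorem.
-/
open Set Metric Filter Topology
open SkewBif
namespace NB

/-- Both stability notions hold on a dense subset of `U`. -/
theorem dense_stable : U ⊆ closure {F | StabOn JSet F ∧ StabOn (fun _ => univ) F} := by
  intro F hF
  rw [Metric.mem_closure_iff]
  intro ε hε
  obtain ⟨F', hF', δ, hδ, hBU, hNA⟩ := dense_NA hF hε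
  refine ⟨F', ⟨?_, ?_⟩, by rw [dist_comm]; exact hF'⟩
  · have hsub : ball F' (δ / 5) ⊆ ball F' δ := ball_subset_ball (by linarith)
    refine ⟨ball F' (δ / 5), isOpen_ball, mem_ball_self (by linarith),
      fun G hG => (interior_subset (hBU (hsub hG)) : Adm G).nd, ?_⟩
    intro n hn F₁ hF₁ u₁ h0 hR hJ
    obtain ⟨u, hu, hu1, hu2⟩ := rep_section hBU hNA hn (hsub hF₁) h0 hR
    refine ⟨u, hu.mono hsub, hu1, fun G hG => ⟨(hu2 G (hsub hG)).1, (hu2 G (hsub hG)).2, ?_⟩⟩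
    exact J_pres hBU hNA hn hu ⟨hu.continuousOn, hu2⟩ hF₁ hG (by rw [hu1]; exact hJ)
  · refine ⟨ball F' δ, isOpen_ball, mem_ball_self hδ,
      fun G hG => (interior_subset (hBU hG) : Adm G).nd, ?_⟩
    intro n hn F₁ hF₁ u₁ h0 hR _
    obtain ⟨u, hu, hu1, hu2⟩ := rep_section hBU hNA hn hF₁ h0 hR
    exact ⟨u, hu, hu1, fun G hG => ⟨(hu2 G hG).1, (hu2 G hG).2, mem_univ _⟩⟩

theorem main : ∃ U : Set (Coef 2), IsOpen U ∧ (∀ F ∈ U, Nondeg 2 F) ∧
    (∃ F ∈ U, ¬ StabOn JSet F) ∧ (∃ F ∈ U, ¬ StabOn (fun _ => univ) F) ∧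
    U ⊆ closure {F | StabOn JSet F ∧ StabOn (fun _ => univ) F} := by
  refine ⟨U, isOpen_interior, fun F hF => (interior_subset hF : Adm F).nd, ?_, ?_, dense_stable⟩
  · have h12 : Adm (fc 12) := by
      have h := fc_mem_U (c := 12) ⟨by norm_num, le_rfl⟩
      rw [Complex.ofReal_ofNat] at h
      exact interior_subset h
    obtain ⟨c, hc, h⟩ := path_arg JSet fun u hu hR => J12 h12 hu hR
    exact ⟨_, fc_mem_U hc, h⟩
  · obtain ⟨c, hc, h⟩ := path_arg (fun _ => univ) fun u _ _ => mem_univ u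
    exact ⟨_, fc_mem_U hc, h⟩

end NB
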