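import Mathlib
/-!
Z1. Sums over zeros (residue theorem in a disc).  `φ` has finitely many zeros in `closedBall a ρ`, all in
`ball a ρ`; write `φ = ∏ (w - z_i) ^ (m_i) * g` with `g` zero free on `closedBall a ρ`
(for instance by induction on the number of zeros, or from the factorisation theorems used for
Jensen's formula in Mathlib), so `φ'/φ = ∑ m_i / (w - z_i) + g'/g`; use Cauchy's integral formula for
`L / (w - z_i)` and Cauchy's theorem for `L g'/g`.
-/
open Set Metric Filter Topology
namespace NB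

lemma Z1_div (a : ℂ) {ρ' : ℝ} {φ : ℂ → ℂ} (hφ : DifferentiableOn ℂ φ (ball a ρ')) {z : ℂ}
    (hz : z ∈ ball a ρ') (hne : ¬ ∀ᶠ w in 𝓝 z, φ w = 0) :
    ∃ (n : ℕ) (ψ : ℂ → ℂ), DifferentiableOn ℂ ψ (ball a ρ') ∧ ψ z ≠ 0 ∧
      ∀ w, φ w = (w - z) ^ n * ψ w := by
  have han : AnalyticAt ℂ φ z := hφ.analyticAt (isOpen_ball.mem_nhds hz)
  obtain ⟨n, g, hg, hgz, hev⟩ := (han.exists_eventuallyEq_pow_smul_nonzero_iff).2 hne
  classical
  let ψ : ℂ → ℂ := fun w => if w = z then g z else φ w / (w - z) ^ n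
  have hψz : ψ z = g z := if_pos rfl
  have hψ : ∀ w, w ≠ z → ψ w = φ w / (w - z) ^ n := fun w hw => if_neg hw
  have hfac : ∀ w, φ w = (w - z) ^ n * ψ w := by
    intro w
    by_cases hw : w = z
    · subst hw
      rw [hψz]
      have := hev.self_of_nhds
      simpa [smul_eq_mul] using this
    · rw [hψ w hw]
      have : (w - z) ^ n ≠ 0 := pow_ne_zero _ (sub_ne_zero.2 hw)
      field_simp
  refine ⟨n, ψ, ?_, by rw [hψz]; exact hgz, hfac⟩
  intro w hw
  by_cases hwz : w = z
  · subst hwz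
    have h1 : ψ =ᶠ[𝓝 w] g := by
      filter_upwards [hev] with x hx
      by_cases hxw : x = w
      · rw [hxw, hψz]
      · rw [hψ x hxw, hx, smul_eq_mul]
        have : (x - w) ^ n ≠ 0 := pow_ne_zero _ (sub_ne_zero.2 hxw)
        field_simp
    exact (h1.differentiableAt_iff.2 hg.differentiableAt).differentiableWithinAt
  · have h1 : ψ =ᶠ[𝓝 w] fun x => φ x / (x - z) ^ n := by
      filter_upwards [isOpen_ne.mem_nhds hwz] with x hx
      exact hψ x hx
    have h2 : DifferentiableAt ℂ (fun x => φ x / (x - z) ^ n) w := by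
      refine DifferentiableAt.div (hφ.differentiableAt (isOpen_ball.mem_nhds hw)) (by fun_prop) ?_
      exact pow_ne_zero _ (sub_ne_zero.2 hwz)
    exact (h1.differentiableAt_iff.2 h2).differentiableWithinAt

lemma Z1_main (a : ℂ) {ρ ρ' : ℝ} (hρ : 0 < ρ) (hρ' : ρ < ρ') {L : ℂ → ℂ}
    (hL : DifferentiableOn ℂ L (ball a ρ')) (Z : Finset ℂ) :
    ∀ φ : ℂ → ℂ, DifferentiableOn ℂ φ (ball a ρ') → (∀ w ∈ sphere a ρ, φ w ≠ 0) →
      (∀ w, w ∈ Z ↔ w ∈ ball a ρ ∧ φ w = 0) →
      ∃ m : ℂ → ℕ, (∀ w ∈ Z, 1 ≤ m w) ∧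
      (∮ w in C(a, ρ), L w * (deriv φ w / φ w)) =
        2 * Real.pi * Complex.I * ∑ w ∈ Z, (m w : ℂ) * L w := by
  classical
  have hsub : closedBall a ρ ⊆ ball a ρ' := closedBall_subset_ball hρ'
  have hsub2 : sphere a ρ ⊆ ball a ρ' := sphere_subset_closedBall.trans hsub
  induction Z using Finset.induction_on with
  | empty =>
    intro φ hφ hne hZ
    refine ⟨fun _ => 0, by simp, ?_⟩
    rw [Finset.sum_empty, mul_zero]
    have hnz : ∀ w ∈ closedBall a ρ, φ w ≠ 0 := by
      intro w hw h0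
      rcases lt_or_eq_of_le (mem_closedBall.1 hw) with h | h
      · have := (hZ w).2 ⟨mem_ball.2 h, h0⟩
        simp at this
      · exact hne w (mem_sphere.2 h) h0
    have hd : DifferentiableOn ℂ (deriv φ) (ball a ρ') := hφ.deriv isOpen_ball
    have h1 : DifferentiableOn ℂ (fun w => L w * (deriv φ w / φ w)) (closedBall a ρ) := by
      refine (hL.mono hsub).mul ((hd.mono hsub).div (hφ.mono hsub) hnz)
    exact (h1.mono closure_ball_subset_closedBall).diffContOnCl.circleIntegral_eq_zero hρ.le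
  | insert z Z hz ih =>
    intro φ hφ hne hZ
    obtain ⟨hzb, hz0⟩ := (hZ z).1 (Finset.mem_insert_self z Z)
    have hzb' : z ∈ ball a ρ' := ball_subset_ball hρ'.le hzb
    have hnz : ¬ ∀ᶠ w in 𝓝 z, φ w = 0 := by
      intro h
      have han : AnalyticOnNhd ℂ φ (ball a ρ') := hφ.analyticOnNhd isOpen_ball
      have := han.eqOn_zero_of_preconnected_of_eventuallyEq_zero
        (convex_ball a ρ').isPreconnected hzb' h
      have hs : a + ρ ∈ sphere a ρ := by
        simp [abs_of_pos hρ]
      exact hne _ hs (this (hsub2 hs))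
    obtain ⟨n, ψ, hψd, hψz, hfac⟩ := Z1_div a hφ hzb' hnz
    have hn : 1 ≤ n := by
      rcases Nat.eq_zero_or_pos n with h | h
      · exfalso
        subst h
        apply hψz
        have := hfac z
        rw [hz0, pow_zero, one_mul] at this
        exact this.symm
      · exact h
    have hsz : ∀ w ∈ sphere a ρ, w - z ≠ 0 := by
      intro w hw h
      rw [sub_eq_zero] at h
      subst h
      rw [mem_sphere] at hw
      rw [mem_ball] at hzb
      exact absurd hw hzb.ne
    have hψs : ∀ w ∈ sphere a ρ, ψ w ≠ 0 := by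
      intro w hw h
      apply hne w hw
      rw [hfac w, h, mul_zero]
    obtain ⟨m, hm, hint⟩ := ih ψ hψd hψs (by
      intro w
      constructor
      · intro hw
        have hwz : w ≠ z := fun h => hz (h ▸ hw)
        obtain ⟨h1, h2⟩ := (hZ w).1 (Finset.mem_insert_of_mem hw)
        refine ⟨h1, ?_⟩
        rw [hfac w] at h2
        exact (mul_eq_zero.1 h2).resolve_left (pow_ne_zero _ (sub_ne_zero.2 hwz))
      · rintro ⟨h1, h2⟩
        have h3 : w ∈ insert z Z := (hZ w).2 ⟨h1, by rw [hfac w, h2, mul_zero]⟩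
        rcases Finset.mem_insert.1 h3 with h | h
        · rw [h] at h2
          exact absurd h2 hψz
        · exact h)
    refine ⟨Function.update m z n, ?_, ?_⟩
    · intro w hw
      by_cases hwz : w = z
      · rw [hwz, Function.update_self]
        exact hn
      · rw [Function.update_of_ne hwz]
        exact hm w ((Finset.mem_insert.1 hw).resolve_left hwz)
    · have hd : DifferentiableOn ℂ (deriv ψ) (ball a ρ') := hψd.deriv isOpen_ball
      have e1 : ∀ w ∈ sphere a ρ, L w * (deriv φ w / φ w) =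
          (n : ℂ) * ((w - z)⁻¹ • L w) + L w * (deriv ψ w / ψ w) := by
        intro w hw
        have hψw : DifferentiableAt ℂ ψ w := hψd.differentiableAt (isOpen_ball.mem_nhds (hsub2 hw))
        have h1 : deriv φ w = (n : ℂ) * (w - z) ^ (n - 1) * ψ w + (w - z) ^ n * deriv ψ w := by
          have h2 : φ = fun x => (x - z) ^ n * ψ x := funext hfac
          have h3 : HasDerivAt (fun x : ℂ => (x - z) ^ n) ((n : ℂ) * (w - z) ^ (n - 1)) w := by
            have := ((hasDerivAt_id' w).sub_const z).fun_pow n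
            simpa using this
          rw [h2]
          exact (h3.mul hψw.hasDerivAt).deriv
        have h4 := hsz w hw
        have h5 := hψs w hw
        obtain ⟨k, rfl⟩ : ∃ k, n = k + 1 := ⟨n - 1, by omega⟩
        rw [h1, hfac w, smul_eq_mul, Nat.add_sub_cancel]
        field_simp
        ring
      rw [circleIntegral.integral_congr hρ.le e1]
      have c1 : ContinuousOn (fun w => (n : ℂ) * ((w - z)⁻¹ • L w)) (sphere a ρ) := by
        have c0 : ContinuousOn (fun w => (w - z)⁻¹ * L w) (sphere a ρ) :=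
          ContinuousOn.mul (ContinuousOn.inv₀ (by fun_prop) hsz) ((hL.continuousOn).mono hsub2)
        exact continuousOn_const.mul c0
      have c2 : ContinuousOn (fun w => L w * (deriv ψ w / ψ w)) (sphere a ρ) := by
        refine ((hL.continuousOn).mono hsub2).mul ?_
        exact (hd.continuousOn.mono hsub2).div (hψd.continuousOn.mono hsub2) hψs
      rw [circleIntegral.integral_add (c1.circleIntegrable hρ.le) (c2.circleIntegrable hρ.le), hint,
        circleIntegral.integral_const_mul,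
        DifferentiableOn.circleIntegral_sub_inv_smul (hL.mono hsub) hzb,
        Finset.sum_insert hz, Function.update_self]
      have e2 : ∑ w ∈ Z, ((Function.update m z n w : ℕ) : ℂ) * L w = ∑ w ∈ Z, (m w : ℂ) * L w := by
        refine Finset.sum_congr rfl fun w hw => ?_
        have hwz : w ≠ z := fun h => hz (h ▸ hw)
        rw [Function.update_of_ne hwz]
      rw [e2, smul_eq_mul]
      ring

theorem zero_sum (a : ℂ) {ρ ρ' : ℝ} (hρ : 0 < ρ) (hρ' : ρ < ρ') {φ L : ℂ → ℂ}
    (hφ : DifferentiableOn ℂ φ (ball a ρ')) (hL : DifferentiableOn ℂ L (ball a ρ'))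
    (hne : ∀ w ∈ sphere a ρ, φ w ≠ 0) :
    ∃ (Z : Finset ℂ) (m : ℂ → ℕ), (∀ w, w ∈ Z ↔ w ∈ ball a ρ ∧ φ w = 0) ∧ (∀ w ∈ Z, 1 ≤ m w) ∧
      (∮ w in C(a, ρ), L w * (deriv φ w / φ w)) =
        2 * Real.pi * Complex.I * ∑ w ∈ Z, (m w : ℂ) * L w := by
  classical
  have hsub : closedBall a ρ ⊆ ball a ρ' := closedBall_subset_ball hρ'
  have hsub2 : sphere a ρ ⊆ ball a ρ' := sphere_subset_closedBall.trans hsub
  have hs : a + ρ ∈ sphere a ρ := by
    simp [abs_of_pos hρ]
  have hfin : {w | w ∈ ball a ρ ∧ φ w = 0}.Finite := by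
    by_contra hinf
    have hinf : {w | w ∈ ball a ρ ∧ φ w = 0}.Infinite := hinf
    obtain ⟨z, hz, hacc⟩ := hinf.exists_accPt_of_subset_isCompact (isCompact_closedBall a ρ)
      (fun w hw => ball_subset_closedBall hw.1)
    have han : AnalyticOnNhd ℂ φ (ball a ρ') := hφ.analyticOnNhd isOpen_ball
    have hfr : ∃ᶠ w in 𝓝[≠] z, φ w = 0 := by
      rw [accPt_iff_frequently_nhdsNE] at hacc
      exact hacc.mono fun w hw => hw.2
    have := han.eqOn_zero_of_preconnected_of_frequently_eq_zero
      (convex_ball a ρ').isPreconnected (hsub hz) hfr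
    exact hne _ hs (this (hsub2 hs))
  obtain ⟨m, h1, h2⟩ := Z1_main a hρ hρ' hL hfin.toFinset φ hφ hne (by simp)
  exact ⟨hfin.toFinset, m, by simp, h1, h2⟩

end NB
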